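import Pool.Agent.H71.RO.Cc

/-!
# The closed oracles form a measurable set
-/

set_option autoImplicit false
set_option linter.unusedSectionVars false

namespace Pool.Agent.H71.RO

open Classical MeasureTheory
open Pool.Agent.H9

/-- A set of oracles which depends only on short strings is measurable. -/
theorem measurable_local {m : ℕ} {E : Set Oracle}
    (hE : ∀ A A' : Oracle, (∀ w : List Bool, w.length ≤ m → A w = A' w) → (A ∈ E ↔ A' ∈ E)) :
    MeasurableSet E := by
  have h : E = ⋃ a ∈ {a : {w // w ∈ words m} → Bool | ext m a ∈ E},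
      ⋂ w ∈ words m, {A : Oracle | A w = ext m a w} := by
    ext A
    simp only [Set.mem_iUnion, Set.mem_iInter, Set.mem_ofPred_eq, exists_prop]
    have hext : ∀ w : List Bool, w.length ≤ m → A w = ext m (fun w => A w.1) w := by
      intro w hw
      unfold ext
      rw [dif_pos (mem_words.2 hw)]
    constructor
    · intro hA
      exact ⟨fun w => A w.1, (hE A _ hext).1 hA, fun w hw => hext w (mem_words.1 hw)⟩
    · rintro ⟨a, ha, h2⟩
      exact (hE A _ (fun w hw => h2 w (mem_words.2 hw))).2 ha
  rw [h]
  refine MeasurableSet.biUnion (Set.to_countable _) ?_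
  intro a _
  refine Finset.measurableSet_biInter _ ?_
  intro w _
  exact measurableSet_eq_fun (measurable_pi_apply w) measurable_const

theorem cc_fix (g : ℕ → Prog × Polynomial ℕ × Polynomial ℕ) (C m0 : ℕ) {A : Oracle}
    (hA : ∀ w, Sp C m0 w → A w = decide (KProp g A w)) : cc g C m0 A = A := by
  have key : ∀ (n : ℕ) (w : List Bool), w.length ≤ n → cc g C m0 A w = A w := by
    intro n
    induction n with
    | zero =>
      intro w hw
      rw [cc_eq]
      by_cases h : Sp C m0 w
      · rw [if_pos h, hA w h]
        congr 1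
        refine propext (kprop_local ?_)
        intro v hv
        exfalso
        have h1 : 0 < (v.length + 2) ^ 2 := by positivity
        exact absurd (lt_of_lt_of_le h1 (hv.trans hw)) (lt_irrefl 0)
      · rw [if_neg h]
    | succ n ih =>
      intro w hw
      rw [cc_eq]
      by_cases h : Sp C m0 w
      · rw [if_pos h, hA w h]
        congr 1
        refine propext (kprop_local ?_)
        intro v hv
        apply ih
        nlinarith
      · rw [if_neg h]
  funext w
  exact key w.length w le_rfl

/-- the closed oracles -/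
def Fx (g : ℕ → Prog × Polynomial ℕ × Polynomial ℕ) (C m0 : ℕ) : Set Oracle :=
  {A | ∀ w, Sp C m0 w → A w = decide (KProp g A w)}

theorem fx_measurable (g : ℕ → Prog × Polynomial ℕ × Polynomial ℕ) (C m0 : ℕ) :
    MeasurableSet (Fx g C m0) := by
  have h : Fx g C m0 = ⋂ w : List Bool, {A | Sp C m0 w → A w = decide (KProp g A w)} := by
    ext A
    simp [Fx]
  rw [h]
  refine MeasurableSet.iInter ?_
  intro w
  apply measurable_local (m := w.length)
  intro A A' hAA
  have h1 : KProp g A w ↔ KProp g A' w := by
    refine kprop_local ?_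
    intro v hv
    apply hAA
    nlinarith
  simp only [Set.mem_ofPred_eq, hAA w le_rfl, h1]

theorem ae_cc (g : ℕ → Prog × Polynomial ℕ × Polynomial ℕ) (hg : Function.Surjective g)
    (C m0 : ℕ) (ν : Measure Oracle) : ∀ᵐ A ∂(ν.map (cc g C m0)), SigmaP A 0 = SigmaP A 1 := by
  have h1 : ∀ᵐ A ∂(ν.map (cc g C m0)), A ∈ Fx g C m0 := by
    have h2 : (ν.map (cc g C m0)) (Fx g C m0)ᶜ = 0 := by
      rw [Measure.map_apply (cc_measurable g C m0) (fx_measurable g C m0).compl]
      have h3 : cc g C m0 ⁻¹' (Fx g C m0)ᶜ = ∅ := by
        ext S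
        simp only [Set.mem_preimage, Set.mem_compl_iff, Set.mem_empty_iff_false, iff_false, not_not]
        intro w hw
        rw [cc_eq, if_pos hw]
      rw [h3, measure_empty]
    exact mem_ae_iff.2 h2
  filter_upwards [h1] with A hA
  have h2 := sigma_cc g hg C m0 A
  rwa [cc_fix g C m0 hA] at h2

end Pool.Agent.H71.RO
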