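import Pool.Agent.H59.Er.SW
import Pool.Agent.H9.Hier

/-!
# NOR trees of independent bits: definitions

A gate with the children `W` is true when all its children are false. Every child has a status:
open (`S`: its value is an independent bit with parameter `t`), surely true (`R`), surely false
(`C`). The random restriction of a gate chooses a mode and bits `z` for the open children.
-/

set_option autoImplicit false
set_option linter.unusedSectionVars false

namespace Pool.Agent.H71.RO

open Finset Classical
open Pool.Agent.H59.Er
open Pool.Agent.H9 (AltL paths)

noncomputable section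

/-- statuses: open, surely true, surely false -/
inductive St : Type
  | S : St
  | R : St
  | C : St
  deriving DecidableEq, Fintype

/-- modes of the restriction of a gate: true, open, false -/
inductive Md : Type
  | ac : Md
  | st : Md
  | fo : Md
  deriving DecidableEq, Fintype

/-- the value of a child with given status and bit -/
def vl : St → Bool → Bool
  | St.S, b => b
  | St.R, _ => true
  | St.C, _ => false

/-- Bernoulli weights -/
def bern (t : ℝ) : Bool → ℝ
  | true => t
  | false => 1 - t

/-- probability that a child with given status is false -/
def zt (t : ℝ) : St → ℝ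
  | St.S => 1 - t
  | St.R => 0
  | St.C => 1

section gate

variable {W : Type} [Fintype W]

/-- product weight of the bits of the children -/
def bz (t : ℝ) (z : W → Bool) : ℝ := ∏ w, bern t (z w)

/-- probability that all children are false, that is, that the gate is true -/
def Zp (t : ℝ) (τ : W → St) : ℝ := ∏ w, zt t (τ w)

/-- some open child has the bit `true` -/
def hr (τ : W → St) (z : W → Bool) : Prop := ∃ w, τ w = St.S ∧ z w = true

/-- make all open children false -/
def clr (τ : W → St) (z : W → Bool) : W → Bool := fun w => if τ w = St.S then false else z w

/-- some child is surely true -/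
def killed (τ : W → St) : Prop := ∃ w, τ w = St.R

/-- the gate is true -/
def gt (τ : W → St) (x : W → Bool) : Prop := ∀ w, vl (τ w) (x w) = false

/-- the probability that the gate is true is about `u ^ 4` -/
def typ (t u : ℝ) (τ : W → St) : Prop := u ^ 4 / 2 ≤ Zp t τ ∧ Zp t τ ≤ 2 * u ^ 4

/-- local restrictions -/
abbrev Loc (W : Type) : Type := Md × (W → Bool)

/-- probability of the mode `st` -/
def qq (t u : ℝ) (τ : W → St) : ℝ := (Zp t τ - u ^ 5) / u ^ 2

/-- weights of the local restrictions: the mode `ac` has probability `u ^ 5`, the mode `st` has
probability `qq`; in the modes `st` and `fo` some open child has the bit `true` -/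
def lw (t u : ℝ) (τ : W → St) (r : Loc W) : ℝ :=
  if typ t u τ then
    match r.1 with
    | Md.ac => u ^ 5 * bz t r.2
    | Md.st => qq t u τ * (bz t r.2 * ind (hr τ r.2) / (1 - Zp t τ))
    | Md.fo => (1 - u ^ 5 - qq t u τ) * (bz t r.2 * ind (hr τ r.2) / (1 - Zp t τ))
  else
    match r.1 with
    | Md.ac => 0
    | Md.st => 0
    | Md.fo => bz t r.2

/-- the bits of the children for the local restriction `r` and the bit `b` of the gate -/
def ph (τ : W → St) (r : Loc W) (b : Bool) : W → Bool :=
  match r.1 with
  | Md.ac => clr τ r.2
  | Md.st => if b = true then clr τ r.2 else r.2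
  | Md.fo => r.2

/-- the status of the gate -/
def ns (τ : W → St) (r : Loc W) : St :=
  if killed τ then St.C else
    match r.1 with
    | Md.ac => St.R
    | Md.st => if hr τ r.2 then St.S else St.R
    | Md.fo => if hr τ r.2 then St.C else St.R

/-- the allowed bits of the children before the bits of the open children are identified -/
def Al (τ : W → St) (r : Loc W) : Set (W → Bool) :=
  match r.1 with
  | Md.ac => {clr τ r.2}
  | Md.st => {x | ∀ w, x w = r.2 w ∨ (τ w = St.S ∧ r.2 w = true)}
  | Md.fo => {r.2}

/-- the allowed bits of the children -/
def As (τ : W → St) (r : Loc W) : Finset (W → Bool) := {ph τ r true, ph τ r false}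

/-- the law of the status of a gate whose children have independent statuses with law `law` -/
def nlaw (W : Type) [Fintype W] (t u : ℝ) (law : St → ℝ) (c : St) : ℝ :=
  ∑ τ : W → St, (∏ w, law (τ w)) * ∑ r : Loc W, lw t u τ r * ind (ns τ r = c)

end gate

/-- probability distributions on the statuses -/
structure IsLaw (law : St → ℝ) : Prop where
  nonneg : ∀ c, 0 ≤ law c
  sum : ∑ c, law c = 1

/-- the invariant of the laws of the statuses: a gate is true with probability `u ^ 4`, the open
gates have bits with parameter `u ^ 2`, and few gates are surely true -/
structure Inv (law : St → ℝ) (u : ℝ) : Prop extends IsLaw law where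
  pr : law St.S * u ^ 2 + law St.R = u ^ 4
  rr : law St.R ≤ 2 * u ^ 5

section tree

/-- a function of the values of the gates, as a function of the values of their children -/
def up {X U W : Type} (f : X → (U → Bool) → Prop) : X → (U × W → Bool) → Prop :=
  fun x v => f x (fun a => decide (∀ w, v (a, w) = false))

/-- the values of the children from the bits of the gates -/
def Phi {U W : Type} (σ : U × W → St) (r : U → Loc W) (y : U → Bool) : U × W → Bool :=
  fun v => ph (fun w => σ (v.1, w)) (r v.1) (y v.1) v.2

/-- circuits: alternating quantifiers over strings in front of decision trees of depth `s` -/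
def Ck {V : Type} (e : Bool) (ms : List ℕ) (s : ℕ) (C : (V → Bool) → Prop) : Prop :=
  ∃ D : List (List Bool) → (V → Bool) → Prop, (∀ us ∈ paths ms, DT s (D us)) ∧
    ∀ y, C y ↔ AltL e ms (fun us => D us y)

/-- for every status of the variables, circuits compute all functions `f x` simultaneously only
with probability `v σ` -/
def Bd {X V : Type} [Fintype V] (f : X → (V → Bool) → Prop) (t : ℝ) (e : Bool) (ms : List ℕ)
    (s : ℕ) (v : (V → St) → ℝ) : Prop :=
  ∀ (σ : V → St) (C : X → (V → Bool) → Prop), (∀ x, Ck e ms s (C x)) →
    Pr (fun _ => bern t) (fun y => ∀ x, C x y ↔ f x (fun i => vl (σ i) (y i))) ≤ v σ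

/-- the average version -/
def Q {X V : Type} [Fintype V] (f : X → (V → Bool) → Prop) (t : ℝ) (e : Bool) (ms : List ℕ)
    (s : ℕ) (law : St → ℝ) (B : ℝ) : Prop :=
  ∃ v : (V → St) → ℝ, Bd f t e ms s v ∧ Ex (fun _ => law) v ≤ B

/-- nodes of a tree with roots `X` (the lengths of the strings are listed from the deepest level
to the root) -/
def Nd (X : Type) : List ℕ → Type
  | [] => X
  | a :: as => Nd X as × List.Vector Bool a

instance Nd.fintype (X : Type) [Fintype X] : (as : List ℕ) → Fintype (Nd X as)
  | [] => inferInstanceAs (Fintype X)
  | a :: as => by
      haveI := Nd.fintype X as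
      exact inferInstanceAs (Fintype (Nd X as × List.Vector Bool a))

/-- the function computed by the tree whose roots are OR gates and whose other inner nodes are NOR
gates, as a function of the values of the deepest nodes -/
def fN (X : Type) : (as : List ℕ) → X → (Nd X as → Bool) → Prop
  | [] => fun x g => g x = false
  | _ :: as => up (fN X as)

end tree

end

end Pool.Agent.H71.RO
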