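import Pool.Agent.H9.Progs
import Pool.Agent.H9.Classes
import Pool.Agent.H9.Hidden
import Pool.Agent.H71.RO.Defs

/-!
# The language of the NOR trees, its program, and the oracles with given leaf bits
-/

set_option autoImplicit false
set_option linter.unusedSectionVars false

namespace Pool.Agent.H71.RO

open Classical
open Pool.Agent.H9

noncomputable section

/-- header of an input: a list of numbers in unary -/
def hdr : List ℕ → List Bool
  | [] => []
  | a :: as => List.replicate a true ++ false :: hdr as

/-- the input with the fan-ins `2 ^ a` (deepest level first), `b` leaf bits, and the string `x` -/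
def inp (as : List ℕ) (b : ℕ) (x : List Bool) : List Bool :=
  hdr as ++ (List.replicate b true ++ false :: x)

/-- length of the inputs -/
def ilen (as : List ℕ) (b n : ℕ) : ℕ := (hdr as).length + b + 1 + n

/-- move the top bit of stack `i` to stack `j` -/
def mv (i j : ℕ) : Prog :=
  Prog.cond i Prog.skip (Prog.seq (Prog.pop i) (Prog.push j false))
    (Prog.seq (Prog.pop i) (Prog.push j true))

/-- the body of the loop that reads the input (one bit per iteration). Stacks: `0` input, `1, ..., k + 1`
quantified strings, `k + 2` the address, `k + 3` the number of leaf bits, `k + 4` the answer flag,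
`k + 5 + i` the flag of phase `i`. In phase `i + 1` the stack `i + 1` is read, phase `0` reads the number of
leaf bits; afterwards the rest of the input is moved to the address -/
def chain (k : ℕ) : ℕ → Prog
  | i + 1 => Prog.cond (k + 5 + (i + 1))
      (Prog.cond 0 Prog.skip (Prog.seq (Prog.pop 0) (Prog.push (k + 5 + (i + 1)) true))
        (Prog.seq (Prog.pop 0) (mv (i + 1) (k + 2))))
      (chain k i) (chain k i)
  | 0 => Prog.cond (k + 5)
      (Prog.cond 0 Prog.skip (Prog.seq (Prog.pop 0) (Prog.push (k + 5) true))
        (Prog.seq (Prog.pop 0) (Prog.push (k + 3) true)))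
      (mv 0 (k + 2)) (mv 0 (k + 2))

/-- ask all leaf bits, set the flag `k + 4` if one of them is true -/
def check (k : ℕ) : Prog :=
  Prog.loop (k + 3) (seqs [Prog.pop (k + 3),
    Prog.ask (k + 2) (Prog.push (k + 4) true) Prog.skip, Prog.push (k + 2) true])

/-- the final answer -/
def fin (k : ℕ) : Prog :=
  match (k + 1).bodd with
  | true => Prog.cond (k + 4) (Prog.push 0 true) Prog.skip Prog.skip
  | false => Prog.cond (k + 4) Prog.skip (Prog.push 0 true) (Prog.push 0 true)

/-- the program of the language of level `k + 1` -/
def prog (k : ℕ) : Prog := seqs [Prog.loop 0 (chain k (k + 1)), check k, fin k]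

/-- the language of level `k + 1` -/
def Lk (A : Oracle) (k : ℕ) : Set (List Bool) :=
  {z | Alt true (k + 1) z.length (fun us => Accepts A (prog k) (z :: us))}

/-- the effect of `mv` -/
def mvE (i j : ℕ) (s : ℕ → List Bool) : ℕ → List Bool :=
  match s i with
  | [] => s
  | b :: l => Function.update (Function.update s i l) j (b :: Function.update s i l j)

/-- the effect of `chain` -/
def stp (k : ℕ) : ℕ → (ℕ → List Bool) → ℕ → List Bool
  | i + 1, s =>
    match s (k + 5 + (i + 1)) with
    | [] =>
      match s 0 with
      | [] => s
      | false :: l => Function.update (Function.update s 0 l) (k + 5 + (i + 1))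
          (true :: Function.update s 0 l (k + 5 + (i + 1)))
      | true :: l => mvE (i + 1) (k + 2) (Function.update s 0 l)
    | _ :: _ => stp k i s
  | 0, s =>
    match s (k + 5) with
    | [] =>
      match s 0 with
      | [] => s
      | false :: l => Function.update (Function.update s 0 l) (k + 5)
          (true :: Function.update s 0 l (k + 5))
      | true :: l => Function.update (Function.update s 0 l) (k + 3)
          (true :: Function.update s 0 l (k + 3))
    | _ :: _ => mvE 0 (k + 2) s

/-- the address of the string `x` and the quantified strings `us 1, us 2, ...` -/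
def wdm : List ℕ → (ℕ → List Bool) → List Bool → List Bool
  | [], _, x => x.reverse
  | a :: as, us, x => wdm as us x ++ ((us (as.length + 1)).take a).reverse

/-- the first `a` bits, padded if necessary -/
def pad (a : ℕ) (u : List Bool) : List.Vector Bool a :=
  ⟨(u ++ List.replicate a false).take a, by simp⟩

/-- the node with the strings `us` (deepest first) -/
def ndl {X : Type} : (as : List ℕ) → X → List (List Bool) → Nd X as
  | [], x, _ => x
  | a :: as, x, us => (ndl as x us.tail, pad a (us.headD []))

/-- the address of a node -/
def wdV {n : ℕ} : (as : List ℕ) → Nd (List.Vector Bool n) as → List Bool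
  | [], x => (show List.Vector Bool n from x).toList.reverse
  | _ :: as, nd => wdV as nd.1 ++ nd.2.toList.reverse

/-- the address of a leaf bit -/
def addr {n b : ℕ} (as : List ℕ) (p : Nd (List.Vector Bool n) as × Fin b) : List Bool :=
  List.replicate p.2.val true ++ wdV as p.1

/-- the oracle with the bits `y` at the addresses `ad` -/
def patch {V : Type} (ad : V → List Bool) (A : Oracle) (y : V → Bool) : Oracle :=
  fun w => if h : ∃ v, ad v = w then y h.choose else A w

/-- the machine `p` with `k` blocks of quantified strings of length `q`, `t` steps and the advice `h`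
accepts `z` -/
def Rn (A : Oracle) (k q t : ℕ) (p : Prog) (h z : List Bool) : Prop :=
  Alt true k q (fun us => AcceptsIn A p (z :: (us ++ [h])) t)

/-- the machine `p` decides the language correctly on all inputs with the given header -/
def Ev1 (k q t : ℕ) (p : Prog) (h : List Bool) (as : List ℕ) (b n : ℕ) (A : Oracle) : Prop :=
  ∀ x : List.Vector Bool n, Rn A k q t p h (inp as b x.toList) ↔ inp as b x.toList ∈ Lk A k

/-- a table of bits as an oracle -/
def ext (m : ℕ) (a : {w // w ∈ words m} → Bool) : Oracle :=
  fun w => if h : w ∈ words m then a ⟨w, h⟩ else false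

end

end Pool.Agent.H71.RO
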