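import Pool.Agent.H9.Bind
import Pool.Agent.H71.RO.Lang

/-!
# Quantifiers over strings and nodes of the tree

PROOFS.
`altL_zip`: as `AltL_take` (H9/Bind.lean): induction on `as`, in the step the quantifier over strings `u` of length `Q` with `u.take a` is the
quantifier over strings of length `a` (`a ≤ Q`: pad with `List.replicate (Q - a) true`).
`fN_altL`: induction on `as`. `[]`: `fN X [] x v ↔ v x = false`, `AltL true [] φ = φ []`, `(0 : ℕ).bodd = false`. `a :: as`: `fN X (a :: as) x v` is
`fN X as x (fun nd => decide (∀ w, v (nd, w) = false))`, use the induction hypothesis for this function; `(a :: as).reverse = as.reverse ++ [a]`,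
`AltL_snoc`, `(us ++ [u]).reverse = u :: us.reverse`, `ndl (a :: as) x (u :: us') = (ndl as x us', pad a u)`. Let `β := as.length.bodd`
(`as.reverse.length = as.length`). If `β = true`: `decide (∀ w, ..) = true ↔ ∀ w, v (.., w) = false`, and the last quantifier is
`qt (true ^^ true) a (fun u => v (.., pad a u) = !true)`. If `β = false`: `decide (..) = false ↔ ∃ w, v (.., w) = true`. Strings `u` of length `a`
correspond to the vectors `w` (`pad a u = ⟨u, _⟩` if `u.length = a`: `pad_toList`).
`wdm_eq`: induction on `as`; for `a :: as` write `us = us' ++ [u]` (`us.length = as.length + 1`): `(z :: us).getD (as.length + 1) [] = u`,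
`(a :: as).reverse = as.reverse ++ [a]`, `List.zipWith_append` (equal lengths), the reverse is `u.take a :: (..).reverse`, and
`wdm as` only uses the indices `1, ..., as.length` (so `us` may be replaced by `us'`; prove this small congruence first).
-/

set_option autoImplicit false
set_option linter.unusedSectionVars false

namespace Pool.Agent.H71.RO

open Classical
open Pool.Agent.H9

theorem pad_toList {a : ℕ} {u : List Bool} (h : a ≤ u.length) : (pad a u).toList = u.take a := by
  show (u ++ List.replicate a false).take a = u.take a
  rw [List.take_append_of_le_length h]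

theorem Md_pad (a : ℕ) (w : List.Vector Bool a) : pad a w.toList = w := by
  apply List.Vector.toList_injective
  rw [pad_toList (by simp)]
  have h : w.toList.length = a := w.toList_length
  rw [List.take_of_length_le (by rw [h])]

theorem Md_qt_take {a Q : ℕ} (h : a ≤ Q) (e : Bool) (Ψ : List Bool → Prop) :
    qt e Q (fun u => Ψ (u.take a)) ↔ qt e a Ψ := by
  cases e with
  | true =>
    constructor
    · rintro ⟨u, hu, h1⟩
      exact ⟨u.take a, by rw [List.length_take, hu, min_eq_left h], h1⟩
    · rintro ⟨v, hv, h1⟩
      refine ⟨v ++ List.replicate (Q - a) true, ?_, ?_⟩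
      · rw [List.length_append, List.length_replicate, hv]
        omega
      · have h3 : (v ++ List.replicate (Q - a) true).take a = v := by
          conv_lhs => rw [← hv]
          exact List.take_left
        show Ψ ((v ++ List.replicate (Q - a) true).take a)
        rw [h3]
        exact h1
  | false =>
    constructor
    · intro h1 v hv
      have h2 := h1 (v ++ List.replicate (Q - a) true) (by
        rw [List.length_append, List.length_replicate, hv]
        omega)
      have h3 : (v ++ List.replicate (Q - a) true).take a = v := by
        conv_lhs => rw [← hv]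
        exact List.take_left
      have h4 : Ψ ((v ++ List.replicate (Q - a) true).take a) := h2
      rwa [h3] at h4
    · intro h1 u hu
      exact h1 (u.take a) (by rw [List.length_take, hu, min_eq_left h])

theorem altL_zip {Q : ℕ} : ∀ (as : List ℕ), (∀ a ∈ as, a ≤ Q) → ∀ (e : Bool)
    (P : List (List Bool) → Prop),
    AltL e (List.replicate as.length Q)
      (fun us => P (List.zipWith (fun a u => u.take a) as us)) ↔ AltL e as P := by
  intro as
  induction as with
  | nil => intro _ e P; exact Iff.rfl
  | cons a as ih =>
    intro h e P
    have h1 : ∀ u : List Bool, AltL (!e) (List.replicate as.length Q) (fun us =>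
        P (u.take a :: List.zipWith (fun a u => u.take a) as us)) ↔
        AltL (!e) as (fun us => P (u.take a :: us)) :=
      fun u => ih (fun b hb => h b (List.mem_cons_of_mem a hb)) (!e) (fun us => P (u.take a :: us))
    have h2 := Md_qt_take (h a List.mem_cons_self) e (fun v => AltL (!e) as (fun us => P (v :: us)))
    refine Iff.trans ?_ h2
    exact qt_congr fun u _ => h1 u

theorem Md_gate {X : Type} (as : List ℕ) (a : ℕ) (v : Nd X as × List.Vector Bool a → Bool)
    (nd : Nd X as) (β : Bool) :
    (decide (∀ w, v (nd, w) = false) = β) ↔
      qt (true ^^ β) a (fun u => v (nd, pad a u) = !β) := by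
  cases β with
  | true =>
    rw [decide_eq_true_iff]
    constructor
    · intro h u _
      exact h (pad a u)
    · intro h w
      have h1 : v (nd, pad a w.toList) = !true := h w.toList (by simp)
      rw [Md_pad] at h1
      exact h1
  | false =>
    rw [decide_eq_false_iff_not]
    push Not
    constructor
    · rintro ⟨w, hw⟩
      refine ⟨w.toList, by simp, ?_⟩
      show v (nd, pad a w.toList) = true
      rw [Md_pad]
      simpa using hw
    · rintro ⟨u, _, hu⟩
      refine ⟨pad a u, ?_⟩
      have h1 : v (nd, pad a u) = true := hu
      rw [h1]
      simp

theorem fN_altL {X : Type} : ∀ (as : List ℕ) (x : X) (v : Nd X as → Bool),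
    fN X as x v ↔ AltL true as.reverse (fun us => v (ndl as x us.reverse) = as.length.bodd) := by
  intro as
  induction as with
  | nil => intro x v; exact Iff.rfl
  | cons a as ih =>
    intro x v
    have e1 : fN X (a :: as) x v ↔ fN X as x (fun nd => decide (∀ w, v (nd, w) = false)) := by
      show up (fN X as) x v ↔ _
      unfold up
      exact Iff.of_eq (congrArg (fN X as x) (funext fun nd => by congr))
    rw [e1, ih, List.reverse_cons, AltL_snoc, List.length_reverse]
    refine AltL_congr fun us _ => ?_
    rw [Md_gate as a v (ndl as x us.reverse) as.length.bodd]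
    refine qt_congr fun u _ => ?_
    have e2 : ndl (a :: as) x (us ++ [u]).reverse = (ndl as x us.reverse, pad a u) := by
      rw [List.reverse_append]
      rfl
    rw [e2, List.length_cons, Nat.bodd_succ]

theorem Md_congr (x : List Bool) : ∀ (as : List ℕ) (f g : ℕ → List Bool),
    (∀ i, 1 ≤ i → i ≤ as.length → f i = g i) → wdm as f x = wdm as g x := by
  intro as
  induction as with
  | nil => intro f g _; rfl
  | cons a as ih =>
    intro f g h
    show wdm as f x ++ ((f (as.length + 1)).take a).reverse
      = wdm as g x ++ ((g (as.length + 1)).take a).reverse
    rw [ih f g (fun i h1 h2 => h i h1 (by rw [List.length_cons]; omega)),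
      h (as.length + 1) (by omega) (by rw [List.length_cons])]

theorem wdm_eq {n : ℕ} (z : List Bool) (x : List.Vector Bool n) : ∀ (as : List ℕ)
    (us : List (List Bool)), us.length = as.length → (∀ a ∈ as, ∀ u ∈ us, a ≤ u.length) →
    wdm as (fun i => (z :: us).getD i []) x.toList =
      wdV as (ndl as x (List.zipWith (fun a u => u.take a) as.reverse us).reverse) := by
  intro as
  induction as with
  | nil => intro us _ _; rfl
  | cons a as ih =>
    intro us hus hle
    obtain ⟨us', u, rfl⟩ : ∃ us' u, us = us' ++ [u] := by
      rcases List.eq_nil_or_concat us with h | ⟨l, b, h⟩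
      · rw [h] at hus
        simp at hus
      · exact ⟨l, b, by rw [h, List.concat_eq_append]⟩
    have hus' : us'.length = as.length := by
      simp only [List.length_append, List.length_cons, List.length_nil] at hus
      omega
    have hu : a ≤ u.length := hle a List.mem_cons_self u (by simp)
    have e1 : (z :: (us' ++ [u])).getD (as.length + 1) [] = u := by
      rw [List.getD_cons_succ, ← hus']
      simp [List.getD]
    have e2 : wdm as (fun i => (z :: (us' ++ [u])).getD i []) x.toList
        = wdm as (fun i => (z :: us').getD i []) x.toList := by
      apply Md_congr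
      intro i h1 h2
      obtain ⟨j, rfl⟩ : ∃ j, i = j + 1 := ⟨i - 1, by omega⟩
      show (z :: (us' ++ [u])).getD (j + 1) [] = (z :: us').getD (j + 1) []
      rw [List.getD_cons_succ, List.getD_cons_succ, List.getD_append _ _ _ _ (by omega)]
    have e3 := ih us' hus' (fun b hb w hw => hle b (List.mem_cons_of_mem a hb) w
      (List.mem_append_left _ hw))
    have e4 : List.zipWith (fun a u => u.take a) (a :: as).reverse (us' ++ [u])
        = List.zipWith (fun a u => u.take a) as.reverse us' ++ [u.take a] := by
      rw [List.reverse_cons, List.zipWith_append (by rw [List.length_reverse, hus'])]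
      rfl
    rw [e4, List.reverse_append]
    show wdm as (fun i => (z :: (us' ++ [u])).getD i []) x.toList
        ++ (((z :: (us' ++ [u])).getD (as.length + 1) []).take a).reverse
      = wdV as (ndl as x (List.zipWith (fun a u => u.take a) as.reverse us').reverse)
        ++ (pad a (u.take a)).toList.reverse
    rw [e1, e2, e3, pad_toList (by rw [List.length_take, min_eq_left hu]), List.take_take,
      min_self]

end Pool.Agent.H71.RO
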