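import Pool.Agent.H71.RO.Mc
import Pool.Agent.H71.RO.Md

/-!
# The language at the inputs with a given header; addresses

PROOFS.
`hdr_length`: `(hdr as).length = (as.map (· + 1)).sum`; every `a ∈ as` is at most `(hdr as).length`.
`inp_length`: `(inp as b x).length = (hdr as).length + b + 1 + x.length`.
`mem_Lk`: unfold `Lk`, `Alt_eq`; `z := inp as b x.toList`, `Q := z.length`, all `a ∈ as` are `≤ Q`. For `us` of type
`replicate (k + 1) Q`: `prog_accepts` (with `us.length = k + 1` and all lengths `Q`) and `wdm_eq` give
`Accepts A (prog k) (z :: us) ↔ ((∀ j < b, A (replicate j true ++ wdV as (ndl as x (zipWith .. as.reverse us).reverse)) = false) ↔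
(k + 1).bodd = true)`, which is `P (zipWith .. as.reverse us)` for `P us' := decide (∀ j : Fin b, A (addr as (ndl as x us'.reverse, j)) = false) =
as.length.bodd`. So by `AltL_congr` and `altL_zip` (for `as.reverse`, of length `k + 1`) membership is `AltL true as.reverse P`, and
this is `fN _ as x (fun nd => decide (∀ j : Fin b, A (addr as (nd, j)) = false))` by `fN_altL`, that is `up (fN _ as) x (..)`
(unfold `up`; `decide (P) = β ↔ (P ↔ β = true)`).
`wdV_length`: `(wdV as nd).length = n + as.sum`. `wdV_inj`: induction with `List.append_inj` (equal lengths), `List.reverse_inj`,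
`List.Vector` extensionality (`Subtype.ext`).
`addr_inj`: equal addresses have equal lengths, `j + (n + as.sum)`, so the indices `j` agree (`Fin.ext`); cancel the prefix.
`addr_length`: `j < b`, `as.sum ≤ (hdr as).length`.
-/

set_option autoImplicit false
set_option linter.unusedSectionVars false

namespace Pool.Agent.H71.RO

open Classical
open Pool.Agent.H9

theorem Me_hdr_length (as : List ℕ) : (hdr as).length = (as.map (· + 1)).sum := by
  induction as with
  | nil => rfl
  | cons a as ih =>
    simp only [hdr, List.length_append, List.length_replicate, List.length_cons, List.map_cons,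
      List.sum_cons, ih]
    omega

theorem Me_sum_le (as : List ℕ) : as.sum ≤ (hdr as).length := by
  induction as with
  | nil => simp
  | cons a as ih =>
    simp only [hdr, List.length_append, List.length_replicate, List.length_cons, List.sum_cons]
    omega

theorem le_hdr_length {as : List ℕ} {a : ℕ} (ha : a ∈ as) : a ≤ (hdr as).length := by
  induction as with
  | nil => simp at ha
  | cons c as ih =>
    simp only [hdr, List.length_append, List.length_replicate, List.length_cons]
    rcases List.mem_cons.1 ha with h | h
    · omega
    · have := ih h
      omega

theorem inp_length (as : List ℕ) (b : ℕ) (x : List Bool) :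
    (inp as b x).length = ilen as b x.length := by
  unfold inp ilen
  simp only [List.length_append, List.length_replicate, List.length_cons]
  omega

theorem Me_dec (P : Prop) (inst : Decidable P) (β : Bool) :
    (P ↔ β = true) ↔ @decide P inst = β := by
  by_cases h : P
  · have h1 : @decide P inst = true := decide_eq_true h
    rw [h1]
    cases β <;> simp [h]
  · have h1 : @decide P inst = false := decide_eq_false h
    rw [h1]
    cases β <;> simp [h]

theorem mem_Lk (A : Oracle) {k n b : ℕ} {as : List ℕ} (has : as.length = k + 1)
    (x : List.Vector Bool n) : inp as b x.toList ∈ Lk A k ↔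
      up (W := Fin b) (fN (List.Vector Bool n) as) x (fun p => A (addr as p)) := by
  have hQ : ∀ a ∈ as, a ≤ (inp as b x.toList).length := by
    intro a ha
    have h1 := le_hdr_length ha
    rw [inp_length]
    unfold ilen
    omega
  set z := inp as b x.toList with hz
  set Q := z.length with hQdef
  have hv : ∀ us : List (List Bool), us.map List.length = List.replicate (k + 1) Q →
      (Accepts A (prog k) (z :: us) ↔
        (fun us' : List (List Bool) => (fun nd : Nd (List.Vector Bool n) as =>
          @decide (∀ w : Fin b, A (addr as (nd, w)) = false) (propDecidable _))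
          (ndl as x us'.reverse) = as.length.bodd)
          (List.zipWith (fun a u => u.take a) as.reverse us)) := by
    intro us hus
    have hlen : us.length = k + 1 := by
      have := congrArg List.length hus
      simpa using this
    have hall : ∀ u ∈ us, u.length = Q := by
      intro u hu
      have h1 : u.length ∈ us.map List.length := List.mem_map_of_mem hu
      rw [hus] at h1
      exact (List.eq_of_mem_replicate h1)
    have hle : ∀ a ∈ as, ∀ u ∈ us, a ≤ u.length := by
      intro a ha u hu
      rw [hall u hu]
      exact hQ a ha
    rw [hz, prog_accepts A has x.toList hlen hle,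
      wdm_eq (inp as b x.toList) x as us (by rw [hlen, has]) hle]
    have h2 : (∀ j < b, A (List.replicate j true ++ wdV as (ndl as x
        (List.zipWith (fun a u => List.take a u) as.reverse us).reverse)) = false) ↔
        (∀ j : Fin b, A (addr as (ndl as x
        (List.zipWith (fun a u => u.take a) as.reverse us).reverse, j)) = false) := by
      constructor
      · intro h j
        exact h j.val j.isLt
      · intro h j hj
        exact h ⟨j, hj⟩
    rw [h2, ← has]
    exact Me_dec _ _ _
  have h3 : z ∈ Lk A k ↔ AltL true (List.replicate (k + 1) Q)
      (fun us => Accepts A (prog k) (z :: us)) := Alt_eq _ _ _ _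
  have h4 := altL_zip (Q := Q) as.reverse (fun a ha => hQ a (List.mem_reverse.1 ha)) true
    (fun us' : List (List Bool) => (fun nd : Nd (List.Vector Bool n) as =>
          @decide (∀ w : Fin b, A (addr as (nd, w)) = false) (propDecidable _))
          (ndl as x us'.reverse) = as.length.bodd)
  rw [List.length_reverse] at h4
  rw [h3, AltL_congr hv, ← has]
  have h5 := (fN_altL as x (fun nd : Nd (List.Vector Bool n) as =>
          @decide (∀ w : Fin b, A (addr as (nd, w)) = false) (propDecidable _))).symm
  exact h4.trans h5

theorem Me_wdV_length {n : ℕ} : ∀ (as : List ℕ) (nd : Nd (List.Vector Bool n) as),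
    (wdV as nd).length = n + as.sum
  | [], x => by
    unfold wdV
    rw [List.length_reverse, List.Vector.toList_length]
    simp
  | a :: as, nd => by
    unfold wdV
    rw [List.length_append, List.length_reverse, List.Vector.toList_length,
      Me_wdV_length as nd.1, List.sum_cons]
    omega

theorem Me_wdV_inj {n : ℕ} : ∀ (as : List ℕ) (nd nd' : Nd (List.Vector Bool n) as),
    wdV as nd = wdV as nd' → nd = nd'
  | [], x, x' => by
    intro h
    unfold wdV at h
    have h1 := List.reverse_injective h
    exact Subtype.ext h1
  | a :: as, nd, nd' => by
    intro h
    unfold wdV at h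
    have h1 : (wdV as nd.1).length = (wdV as nd'.1).length := by
      rw [Me_wdV_length, Me_wdV_length]
    have h2 := List.append_inj h h1
    have h3 : nd.1 = nd'.1 := Me_wdV_inj as nd.1 nd'.1 h2.1
    have h4 : nd.2 = nd'.2 := Subtype.ext (List.reverse_injective h2.2)
    exact Prod.ext h3 h4

theorem addr_inj {n b : ℕ} (as : List ℕ) : Function.Injective (addr (n := n) (b := b) as) := by
  intro p q h
  unfold addr at h
  have h1 : p.2.val = q.2.val := by
    have h2 := congrArg List.length h
    rw [List.length_append, List.length_append, List.length_replicate, List.length_replicate,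
      Me_wdV_length, Me_wdV_length] at h2
    omega
  rw [h1] at h
  have h3 := List.append_cancel_left h
  exact Prod.ext (Me_wdV_inj as _ _ h3) (Fin.ext h1)

theorem addr_length {n b : ℕ} (as : List ℕ) (p : Nd (List.Vector Bool n) as × Fin b) :
    (addr as p).length ≤ ilen as b n := by
  unfold addr ilen
  rw [List.length_append, List.length_replicate, Me_wdV_length]
  have h1 := Me_sum_le as
  have h2 := p.2.isLt
  omega

end Pool.Agent.H71.RO
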