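import Mathlib
import Pool.Agent.H9.Machine

/-!
# Definitions of the statement: deficiency of a measure on oracles, advice
-/

set_option autoImplicit false

namespace Pool.Agent.H71.RO

open MeasureTheory
open Pool.Agent.H9

/-- The min-entropy deficiency at length `m` of the measure `μ` on oracles is at most `D`: every
table of values of the oracle at all `2 ^ (m + 1) - 1` strings of length at most `m` has
probability at most `2 ^ (D - (2 ^ (m + 1) - 1))`. -/
def DefLe (μ : Measure Oracle) (m : ℕ) (D : ℝ) : Prop :=
  ∀ a : Oracle, μ {A | ∀ w : List Bool, w.length ≤ m → A w = a w} ≤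
    ENNReal.ofReal ((2 : ℝ) ^ (D - (2 ^ (m + 1) - 1)))

/-- The class `Sigma_k^{P,A} / poly`: `k` alternating blocks, and advice of polynomial length which
depends only on the length of the input. -/
def SigmaPoly (A : Oracle) (k : ℕ) : Set (Set (List Bool)) :=
  {L | ∃ (q r : Polynomial ℕ) (p : Prog) (h : ℕ → List Bool), PolyTime A (k + 2) p ∧
    (∀ n, (h n).length ≤ r.eval n) ∧
    ∀ x : List Bool, x ∈ L ↔
      Alt true k (q.eval x.length) (fun us => Accepts A p (x :: (us ++ [h x.length])))}

end Pool.Agent.H71.RO
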