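import Pool.Agent.H71.RO.Ev
import Pool.Agent.H71.RO.Me
import Pool.Agent.H71.RO.Stmt

/-!
# Classes with advice

PROOFS.
`ev_of_mem`: `Lk A k ∈ SigmaPoly A k` gives `q`, `r`, `p`, `h` and (`PolyTime`) a polynomial `T`. Let `n`, `as`, `b` be given, `N := ilen as b n`; every
`z := inp as b x.toList` has length `N` (`inp_length`). Advice `h N`. For `us` with `us.map length = replicate k (q.eval N)`:
`totalLength (z :: (us ++ [h N])) ≤ N + k * q.eval N + r.eval N`, so (`poly_mono`) the machine halts within `t` steps
(`run_of_halted`), and `Accepts ↔ AcceptsIn .. t` (`accepts_iff_of_halted`); `Alt_eq`, `AltL_congr`.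

`sigma_poly`: given `q`, `p`, `T` for `SigmaP A k`, take `r := 0`, `h n := []` and the program `Prog.seq (Prog.loop (k + 1) (Prog.pop (k + 1))) p`, which
first clears the last stack: exactly as in the proof of `sigmaP_mono` (H9/Classes.lean): `hclear`, the polynomial time bound, and
`accepts_seq` for `ys := x :: us` (of length `k + 1`), `z := []`; `x :: (us ++ [[]]) = (x :: us) ++ [[]]`.
-/

set_option autoImplicit false
set_option linter.unusedSectionVars false

namespace Pool.Agent.H71.RO

open Classical
open Pool.Agent.H9

theorem Pe_halt {A : Oracle} {p : Prog} {xs : List (List Bool)} {t N : ℕ}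
    (h : (run A p xs t).1 = []) (htN : t ≤ N) : (run A p xs N).1 = [] := by
  rw [run_of_halted h htN]
  exact h

theorem ev_of_mem {A : Oracle} {k : ℕ} (h : Lk A k ∈ SigmaPoly A k) :
    ∃ (q r T : Polynomial ℕ) (p : Prog), ∀ (n : ℕ) (as : List ℕ) (b : ℕ),
      as.length = k + 1 → Ev k q r T p as b n A := by
  obtain ⟨q, r, p, adv, ⟨T, hT⟩, hh, hL⟩ := h
  refine ⟨q, r, T, p, fun n as b has => ⟨adv (ilen as b n), hh _, fun x => ?_⟩⟩
  have hz : (inp as b x.toList).length = ilen as b n := by
    rw [inp_length, List.Vector.toList_length]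
  rw [hL, hz]
  unfold Rn
  rw [Alt_eq, Alt_eq]
  apply AltL_congr
  intro us hus
  have hlen : us.length = k := by
    have := congrArg List.length hus
    simpa using this
  have htot : totalLength (inp as b x.toList :: (us ++ [adv (ilen as b n)])) ≤
      ilen as b n + k * q.eval (ilen as b n) + r.eval (ilen as b n) := by
    have h1 : (us.map List.length).sum = k * q.eval (ilen as b n) := by
      rw [hus]
      simp
    have h2 := hh (ilen as b n)
    simp only [totalLength, List.map_cons, List.map_append, List.sum_cons, List.sum_append,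
      List.map_nil, List.sum_nil, hz, h1]
    omega
  exact (accepts_iff_of_halted (Pe_halt (hT _ (by simp [hlen])) (poly_mono T htot))).symm

theorem Pe_clear (A : Oracle) (k : ℕ) (ys : List (List Bool)) (z : List Bool)
    (hys : ys.length = k) :
    Exec A (Prog.loop k (Prog.pop k)) (fun i => (ys ++ [z]).getD i [])
      (fun i => ys.getD i []) (z.length * 2 + 1) := by
  have h := exec_clear A k z (fun i => (ys ++ [z]).getD i []) (by simp [← hys])
  rw [← hys, getD_append_singleton] at h
  rw [← hys]
  exact h

theorem sigma_poly (A : Oracle) (k : ℕ) : SigmaP A k ⊆ SigmaPoly A k := by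
  rintro L ⟨q, p, ⟨T, hT⟩, hL⟩
  refine ⟨q, 0, Prog.seq (Prog.loop (k + 1) (Prog.pop (k + 1))) p, fun _ => [], ?_,
    fun n => by simp, ?_⟩
  · refine ⟨T + Polynomial.X * 2 + 2, ?_⟩
    intro xs hxs
    obtain ⟨ys, z, rfl⟩ : ∃ ys z, xs = ys ++ [z] := by
      have : xs ≠ [] := by
        intro h; rw [h] at hxs; simp at hxs
      exact ⟨xs.dropLast, xs.getLast this, (List.dropLast_append_getLast this).symm⟩
    have hys : ys.length = k + 1 := by simpa using hxs
    have h1 := halts_seq (Pe_clear A (k + 1) ys z hys) (hT ys hys)
    have h2 : T.eval (totalLength ys) ≤ T.eval (totalLength (ys ++ [z])) :=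
      poly_mono T (by rw [totalLength_append]; omega)
    have h3 : T.eval (totalLength ys) + (z.length * 2 + 1) + 1 ≤
        (T + Polynomial.X * 2 + 2).eval (totalLength (ys ++ [z])) := by
      have h5 : z.length ≤ totalLength (ys ++ [z]) := by rw [totalLength_append]; omega
      simp only [Polynomial.eval_add, Polynomial.eval_mul, Polynomial.eval_X,
        Polynomial.eval_ofNat]
      omega
    exact Pe_halt h1 h3
  · intro x
    rw [hL x, Alt_eq, Alt_eq]
    apply AltL_congr
    intro us hus
    have hlen : us.length = k := by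
      have := congrArg List.length hus
      simpa using this
    exact (accepts_seq (Pe_clear A (k + 1) (x :: us) [] (by simp [hlen]))).symm

end Pool.Agent.H71.RO
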