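import Pool.Agent.H9.Clos
import Pool.Agent.H71.RO.Stmt

/-!
# A sparse closure: the oracle answers `NP` questions about itself at sparsely distributed strings

`Sp C m0 w`: the word `w` is special: `w = code e x N` with `(e + |x| + 1) ^ C ≤ N`, and `w` has length at least `m0`.

PROOFS.
`cOp_contr`: at non-special words both sides are `S w`; at special words `kprop_local` (`(v.length + 2) ^ 2 ≤ w.length` implies
`v.length < w.length`).
`cc_eq`: `fixO_eq`.
`cc_congr`: `fixO_congr` for the operators of `S` and `S'` (they agree at the words of length at most `m`).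
`sigma_cc`: as `sigma_zero_eq_one` (H9/Classes.lean) with `fin := Prog.ask 2 (Prog.push 0 true) Prog.skip`. Choose `c` by `poly_le_pow` for
the polynomial `(T.comp (X + q) + X + q + 2) ^ 2 + (X + C (e + 1)) ^ Ce + C m0` (`Ce` is the exponent `C` of `Sp`), so that the word
`w = code e x ((|x| + 2) ^ 2 ^ c)` written by `mkCode e c` on stack 2 is special (its length is at least `m0`), and
`cc w = true ↔ KProp g (cc ..) w` by `cc_eq`. The rest of the proof is the same (run time, and
`KProp g A (code e x N) ↔ x ∈ L`).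
-/

set_option autoImplicit false
set_option linter.unusedSectionVars false

namespace Pool.Agent.H71.RO

open Classical
open Pool.Agent.H9

/-- special words -/
def Sp (C m0 : ℕ) (w : List Bool) : Prop :=
  ∃ (e : ℕ) (x : List Bool) (N : ℕ), w = code e x N ∧ (e + x.length + 1) ^ C ≤ N ∧ m0 ≤ w.length

/-- the operator of the sparse closure -/
noncomputable def cOp (g : ℕ → Prog × Polynomial ℕ × Polynomial ℕ) (C m0 : ℕ) (S : Oracle) :
    Oracle → Oracle :=
  fun A w => if Sp C m0 w then decide (KProp g A w) else S w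

theorem cOp_contr (g : ℕ → Prog × Polynomial ℕ × Polynomial ℕ) (C m0 : ℕ) (S : Oracle) :
    Contr (cOp g C m0 S) := by
  intro A A' w h
  unfold cOp
  by_cases hw : Sp C m0 w
  · rw [if_pos hw, if_pos hw, kprop_local (A := A) (A' := A')]
    intro v hv
    apply h
    nlinarith
  · rw [if_neg hw, if_neg hw]

/-- the sparse closure of the seed `S` -/
noncomputable def cc (g : ℕ → Prog × Polynomial ℕ × Polynomial ℕ) (C m0 : ℕ) (S : Oracle) :
    Oracle :=
  fixO (cOp g C m0 S)

theorem cc_eq (g : ℕ → Prog × Polynomial ℕ × Polynomial ℕ) (C m0 : ℕ) (S : Oracle)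
    (w : List Bool) :
    cc g C m0 S w = if Sp C m0 w then decide (KProp g (cc g C m0 S) w) else S w :=
  (congrFun (fixO_eq (cOp_contr g C m0 S)) w).symm

theorem cc_congr (g : ℕ → Prog × Polynomial ℕ × Polynomial ℕ) (C m0 : ℕ) {S S' : Oracle} {m : ℕ}
    (h : ∀ w : List Bool, w.length ≤ m → S w = S' w) :
    ∀ w : List Bool, w.length ≤ m → cc g C m0 S w = cc g C m0 S' w := by
  intro w hw
  refine fixO_congr (cOp_contr g C m0 S) (cOp_contr g C m0 S') m ?_ w.length w le_rfl hw
  intro A v hv
  unfold cOp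
  rw [h v hv]

theorem Ca_fin (A : Oracle) (s : ℕ → List Bool) (hs : s 0 = []) :
    ∃ s', Exec A (Prog.ask 2 (Prog.push 0 true) Prog.skip) s s' 2 ∧
      ((s' 0).head? = some true ↔ A (s 2) = true) := by
  by_cases h : A (s 2) = true
  · refine ⟨_, exec_ask (N := 1) (by
      rw [if_pos h]; exact exec_push A s 0 true), ?_⟩
    rw [Function.update_self]
    simp [h]
  · refine ⟨_, exec_ask (N := 1) (by
      rw [if_neg h]; exact exec_skip A s), ?_⟩
    rw [hs]
    simp [h]

theorem sigma_cc (g : ℕ → Prog × Polynomial ℕ × Polynomial ℕ) (hg : Function.Surjective g)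
    (C m0 : ℕ) (S : Oracle) : SigmaP (cc g C m0 S) 0 = SigmaP (cc g C m0 S) 1 := by
  set A := cc g C m0 S with hA
  apply Set.Subset.antisymm (sigmaP_mono A 0)
  rintro L ⟨q, p, ⟨T, hT⟩, hL⟩
  obtain ⟨e, he⟩ := hg (p, q, T)
  obtain ⟨c, hc⟩ := poly_le_pow ((T.comp (Polynomial.X + q) + Polynomial.X + q + 2) ^ 2 +
    ((Polynomial.X + Polynomial.C (e + 1)) ^ C + Polynomial.C m0))
  have hc1 : ∀ n : ℕ, ((T.comp (Polynomial.X + q) + Polynomial.X + q + 2) ^ 2).eval n ≤
      (n + 2) ^ 2 ^ c := by
    intro n
    refine le_trans ?_ (hc n)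
    rw [Polynomial.eval_add]
    exact Nat.le_add_right _ _
  have hc2 : ∀ n : ℕ, (n + (e + 1)) ^ C + m0 ≤ (n + 2) ^ 2 ^ c := by
    intro n
    refine le_trans ?_ (hc n)
    have h1 : ((Polynomial.X + Polynomial.C (e + 1)) ^ C + Polynomial.C m0 :
        Polynomial ℕ).eval n = (n + (e + 1)) ^ C + m0 := by
      simp only [Polynomial.eval_add, Polynomial.eval_pow, Polynomial.eval_X, Polynomial.eval_C]
    rw [Polynomial.eval_add, h1]
    exact Nat.le_add_left _ _
  have hSp : ∀ x : List Bool, Sp C m0 (code e x ((x.length + 2) ^ 2 ^ c)) := by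
    intro x
    have h1 := hc2 x.length
    refine ⟨e, x, _, rfl, ?_, ?_⟩
    · have h2 : (e + x.length + 1) ^ C = (x.length + (e + 1)) ^ C := by
        congr 1
        omega
      rw [h2]
      omega
    · rw [code_length]
      omega
  -- the running time
  have hrun : ∀ x : List Bool, ∃ s', run A (Prog.seq (mkCode e c)
        (Prog.ask 2 (Prog.push 0 true) Prog.skip)) [x]
      (codeTime e c x.length + 2 + 1) = ([], s') ∧
      ((s' 0).head? = some true ↔ KProp g A (code e x ((x.length + 2) ^ 2 ^ c))) := by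
    intro x
    obtain ⟨s1, h1, h2, h3⟩ := exec_mkCode A e c (fun i => [x].getD i []) (by simp) (by simp)
      (by simp) (by simp) (by simp)
    obtain ⟨s2, h4, h5⟩ := Ca_fin A s1 h3
    refine ⟨s2, run_of_exec ?_, ?_⟩
    · have := h1.seq h4
      simpa using this
    · rw [h5, h2]
      have h6 := cc_eq g C m0 S (code e x ((x.length + 2) ^ 2 ^ c))
      rw [if_pos (hSp x), ← hA] at h6
      simp only [List.getD_cons_zero]
      rw [h6, decide_eq_true_eq]
  refine ⟨0, Prog.seq (mkCode e c) (Prog.ask 2 (Prog.push 0 true) Prog.skip), ?_, ?_⟩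
  · -- polynomial time
    refine ⟨Polynomial.C c * (20 * ((Polynomial.X + 2) ^ 2 ^ c + 1) *
      ((Polynomial.X + 2) ^ 2 ^ c + 1) + 1) + 20 * Polynomial.X + Polynomial.C (2 * e + 30) +
      Polynomial.C (2 + 1), ?_⟩
    intro xs hxs
    obtain ⟨x, rfl⟩ := List.length_eq_one_iff.1 hxs
    obtain ⟨s', h1, _⟩ := hrun x
    have h2 : (run A (Prog.seq (mkCode e c) (Prog.ask 2 (Prog.push 0 true) Prog.skip)) [x]
        (codeTime e c x.length + 2 + 1)).1 = [] := by
      rw [h1]
    rw [run_of_halted h2]
    · exact h2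
    · simp only [totalLength, List.map_cons, List.map_nil, List.sum_cons, List.sum_nil,
        Polynomial.eval_add, Polynomial.eval_mul, Polynomial.eval_X,
        Polynomial.eval_ofNat, Polynomial.eval_C, Polynomial.eval_pow, Polynomial.eval_one,
        add_zero, codeTime]
      omega
  · intro x
    show x ∈ L ↔ Accepts A (Prog.seq (mkCode e c)
      (Prog.ask 2 (Prog.push 0 true) Prog.skip)) [x]
    obtain ⟨s', h1, h2⟩ := hrun x
    have h3 : (run A (Prog.seq (mkCode e c) (Prog.ask 2 (Prog.push 0 true) Prog.skip)) [x]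
        (codeTime e c x.length + 2 + 1)).1 = [] := by
      rw [h1]
    rw [accepts_iff_of_halted h3, hL x]
    unfold AcceptsIn
    rw [h1]
    simp only [true_and]
    rw [h2]
    have hge1 : (g e).1 = p := by rw [he]
    have hge2 : (g e).2.1 = q := by rw [he]
    have hge3 : (g e).2.2 = T := by rw [he]
    have hhalt : ∀ u : List Bool, u.length = q.eval x.length →
        (run A p [x, u] (T.eval (x.length + q.eval x.length))).1 = [] := by
      intro u hu
      have := hT [x, u] rfl
      simpa [totalLength, hu] using this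
    simp only [Alt]
    constructor
    · rintro ⟨u, hu, hacc⟩
      refine ⟨e, x, _, rfl, ?_, u, ?_, ?_⟩
      · rw [hge2, hge3]
        have := hc1 x.length
        simpa [Polynomial.eval_comp] using this
      · rw [hge2]; exact hu
      · rw [hge1, hge2, hge3]
        exact (accepts_iff_of_halted (hhalt u hu)).1 hacc
    · rintro ⟨e', x', N', hcode, _, u, hu, hacc⟩
      obtain ⟨rfl, rfl, rfl⟩ := code_inj hcode
      rw [hge2] at hu
      rw [hge1, hge2, hge3] at hacc
      exact ⟨u, hu, _, hacc⟩

end Pool.Agent.H71.RO
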