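import Pool.Agent.H9.Hidden
import Pool.Agent.H71.RO.Ca

/-!
# The number of special words

PROOFS.
`sp_short`: a special word has length at least `m0`.
`sp_count`: for `m`, if `w = code e x N` is special and `w.length ≤ m`, then `e ≤ m`, `N ≤ m` (`code_length`) and
`(x.length + 1) ^ C ≤ m`. Let `L m` be the largest `l` with `l ^ C ≤ m` (for `C ≥ 1`); so `x.length + 1 ≤ L m`, and the special words are in the
image of `range (m + 1) ×ˢ words (L m - 1) ×ˢ range (m + 1)` under `code`: at most `(m + 1) ^ 2 * 2 ^ (L m)` (`card_words`).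
`sp_small`: given `ε > 0` take `C ≥ 1` with `1 / C ≤ ε / 2`. `L m ^ C ≤ m` gives `L m ≤ m ^ (1 / C) ≤ m ^ (ε / 2)` (for `m ≥ 1`). For large `m`:
`(m + 1) ^ 2 * 2 ^ (m ^ (ε / 2)) ≤ 2 ^ (m ^ ε)`: even `2 * log2 (m + 1) + m ^ (ε / 2) ≤ m ^ ε`. And the claim of the theorem is only that the NUMBER of
special words is at most `2 ^ (m ^ ε)`, so take logarithms: `log2 (number) ≤ 2 * log2 (m + 1) + m ^ (ε / 2) ≤ m ^ ε` eventually
(`isLittleO_log_rpow_atTop`, `tendsto_rpow_atTop`).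
-/

set_option autoImplicit false
set_option linter.unusedSectionVars false

namespace Pool.Agent.H71.RO

open Classical
open Pool.Agent.H9

theorem sp_count {C : ℕ} (hC : 1 ≤ C) (m0 m l : ℕ) (hl : m < (l + 1) ^ C) :
    ((words m).filter (fun w => Sp C m0 w)).card ≤ (m + 1) ^ 2 * 2 ^ l := by
  have key : ∀ (e : ℕ) (x : List Bool) (N : ℕ), (e + x.length + 1) ^ C ≤ N →
      (code e x N).length ≤ m → e ≤ m ∧ N ≤ m ∧ e + x.length + 1 < l + 1 := by
    intro e x N h1 h2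
    rw [code_length] at h2
    refine ⟨by omega, by omega, ?_⟩
    have h3 : (e + x.length + 1) ^ C < (l + 1) ^ C := by omega
    exact lt_of_pow_lt_pow_left₀ C (by omega) h3
  rcases Nat.eq_zero_or_pos l with h0 | h0
  · have hemp : (words m).filter (fun w => Sp C m0 w) = ∅ := by
      apply Finset.filter_eq_empty_iff.2
      rintro w hw ⟨e, x, N, rfl, h1, h2⟩
      have := (key e x N h1 (mem_words.1 hw)).2.2
      omega
    rw [hemp]
    simp
  · have hsub : (words m).filter (fun w => Sp C m0 w) ⊆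
        ((Finset.range (m + 1) ×ˢ Finset.range (m + 1)) ×ˢ words (l - 1)).image
          (fun q => code q.1.1 q.2 q.1.2) := by
      intro w hw
      rw [Finset.mem_filter] at hw
      obtain ⟨hw1, e, x, N, rfl, h1, h2⟩ := hw
      obtain ⟨h3, h4, h5⟩ := key e x N h1 (mem_words.1 hw1)
      rw [Finset.mem_image]
      refine ⟨((e, N), x), ?_, rfl⟩
      rw [Finset.mem_product, Finset.mem_product]
      refine ⟨⟨Finset.mem_range.2 (by dsimp only; omega), Finset.mem_range.2 (by dsimp only; omega)⟩,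
        mem_words.2 (by dsimp only; omega)⟩
    calc ((words m).filter (fun w => Sp C m0 w)).card
        ≤ (((Finset.range (m + 1) ×ˢ Finset.range (m + 1)) ×ˢ words (l - 1)).image
          (fun q => code q.1.1 q.2 q.1.2)).card := Finset.card_le_card hsub
      _ ≤ ((Finset.range (m + 1) ×ˢ Finset.range (m + 1)) ×ˢ words (l - 1)).card :=
          Finset.card_image_le
      _ = (m + 1) * (m + 1) * (words (l - 1)).card := by
          rw [Finset.card_product, Finset.card_product, Finset.card_range]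
      _ ≤ (m + 1) * (m + 1) * 2 ^ l := by
          have := card_words (l - 1)
          rw [Nat.sub_add_cancel h0] at this
          exact Nat.mul_le_mul_left _ this
      _ = (m + 1) ^ 2 * 2 ^ l := by ring

theorem Cb_ev {δ : ℝ} (hδ : 0 < δ) : ∀ᶠ m : ℕ in Filter.atTop,
    ((m : ℝ) + 1) ^ 2 * (2 : ℝ) ^ ((m : ℝ) ^ δ) ≤ (2 : ℝ) ^ ((m : ℝ) ^ (δ + δ)) := by
  have h1 : ∀ᶠ x : ℝ in Filter.atTop, ‖Real.log x‖ ≤ (Real.log 2 / 4) * ‖x ^ δ‖ :=
    (isLittleO_log_rpow_atTop hδ).bound (by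
      have := Real.log_pos (one_lt_two)
      positivity)
  have h2 : ∀ᶠ x : ℝ in Filter.atTop, (2 : ℝ) ≤ x ^ δ :=
    (tendsto_rpow_atTop hδ).eventually_ge_atTop 2
  have h3 := (tendsto_natCast_atTop_atTop (R := ℝ)).eventually h1
  have h4 := (tendsto_natCast_atTop_atTop (R := ℝ)).eventually h2
  filter_upwards [h3, h4, Filter.eventually_ge_atTop 2] with m h5 h6 h7
  have hm : (2 : ℝ) ≤ (m : ℝ) := by exact_mod_cast h7
  have hmpos : (0 : ℝ) < (m : ℝ) := by linarith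
  have hlog2 : 0 < Real.log 2 := Real.log_pos one_lt_two
  have hb : 0 < (m : ℝ) ^ δ := Real.rpow_pos_of_pos hmpos δ
  have hlogm : 0 ≤ Real.log (m : ℝ) := Real.log_nonneg (by linarith)
  rw [Real.norm_of_nonneg hlogm, Real.norm_of_nonneg hb.le] at h5
  have h8 : Real.log ((m : ℝ) + 1) ≤ 2 * Real.log (m : ℝ) := by
    have e1 : 2 * Real.log (m : ℝ) = Real.log ((m : ℝ) * m) := by
      rw [Real.log_mul hmpos.ne' hmpos.ne']; ring
    rw [e1]
    apply Real.log_le_log (by linarith)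
    nlinarith
  have h9 : ((m : ℝ) + 1) ^ 2 ≤ (2 : ℝ) ^ ((m : ℝ) ^ δ) := by
    rw [← Real.log_le_log_iff (by positivity) (by positivity), Real.log_rpow (by norm_num),
      Real.log_pow]
    push_cast
    nlinarith
  calc ((m : ℝ) + 1) ^ 2 * (2 : ℝ) ^ ((m : ℝ) ^ δ)
      ≤ (2 : ℝ) ^ ((m : ℝ) ^ δ) * (2 : ℝ) ^ ((m : ℝ) ^ δ) :=
        mul_le_mul_of_nonneg_right h9 (by positivity)
    _ = (2 : ℝ) ^ ((m : ℝ) ^ δ + (m : ℝ) ^ δ) := by
        rw [Real.rpow_add (by norm_num)]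
    _ ≤ (2 : ℝ) ^ ((m : ℝ) ^ (δ + δ)) := by
        apply Real.rpow_le_rpow_of_exponent_le (by norm_num)
        rw [Real.rpow_add hmpos]
        nlinarith

theorem sp_small {ε : ℝ} (hε : 0 < ε) : ∃ C : ℕ, ∀ᶠ m : ℕ in Filter.atTop, ∀ m0 : ℕ,
    (((words m).filter (fun w => Sp C m0 w)).card : ℝ) ≤ (2 : ℝ) ^ ((m : ℝ) ^ ε) := by
  obtain ⟨C, hC⟩ := exists_nat_gt (1 / (ε / 2))
  have hpos : 0 < 1 / (ε / 2) := by positivity
  have hC0 : (0 : ℝ) < (C : ℝ) := lt_trans hpos hC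
  have hC1 : 1 ≤ C := by
    have : 0 < C := by exact_mod_cast hC0
    omega
  refine ⟨C, ?_⟩
  have hδ : 0 < ε / 2 := by positivity
  have hCd : 1 / (C : ℝ) ≤ ε / 2 := by
    rw [div_le_iff₀ hC0]
    rw [div_lt_iff₀ hδ] at hC
    linarith
  filter_upwards [Cb_ev hδ, Filter.eventually_ge_atTop 1] with m h1 h2 m0
  have hm1 : (1 : ℝ) ≤ (m : ℝ) := by exact_mod_cast h2
  have hm0 : (0 : ℝ) < (m : ℝ) := by linarith
  set l : ℕ := ⌊(m : ℝ) ^ (1 / (C : ℝ))⌋₊ with hldef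
  have hr0 : 0 ≤ (m : ℝ) ^ (1 / (C : ℝ)) := Real.rpow_nonneg hm0.le _
  have hl1 : (l : ℝ) ≤ (m : ℝ) ^ (1 / (C : ℝ)) := Nat.floor_le hr0
  have hl2 : (m : ℝ) ^ (1 / (C : ℝ)) < (l : ℝ) + 1 := Nat.lt_floor_add_one _
  have hl : m < (l + 1) ^ C := by
    have h3 : ((m : ℝ) ^ (1 / (C : ℝ))) ^ C < ((l : ℝ) + 1) ^ C :=
      pow_lt_pow_left₀ hl2 hr0 (by omega)
    have h4 : ((m : ℝ) ^ (1 / (C : ℝ))) ^ C = (m : ℝ) := by
      rw [← Real.rpow_natCast, ← Real.rpow_mul hm0.le]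
      have : 1 / (C : ℝ) * (C : ℝ) = 1 := by
        field_simp
      rw [this, Real.rpow_one]
    rw [h4] at h3
    exact_mod_cast h3
  have h5 := sp_count hC1 m0 m l hl
  have h6 : (((words m).filter (fun w => Sp C m0 w)).card : ℝ) ≤
      ((m : ℝ) + 1) ^ 2 * (2 : ℝ) ^ l := by exact_mod_cast h5
  have h7 : (2 : ℝ) ^ l ≤ (2 : ℝ) ^ ((m : ℝ) ^ (ε / 2)) := by
    rw [← Real.rpow_natCast]
    apply Real.rpow_le_rpow_of_exponent_le (by norm_num)
    exact hl1.trans (Real.rpow_le_rpow_of_exponent_le hm1 hCd)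
  have h8 : ε / 2 + ε / 2 = ε := by ring
  rw [h8] at h1
  exact h6.trans ((mul_le_mul_of_nonneg_left h7 (by positivity)).trans h1)

end Pool.Agent.H71.RO
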