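import Pool.Agent.H71.RO.Pb
import Pool.Agent.H71.RO.Cb

/-!
# The measure of the sparse closure of a random seed

PROOFS.
`unif`: `Measure.infinitePi (fun _ : List Bool => fair coin)`, the fair coin being e.g. `PMF.toMeasure (PMF.bernoulli (1/2) _)` or
`(1/2 : ℝ≥0∞) • (dirac true + dirac false)` (choose what is easiest; `ν` is only used through the two properties in `exists_unif`:
`infinitePi_pi` (Mathlib/Probability/ProductMeasure.lean) for a finset `F` and the sets `{a w}` gives `ν {S | ∀ w ∈ F, S w = a w} = (1/2) ^ F.card`).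
`exists_sparse`: `C` and the threshold `m1` from `sp_small`; let `hD1 : ∀ m ≥ m2, 2 ^ (m ^ ε) < D m`, and `m0 := max m1 m2`. `μ := ν.map (cc g C m0)`.
Measurability of `cc g C m0` : by `measurable_pi_iff` every coordinate `S ↦ cc g C m0 S w` must be measurable; by `cc_congr` it depends only
on the values of `S` at the finitely many words of length at most `w.length`, so it is `F ∘ (restriction to words w.length)` with `F` a
function on a finite discrete type (`measurable_of_finite`/`Measurable.of_discrete`), and the restriction is measurable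
(`measurable_pi_iff`, `measurable_pi_apply`).
`DefLe μ m (D m)`: `{A | ∀ w, w.length ≤ m → A w = a w}` is measurable (a finite intersection over `words m`), its `μ`-measure is
`ν {S | ∀ w, w.length ≤ m → cc g C m0 S w = a w} ≤ ν {S | ∀ w ∈ (words m).filter (fun w => ¬ Sp C m0 w), S w = a w}` (`cc_eq`)
`= (1 / 2) ^ (words m with ¬ Sp).card`, and `(words m with ¬ Sp).card = 2 ^ (m + 1) - 1 - (words m with Sp).card` (`card_words_eq`,
`Finset.filter_card_add_filter_neg_card_eq_card`). If `m < m0` there is no special word in `words m`, so it is `2 ^ (-(2 ^ (m + 1) - 1))`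
`≤ 2 ^ (D m - (2 ^ (m + 1) - 1))` as `0 ≤ D m`. If `m ≥ m0` the number of special words is at most `2 ^ (m ^ ε) < D m`.
(Real exponents: `Real.rpow_natCast`, `Real.rpow_le_rpow_of_exponent_le`.)
-/

set_option autoImplicit false
set_option linter.unusedSectionVars false

namespace Pool.Agent.H71.RO

open Classical MeasureTheory
open Pool.Agent.H9
open scoped ENNReal

/-- the fair coin -/
noncomputable def Cc_coin : Measure Bool := (1 / 2 : ℝ≥0∞) • (Measure.dirac true + Measure.dirac false)

theorem Cc_coin_apply (b : Bool) : Cc_coin {b} = 1 / 2 := by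
  unfold Cc_coin
  rw [Measure.smul_apply, Measure.add_apply, Measure.dirac_apply' _ (MeasurableSet.singleton b),
    Measure.dirac_apply' _ (MeasurableSet.singleton b)]
  cases b <;> simp

instance Cc_coin_prob : IsProbabilityMeasure Cc_coin := by
  constructor
  unfold Cc_coin
  rw [Measure.smul_apply, Measure.add_apply, measure_univ, measure_univ, smul_eq_mul,
    one_add_one_eq_two]
  exact ENNReal.div_mul_cancel (by norm_num) (by norm_num)

theorem exists_unif : ∃ ν : Measure Oracle, IsProbabilityMeasure ν ∧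
    ∀ (F : Finset (List Bool)) (a : Oracle), ν {S | ∀ w ∈ F, S w = a w} = (1 / 2 : ℝ≥0∞) ^ F.card := by
  refine ⟨Measure.infinitePi (fun _ : List Bool => Cc_coin), inferInstance, fun F a => ?_⟩
  have h1 : {S : Oracle | ∀ w ∈ F, S w = a w} = Set.pi (F : Set (List Bool)) (fun w => {a w}) := by
    ext S
    simp [Set.mem_pi]
  rw [h1, Measure.infinitePi_pi _ (fun w _ => MeasurableSet.singleton _)]
  simp only [Cc_coin_apply]
  rw [Finset.prod_const]

theorem cc_measurable (g : ℕ → Prog × Polynomial ℕ × Polynomial ℕ) (C m0 : ℕ) :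
    Measurable (cc g C m0) := by
  rw [measurable_pi_iff]
  intro w
  have h1 : (fun S : Oracle => cc g C m0 S w) =
      (fun a : {v // v ∈ words w.length} → Bool => cc g C m0 (ext w.length a) w) ∘
        (fun (S : Oracle) (v : {v // v ∈ words w.length}) => S v.1) := by
    funext S
    refine cc_congr g C m0 (m := w.length) (fun v hv => ?_) w le_rfl
    unfold ext
    rw [dif_pos (mem_words.2 hv)]
  rw [h1]
  refine (measurable_of_finite _).comp ?_
  rw [measurable_pi_iff]
  intro v
  exact measurable_pi_apply v.1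

theorem Cc_pow (N : ℕ) : (1 / 2 : ℝ≥0∞) ^ N = ENNReal.ofReal ((2 : ℝ) ^ (-(N : ℝ))) := by
  rw [Real.rpow_neg (by norm_num), Real.rpow_natCast, ← inv_pow,
    ENNReal.ofReal_pow (by norm_num), ENNReal.ofReal_inv_of_pos (by norm_num), one_div]
  norm_num

theorem Cc_meas (m : ℕ) (a : Oracle) :
    MeasurableSet {A : Oracle | ∀ w : List Bool, w.length ≤ m → A w = a w} := by
  have h1 : {A : Oracle | ∀ w : List Bool, w.length ≤ m → A w = a w} =
      ⋂ w ∈ words m, {A : Oracle | A w = a w} := by
    ext A
    simp only [Set.mem_ofPred_eq, Set.mem_iInter, mem_words]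
  rw [h1]
  refine Finset.measurableSet_biInter _ fun w _ => ?_
  exact measurableSet_eq_fun (measurable_pi_apply w) measurable_const

theorem exists_sparse (g : ℕ → Prog × Polynomial ℕ × Polynomial ℕ) {D : ℕ → ℝ}
    (hD0 : ∀ m, 0 ≤ D m) {ε : ℝ} (hε : 0 < ε)
    (hD : ∀ᶠ m : ℕ in Filter.atTop, (2 : ℝ) ^ ((m : ℝ) ^ ε) < D m) :
    ∃ (C m0 : ℕ) (ν : Measure Oracle), IsProbabilityMeasure ν ∧
      IsProbabilityMeasure (ν.map (cc g C m0)) ∧ ∀ m, DefLe (ν.map (cc g C m0)) m (D m) := by
  obtain ⟨C, hC⟩ := sp_small hε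
  obtain ⟨m1, hm1⟩ := Filter.eventually_atTop.1 hC
  obtain ⟨m2, hm2⟩ := Filter.eventually_atTop.1 hD
  obtain ⟨ν, hν, hνF⟩ := exists_unif
  obtain ⟨m0, hm0⟩ : ∃ m0, m0 = max m1 m2 := ⟨_, rfl⟩
  refine ⟨C, m0, ν, hν,
    Measure.isProbabilityMeasure_map (cc_measurable g C m0).aemeasurable, fun m a => ?_⟩
  rw [Measure.map_apply (cc_measurable g C m0) (Cc_meas m a)]
  have hs : (((words m).filter (fun w => Sp C m0 w)).card : ℝ) ≤ D m := by
    rcases lt_or_ge m m0 with h | h
    · have h1 : (words m).filter (fun w => Sp C m0 w) = ∅ := by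
        rw [Finset.filter_eq_empty_iff]
        rintro w hw ⟨e, x, N, -, -, h2⟩
        rw [mem_words] at hw
        omega
      rw [h1, Finset.card_empty, Nat.cast_zero]
      exact hD0 m
    · have h1 : m1 ≤ m := (le_max_left m1 m2).trans (hm0 ▸ h)
      have h2 : m2 ≤ m := (le_max_right m1 m2).trans (hm0 ▸ h)
      exact (hm1 m h1 m0).trans (hm2 m h2).le
  have hcard : ((words m).filter (fun w => Sp C m0 w)).card +
      ((words m).filter (fun w => ¬ Sp C m0 w)).card = 2 ^ (m + 1) - 1 := by
    rw [← card_words_eq, Finset.card_filter_add_card_filter_not]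
  have hle : ν (cc g C m0 ⁻¹' {A : Oracle | ∀ w : List Bool, w.length ≤ m → A w = a w}) ≤
      (1 / 2 : ℝ≥0∞) ^ ((words m).filter (fun w => ¬ Sp C m0 w)).card := by
    rw [← hνF _ a]
    refine measure_mono fun S hS w hw => ?_
    rw [Finset.mem_filter, mem_words] at hw
    have h1 := hS w hw.1
    rw [cc_eq, if_neg hw.2] at h1
    exact h1
  refine hle.trans ?_
  rw [Cc_pow]
  refine ENNReal.ofReal_le_ofReal ?_
  refine Real.rpow_le_rpow_of_exponent_le (by norm_num) ?_
  have h1 : (((words m).filter (fun w => Sp C m0 w)).card : ℝ) +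
      (((words m).filter (fun w => ¬ Sp C m0 w)).card : ℝ) = 2 ^ (m + 1) - 1 := by
    have h2 : 1 ≤ 2 ^ (m + 1) := Nat.one_le_two_pow
    rw [← Nat.cast_add, hcard, Nat.cast_sub h2]
    push_cast
    ring
  linarith

end Pool.Agent.H71.RO
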