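import Pool.Agent.H71.RO.Defs

/-!
# Currying a product expectation

PROOF. Unfold `Ex`. The map `G ↦ (fun v => G v.1 v.2)` is the bijection `(Equiv.curry I J R).symm`
of `I → J → R` and `I × J → R`; use `Equiv.sum_comp` (or `Fintype.sum_equiv`). The weights agree by
`Fintype.prod_prod_type`: `∏ v : I × J, μ v (G v.1 v.2) = ∏ i, ∏ j, μ (i, j) (G i j)`.
(The `Fintype` instances are classical; if an instance mismatch appears, use `convert` /
`Subsingleton.elim`.)
-/

set_option autoImplicit false
set_option linter.unusedSectionVars false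

namespace Pool.Agent.H71.RO

open Finset Classical
open Pool.Agent.H59.Er

theorem ex_curry {I J R : Type} [Fintype I] [Fintype J] [Fintype R] (μ : I × J → R → ℝ)
    (f : (I × J → R) → ℝ) :
    Ex μ f = Ex (fun (i : I) (g : J → R) => ∏ j, μ (i, j) (g j)) (fun G => f (fun v => G v.1 v.2)) := by
  unfold Ex
  have h : ∀ ρ : I × J → R, (∏ i, μ i (ρ i)) * f ρ =
      (fun G : I → J → R => (∏ i, ∏ j, μ (i, j) (G i j)) * f (fun v => G v.1 v.2))
        (Equiv.curry I J R ρ) := by
    intro ρ
    rw [Fintype.prod_prod_type]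
    rfl
  rw [Finset.sum_congr rfl fun ρ _ => h ρ]
  convert Equiv.sum_comp (Equiv.curry I J R)
    (fun G : I → J → R => (∏ i, ∏ j, μ (i, j) (G i j)) * f (fun v => G v.1 v.2)) using 2
  ext x
  simp

end Pool.Agent.H71.RO
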