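import Pool.Agent.H71.RO.Defs

/-!
# Splitting a product expectation over pairs

PROOF. Unfold `Ex`. Use the bijection `(I → A × B) ≃ (I → A) × (I → B)`
(`Equiv.arrowProdEquivProdArrow`, check its name and arguments, or build it by hand:
`F ↦ (fun i => (F i).1, fun i => (F i).2)`), then `Fintype.sum_prod_type`, `Finset.mul_sum`,
`Finset.prod_mul_distrib` and `ring`.
-/

set_option autoImplicit false
set_option linter.unusedSectionVars false

namespace Pool.Agent.H71.RO

open Finset Classical
open Pool.Agent.H59.Er

theorem ex_split {I A B : Type} [Fintype I] [Fintype A] [Fintype B] (m : I → A → ℝ)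
    (n : I → A → B → ℝ) (F : (I → A × B) → ℝ) :
    Ex (fun (i : I) (p : A × B) => m i p.1 * n i p.1 p.2) F =
      Ex m (fun a => Ex (fun i b => n i (a i) b) (fun b => F (fun i => (a i, b i)))) := by
  unfold Ex
  let e : ((I → A) × (I → B)) ≃ (I → A × B) :=
    { toFun := fun q i => (q.1 i, q.2 i)
      invFun := fun f => (fun i => (f i).1, fun i => (f i).2)
      left_inv := fun q => rfl
      right_inv := fun f => rfl }
  rw [← Equiv.sum_comp e, Fintype.sum_prod_type]
  refine Finset.sum_congr rfl fun a _ => ?_
  rw [Finset.mul_sum]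
  refine Finset.sum_congr rfl fun b _ => ?_
  show (∏ i, m i (a i) * n i (a i) (b i)) * F (fun i => (a i, b i)) = _
  rw [Finset.prod_mul_distrib]
  ring

end Pool.Agent.H71.RO
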