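import Pool.Agent.H71.RO.Defs

/-!
# Push-forward of a product expectation under local maps

PROOF. Unfold `Ex` on the right: for every `Y : I → Y'` the product of sums is a sum of products,
`∏ i, ∑ r, m i r * ind (g i r = Y i) = ∑ ρ : I → R, ∏ i, (m i (ρ i) * ind (g i (ρ i) = Y i))`
(`Finset.prod_univ_sum` and `Fintype.piFinset_univ`, as in the proof of `ex_one` in
H59/Er/Prob.lean). Exchange the two sums (`Finset.sum_comm`). For fixed `ρ`,
`∏ i, (m i (ρ i) * ind (g i (ρ i) = Y i)) * F Y = (∏ i, m i (ρ i)) * (∏ i, ind (g i (ρ i) = Y i)) * F Y`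
and the product of the indicators is `0` unless `Y = fun i => g i (ρ i)`, where it is `1`
(`Finset.sum_eq_single`).
-/

set_option autoImplicit false
set_option linter.unusedSectionVars false

namespace Pool.Agent.H71.RO

open Finset Classical
open Pool.Agent.H59.Er

theorem ex_map {I R Y : Type} [Fintype I] [Fintype R] [Fintype Y] (m : I → R → ℝ) (g : I → R → Y)
    (F : (I → Y) → ℝ) :
    Ex m (fun ρ => F (fun i => g i (ρ i))) = Ex (fun i y => ∑ r, m i r * ind (g i r = y)) F := by
  have h1 : ∀ Y' : I → Y, (∏ i, ∑ r, m i r * ind (g i r = Y' i)) * F Y' =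
      ∑ ρ : I → R, (∏ i, (m i (ρ i) * ind (g i (ρ i) = Y' i))) * F Y' := by
    intro Y'
    rw [Finset.prod_univ_sum, Fintype.piFinset_univ, Finset.sum_mul]
  have h2 : Ex (fun i y => ∑ r, m i r * ind (g i r = y)) F =
      ∑ Y' : I → Y, (∏ i, ∑ r, m i r * ind (g i r = Y' i)) * F Y' := rfl
  rw [h2, Finset.sum_congr rfl fun Y' _ => h1 Y', Finset.sum_comm]
  unfold Ex
  refine Finset.sum_congr rfl fun ρ _ => ?_
  rw [Finset.sum_eq_single (fun i => g i (ρ i))]
  · congr 1
    refine Finset.prod_congr rfl fun i _ => ?_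
    rw [ind_true rfl, mul_one]
  · intro Y' _ hne
    obtain ⟨i, hi⟩ : ∃ i, g i (ρ i) ≠ Y' i := by
      by_contra hc
      push Not at hc
      exact hne (funext fun i => (hc i).symm)
    rw [Finset.prod_eq_zero (Finset.mem_univ i), zero_mul]
    rw [ind_false hi, mul_zero]
  · intro h
    exact absurd (Finset.mem_univ _) h

end Pool.Agent.H71.RO
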