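import Pool.Agent.H71.RO.Defs

/-!
# Mixing two independent copies; conditional bounds

PROOF of `ex_mix`. As in the proof of `ex_resample` (H59/Er/Prob.lean): the map
`σ (x, y) = (mix S x y, mix S y x)` is an involution of `(I → R) × (I → R)` and
`(∏ i, μ i (x i)) * (∏ i, μ i (y i)) = (∏ i, μ i (mix S x y i)) * (∏ i, μ i (mix S y x i))`
(`Finset.prod_mul_distrib` and, for every `i`, commutativity if `i ∉ S`). So
`Ex_x Ex_y f (mix S x y) = ∑_{(x,y)} (weight of σ (x,y)) * f ((σ (x,y)).1)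
= ∑_{(x,y)} (∏ μ i (x i)) (∏ μ i (y i)) f x = Ex f` as the weights of `y` sum to one (`ex_one`).

PROOF of `pr_and_le`. `Pr (E ∧ F) = Ex_x Ex_y ind (E (mix S x y) ∧ F (mix S x y))`; since `E` depends
only on `S` and `mix S x y` agrees with `x` on `S`, this is `Ex_x (ind (E x) * Pr_y (F (mix S x y)))`
(`ind_and`, `ex_mul`), and `Pr_y (..) ≤ c` gives `≤ Ex_x (ind (E x) * c) = Pr E * c` (`ex_mono`).
-/

set_option autoImplicit false
set_option linter.unusedSectionVars false

namespace Pool.Agent.H71.RO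

open Finset Classical
open Pool.Agent.H59.Er

/-- `x` on `S` and `y` outside -/
noncomputable def mix {I R : Type} (S : Set I) (x y : I → R) : I → R :=
  fun i => if i ∈ S then x i else y i

theorem Ed_mix_in {I R : Type} {S : Set I} (x y : I → R) {i : I} (hi : i ∈ S) :
    mix S x y i = x i := if_pos hi

theorem Ed_mix_out {I R : Type} {S : Set I} (x y : I → R) {i : I} (hi : i ∉ S) :
    mix S x y i = y i := if_neg hi

theorem Ed_mix_mix {I R : Type} (S : Set I) (x y : I → R) :
    mix S (mix S x y) (mix S y x) = x := by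
  funext i
  by_cases hi : i ∈ S
  · rw [Ed_mix_in _ _ hi, Ed_mix_in _ _ hi]
  · rw [Ed_mix_out _ _ hi, Ed_mix_out _ _ hi]

theorem ex_mix {I R : Type} [Fintype I] [Fintype R] {μ : I → R → ℝ} (h : IsPr μ) (S : Set I)
    (f : (I → R) → ℝ) : Ex μ f = Ex μ (fun x => Ex μ (fun y => f (mix S x y))) := by
  let σ : (I → R) × (I → R) ≃ (I → R) × (I → R) :=
    { toFun := fun z => (mix S z.1 z.2, mix S z.2 z.1)
      invFun := fun z => (mix S z.1 z.2, mix S z.2 z.1)
      left_inv := by
        rintro ⟨a, b⟩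
        show (mix S (mix S a b) (mix S b a), mix S (mix S b a) (mix S a b)) = (a, b)
        rw [Ed_mix_mix, Ed_mix_mix]
      right_inv := by
        rintro ⟨a, b⟩
        show (mix S (mix S a b) (mix S b a), mix S (mix S b a) (mix S a b)) = (a, b)
        rw [Ed_mix_mix, Ed_mix_mix] }
  have key : ∀ x y : I → R, (∏ i, μ i (x i)) * (∏ i, μ i (y i)) =
      (∏ i, μ i (mix S x y i)) * (∏ i, μ i (mix S y x i)) := by
    intro x y
    rw [← Finset.prod_mul_distrib, ← Finset.prod_mul_distrib]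
    refine Finset.prod_congr rfl fun i _ => ?_
    by_cases hi : i ∈ S
    · rw [Ed_mix_in _ _ hi, Ed_mix_in _ _ hi]
    · rw [Ed_mix_out _ _ hi, Ed_mix_out _ _ hi, mul_comm]
  have h1 : Ex μ (fun x => Ex μ (fun y => f (mix S x y))) =
      ∑ z : (I → R) × (I → R), (∏ i, μ i ((σ z).1 i)) * (∏ i, μ i ((σ z).2 i)) * f (σ z).1 := by
    unfold Ex
    rw [Fintype.sum_prod_type]
    refine Finset.sum_congr rfl fun x _ => ?_
    rw [Finset.mul_sum]
    refine Finset.sum_congr rfl fun y _ => ?_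
    show _ = (∏ i, μ i (mix S x y i)) * (∏ i, μ i (mix S y x i)) * f (mix S x y)
    rw [← key x y]
    ring
  rw [h1, Equiv.sum_comp σ (fun z : (I → R) × (I → R) =>
    (∏ i, μ i (z.1 i)) * (∏ i, μ i (z.2 i)) * f z.1), Fintype.sum_prod_type]
  unfold Ex
  refine Finset.sum_congr rfl fun x _ => ?_
  have h2 := ex_one h
  unfold Ex at h2
  simp only [mul_one] at h2
  have h3 : ∑ y : I → R, (∏ i, μ i (x i)) * (∏ i, μ i (y i)) * f x =
      (∏ i, μ i (x i)) * f x * ∑ y : I → R, ∏ i, μ i (y i) := by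
    rw [Finset.mul_sum]
    exact Finset.sum_congr rfl fun y _ => by ring
  rw [h3, h2, mul_one]

theorem pr_and_le {I R : Type} [Fintype I] [Fintype R] {μ : I → R → ℝ} (h : IsPr μ) (S : Set I)
    (E F : (I → R) → Prop) (hE : ∀ x y : I → R, (∀ i ∈ S, x i = y i) → (E x ↔ E y)) (c : ℝ)
    (hF : ∀ x, Pr μ (fun y => F (mix S x y)) ≤ c) :
    Pr μ (fun x => E x ∧ F x) ≤ Pr μ E * c := by
  have h1 : Pr μ (fun x => E x ∧ F x) =
      Ex μ (fun x => ind (E x) * Pr μ (fun y => F (mix S x y))) := by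
    unfold Pr
    rw [ex_mix h S]
    congr 1
    funext x
    rw [← ex_mul]
    congr 1
    funext y
    rw [ind_and, ind_congr (hE (mix S x y) x (fun i hi => Ed_mix_in x y hi))]
  rw [h1]
  have h2 : Pr μ E * c = Ex μ (fun x => ind (E x) * c) := by
    unfold Pr
    have h3 := ex_mul μ c (fun x => ind (E x))
    rw [mul_comm, ← h3]
    congr 1
    funext x
    ring
  rw [h2]
  exact ex_mono h fun x => mul_le_mul_of_nonneg_left (hF x) (ind_nonneg _)

end Pool.Agent.H71.RO
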