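import Pool.Agent.H71.RO.Defs

/-!
# Marginals of a power of a probability distribution

PROOF. Let `K := {i : I // i ∉ Set.range ι}`. The maps `ι` and the inclusion of `K` give a bijection
`e : J ⊕ K ≃ I`. Reindex (`Equiv.sum_comp` with `Equiv.arrowCongr`/`e.arrowCongr (Equiv.refl R)`) so
that the sum runs over `J ⊕ K → R`, identify this with `(J → R) × (K → R)`
(`Equiv.sumArrowEquivProdArrow`), `Fintype.sum_prod_type`, `Fintype.prod_sum_type`. The sum over
`K → R` of `∏ m` is `(∑ r, m r) ^ |K| = 1` (`ex_one` for the constant weights: `IsPr` is not needed,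
only `Finset.prod_univ_sum`; note that `ex_one` needs nonnegativity, so redo its three lines).
Alternative proof: induction is also fine.
-/

set_option autoImplicit false
set_option linter.unusedSectionVars false

namespace Pool.Agent.H71.RO

open Finset Classical
open Pool.Agent.H59.Er

theorem ex_comp_inj {I J R : Type} [Fintype I] [Fintype J] [Fintype R] (m : R → ℝ)
    (hm : ∑ r, m r = 1) (ι : J → I) (hι : Function.Injective ι) (F : (J → R) → ℝ) :
    Ex (fun _ : I => m) (fun x => F (fun j => x (ι j))) = Ex (fun _ : J => m) F := by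
  let K : Set I := (Set.range ι)ᶜ
  let e : J ⊕ K ≃ I :=
    ((Equiv.ofInjective ι hι).sumCongr (Equiv.refl K)).trans (Equiv.Set.sumCompl (Set.range ι))
  have he : ∀ j, e (Sum.inl j) = ι j := fun j => rfl
  have h1 : ∑ ρ : K → R, ∏ k, m (ρ k) = 1 := by
    have h := Finset.prod_univ_sum (fun _ : K => (Finset.univ : Finset R)) (fun _ r => m r)
    rw [Fintype.piFinset_univ] at h
    rw [← h]
    simp [hm]
  have h2 : ∑ p : (J → R) × (K → R), ((∏ j, m (p.1 j)) * ∏ k, m (p.2 k)) * F p.1 =
      ∑ ρ : J → R, (∏ j, m (ρ j)) * F ρ := by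
    rw [Fintype.sum_prod_type]
    refine Finset.sum_congr rfl fun ρ _ => ?_
    simp only
    rw [← Finset.sum_mul, ← Finset.mul_sum, h1, mul_one]
  unfold Ex
  rw [← h2]
  refine Fintype.sum_equiv ((e.arrowCongr (Equiv.refl R)).symm.trans
    (Equiv.sumArrowEquivProdArrow J K R)) _ _ fun ρ => ?_
  have h3 : ∏ i, m (ρ i) = (∏ j, m (ρ (e (Sum.inl j)))) * ∏ k, m (ρ (e (Sum.inr k))) := by
    rw [← Equiv.prod_comp e (fun i => m (ρ i)), Fintype.prod_sum_type]
  rw [h3]
  rfl

end Pool.Agent.H71.RO
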