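import Pool.Agent.H71.RO.Lang

/-!
# The event that a machine with advice decides the language on all inputs with a given header
-/

set_option autoImplicit false

namespace Pool.Agent.H71.RO

open Pool.Agent.H9

/-- for some advice of length at most `r(N)`, where `N` is the length of the inputs, the machine `p` with `k`
blocks of quantified strings of length `q(N)` and `T(N + k q(N) + r(N))` steps is correct on all inputs
with the given header -/
def Ev (k : ℕ) (q r T : Polynomial ℕ) (p : Prog) (as : List ℕ) (b n : ℕ) (A : Oracle) : Prop :=
  ∃ h : List Bool, h.length ≤ r.eval (ilen as b n) ∧
    Ev1 k (q.eval (ilen as b n))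
      (T.eval (ilen as b n + k * q.eval (ilen as b n) + r.eval (ilen as b n))) p h as b n A

end Pool.Agent.H71.RO
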