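import Pool.Agent.H71.RO.Defs

/-!
# The set of variables read by a decision tree

PROOF. Induction on `hf` (with `β = Prop`; generalise if necessary: the statement for functions with any `β` and
`f y' = f y` is proved in the same way). `const`: `R y := ∅`. `node n i g`: with the functions `R a` of the subtrees
(`choose`), `R y := insert i (R (y i) y)`, of cardinality `≤ n + 1`. If `y'` agrees with `y` on it, then `y' i = y i`, so
both `R y'` and `f y'` are computed in the same subtree `a = y i`, and the induction hypothesis applies.
-/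

set_option autoImplicit false
set_option linter.unusedSectionVars false

namespace Pool.Agent.H71.RO

open Finset Classical
open Pool.Agent.H59.Er

theorem Fa_read {V β : Type} {s : ℕ} {f : (V → Bool) → β} (hf : DT s f) :
    ∃ R : (V → Bool) → Finset V, (∀ y, (R y).card ≤ s) ∧
      ∀ y y' : V → Bool, (∀ v ∈ R y, y' v = y v) → R y' = R y ∧ f y' = f y := by
  induction hf with
  | const n b => exact ⟨fun _ => ∅, fun _ => by simp, fun _ _ _ => ⟨rfl, rfl⟩⟩
  | node n i g _ ih =>
    choose R h1 h2 using ih
    refine ⟨fun y => insert i (R (y i) y), fun y => ?_, fun y y' h => ?_⟩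
    · exact (Finset.card_insert_le _ _).trans (Nat.add_le_add_right (h1 _ _) 1)
    · have hi : y' i = y i := h i (Finset.mem_insert_self _ _)
      have h3 := h2 (y i) y y' (fun v hv => h v (Finset.mem_insert_of_mem hv))
      constructor
      · show insert i (R (y' i) y') = insert i (R (y i) y)
        rw [hi, h3.1]
      · show g (y' i) y' = g (y i) y
        rw [hi, h3.2]

theorem dt_read {V : Type} {s : ℕ} {f : (V → Bool) → Prop} (hf : DT s f) :
    ∃ R : (V → Bool) → Finset V, (∀ y, (R y).card ≤ s) ∧
      ∀ y y' : V → Bool, (∀ v ∈ R y, y' v = y v) → R y' = R y ∧ (f y' ↔ f y) := by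
  obtain ⟨R, h1, h2⟩ := Fa_read hf
  exact ⟨R, h1, fun y y' h => ⟨(h2 y y' h).1, by rw [(h2 y y' h).2]⟩⟩

end Pool.Agent.H71.RO
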