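import Pool.Agent.H71.RO.Ea
import Pool.Agent.H71.RO.Eb
import Pool.Agent.H71.RO.Ec
import Pool.Agent.H71.RO.Defs

/-!
# The statuses of the gates are independent

PROOF. Left side: `ex_curry` (with `μ = fun _ => law`) turns the outer expectation into
`Ex (fun (a : U) (τ : W → St) => ∏ w, law (τ w)) (fun T => Ex (fun a r => lw t u (T a) r) (fun r =>
G (fun a => ns (T a) (r a))))` (here `fun w => (fun v => T v.1 v.2) (a, w)` is `T a` by `rfl`). By `ex_split`
(right to left, `A = W → St`, `B = Loc W`, `m a τ = ∏ w, law (τ w)`, `n a τ r = lw t u τ r`) this is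
`Ex (fun a p => (∏ w, law (p.1 w)) * lw t u p.1 p.2) (fun P => G (fun a => ns (P a).1 (P a).2))`, and by `ex_map`
it is `Ex (fun a c => ∑ p, (∏ w, law (p.1 w)) * lw t u p.1 p.2 * ind (ns p.1 p.2 = c)) G`. The weight is
`nlaw W t u law c` by `Fintype.sum_prod_type`, `Finset.mul_sum` and `mul_assoc`.
-/

set_option autoImplicit false
set_option linter.unusedSectionVars false

namespace Pool.Agent.H71.RO

open Finset Classical
open Pool.Agent.H59.Er

theorem ex_ns {U W : Type} [Fintype U] [Fintype W] (t u : ℝ) (law : St → ℝ)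
    (G : (U → St) → ℝ) :
    Ex (fun _ : U × W => law) (fun σ => Ex (fun (a : U) r => lw t u (fun w => σ (a, w)) r)
      (fun r => G (fun a => ns (fun w => σ (a, w)) (r a)))) =
      Ex (fun _ : U => nlaw W t u law) G := by
  rw [ex_curry (fun _ : U × W => law)]
  refine (ex_split (I := U) (A := W → St) (B := Loc W) (fun _ τ => ∏ w, law (τ w))
    (fun _ τ r => lw t u τ r) (fun P => G (fun a => ns (P a).1 (P a).2))).symm.trans ?_
  rw [ex_map (fun (_ : U) (p : (W → St) × Loc W) => (∏ w, law (p.1 w)) * lw t u p.1 p.2)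
    (fun _ p => ns p.1 p.2) G]
  congr 1
  funext i y
  rw [nlaw, Fintype.sum_prod_type]
  refine Finset.sum_congr rfl fun τ _ => ?_
  rw [Finset.mul_sum]
  exact Finset.sum_congr rfl fun r _ => mul_assoc _ _ _

end Pool.Agent.H71.RO
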