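import Pool.Agent.H71.RO.Defs

/-!
# Block terms for a decision tree over the bits

PROOF. `DT.terms` (H59/Er/DT.lean, `X = Bool`, blocks `I = U × W`) gives a list `F0 : List (Term (U × W) Bool)`
with `T.S.card ≤ s`, `∀ i ∈ T.S, ∃ a, T.P i = {a}`, and `f y ↔ Dnf F0 y`. Map every `T` to the block term
`T'` with `T'.S := T.S.image Prod.fst` and `T'.P a := {x | ∀ w ∈ Rs a, x w = c a w}`, where
`Rs a := (T.S.filter (fun v => v.1 = a)).image Prod.snd` and `c a w := decide (true ∈ T.P (a, w))`. For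
`(a, w) ∈ T.S` with `T.P (a, w) = {b}`: `y (a, w) ∈ T.P (a, w) ↔ y (a, w) = b ↔ y (a, w) = decide (true ∈ {b})`.
So `T.Sat y ↔ T'.Sat (fun a w => y (a, w))`; cardinalities by `Finset.card_image_le`, `Finset.card_filter_le`.
-/

set_option autoImplicit false
set_option linter.unusedSectionVars false

namespace Pool.Agent.H71.RO

open Finset Classical
open Pool.Agent.H59.Er

/-- the positions read by the term inside the block `a` -/
noncomputable def Sc_Rs {U W : Type} (T : Term (U × W) Bool) (a : U) : Finset W :=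
  (T.S.filter (fun v => v.1 = a)).image Prod.snd

/-- the value which the term requires -/
noncomputable def Sc_c {U W : Type} (T : Term (U × W) Bool) (a : U) : W → Bool :=
  fun w => decide (true ∈ T.P (a, w))

/-- the block term of a term -/
noncomputable def Sc_tm {U W : Type} (T : Term (U × W) Bool) : Term U (W → Bool) where
  S := T.S.image Prod.fst
  P := fun a => {x | ∀ w ∈ Sc_Rs T a, x w = Sc_c T a w}

theorem Sc_mem_Rs {U W : Type} (T : Term (U × W) Bool) (a : U) (w : W) :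
    w ∈ Sc_Rs T a ↔ (a, w) ∈ T.S := by
  unfold Sc_Rs
  simp only [Finset.mem_image, Finset.mem_filter]
  constructor
  · rintro ⟨⟨a', w'⟩, ⟨h1, h2⟩, h3⟩
    simp only at h2 h3
    subst h2 h3
    exact h1
  · intro h
    exact ⟨(a, w), ⟨h, rfl⟩, rfl⟩

theorem Sc_card_Rs {U W : Type} (T : Term (U × W) Bool) (a : U) :
    (Sc_Rs T a).card ≤ T.S.card :=
  (Finset.card_image_le).trans (Finset.card_filter_le _ _)

theorem Sc_sat {U W : Type} (T : Term (U × W) Bool)
    (hT : ∀ i ∈ T.S, ∃ a, T.P i = {a}) (y : U × W → Bool) :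
    T.Sat y ↔ (Sc_tm T).Sat (fun a w => y (a, w)) := by
  have key : ∀ a w, (a, w) ∈ T.S → (y (a, w) ∈ T.P (a, w) ↔ y (a, w) = Sc_c T a w) := by
    intro a w h
    obtain ⟨b, hb⟩ := hT (a, w) h
    unfold Sc_c
    rw [hb]
    cases b <;> cases y (a, w) <;> simp
  constructor
  · intro h a _ w hw
    have h1 : (a, w) ∈ T.S := (Sc_mem_Rs T a w).1 hw
    exact (key a w h1).1 (h (a, w) h1)
  · rintro h ⟨a, w⟩ haw
    refine (key a w haw).2 ?_
    have h1 : a ∈ (Sc_tm T).S := Finset.mem_image.2 ⟨(a, w), haw, rfl⟩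
    exact h a h1 w ((Sc_mem_Rs T a w).2 haw)

theorem flat_terms {U W : Type} [Fintype U] [Fintype W] {s : ℕ} {f : (U × W → Bool) → Prop}
    (hf : DT s f) : ∃ F : List (Term U (W → Bool)),
      (∀ T ∈ F, T.S.card ≤ s ∧ ∀ a ∈ T.S, ∃ (Rs : Finset W) (c : W → Bool), Rs.card ≤ s ∧
        T.P a = {x | ∀ w ∈ Rs, x w = c w}) ∧
      ∀ y : U × W → Bool, f y ↔ Dnf F (fun a w => y (a, w)) := by
  obtain ⟨F, hF1, hF2⟩ := DT.terms hf
  refine ⟨F.map Sc_tm, ?_, ?_⟩
  · intro T hT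
    obtain ⟨T0, h0, rfl⟩ := List.mem_map.1 hT
    obtain ⟨h1, -⟩ := hF1 T0 h0
    refine ⟨(Finset.card_image_le).trans h1, ?_⟩
    intro a _
    exact ⟨Sc_Rs T0 a, Sc_c T0 a, (Sc_card_Rs T0 a).trans h1, rfl⟩
  · intro y
    rw [hF2 y]
    unfold Dnf
    constructor
    · rintro ⟨T, hT, hs⟩
      exact ⟨Sc_tm T, List.mem_map.2 ⟨T, hT, rfl⟩, (Sc_sat T (hF1 T hT).2 y).1 hs⟩
    · rintro ⟨T', hT', hs⟩
      obtain ⟨T, hT, rfl⟩ := List.mem_map.1 hT'
      exact ⟨T, hT, (Sc_sat T (hF1 T hT).2 y).2 hs⟩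

end Pool.Agent.H71.RO
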