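import Pool.Agent.H71.RO.Sb
import Pool.Agent.H71.RO.Sc

/-!
# The switching lemma for one round

PROOF of `sw_round`. For `i ∈ S` let `F' i` be the list of `flat_terms`; the concatenation `L := S.toList.flatMap F'`
(with `F' i := []` if `i ∉ S`) satisfies `(∃ i ∈ S, F i y) ↔ Dnf L (fun a w => y (a, w))` (`dnf_flatMap`).
Apply `Pool.Agent.H59.Er.switching` with blocks `I := U`, `R := Loc W`, `X := W → Bool`,
`μ a r := lw t u (fun w => σ (a, w)) r` (`lw_isPr`), `A a r := Al (fun w => σ (a, w)) r`,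
`As a r := As (fun w => σ (a, w)) r` (`hsub`: mode `st`: `clr τ z` and `z` are in `Al`), `hA`: clear, `K a := 2`
(`Finset.card_le_two`), `γ := 4 * u`, `α := 1 / 2`, `w := s`, `Γ := fun _ => True` (`DownAt` is trivial).
`hw`: `(1 + 8 * u) ^ s ≤ 2`: `(1 + 8 * u) ^ s ≤ exp (8 * u * s) ≤ exp (2 / 3) ≤ 2` (`Real.add_one_le_exp`,
`12 * u * s ≤ 1`; `exp (2 / 3) ≤ 2` iff `2 / 3 ≤ log 2`, `Real.log_two_gt_d9`). `LocalCond`: `local_cond` (`T.P a` is
`cyl Rs c`; `u ≤ 1 / 12 ≤ 1 / 4` as `1 ≤ s`).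
The result: `Pr (¬ Good As (Dnf L) s ρ ∧ True) ≤ (1 / 2) ^ s * Pr (True) = (1 / 2) ^ s` (`pr_true`). If `Good ..` holds,
there are `n < s` and `g` with `DT n g` and `Dnf L x ↔ g x` for all `x` with `x a ∈ As a (ρ a)`; take
`g' y := g (fun a => ph (fun w => σ (a, w)) (r a) (y a))`: it has `DT n` by `DT.subst` (`I' = U`, `X' = Bool`,
`a := id`, `G a b := ph .. (r a) b`), hence `DT s` (`DT.mono`), and `(∃ i ∈ S, F i (Phi σ r y)) ↔ Dnf L (fun a w =>
Phi σ r y (a, w)) ↔ g' y` as `fun w => Phi σ r y (a, w)` is `ph .. (r a) (y a) ∈ As` (`y a` is true or false).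

PROOF of `sw_qt`. `e = true`: `qt true m φ ↔ ∃ v ∈ strings m, φ v` (`mem_strings`); apply `sw_round` with
`S := strings m`. `e = false`: `qt false m φ ↔ ¬ ∃ v ∈ strings m, ¬ φ v`; apply `sw_round` to `¬ D v` (`DT.map`) and
negate `g` (`DT.map` with `Not`).
-/

set_option autoImplicit false
set_option linter.unusedSectionVars false

namespace Pool.Agent.H71.RO

open Finset Classical
open Pool.Agent.H59.Er
open Pool.Agent.H9 (qt strings)

variable {U W : Type} [Fintype U] [Fintype W]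

theorem Sd_ph_mem (τ : W → St) (r : Loc W) (b : Bool) : ph τ r b ∈ Al τ r := by
  obtain ⟨m, z⟩ := r
  cases m with
  | ac => exact Set.mem_singleton _
  | fo => exact Set.mem_singleton _
  | st =>
    show ∀ w, ph τ (Md.st, z) b w = z w ∨ (τ w = St.S ∧ z w = true)
    intro w
    cases b with
    | false => left; rfl
    | true =>
      have h1 : ph τ (Md.st, z) true w = if τ w = St.S then false else z w := rfl
      rw [h1]
      by_cases h : τ w = St.S
      · rw [if_pos h]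
        cases hz : z w with
        | false => left; rfl
        | true => right; exact ⟨h, rfl⟩
      · rw [if_neg h]
        left; rfl

theorem Sd_sub (τ : W → St) (r : Loc W) : (As τ r : Set (W → Bool)) ⊆ Al τ r := by
  intro x hx
  unfold As at hx
  rw [Finset.mem_coe, Finset.mem_insert, Finset.mem_singleton] at hx
  rcases hx with rfl | rfl
  · exact Sd_ph_mem τ r true
  · exact Sd_ph_mem τ r false

theorem Sd_mem_As (τ : W → St) (r : Loc W) (b : Bool) : ph τ r b ∈ As τ r := by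
  unfold As
  rw [Finset.mem_insert, Finset.mem_singleton]
  cases b with
  | false => right; rfl
  | true => left; rfl

theorem Sd_num {u : ℝ} {s : ℕ} (hu0 : 0 < u) (hus : 12 * u * s ≤ 1) :
    (1 + 4 * u / (1 / 2)) ^ s ≤ 2 := by
  have h1 : 1 + 4 * u / (1 / 2) ≤ Real.exp (8 * u) := by
    have := Real.add_one_le_exp (8 * u)
    linarith
  have h2 : (1 + 4 * u / (1 / 2)) ^ s ≤ Real.exp (8 * u) ^ s :=
    pow_le_pow_left₀ (by positivity) h1 s
  rw [← Real.exp_nat_mul] at h2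
  have h3 : (s : ℝ) * (8 * u) ≤ 2 / 3 := by linarith
  have h4 : Real.exp (2 / 3) ≤ 2 := by
    rw [← Real.le_log_iff_exp_le (by norm_num)]
    have := Real.log_two_gt_d9
    linarith
  exact h2.trans ((Real.exp_le_exp.mpr h3).trans h4)

theorem sw_round {κ : Type} {t u : ℝ} {s : ℕ} (ht0 : 0 < t) (ht1 : t < 1)
    (hts : t * s ≤ 1 / 4) (hu0 : 0 < u) (hus : 12 * u * s ≤ 1) (hs : 1 ≤ s) (σ : U × W → St)
    (S : Finset κ) (F : κ → (U × W → Bool) → Prop) (hF : ∀ i ∈ S, DT s (F i)) :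
    Pr (fun (a : U) r => lw t u (fun w => σ (a, w)) r)
      (fun r => ¬ ∃ g : (U → Bool) → Prop, DT s g ∧ ∀ y, (∃ i ∈ S, F i (Phi σ r y)) ↔ g y) ≤
      (1 / 2) ^ s := by
  have hs1 : (1 : ℝ) ≤ s := by exact_mod_cast hs
  have hu4 : u ≤ 1 / 4 := by nlinarith
  have hμ : IsPr (fun (a : U) r => lw t u (fun w => σ (a, w)) r) :=
    lw_isPr ht0.le ht1.le hu0 hu4 σ
  have hch : ∀ i : κ, ∃ F0 : List (Term U (W → Bool)), i ∈ S →
      (∀ T ∈ F0, T.S.card ≤ s ∧ ∀ a ∈ T.S, ∃ (Rs : Finset W) (c : W → Bool), Rs.card ≤ s ∧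
        T.P a = {x | ∀ w ∈ Rs, x w = c w}) ∧
      ∀ y : U × W → Bool, F i y ↔ Dnf F0 (fun a w => y (a, w)) := by
    intro i
    by_cases hi : i ∈ S
    · obtain ⟨F0, h1, h2⟩ := flat_terms (hF i hi)
      exact ⟨F0, fun _ => ⟨h1, h2⟩⟩
    · exact ⟨[], fun h => absurd h hi⟩
  choose F' hF' using hch
  have key := switching (I := U) (R := Loc W) (X := W → Bool)
    (μ := fun (a : U) r => lw t u (fun w => σ (a, w)) r)
    (A := fun a r => Al (fun w => σ (a, w)) r) (As := fun a r => As (fun w => σ (a, w)) r)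
    (K := fun _ => 2) (γ := 4 * u) hμ (fun a r => Sd_sub _ r)
    (fun a r => ⟨_, Sd_ph_mem _ r true⟩) (fun _ => by norm_num)
    (fun a r => by exact_mod_cast Finset.card_le_two) (by positivity)
    (α := 1 / 2) (by norm_num) (by norm_num) (w := s) (Sd_num hu0 hus)
    (S.toList.flatMap F').length (S.toList.flatMap F') le_rfl
    (by
      intro T hT
      rw [List.mem_flatMap] at hT
      obtain ⟨i, hi, hT⟩ := hT
      obtain ⟨h1, h2⟩ := (hF' i (Finset.mem_toList.1 hi)).1 T hT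
      refine ⟨h1, fun a ha => ?_⟩
      obtain ⟨Rs, c, hRs, hP⟩ := h2 a ha
      rw [hP]
      intro Γ hΓ
      exact local_cond ht0 ht1 hts hu0 hu4 (fun w => σ (a, w)) Rs hRs c Γ hΓ)
    s (fun _ => True) (fun T _ a _ ρ _ r _ => trivial)
  rw [pr_true hμ, mul_one] at key
  refine (pr_mono hμ ?_).trans key
  intro r hr
  refine ⟨fun hgood => hr ?_, trivial⟩
  obtain ⟨n, hn, g, hg, hfg⟩ := hgood
  refine ⟨fun y => g (fun a => ph (fun w => σ (a, w)) (r a) (y a)), ?_, ?_⟩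
  · exact (DT.subst hg (fun (y : U → Bool) a => ph (fun w => σ (a, w)) (r a) (y a)) id
      (fun a b => ph (fun w => σ (a, w)) (r a) b) (fun y i => rfl)).mono hn.le
  · intro y
    show _ ↔ g (fun a => ph (fun w => σ (a, w)) (r a) (y a))
    rw [← hfg (fun a => ph (fun w => σ (a, w)) (r a) (y a)) (fun a => Sd_mem_As _ _ _),
      dnf_flatMap]
    constructor
    · rintro ⟨i, hi, h⟩
      exact ⟨i, Finset.mem_toList.2 hi, ((hF' i hi).2 _).1 h⟩
    · rintro ⟨i, hi, h⟩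
      exact ⟨i, Finset.mem_toList.1 hi, ((hF' i (Finset.mem_toList.1 hi)).2 _).2 h⟩

theorem sw_qt {t u : ℝ} {s : ℕ} (ht0 : 0 < t) (ht1 : t < 1)
    (hts : t * s ≤ 1 / 4) (hu0 : 0 < u) (hus : 12 * u * s ≤ 1) (hs : 1 ≤ s) (σ : U × W → St)
    (e : Bool) (m : ℕ) (D : List Bool → (U × W → Bool) → Prop)
    (hD : ∀ v ∈ strings m, DT s (D v)) :
    Pr (fun (a : U) r => lw t u (fun w => σ (a, w)) r)
      (fun r => ¬ ∃ g : (U → Bool) → Prop, DT s g ∧
        ∀ y, qt e m (fun v => D v (Phi σ r y)) ↔ g y) ≤ (1 / 2) ^ s := by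
  have hs1 : (1 : ℝ) ≤ s := by exact_mod_cast hs
  have hu4 : u ≤ 1 / 4 := by nlinarith
  have hμ : IsPr (fun (a : U) r => lw t u (fun w => σ (a, w)) r) :=
    lw_isPr ht0.le ht1.le hu0 hu4 σ
  cases e with
  | true =>
    refine (pr_mono hμ ?_).trans (sw_round ht0 ht1 hts hu0 hus hs σ (strings m) D hD)
    intro r hr hg
    obtain ⟨g, hg1, hg2⟩ := hg
    refine hr ⟨g, hg1, fun y => ?_⟩
    rw [← hg2 y]
    constructor
    · rintro ⟨v, hv, h⟩
      exact ⟨v, Pool.Agent.H9.mem_strings.2 hv, h⟩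
    · rintro ⟨v, hv, h⟩
      exact ⟨v, Pool.Agent.H9.mem_strings.1 hv, h⟩
  | false =>
    refine (pr_mono hμ ?_).trans (sw_round ht0 ht1 hts hu0 hus hs σ (strings m)
      (fun v y => ¬ D v y) (fun v hv => (hD v hv).map Not))
    intro r hr hg
    obtain ⟨g, hg1, hg2⟩ := hg
    refine hr ⟨fun y => ¬ g y, hg1.map Not, fun y => ?_⟩
    show _ ↔ ¬ g y
    rw [← hg2 y]
    constructor
    · rintro h ⟨v, hv, h2⟩
      exact h2 (h v (Pool.Agent.H9.mem_strings.1 hv))
    · intro h v hv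
      by_contra h2
      exact h ⟨v, Pool.Agent.H9.mem_strings.2 hv, h2⟩

end Pool.Agent.H71.RO
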