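import Pool.Agent.H71.RO.Le
import Pool.Agent.H71.RO.Lf
import Pool.Agent.H71.RO.Sd

/-!
# One round

PROOF of `bd_nonneg`. The circuits `C x y := AltL e ms (fun _ => True)` with `D us y := True` (`DT.const`) are
admissible, so `v σ ≥ Pr .. ≥ 0` (`pr_nonneg`, weights `bern t` with `0 ≤ t ≤ 1`).

PROOF of `q_step`. Let `v` be the function of the hypothesis. Put `err := card X * 2 ^ ms.sum * (1 / 2) ^ s` and
`v' σ := err + Ex (fun a r => lw t u (fun w => σ (a, w)) r) (fun r => v (fun a => ns (fun w => σ (a, w)) (r a)))`.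
Expectation: `Ex (fun _ => law) v' = err + Ex (nlaw) v ≤ err + B` (`ex_add`, `ex_const`, `ex_ns`).
`Bd`: let `σ`, `C` be given, `D x` the trees of `C x` for the lengths `ms ++ [m]`. By `ex_phi` the probability (`Pr` is
`Ex` of `ind`) equals `Ex_r Ex_y' ind (∀ x, C x (Phi σ r y') ↔ up f x (fun i => vl (σ i) (Phi σ r y' i)))`, and by `up_phi`
the right side of the equivalence is `f x (fun a => vl (ns .. (r a)) (y' a))`. Let `Bad r` be: for some `x` and some
`us ∈ paths ms` there is no `g` with `DT s g` and `∀ y, qt e' m (fun w => D x (us ++ [w]) (Phi σ r y)) ↔ g y`, where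
`e' := e ^^ ms.length.bodd`. If `¬ Bad r`, choose the `g x us` (arbitrary for `us ∉ paths ms`); by `AltL_snoc` and
`AltL_congr` (`mem_paths`) `C x (Phi σ r y) ↔ AltL e ms (fun us => g x us y)`, so `fun y => C x (Phi σ r y)` is `Ck e ms s`,
and the inner probability is at most `v (new statuses)` by the hypothesis. If `Bad r` it is at most
`1 = ind (Bad r)` and `v ≥ 0` (`bd_nonneg`). So it is at most `ind (Bad r) + v (..)` in all cases. `Ex_r ind (Bad r) ≤ err`
by `pr_exists_le` twice (or once over `Finset.univ ×ˢ paths ms`), `sw_qt` and `card_paths`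
(for `us ∈ paths ms` and `w ∈ strings m`: `us ++ [w] ∈ paths (ms ++ [m])` by `mem_paths`, `mem_strings`).
(If `X` has no `Fintype`-decidability problem use `Finset.univ : Finset X`.)

PROOF of `q_comp`. The same without `Bad`: `v' σ := Ex (..) (fun r => v (..))`; the circuits `y ↦ C x (Phi σ r y)` are
`Ck e ms s` with the trees `D x us ∘ Phi σ r` by `DT.subst` (`I' := U`, `X' := Bool`, block map `Prod.fst`,
`G v b := ph (fun w => σ (v.1, w)) (r v.1) b v.2`).
-/

set_option autoImplicit false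
set_option linter.unusedSectionVars false

namespace Pool.Agent.H71.RO

open Finset Classical
open Pool.Agent.H59.Er
open Pool.Agent.H9 (qt strings paths AltL)

theorem bern_isPr {V : Type} [Fintype V] {t : ℝ} (h0 : 0 ≤ t) (h1 : t ≤ 1) :
    IsPr (fun _ : V => bern t) := by
  refine ⟨fun _ r => ?_, fun _ => ?_⟩
  · cases r
    · show 0 ≤ 1 - t
      linarith
    · exact h0
  · rw [Fintype.sum_bool]
    show t + (1 - t) = 1
    ring

theorem bd_nonneg {X V : Type} [Fintype V] {f : X → (V → Bool) → Prop} {t : ℝ} {e : Bool}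
    {ms : List ℕ} {s : ℕ} {v : (V → St) → ℝ} (h0 : 0 ≤ t) (h1 : t ≤ 1) (h : Bd f t e ms s v)
    (σ : V → St) : 0 ≤ v σ := by
  refine (pr_nonneg (bern_isPr h0 h1) _).trans
    (h σ (fun _ _ => AltL e ms (fun _ => True)) fun x => ?_)
  exact ⟨fun _ _ => True, fun us _ => DT.const s True, fun y => Iff.rfl⟩

theorem Va_law {V : Type} [Fintype V] {law : St → ℝ} (hlaw : IsLaw law) :
    IsPr (fun _ : V => law) := ⟨fun _ r => hlaw.nonneg r, fun _ => hlaw.sum⟩

/-- the reduction of the probability to the restricted problem -/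
theorem Va_red {X U W : Type} [Fintype U] [Fintype W] {f : X → (U → Bool) → Prop}
    {t u : ℝ} (ht0 : 0 < t) (ht1 : t < 1) (hu0 : 0 < u) (hu : u ≤ 1 / 4)
    (σ : U × W → St) (C : X → (U × W → Bool) → Prop) (G : (U → Loc W) → ℝ)
    (hG : ∀ r, Pr (fun _ : U => bern (u ^ 2)) (fun y => ∀ x, C x (Phi σ r y) ↔
      f x (fun a => vl (ns (fun w => σ (a, w)) (r a)) (y a))) ≤ G r) :
    Pr (fun _ => bern t) (fun y => ∀ x, C x y ↔ up (W := W) f x (fun i => vl (σ i) (y i))) ≤
      Ex (fun (a : U) r => lw t u (fun w => σ (a, w)) r) G := by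
  unfold Pr
  rw [ex_phi ht0 ht1 hu0 hu σ]
  refine ex_mono (lw_isPr ht0.le ht1.le hu0 hu σ) fun r => ?_
  refine le_trans (le_of_eq ?_) (hG r)
  unfold Pr
  congr 1
  funext y
  apply ind_congr
  exact forall_congr' fun x => by rw [up_phi]

theorem q_step {X U W : Type} [Fintype X] [Fintype U] [Fintype W] {f : X → (U → Bool) → Prop}
    {t u : ℝ} {s : ℕ} (ht0 : 0 < t) (ht1 : t < 1) (hts : t * s ≤ 1 / 4) (hu0 : 0 < u)
    (hus : 12 * u * s ≤ 1) (hs : 1 ≤ s) {e : Bool} {ms : List ℕ} (m : ℕ) {law : St → ℝ}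
    (hlaw : IsLaw law) {B : ℝ} (h : Q f (u ^ 2) e ms s (nlaw W t u law) B) :
    Q (up (W := W) f) t e (ms ++ [m]) s law
      (Fintype.card X * 2 ^ ms.sum * (1 / 2) ^ s + B) := by
  obtain ⟨v, hv, hvB⟩ := h
  have hs1 : (1 : ℝ) ≤ s := by exact_mod_cast hs
  have hu12 : u ≤ 1 / 12 := by nlinarith
  have hu : u ≤ 1 / 4 := by linarith
  have hu2 : u ^ 2 ≤ 1 := by nlinarith
  have hpr : ∀ σ : U × W → St, IsPr (fun (a : U) r => lw t u (fun w => σ (a, w)) r) :=
    fun σ => lw_isPr ht0.le ht1.le hu0 hu σ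
  refine ⟨fun σ => (Fintype.card X * 2 ^ ms.sum * (1 / 2) ^ s : ℝ) +
    Ex (fun (a : U) r => lw t u (fun w => σ (a, w)) r)
      (fun r => v (fun a => ns (fun w => σ (a, w)) (r a))), ?_, ?_⟩
  swap
  · rw [ex_add, ex_const (Va_law hlaw), ex_ns]
    linarith
  intro σ C hC
  choose D hD hCD using hC
  -- the bad event
  let E : X × List (List Bool) → (U → Loc W) → Prop := fun p r =>
    ¬ ∃ g : (U → Bool) → Prop, DT s g ∧
      ∀ y, qt (e ^^ ms.length.bodd) m (fun w => D p.1 (p.2 ++ [w]) (Phi σ r y)) ↔ g y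
  let S : Finset (X × List (List Bool)) := (Finset.univ : Finset X) ×ˢ paths ms
  have hbad : Pr (fun (a : U) r => lw t u (fun w => σ (a, w)) r) (fun r => ∃ p ∈ S, E p r) ≤
      (Fintype.card X * 2 ^ ms.sum * (1 / 2) ^ s : ℝ) := by
    refine (pr_exists_le (hpr σ) S E ((1 / 2) ^ s) fun p hp => ?_).trans (le_of_eq ?_)
    · refine sw_qt ht0 ht1 hts hu0 hus hs σ _ m (fun w => D p.1 (p.2 ++ [w])) fun w hw => ?_
      apply hD
      have hp2 := (Finset.mem_product.1 hp).2
      rw [Pool.Agent.H9.mem_paths] at hp2 ⊢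
      rw [Pool.Agent.H9.mem_strings] at hw
      rw [List.map_append, hp2, List.map_cons, List.map_nil, hw]
    · show ((((Finset.univ : Finset X) ×ˢ paths ms).card : ℕ) : ℝ) * _ = _
      rw [Finset.card_product, Pool.Agent.H9.card_paths, Finset.card_univ]
      push_cast
      ring
  refine (Va_red (f := f) ht0 ht1 hu0 hu σ C
    (fun r => ind (∃ p ∈ S, E p r) + v (fun a => ns (fun w => σ (a, w)) (r a)))
    fun r => ?_).trans ?_
  · by_cases hb : ∃ p ∈ S, E p r
    · rw [ind_true hb]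
      have h1 := pr_le_one (bern_isPr (V := U) (t := u ^ 2) (by positivity) hu2) (fun y => ∀ x,
        C x (Phi σ r y) ↔ f x (fun a => vl (ns (fun w => σ (a, w)) (r a)) (y a)))
      have h2 := bd_nonneg (by positivity) hu2 hv (fun a => ns (fun w => σ (a, w)) (r a))
      linarith
    · have hg : ∀ x, ∀ us, us ∈ paths ms → ∃ g : (U → Bool) → Prop, DT s g ∧
          ∀ y, qt (e ^^ ms.length.bodd) m (fun w => D x (us ++ [w]) (Phi σ r y)) ↔ g y := by
        intro x us hus
        by_contra hcon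
        exact hb ⟨(x, us), Finset.mem_product.2 ⟨Finset.mem_univ _, hus⟩, hcon⟩
      choose! g hg using hg
      have h1 := hv (fun a => ns (fun w => σ (a, w)) (r a)) (fun x y => C x (Phi σ r y))
        (fun x => ⟨g x, fun us hus => (hg x us hus).1, fun y => ?_⟩)
      · exact h1.trans (by linarith [ind_nonneg (∃ p ∈ S, E p r)])
      · show C x (Phi σ r y) ↔ _
        rw [hCD x, Pool.Agent.H9.AltL_snoc]
        exact Pool.Agent.H9.AltL_congr fun us hus =>
          (hg x us (Pool.Agent.H9.mem_paths.2 hus)).2 y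
  · rw [ex_add]
    exact add_le_add hbad le_rfl

theorem q_comp {X U W : Type} [Fintype U] [Fintype W] {f : X → (U → Bool) → Prop}
    {t u : ℝ} {s : ℕ} (ht0 : 0 < t) (ht1 : t < 1) (hu0 : 0 < u) (hu : u ≤ 1 / 4)
    {e : Bool} {ms : List ℕ} {law : St → ℝ} (hlaw : IsLaw law) {B : ℝ}
    (h : Q f (u ^ 2) e ms s (nlaw W t u law) B) :
    Q (up (W := W) f) t e ms s law B := by
  obtain ⟨v, hv, hvB⟩ := h
  refine ⟨fun σ => Ex (fun (a : U) r => lw t u (fun w => σ (a, w)) r)
      (fun r => v (fun a => ns (fun w => σ (a, w)) (r a))), ?_, ?_⟩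
  swap
  · rw [ex_ns]
    exact hvB
  intro σ C hC
  refine Va_red (f := f) ht0 ht1 hu0 hu σ C _ fun r => ?_
  refine hv (fun a => ns (fun w => σ (a, w)) (r a)) (fun x y => C x (Phi σ r y)) fun x => ?_
  obtain ⟨D, hD, hCD⟩ := hC x
  refine ⟨fun us y => D us (Phi σ r y), fun us hus => ?_, fun y => hCD _⟩
  exact DT.subst (hD us hus) (Phi σ r) Prod.fst
    (fun v b => ph (fun w => σ (v.1, w)) (r v.1) b v.2) fun y i => rfl

end Pool.Agent.H71.RO
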