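import Pool.Agent.H71.RO.Ed
import Pool.Agent.H71.RO.Ee
import Pool.Agent.H71.RO.Va
import Pool.Agent.H59.Er.LBdef

/-!
# One decision tree against one OR gate

PROOF. `pr_bit`: `pr_forall` (H59/Er/LBdef.lean) with `S = {v}`, `P _ b = (b = true)`.
`pr_gate`: `Pr (fun y => gt τ (fun w => y (x, w))) = Zp t τ`: `ex_comp_inj` with `ι w = (x, w)` and
`F z = ind (gt τ z)`; on the right unfold `Ex` and use `zp_eq` (the product weight is `bz t z`).

`one_block`: `tg σ x y` is `¬ gt (fun w => σ (x, w)) (fun w => y (x, w))`. By `ex_mix` with `S := {v | v.1 ≠ x}` the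
probability is `Ex_{y1} Pr_{y2} (D (mix S y1 y2) ↔ tg σ x (mix S y1 y2))` and `tg σ x (mix S y1 y2) ↔ tg σ x y2`. It is enough
to bound the inner probability for every `y1` (`ex_mono`, `ex_const`). Let `y0 := mix S y1 (fun _ => false)`; `DT.cert` gives
`R` with `R.card ≤ s` such that `D b ↔ D y0` whenever `b` agrees with `y0` on `R`. If no `v ∈ R` has `y2 v = true`, then
`mix S y1 y2` agrees with `y0` on `R`, so `D (mix S y1 y2) ↔ D y0`. Hence the event implies
`(∃ v ∈ R, y2 v = true) ∨ (D y0 ↔ tg σ x y2)`; the first has probability `≤ R.card * t ≤ s * t` (`pr_exists_le`, `pr_bit`),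
the second (`D y0` is true or false) is `¬ gt` or `gt`, with probability `1 - Zp ≤ 7 / 10` or `Zp ≤ 7 / 10`
(`Pr (¬ E) = 1 - Pr E`: `ind (¬ P) = 1 - ind P`).
-/

set_option autoImplicit false
set_option linter.unusedSectionVars false

namespace Pool.Agent.H71.RO

open Finset Classical
open Pool.Agent.H59.Er

variable {X W : Type} [Fintype X] [Fintype W]

/-- the OR gate with the root `x`, for the statuses `σ` and the bits `y` of the children -/
def tg (σ : X × W → St) (x : X) (y : X × W → Bool) : Prop :=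
  ¬ gt (fun w => σ (x, w)) (fun w => y (x, w))

/-- the root `x` is balanced -/
def good (t : ℝ) (τ : W → St) : Prop := 3 / 10 ≤ Zp t τ ∧ Zp t τ ≤ 7 / 10

theorem pr_bit {V : Type} [Fintype V] {t : ℝ} (h0 : 0 ≤ t) (h1 : t ≤ 1) (v : V) :
    Pr (fun _ : V => bern t) (fun y => y v = true) = t := by
  have h := pr_forall (bern_isPr (V := V) h0 h1) {v} (fun _ b => b = true)
  have h2 : ∏ i ∈ ({v} : Finset V), ∑ r, bern t r * ind (r = true) = t := by
    rw [Finset.prod_singleton, Fintype.sum_bool, ind_true rfl, ind_false (by simp)]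
    unfold bern
    ring
  rw [h2] at h
  refine Eq.trans ?_ h
  congr 1
  funext y
  simp

theorem pr_gate (t : ℝ) (x : X) (τ : W → St) :
    Pr (fun _ : X × W => bern t) (fun y => gt τ (fun w => y (x, w))) = Zp t τ := by
  have hm : ∑ r, bern t r = 1 := by
    rw [Fintype.sum_bool]
    unfold bern
    ring
  have h := ex_comp_inj (I := X × W) (J := W) (bern t) hm (fun w => (x, w))
    (fun a b hab => by simpa using hab) (fun z => ind (gt τ z))
  have h1 : Pr (fun _ : X × W => bern t) (fun y => gt τ (fun w => y (x, w))) =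
      Ex (fun _ : X × W => bern t) (fun y => ind (gt τ (fun w => y (x, w)))) := rfl
  rw [h1, h, ← zp_eq]
  rfl

theorem one_block {t : ℝ} {s : ℕ} (h0 : 0 ≤ t) (h1 : t ≤ 1) (σ : X × W → St) (x : X)
    (hg : good t (fun w => σ (x, w))) {D : (X × W → Bool) → Prop} (hD : DT s D) :
    Pr (fun _ : X × W => bern t) (fun y => D y ↔ tg σ x y) ≤ 7 / 10 + s * t := by
  have hμ := bern_isPr (V := X × W) h0 h1
  obtain ⟨S, hS⟩ : ∃ S : Set (X × W), S = {v | v.1 ≠ x} := ⟨_, rfl⟩
  have hmix : ∀ (y1 y2 : X × W → Bool) (w : W), mix S y1 y2 (x, w) = y2 (x, w) := by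
    intro y1 y2 w
    unfold mix
    rw [if_neg]
    rw [hS]
    simp
  have htg : ∀ y1 y2 : X × W → Bool, (tg σ x (mix S y1 y2) ↔ tg σ x y2) := by
    intro y1 y2
    unfold tg
    have : (fun w => mix S y1 y2 (x, w)) = fun w => y2 (x, w) := funext (hmix y1 y2)
    rw [this]
  have hgate := pr_gate t x (fun w => σ (x, w))
  have hnot : Pr (fun _ : X × W => bern t) (fun y => tg σ x y) = 1 - Zp t (fun w => σ (x, w)) := by
    have h3 : Pr (fun _ : X × W => bern t) (fun y => gt (fun w => σ (x, w)) (fun w => y (x, w))) +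
        Pr (fun _ : X × W => bern t) (fun y => tg σ x y) = 1 := by
      unfold Pr
      rw [← ex_add, ← ex_one hμ]
      congr 1
      funext y
      by_cases h4 : gt (fun w => σ (x, w)) (fun w => y (x, w))
      · rw [ind_true h4, ind_false (fun h5 : tg σ x y => h5 h4)]
        norm_num
      · have h5 : tg σ x y := h4
        rw [ind_false h4, ind_true h5]
        norm_num
    rw [hgate] at h3
    linarith
  have hinner : ∀ y1 : X × W → Bool, Ex (fun _ : X × W => bern t) (fun y2 =>
      ind (D (mix S y1 y2) ↔ tg σ x (mix S y1 y2))) ≤ 7 / 10 + s * t := by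
    intro y1
    obtain ⟨R, hR1, hR2⟩ := hD.cert (mix S y1 (fun _ => false))
    have himp : ∀ y2 : X × W → Bool, (D (mix S y1 y2) ↔ tg σ x (mix S y1 y2)) →
        ((∃ v ∈ R, y2 v = true) ∨ (D (mix S y1 (fun _ => false)) ↔ tg σ x y2)) := by
      intro y2 h3
      by_cases h4 : ∃ v ∈ R, y2 v = true
      · exact Or.inl h4
      · right
        push Not at h4
        have h5 : D (mix S y1 y2) = D (mix S y1 (fun _ => false)) := by
          refine hR2 _ fun i hi => ?_
          unfold mix
          have h6 : y2 i = false := by simpa using h4 i hi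
          rw [h6]
        rw [← h5, ← htg y1 y2]
        exact h3
    have h3 : Pr (fun _ : X × W => bern t) (fun y2 => ∃ v ∈ R, y2 v = true) ≤ s * t := by
      refine (pr_exists_le hμ R (fun v y2 => y2 v = true) t fun v _ => (pr_bit h0 h1 v).le).trans ?_
      have : (R.card : ℝ) ≤ s := by exact_mod_cast hR1
      exact mul_le_mul_of_nonneg_right this h0
    have h4 : Pr (fun _ : X × W => bern t)
        (fun y2 => (D (mix S y1 (fun _ => false)) ↔ tg σ x y2)) ≤ 7 / 10 := by
      by_cases h5 : D (mix S y1 (fun _ => false))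
      · have h6 : (fun y2 => (D (mix S y1 (fun _ => false)) ↔ tg σ x y2)) =
            fun y2 => tg σ x y2 := by
          funext y2
          exact propext ⟨fun h7 => h7.1 h5, fun h7 => ⟨fun _ => h7, fun _ => h5⟩⟩
        rw [h6, hnot]
        linarith [hg.1]
      · have h6 : (fun y2 => (D (mix S y1 (fun _ => false)) ↔ tg σ x y2)) =
            fun y2 : X × W → Bool => gt (fun w => σ (x, w)) (fun w => y2 (x, w)) := by
          funext y2
          refine propext ⟨fun h7 => ?_, fun h7 => ⟨fun h8 => absurd h8 h5, fun h8 => absurd h7 h8⟩⟩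
          by_contra h8
          exact h5 (h7.2 h8)
        rw [h6, hgate]
        exact hg.2
    refine (pr_mono hμ himp).trans ?_
    refine (pr_or hμ _ _).trans ?_
    linarith
  have h5 : Pr (fun _ : X × W => bern t) (fun y => D y ↔ tg σ x y) =
      Ex (fun _ : X × W => bern t) (fun y => ind (D y ↔ tg σ x y)) := rfl
  rw [h5, ex_mix hμ S]
  refine (ex_mono hμ hinner).trans ?_
  rw [ex_const hμ]

end Pool.Agent.H71.RO
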