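import Pool.Agent.H71.RO.Fa
import Pool.Agent.H71.RO.Fb

/-!
# The direct product theorem for decision trees

Notation: `κ := 1 - 1 / (4 * (s + 1))`; `3 / 4 ≤ κ ^ (s + 1)` (Bernoulli: `one_add_mul_le_pow`), `0 < κ ≤ 1`.

PROOF of `direct`. Strong induction on `n = G.card`. `n = 0`: probabilities are at most one. `n > 0`: choose `x0 ∈ G`, let `R` be
the read function of `D x0` (`dt_read`). For a finite set `T ⊆ X × W` (`T : Finset (X × W)`) let
`B T := insert x0 (T.image Prod.fst)`, of cardinality at most `T.card + 1`, and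
`E T y := R y = T ∧ (D x0 y ↔ tg σ x0 y)`. The event `∀ x ∈ G, (D x y ↔ tg σ x y)` implies: for some `T` with `T.card ≤ s`:
`E T y ∧ F T y`, `F T y := ∀ x ∈ G \ B T, (D x y ↔ tg σ x y)`.
(1) `E T` depends only on the coordinates in `Sx T := {v | v.1 ∈ B T}`: if `y`, `y'` agree there and `R y = T` then they agree on
`T`, so `R y' = T` and `D x0 y' ↔ D x0 y`; `tg σ x0` depends on the block `x0`.
(2) for every `y1`: `Pr_{y2} (F T (mix (Sx T) y1 y2)) ≤ κ ^ (G \ B T).card` by the induction hypothesis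
(`(G \ B T).card < G.card` as `x0 ∈ G`, `x0 ∈ B T`) applied to `G \ B T` and the trees `y2 ↦ D x (mix (Sx T) y1 y2)`: it is `DT s` by
`DT.subst` (`G v b := if v ∈ Sx T then y1 v else b`, block map `id`); and `tg σ x (mix (Sx T) y1 y2) ↔ tg σ x y2` for `x ∉ B T`.
(3) `κ ^ (G \ B T).card ≤ κ ^ (n - (s + 1))` as `(G \ B T).card ≥ n - (s + 1)` (`Finset.le_card_sdiff`) and `κ ≤ 1`.
So by `pr_and_le` and a sum over all `T` with `T.card ≤ s` (finset `(Finset.univ : Finset (Finset (X × W))).filter ..`, `pr_exists`):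
`Pr ≤ ∑ T, Pr (E T) * κ ^ (n - (s + 1))`, and `∑ T, Pr (E T) ≤ Pr (D x0 y ↔ tg σ x0 y)` (the events `R y = T` are disjoint: exchange
the sum and `Ex` (`ex_sum`) and `∑ T, ind (R y = T ∧ P) ≤ ind P`), which is `≤ 7 / 10 + s * t ≤ 3 / 4` by `one_block`.
Finally `3 / 4 * κ ^ (n - (s + 1)) ≤ κ ^ (s + 1) * κ ^ (n - (s + 1)) ≤ κ ^ n` since `n ≤ (s + 1) + (n - (s + 1))`.
-/

set_option autoImplicit false
set_option linter.unusedSectionVars false

namespace Pool.Agent.H71.RO

open Finset Classical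
open Pool.Agent.H59.Er

variable {X W : Type} [Fintype X] [Fintype W]

/-- the base of the direct product bound -/
noncomputable def kap (s : ℕ) : ℝ := 1 - 1 / (4 * (s + 1))

theorem kap_props (s : ℕ) : 0 < kap s ∧ kap s ≤ 1 ∧ 3 / 4 ≤ kap s ^ (s + 1) := by
  have hs : (0 : ℝ) ≤ s := Nat.cast_nonneg s
  have h1 : 1 / (4 * ((s : ℝ) + 1)) ≤ 1 / 4 := by
    rw [div_le_div_iff₀ (by positivity) (by norm_num)]
    linarith
  have h2 : 0 < 1 / (4 * ((s : ℝ) + 1)) := by positivity
  unfold kap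
  refine ⟨by linarith, by linarith, ?_⟩
  have h3 := one_add_mul_le_pow (a := -(1 / (4 * ((s : ℝ) + 1)))) (by linarith) (s + 1)
  have h4 : 1 + ((s + 1 : ℕ) : ℝ) * -(1 / (4 * ((s : ℝ) + 1))) = 3 / 4 := by
    push_cast
    field_simp
    ring
  rw [h4] at h3
  rwa [sub_eq_add_neg]

/-- the blocks exposed by the tree of `x0` -/
noncomputable def Fc_B (x0 : X) (T : Finset (X × W)) : Finset X := insert x0 (T.image Prod.fst)

/-- the coordinates exposed by the tree of `x0` -/
noncomputable def Fc_S (x0 : X) (T : Finset (X × W)) : Set (X × W) := {v | v.1 ∈ Fc_B x0 T}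

theorem Fc_card (x0 : X) (T : Finset (X × W)) : (Fc_B x0 T).card ≤ T.card + 1 := by
  unfold Fc_B
  exact (card_insert_le _ _).trans (Nat.add_le_add_right card_image_le 1)

theorem Fc_x0 (x0 : X) (T : Finset (X × W)) (w : W) : (x0, w) ∈ Fc_S x0 T := by
  unfold Fc_S Fc_B
  exact mem_insert_self _ _

theorem Fc_T (x0 : X) (T : Finset (X × W)) {v : X × W} (hv : v ∈ T) : v ∈ Fc_S x0 T := by
  unfold Fc_S Fc_B
  exact mem_insert_of_mem (mem_image_of_mem _ hv)

theorem Fc_tg (σ : X × W → St) (x : X) {y y' : X × W → Bool} (h : ∀ w, y (x, w) = y' (x, w)) :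
    tg σ x y ↔ tg σ x y' := by
  unfold tg
  rw [show (fun w => y (x, w)) = fun w => y' (x, w) from funext h]

theorem Fc_E {x0 : X} {σ : X × W → St} {D : (X × W → Bool) → Prop}
    {R : (X × W → Bool) → Finset (X × W)}
    (hR : ∀ y y' : X × W → Bool, (∀ v ∈ R y, y' v = y v) → R y' = R y ∧ (D y' ↔ D y))
    (T : Finset (X × W)) {y y' : X × W → Bool} (h : ∀ i ∈ Fc_S x0 T, y i = y' i)
    (hE : R y = T ∧ (D y ↔ tg σ x0 y)) : R y' = T ∧ (D y' ↔ tg σ x0 y') := by
  obtain ⟨h1, h2⟩ := hE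
  obtain ⟨h3, h4⟩ := hR y y' (fun v hv => (h v (Fc_T x0 T (by rw [← h1]; exact hv))).symm)
  refine ⟨h3.trans h1, ?_⟩
  rw [h4, h2]
  exact Fc_tg σ x0 fun w => h (x0, w) (Fc_x0 x0 T w)

theorem direct {t : ℝ} {s : ℕ} (h0 : 0 ≤ t) (h1 : t ≤ 1) (hst : s * t ≤ 1 / 20)
    (σ : X × W → St) : ∀ (n : ℕ) (G : Finset X), G.card = n →
      (∀ x ∈ G, good t (fun w => σ (x, w))) → ∀ D : X → (X × W → Bool) → Prop,
      (∀ x ∈ G, DT s (D x)) →
      Pr (fun _ : X × W => bern t) (fun y => ∀ x ∈ G, D x y ↔ tg σ x y) ≤ kap s ^ n := by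
  intro n
  obtain ⟨k0, k1, k2⟩ := kap_props s
  have hμ : IsPr (fun _ : X × W => bern t) := bern_isPr h0 h1
  induction n using Nat.strong_induction_on with
  | _ n ih =>
    intro G hG hgood D hD
    rcases Nat.eq_zero_or_pos n with hn | hn
    · rw [hn, pow_zero]
      exact pr_le_one hμ _
    obtain ⟨x0, hx0⟩ : G.Nonempty := card_pos.1 (by omega)
    obtain ⟨R, hRc, hR⟩ := dt_read (hD x0 hx0)
    obtain ⟨S, hS⟩ : ∃ S : Finset (Finset (X × W)), S = univ.filter (fun T => T.card ≤ s) :=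
      ⟨_, rfl⟩
    -- the event
    have e1 : Pr (fun _ : X × W => bern t) (fun y => ∀ x ∈ G, D x y ↔ tg σ x y) ≤
        Pr (fun _ : X × W => bern t) (fun y => ∃ T ∈ S, (R y = T ∧ (D x0 y ↔ tg σ x0 y)) ∧
          ∀ x ∈ G \ Fc_B x0 T, (D x y ↔ tg σ x y)) := by
      refine pr_mono hμ fun y hy => ⟨R y, ?_, ⟨rfl, hy x0 hx0⟩, fun x hx => ?_⟩
      · rw [hS, mem_filter]
        exact ⟨mem_univ _, hRc y⟩
      · exact hy x (mem_sdiff.1 hx).1
    have e2 : ∀ T ∈ S, Pr (fun _ : X × W => bern t)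
        (fun y => (R y = T ∧ (D x0 y ↔ tg σ x0 y)) ∧
          ∀ x ∈ G \ Fc_B x0 T, (D x y ↔ tg σ x y)) ≤
        Pr (fun _ : X × W => bern t) (fun y => R y = T ∧ (D x0 y ↔ tg σ x0 y)) *
          kap s ^ (n - (s + 1)) := by
      intro T hT
      have hTs : T.card ≤ s := by
        rw [hS, mem_filter] at hT
        exact hT.2
      refine pr_and_le hμ (Fc_S x0 T) _ _ ?_ _ ?_
      · intro y y' h
        exact ⟨Fc_E hR T h, Fc_E hR T fun i hi => (h i hi).symm⟩
      · intro y1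
        have hsub : (G \ Fc_B x0 T).card < n := by
          rw [← hG]
          refine card_lt_card ⟨sdiff_subset, fun h => ?_⟩
          have h2 := h hx0
          rw [mem_sdiff] at h2
          exact h2.2 (mem_insert_self _ _)
        have h3 := ih _ hsub (G \ Fc_B x0 T) rfl (fun x hx => hgood x (mem_sdiff.1 hx).1)
          (fun x y2 => D x (mix (Fc_S x0 T) y1 y2))
          (fun x hx => DT.subst (hD x (mem_sdiff.1 hx).1) (fun y2 => mix (Fc_S x0 T) y1 y2) id
            (fun v b => if v ∈ Fc_S x0 T then y1 v else b) (fun y i => rfl))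
        have h4 : kap s ^ (G \ Fc_B x0 T).card ≤ kap s ^ (n - (s + 1)) := by
          refine pow_le_pow_of_le_one k0.le k1 ?_
          have h5 := le_card_sdiff (Fc_B x0 T) G
          have h6 := Fc_card x0 T
          omega
        refine le_trans (pr_mono hμ fun y2 h5 x hx => ?_) (h3.trans h4)
        have h6 := h5 x hx
        rw [h6]
        refine Fc_tg σ x fun w => ?_
        have h7 : (x, w) ∉ Fc_S x0 T := fun h8 => (mem_sdiff.1 hx).2 h8
        unfold mix
        rw [if_neg h7]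
    have e3 : ∑ T ∈ S, Pr (fun _ : X × W => bern t)
        (fun y => R y = T ∧ (D x0 y ↔ tg σ x0 y)) ≤
        Pr (fun _ : X × W => bern t) (fun y => D x0 y ↔ tg σ x0 y) := by
      unfold Pr
      rw [← ex_sum]
      refine ex_mono hμ fun y => ?_
      by_cases hP : D x0 y ↔ tg σ x0 y
      · rw [ind_true hP]
        calc ∑ T ∈ S, ind (R y = T ∧ (D x0 y ↔ tg σ x0 y))
            ≤ ∑ T : Finset (X × W), ind (R y = T ∧ (D x0 y ↔ tg σ x0 y)) :=
              sum_le_sum_of_subset_of_nonneg (subset_univ _) fun _ _ _ => ind_nonneg _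
          _ = ind (R y = R y ∧ (D x0 y ↔ tg σ x0 y)) := by
              refine sum_eq_single (R y) (fun T _ hT => ?_) fun h => absurd (mem_univ _) h
              exact ind_false fun h => hT h.1.symm
          _ ≤ 1 := ind_le_one _
      · rw [ind_false hP]
        refine le_of_eq (sum_eq_zero fun T _ => ind_false fun h => hP h.2)
    have e4 := one_block h0 h1 σ x0 (hgood x0 hx0) (hD x0 hx0)
    have e5 : ∑ T ∈ S, Pr (fun _ : X × W => bern t)
        (fun y => (R y = T ∧ (D x0 y ↔ tg σ x0 y)) ∧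
          ∀ x ∈ G \ Fc_B x0 T, (D x y ↔ tg σ x y)) ≤
        3 / 4 * kap s ^ (n - (s + 1)) := by
      refine (sum_le_sum e2).trans ?_
      rw [← sum_mul]
      refine mul_le_mul_of_nonneg_right ?_ (pow_nonneg k0.le _)
      linarith
    refine (e1.trans (pr_exists hμ S _)).trans (e5.trans ?_)
    calc 3 / 4 * kap s ^ (n - (s + 1)) ≤ kap s ^ (s + 1) * kap s ^ (n - (s + 1)) :=
          mul_le_mul_of_nonneg_right k2 (pow_nonneg k0.le _)
      _ = kap s ^ (s + 1 + (n - (s + 1))) := (pow_add _ _ _).symm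
      _ ≤ kap s ^ n := pow_le_pow_of_le_one k0.le k1 (by omega)

end Pool.Agent.H71.RO
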