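import Pool.Agent.H71.RO.Lh
import Pool.Agent.H71.RO.Fb

/-!
# Most roots are balanced

PROOF of `good_half`. Let `N := card W`, `x := u ^ 4`, `p := (1 - x) ^ N`, `wt τ := ∏ w, law (τ w)`, `Z τ := Zp (u ^ 2) τ`.
As in Lh.lean: `∑ wt = 1`, `∑ wt * Z = p` (`h.pr`), `∑ wt * Z ^ 2 = (law S * (1 - u ^ 2) ^ 2 + law C) ^ N`, so
`∑ wt * (Z - p) ^ 2 ≤ 3 * u * (N * u ^ 4) ≤ 3 * u` (`var_le`).
`p ≤ exp (-N * x) ≤ exp (-1 / 2) ≤ 13 / 20` (`Real.add_one_le_exp`; `exp (-1/2) ≤ 0.61`), and `p ≥ 7 / 20`: for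
`0 ≤ x ≤ 1 / 100`, `1 - x ≥ exp (-(1.02) * x)` (from `exp (1.02 x) * (1 - x) ≥ (1 + 1.02 x) (1 - x) ≥ 1`), so
`p ≥ exp (-1.02) ≥ 7 / 20` (`Real.exp_one_lt_d9`: `exp 1 < 2.7182818286`, `exp 0.02 ≤ 1 / (1 - 0.02)`).
If `¬ good (u ^ 2) τ` then `|Z - p| ≥ 1 / 20`, so `ind (¬ good) ≤ 400 * (Z - p) ^ 2` and `∑ wt * ind (¬ good) ≤ 1200 * u ≤ 1 / 2`;
`∑ wt * ind (good) = 1 - ∑ wt * ind (¬ good) ≥ 1 / 2`.
-/

set_option autoImplicit false
set_option linter.unusedSectionVars false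

namespace Pool.Agent.H71.RO

open Finset Classical
open Pool.Agent.H59.Er

variable {W : Type} [Fintype W]

theorem Fd_sum (h : St → ℝ) : ∑ c, h c = h St.S + h St.R + h St.C := by
  have h1 : (Finset.univ : Finset St) = {St.S, St.R, St.C} := by
    ext c
    cases c <;> simp
  rw [h1, Finset.sum_insert (by simp), Finset.sum_insert (by simp), Finset.sum_singleton]
  ring

theorem Fd_upper {x : ℝ} (N : ℕ) (hx1 : x ≤ 1) (hN : 1 / 2 ≤ N * x) :
    (1 - x) ^ N ≤ 13 / 20 := by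
  have h0 : 0 ≤ 1 - x := by linarith
  have h1 : 1 - x ≤ Real.exp (-x) := by
    have := Real.add_one_le_exp (-x)
    linarith
  have h2 : (1 - x) ^ N ≤ Real.exp (-(1 / 2)) := by
    refine (pow_le_pow_left₀ h0 h1 N).trans ?_
    rw [← Real.exp_nat_mul]
    apply Real.exp_le_exp.2
    linarith
  have h3 : (13 / 8 : ℝ) ≤ Real.exp (1 / 2) := by
    have := Real.quadratic_le_exp_of_nonneg (x := 1 / 2) (by norm_num)
    linarith
  have h4 : Real.exp (-(1 / 2)) * Real.exp (1 / 2) = 1 := by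
    rw [← Real.exp_add]
    simp
  have h5 := Real.exp_pos (-(1 / 2 : ℝ))
  nlinarith

theorem Fd_lower {x : ℝ} (N : ℕ) (hx0 : 0 ≤ x) (hx1 : x ≤ 1 / 100) (hN : N * x ≤ 1) :
    7 / 20 ≤ (1 - x) ^ N := by
  have h1 : Real.exp (-(51 / 50 * x)) ≤ 1 - x := by
    have e1 := Real.add_one_le_exp (51 / 50 * x)
    have e2 : Real.exp (-(51 / 50 * x)) * Real.exp (51 / 50 * x) = 1 := by
      rw [← Real.exp_add]
      simp
    have e3 := Real.exp_pos (51 / 50 * x)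
    have e4 : 1 ≤ (1 - x) * Real.exp (51 / 50 * x) := by
      have e5 : (1 - x) * (51 / 50 * x + 1) ≤ (1 - x) * Real.exp (51 / 50 * x) :=
        mul_le_mul_of_nonneg_left e1 (by linarith)
      nlinarith
    by_contra hcon
    push Not at hcon
    have e6 : (1 - x) * Real.exp (51 / 50 * x) < Real.exp (-(51 / 50 * x)) *
        Real.exp (51 / 50 * x) := mul_lt_mul_of_pos_right hcon e3
    linarith
  have h2 : Real.exp (-(51 / 50)) ≤ (1 - x) ^ N := by
    refine le_trans ?_ (pow_le_pow_left₀ (Real.exp_pos _).le h1 N)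
    rw [← Real.exp_nat_mul]
    apply Real.exp_le_exp.2
    linarith
  refine le_trans ?_ h2
  have h3 : Real.exp (51 / 50) ≤ 20 / 7 := by
    have e1 : Real.exp (51 / 50) = Real.exp 1 * Real.exp (1 / 50) := by
      rw [← Real.exp_add]
      norm_num
    have e2 : Real.exp (1 / 50) ≤ 50 / 49 := by
      have e3 := Real.add_one_le_exp (-(1 / 50) : ℝ)
      have e4 : Real.exp (-(1 / 50)) * Real.exp (1 / 50) = 1 := by
        rw [← Real.exp_add]
        simp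
      have e5 := Real.exp_pos (1 / 50 : ℝ)
      nlinarith
    rw [e1]
    have e6 := Real.exp_one_lt_d9
    have e7 := Real.exp_pos (1 / 50 : ℝ)
    have e8 := Real.exp_pos (1 : ℝ)
    calc Real.exp 1 * Real.exp (1 / 50) ≤ 2.7182818286 * (50 / 49) :=
          mul_le_mul e6.le e2 e7.le (by norm_num)
      _ ≤ 20 / 7 := by norm_num
  have h4 : Real.exp (-(51 / 50)) * Real.exp (51 / 50) = 1 := by
    rw [← Real.exp_add]
    simp
  have h5 := Real.exp_pos (-(51 / 50) : ℝ)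
  nlinarith

theorem Fd_ind {t p : ℝ} (hp1 : 7 / 20 ≤ p) (hp2 : p ≤ 13 / 20) (τ : W → St) :
    ind (¬ good t τ) ≤ 400 * (Zp t τ - p) ^ 2 := by
  by_cases h : good t τ
  · rw [ind_false (not_not.2 h)]
    positivity
  · rw [ind_true h]
    unfold good at h
    by_cases h3 : 3 / 10 ≤ Zp t τ
    · have h4 : 7 / 10 < Zp t τ := by
        by_contra hc
        exact h ⟨h3, not_lt.1 hc⟩
      nlinarith
    · push Not at h3
      nlinarith

theorem good_half {u : ℝ} (hu0 : 0 < u) (hu : 2400 * u ≤ 1) {law : St → ℝ} (h : Inv law u)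
    (hN1 : 1 / 2 ≤ Fintype.card W * u ^ 4) (hN2 : Fintype.card W * u ^ 4 ≤ 1) :
    1 / 2 ≤ ∑ τ : W → St, (∏ w, law (τ w)) * ind (good (u ^ 2) τ) := by
  have hu1 : u ≤ 1 / 2400 := by linarith
  have hx0 : 0 ≤ u ^ 4 := by positivity
  have hx1 : u ^ 4 ≤ 1 / 100 := by
    have : u ^ 4 ≤ (1 / 2400) ^ 4 := pow_le_pow_left₀ hu0.le hu1 4
    norm_num at this ⊢
    linarith
  have hp1 := Fd_lower (Fintype.card W) hx0 hx1 hN2
  have hp2 := Fd_upper (Fintype.card W) (by linarith : u ^ 4 ≤ 1) hN1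
  have hsum := h.sum
  rw [Fd_sum] at hsum
  have hpr := h.pr
  have hwt0 : ∀ τ : W → St, 0 ≤ ∏ w, law (τ w) := fun τ => Finset.prod_nonneg fun w _ => h.nonneg _
  have s0 : ∑ τ : W → St, ∏ w, law (τ w) = 1 := by
    rw [sum_prod_st law, h.sum, one_pow]
  have s1 : ∑ τ : W → St, (∏ w, law (τ w)) * Zp (u ^ 2) τ = (1 - u ^ 4) ^ Fintype.card W := by
    have e := sum_prod_st (W := W) (fun c => law c * zt (u ^ 2) c)
    rw [Fd_sum] at e
    have e2 : law St.S * zt (u ^ 2) St.S + law St.R * zt (u ^ 2) St.R + law St.C * zt (u ^ 2) St.C =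
        1 - u ^ 4 := by
      show law St.S * (1 - u ^ 2) + law St.R * 0 + law St.C * 1 = 1 - u ^ 4
      linarith
    rw [e2] at e
    rw [← e]
    refine Finset.sum_congr rfl fun τ _ => ?_
    unfold Zp
    rw [← Finset.prod_mul_distrib]
  have s2 : ∑ τ : W → St, (∏ w, law (τ w)) * Zp (u ^ 2) τ ^ 2 =
      (law St.S * (1 - u ^ 2) ^ 2 + law St.C) ^ Fintype.card W := by
    have e := sum_prod_st (W := W) (fun c => law c * zt (u ^ 2) c ^ 2)
    rw [Fd_sum] at e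
    have e2 : law St.S * zt (u ^ 2) St.S ^ 2 + law St.R * zt (u ^ 2) St.R ^ 2 +
        law St.C * zt (u ^ 2) St.C ^ 2 = law St.S * (1 - u ^ 2) ^ 2 + law St.C := by
      show law St.S * (1 - u ^ 2) ^ 2 + law St.R * 0 ^ 2 + law St.C * 1 ^ 2 = _
      ring
    rw [e2] at e
    rw [← e]
    refine Finset.sum_congr rfl fun τ _ => ?_
    unfold Zp
    rw [← Finset.prod_pow, ← Finset.prod_mul_distrib]
  have hv := var_le h hu0 (by linarith) (Fintype.card W)
  have hv2 : ∑ τ : W → St, (∏ w, law (τ w)) *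
      (Zp (u ^ 2) τ - (1 - u ^ 4) ^ Fintype.card W) ^ 2 ≤ 3 * u := by
    have e : ∑ τ : W → St, (∏ w, law (τ w)) *
      (Zp (u ^ 2) τ - (1 - u ^ 4) ^ Fintype.card W) ^ 2 =
      ∑ τ : W → St, (∏ w, law (τ w)) * Zp (u ^ 2) τ ^ 2 -
      2 * (1 - u ^ 4) ^ Fintype.card W * ∑ τ : W → St, (∏ w, law (τ w)) * Zp (u ^ 2) τ +
      ((1 - u ^ 4) ^ Fintype.card W) ^ 2 * ∑ τ : W → St, ∏ w, law (τ w) := by
      rw [Finset.mul_sum, Finset.mul_sum, ← Finset.sum_sub_distrib, ← Finset.sum_add_distrib]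
      refine Finset.sum_congr rfl fun τ _ => ?_
      ring
    rw [e, s0, s1, s2]
    have e2 : 3 * u * (Fintype.card W * u ^ 4) ≤ 3 * u * 1 :=
      mul_le_mul_of_nonneg_left hN2 (by linarith)
    nlinarith
  have hbad : ∑ τ : W → St, (∏ w, law (τ w)) * ind (¬ good (u ^ 2) τ) ≤ 1 / 2 := by
    have e : ∑ τ : W → St, (∏ w, law (τ w)) * ind (¬ good (u ^ 2) τ) ≤
        ∑ τ : W → St, 400 * ((∏ w, law (τ w)) *
          (Zp (u ^ 2) τ - (1 - u ^ 4) ^ Fintype.card W) ^ 2) := by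
      refine Finset.sum_le_sum fun τ _ => ?_
      have e1 := mul_le_mul_of_nonneg_left (Fd_ind (t := u ^ 2) hp1 hp2 τ) (hwt0 τ)
      linarith
    rw [← Finset.mul_sum] at e
    linarith
  have htot : ∑ τ : W → St, (∏ w, law (τ w)) * ind (good (u ^ 2) τ) +
      ∑ τ : W → St, (∏ w, law (τ w)) * ind (¬ good (u ^ 2) τ) = 1 := by
    rw [← Finset.sum_add_distrib, ← s0]
    refine Finset.sum_congr rfl fun τ _ => ?_
    by_cases hg : good (u ^ 2) τ
    · rw [ind_true hg, ind_false (not_not.2 hg)]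
      ring
    · rw [ind_true hg, ind_false hg]
      ring
  linarith

end Pool.Agent.H71.RO
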