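import Pool.Agent.H71.RO.Fc
import Pool.Agent.H71.RO.Fd

/-!
# The last round

PROOF. Put `t := u ^ 2`, `K := card X`, `κ := kap s`, `gs σ := Finset.univ.filter (fun x => good t (fun w => σ (x, w)))`,
`v σ := κ ^ (gs σ).card`. `s * t = (12 * u * s) * (u / 12) ≤ u / 12 ≤ 1 / 20`, `0 ≤ t ≤ 1`.
`Bd`: for circuits `C x` with the empty list of quantifiers, `C x y ↔ D x [] y` with `DT s (D x [])` (`[] ∈ paths []`, `AltL e [] φ = φ []`),
and `up (fun x g => g x = false) x (fun i => vl (σ i) (y i)) ↔ tg σ x y` (`decide_eq_false_iff_not`); restrict the event to the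
`x ∈ gs σ` (`pr_mono`) and apply `direct`.
Expectation: `v σ = ∏ x, (if good t (fun w => σ (x, w)) then κ else 1)`; by `ex_curry` and `ex_prod` (H59/Er/LBdef.lean)
`Ex (fun _ => law) v = ∏ x, ∑ τ, (∏ w, law (τ w)) * (if good t τ then κ else 1) = (1 - (1 - κ) * g) ^ K` with
`g = ∑ τ, (∏ w, law (τ w)) * ind (good t τ) ≥ 1 / 2` (`good_half`) and total mass `1`. As `1 - κ = 1 / (4 * (s + 1))`, the base is
at most `1 - 1 / (8 * (s + 1)) ≤ exp (-(1 / (8 * (s + 1))))`, and it is nonnegative.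
-/

set_option autoImplicit false
set_option linter.unusedSectionVars false

namespace Pool.Agent.H71.RO

open Finset Classical
open Pool.Agent.H59.Er

variable {X W : Type} [Fintype X] [Fintype W]

theorem Fe_wt {law : St → ℝ} (h : IsLaw law) (τ : W → St) : 0 ≤ ∏ w, law (τ w) :=
  Finset.prod_nonneg fun _ _ => h.nonneg _

theorem Fe_mass {law : St → ℝ} (h : IsLaw law) : ∑ τ : W → St, ∏ w, law (τ w) = 1 := by
  rw [sum_prod_st, h.sum, one_pow]

/-- the value bound -/
noncomputable def Fe_v (t κ : ℝ) (σ : X × W → St) : ℝ :=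
  ∏ x : X, (if good t (fun w => σ (x, w)) then κ else 1)

theorem Fe_v_eq (t κ : ℝ) (σ : X × W → St) :
    Fe_v t κ σ = κ ^ (Finset.univ.filter (fun x => good t (fun w => σ (x, w)))).card := by
  rw [Fe_v, ← Finset.prod_filter, Finset.prod_const]

theorem Fe_bd {t : ℝ} {s : ℕ} (h0 : 0 ≤ t) (h1 : t ≤ 1) (hst : s * t ≤ 1 / 20) (e : Bool) :
    Bd (up (W := W) (fun (x : X) g => g x = false)) t e [] s (Fe_v t (kap s)) := by
  intro σ C hC
  choose D hD1 hD2 using hC
  have hpr : IsPr (fun _ : X × W => bern t) := by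
    constructor
    · intro _ r
      cases r
      · show 0 ≤ 1 - t
        linarith
      · exact h0
    · intro _
      rw [Fintype.sum_bool]
      show t + (1 - t) = 1
      ring
  rw [Fe_v_eq]
  refine le_trans (pr_mono hpr ?_) (direct h0 h1 hst σ _
    (Finset.univ.filter (fun x => good t (fun w => σ (x, w)))) rfl
    (fun x hx => (Finset.mem_filter.1 hx).2) (fun x => D x [])
    (fun x _ => hD1 x [] (Finset.mem_singleton.2 rfl)))
  intro y hy x _
  have h2 := hy x
  rw [hD2 x y] at h2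
  refine Iff.trans h2 ?_
  unfold up tg gt
  exact decide_eq_false_iff_not

theorem Fe_base {t : ℝ} {s : ℕ} {law : St → ℝ} (h : IsLaw law)
    (hg : 1 / 2 ≤ ∑ τ : W → St, (∏ w, law (τ w)) * ind (good t τ)) :
    0 ≤ (∑ τ : W → St, (∏ w, law (τ w)) * (if good t τ then kap s else 1)) ∧
    (∑ τ : W → St, (∏ w, law (τ w)) * (if good t τ then kap s else 1)) ≤
      Real.exp (-(1 / (8 * (s + 1)))) := by
  constructor
  · refine Finset.sum_nonneg fun τ _ => mul_nonneg (Fe_wt h τ) ?_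
    split_ifs
    · exact (kap_props s).1.le
    · exact zero_le_one
  · have h1 : ∀ τ : W → St, (∏ w, law (τ w)) * (if good t τ then kap s else 1) =
        (∏ w, law (τ w)) - (1 - kap s) * ((∏ w, law (τ w)) * ind (good t τ)) := by
      intro τ
      split_ifs with h2
      · rw [ind_true h2]; ring
      · rw [ind_false h2]; ring
    rw [Finset.sum_congr rfl fun τ _ => h1 τ, Finset.sum_sub_distrib, ← Finset.mul_sum, Fe_mass h]
    have h2 : 1 - kap s = 1 / (4 * (s + 1)) := by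
      rw [kap]; ring
    rw [h2]
    have hs : (0 : ℝ) < 4 * (s + 1) := by positivity
    have h3 : 1 / (4 * ((s : ℝ) + 1)) * (1 / 2) ≤
        1 / (4 * (s + 1)) * ∑ τ : W → St, (∏ w, law (τ w)) * ind (good t τ) :=
      mul_le_mul_of_nonneg_left hg (by positivity)
    have h4 : 1 / (4 * ((s : ℝ) + 1)) * (1 / 2) = 1 / (8 * (s + 1)) := by
      field_simp; norm_num
    have h5 := Real.add_one_le_exp (-(1 / (8 * ((s : ℝ) + 1))))
    linarith

theorem Fe_ex {t κ : ℝ} (law : St → ℝ) :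
    Ex (fun _ : X × W => law) (Fe_v t κ) =
      (∑ τ : W → St, (∏ w, law (τ w)) * (if good t τ then κ else 1)) ^ Fintype.card X := by
  rw [ex_curry]
  have h1 := ex_prod (fun (_ : X) (g : W → St) => ∏ w, law (g w))
    (fun _ τ => if good t τ then κ else 1)
  rw [Finset.prod_const, Finset.card_univ] at h1
  rw [← h1]
  rfl

theorem q_final {u : ℝ} {s : ℕ} (hu0 : 0 < u) (hu : 2400 * u ≤ 1) (hus : 12 * u * s ≤ 1)
    {law : St → ℝ} (h : Inv law u) (hN1 : 1 / 2 ≤ Fintype.card W * u ^ 4)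
    (hN2 : Fintype.card W * u ^ 4 ≤ 1) (e : Bool) :
    Q (up (W := W) (fun (x : X) g => g x = false)) (u ^ 2) e [] s law
      (Real.exp (-(Fintype.card X / (8 * (s + 1))))) := by
  have ht0 : 0 ≤ u ^ 2 := by positivity
  have ht1 : u ^ 2 ≤ 1 := by nlinarith
  have hst : s * u ^ 2 ≤ 1 / 20 := by
    have h1 : (12 * u * s) * (u / 12) ≤ 1 * (u / 12) :=
      mul_le_mul_of_nonneg_right hus (by positivity)
    have h2 : (12 * u * s) * (u / 12) = s * u ^ 2 := by ring
    rw [h2] at h1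
    linarith
  refine ⟨Fe_v (u ^ 2) (kap s), Fe_bd ht0 ht1 hst e, ?_⟩
  rw [Fe_ex]
  obtain ⟨h1, h2⟩ := Fe_base (s := s) h.toIsLaw (good_half hu0 hu h hN1 hN2)
  refine (pow_le_pow_left₀ h1 h2 _).trans ?_
  rw [← Real.exp_nat_mul]
  refine le_of_eq ?_
  congr 1
  ring

end Pool.Agent.H71.RO
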