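import Pool.Agent.H71.RO.Defs

/-!
# Sums over the bits of the children of one gate

PROOFS.
`sum_prod_bool`: `Finset.prod_univ_sum` and `Fintype.piFinset_univ` (as in `ex_one`, H59/Er/Prob.lean)
with `Fintype.sum_bool`.
`bz_sum`: `sum_prod_bool` with `f w b = bern t b`; `bern t true + bern t false = 1`.
`bz_fiber`: for every `z`, `bz t z * ind (∀ w ∉ K, z w = z0 w) = ∏ w, (bern t (z w) * (if w ∈ K then 1
else ind (z w = z0 w)))` (the product of the indicators is the indicator of the conjunction), so by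
`sum_prod_bool` the sum is `∏ w, (if w ∈ K then 1 else bern t (z0 w))`; multiply by
`(1 - t) ^ K.card = ∏ w, (if w ∈ K then 1 - t else 1)` and use `bern t (z0 w) = 1 - t` for `w ∈ K`.
`zp_eq`: `ind (gt τ z) = ∏ w, ind (vl (τ w) (z w) = false)`, so the sum is
`∏ w, (t * ind (vl (τ w) true = false) + (1 - t) * ind (vl (τ w) false = false))` and the factor is
`zt t (τ w)` in each of the three cases.
`zp_killed`: a factor is zero. `zp_nonneg`, `zp_le_one`: the factors are in `[0, 1]`.
`zp_open`: the factors are `1 - t` for `S`, `1` for `C` (`Finset.prod_ite`/`Finset.prod_filter`).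
`hr_sum`: if no child is surely true, `gt τ z ↔ ¬ hr τ z`, and `ind P = 1 - ind (¬ P)`; use `bz_sum`
and `zp_eq`.
`not_killed_of_typ`: `0 < u ^ 4 / 2 ≤ Zp t τ`, so `Zp t τ ≠ 0`; use `zp_killed`.
-/

set_option autoImplicit false
set_option linter.unusedSectionVars false

namespace Pool.Agent.H71.RO

open Finset Classical
open Pool.Agent.H59.Er

variable {W : Type} [Fintype W]

theorem La_ind_forall (P : W → Prop) : ind (∀ w, P w) = ∏ w, ind (P w) := by
  by_cases h : ∀ w, P w
  · rw [ind_true h]
    symm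
    exact Finset.prod_eq_one fun w _ => ind_true (h w)
  · rw [ind_false h]
    push Not at h
    obtain ⟨w, hw⟩ := h
    symm
    exact Finset.prod_eq_zero (Finset.mem_univ w) (ind_false hw)

theorem sum_prod_bool (f : W → Bool → ℝ) :
    ∑ z : W → Bool, ∏ w, f w (z w) = ∏ w, (f w true + f w false) := by
  have h1 : ∑ z : W → Bool, ∏ w, f w (z w) = ∏ w, ∑ b, f w b := by
    rw [Finset.prod_univ_sum]
    rw [Fintype.piFinset_univ]
  rw [h1]
  refine Finset.prod_congr rfl fun w _ => ?_
  rw [Fintype.sum_bool]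

theorem bz_sum (t : ℝ) : ∑ z : W → Bool, bz t z = 1 := by
  unfold bz
  rw [sum_prod_bool (fun _ b => bern t b)]
  refine Finset.prod_eq_one fun w _ => ?_
  show t + (1 - t) = 1
  ring

theorem bz_nonneg {t : ℝ} (h0 : 0 ≤ t) (h1 : t ≤ 1) (z : W → Bool) : 0 ≤ bz t z := by
  unfold bz
  refine Finset.prod_nonneg fun w _ => ?_
  cases z w
  · show 0 ≤ 1 - t
    linarith
  · exact h0

theorem bz_fiber (t : ℝ) (K : Finset W) (z0 : W → Bool) (hz : ∀ w ∈ K, z0 w = false) :
    (∑ z, bz t z * ind (∀ w, w ∉ K → z w = z0 w)) * (1 - t) ^ K.card = bz t z0 := by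
  have h1 : ∀ z : W → Bool, bz t z * ind (∀ w, w ∉ K → z w = z0 w) =
      ∏ w, (fun w b => bern t b * (if w ∈ K then 1 else ind (b = z0 w))) w (z w) := by
    intro z
    rw [La_ind_forall, bz, ← Finset.prod_mul_distrib]
    refine Finset.prod_congr rfl fun w _ => ?_
    show bern t (z w) * ind (w ∉ K → z w = z0 w) =
      bern t (z w) * (if w ∈ K then 1 else ind (z w = z0 w))
    by_cases hw : w ∈ K
    · rw [if_pos hw, ind_true (fun h => absurd hw h)]
    · rw [if_neg hw, ind_congr (show (w ∉ K → z w = z0 w) ↔ z w = z0 w from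
        ⟨fun h => h hw, fun h _ => h⟩)]
  rw [Finset.sum_congr rfl fun z _ => h1 z,
    sum_prod_bool (fun w b => bern t b * (if w ∈ K then 1 else ind (b = z0 w)))]
  have h2 : (1 - t) ^ K.card = ∏ w, (if w ∈ K then (1 - t) else 1) := by
    rw [Finset.prod_ite_mem, Finset.univ_inter, Finset.prod_const]
  rw [h2, ← Finset.prod_mul_distrib, bz]
  refine Finset.prod_congr rfl fun w _ => ?_
  by_cases hw : w ∈ K
  · simp only [if_pos hw]
    rw [hz w hw]
    show (t * 1 + (1 - t) * 1) * (1 - t) = 1 - t
    ring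
  · simp only [if_neg hw]
    cases hb : z0 w
    · rw [ind_false (by simp), ind_true rfl]
      show (t * 0 + (1 - t) * 1) * 1 = 1 - t
      ring
    · rw [ind_true rfl, ind_false (by simp)]
      show (t * 1 + (1 - t) * 0) * 1 = t
      ring

theorem zp_eq (t : ℝ) (τ : W → St) : ∑ z, bz t z * ind (gt τ z) = Zp t τ := by
  have h1 : ∀ z : W → Bool, bz t z * ind (gt τ z) =
      ∏ w, (fun w b => bern t b * ind (vl (τ w) b = false)) w (z w) := by
    intro z
    unfold gt
    rw [La_ind_forall, bz, ← Finset.prod_mul_distrib]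
  rw [Finset.sum_congr rfl fun z _ => h1 z,
    sum_prod_bool (fun w b => bern t b * ind (vl (τ w) b = false)), Zp]
  refine Finset.prod_congr rfl fun w _ => ?_
  cases hw : τ w
  · show t * ind (true = false) + (1 - t) * ind (false = false) = 1 - t
    rw [ind_false (by simp), ind_true rfl]
    ring
  · show t * ind (true = false) + (1 - t) * ind (true = false) = 0
    rw [ind_false (by simp)]
    ring
  · show t * ind (false = false) + (1 - t) * ind (false = false) = 1
    rw [ind_true rfl]
    ring

theorem zp_killed (t : ℝ) {τ : W → St} (h : killed τ) : Zp t τ = 0 := by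
  obtain ⟨w, hw⟩ := h
  refine Finset.prod_eq_zero (Finset.mem_univ w) ?_
  rw [hw]
  rfl

theorem zp_nonneg {t : ℝ} (h1 : t ≤ 1) (τ : W → St) : 0 ≤ Zp t τ := by
  refine Finset.prod_nonneg fun w _ => ?_
  cases τ w
  · show 0 ≤ 1 - t
    linarith
  · exact le_refl (0 : ℝ)
  · exact zero_le_one

theorem zp_le_one {t : ℝ} (h0 : 0 ≤ t) (h1 : t ≤ 1) (τ : W → St) : Zp t τ ≤ 1 := by
  refine Finset.prod_le_one (fun w _ => ?_) (fun w _ => ?_)
  · cases τ w
    · show 0 ≤ 1 - t
      linarith
    · exact le_refl (0 : ℝ)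
    · exact zero_le_one
  · cases τ w
    · show 1 - t ≤ 1
      linarith
    · exact zero_le_one
    · exact le_refl (1 : ℝ)

theorem zp_open (t : ℝ) {τ : W → St} (h : ¬ killed τ) :
    Zp t τ = (1 - t) ^ (Finset.univ.filter (fun w => τ w = St.S)).card := by
  have h1 : Zp t τ = ∏ w, (if w ∈ Finset.univ.filter (fun w => τ w = St.S) then (1 - t) else 1) := by
    unfold Zp
    refine Finset.prod_congr rfl fun w _ => ?_
    by_cases hw : τ w = St.S
    · rw [if_pos (by simp [hw]), hw]
      rfl
    · rw [if_neg (by simp [hw])]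
      cases hc : τ w
      · exact absurd hc hw
      · exact absurd ⟨w, hc⟩ h
      · rfl
  rw [h1, Finset.prod_ite_mem, Finset.univ_inter, Finset.prod_const]

theorem hr_sum (t : ℝ) {τ : W → St} (h : ¬ killed τ) :
    ∑ z, bz t z * ind (hr τ z) = 1 - Zp t τ := by
  have h1 : ∀ z : W → Bool, bz t z * ind (hr τ z) = bz t z - bz t z * ind (gt τ z) := by
    intro z
    by_cases hz : hr τ z
    · have h2 : ¬ gt τ z := by
        intro hg
        obtain ⟨w, hw, hw2⟩ := hz
        have h3 := hg w
        rw [hw, hw2] at h3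
        exact absurd h3 (by simp [vl])
      rw [ind_true hz, ind_false h2]
      ring
    · have h2 : gt τ z := by
        intro w
        cases hc : τ w
        · show z w = false
          by_contra hcon
          rw [Bool.not_eq_false] at hcon
          exact hz ⟨w, hc, hcon⟩
        · exact absurd ⟨w, hc⟩ h
        · rfl
      rw [ind_false hz, ind_true h2]
      ring
  rw [Finset.sum_congr rfl fun z _ => h1 z, Finset.sum_sub_distrib, bz_sum, zp_eq]

theorem not_killed_of_typ {t u : ℝ} (hu : 0 < u) {τ : W → St} (h : typ t u τ) : ¬ killed τ := by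
  intro hk
  have h1 := h.1
  rw [zp_killed t hk] at h1
  have : 0 < u ^ 4 / 2 := by positivity
  linarith

end Pool.Agent.H71.RO
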