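import Pool.Agent.H71.RO.La

/-!
# The weights of the local restrictions are a probability distribution

PROOF. If `typ t u τ`: with `Z := Zp t τ`, `u ^ 4 / 2 ≤ Z ≤ 2 * u ^ 4`, `0 < u ≤ 1 / 4`, so
`Z ≥ u ^ 4 / 2 ≥ u ^ 5` (hence `0 ≤ qq t u τ`), `qq t u τ ≤ 2 * u ^ 2 ≤ 1 / 8`, `u ^ 5 ≤ 1 / 1024`,
`1 - Z > 0`. Nonnegativity: `bz_nonneg`, `ind_nonneg`. Sum: `Fintype.sum_prod_type`, the sum over
`Md` has three terms (`Finset.univ` of `Md`; `simp [Fintype.sum_prod_type]` and unfolding of the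
enumeration, or prove `∑ m : Md, f m = f ac + f st + f fo` first by `rfl`/`decide`-style), and
`∑ z, bz t z = 1`, `∑ z, bz t z * ind (hr τ z) = 1 - Z` (`hr_sum`, `not_killed_of_typ`), so the total is
`u ^ 5 + (qq + (1 - u ^ 5 - qq)) * ((1 - Z) / (1 - Z)) = 1`. If not typical the sum is
`∑ z, bz t z = 1`.
-/

set_option autoImplicit false
set_option linter.unusedSectionVars false

namespace Pool.Agent.H71.RO

open Finset Classical
open Pool.Agent.H59.Er

variable {W : Type} [Fintype W]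

theorem sum_md (f : Md → ℝ) : ∑ m, f m = f Md.ac + f Md.st + f Md.fo := by
  have h : (Finset.univ : Finset Md) = {Md.ac, Md.st, Md.fo} := by
    ext m
    cases m <;> simp
  rw [h, Finset.sum_insert (by simp), Finset.sum_insert (by simp), Finset.sum_singleton]
  ring

/-- sums over the local restrictions -/
theorem sum_loc (f : Loc W → ℝ) : ∑ r, f r =
    (∑ z, f (Md.ac, z)) + (∑ z, f (Md.st, z)) + ∑ z, f (Md.fo, z) := by
  rw [Fintype.sum_prod_type, sum_md]

/-- numerical consequences of typicality -/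
theorem typ_num {t u : ℝ} (hu0 : 0 < u) (hu : u ≤ 1 / 4) {τ : W → St} (h : typ t u τ) :
    0 ≤ qq t u τ ∧ qq t u τ ≤ 2 * u ^ 2 ∧ 3 / 4 ≤ 1 - u ^ 5 - qq t u τ ∧
      127 / 128 ≤ 1 - Zp t τ ∧ 0 < Zp t τ := by
  obtain ⟨h1, h2⟩ := h
  have u2 : 0 < u ^ 2 := by positivity
  have u4 : 0 < u ^ 4 := by positivity
  have u5 : 0 < u ^ 5 := by positivity
  have e2 : u ^ 2 ≤ (1 / 4) ^ 2 := pow_le_pow_left₀ hu0.le hu 2
  have e4 : u ^ 4 ≤ (1 / 4) ^ 4 := pow_le_pow_left₀ hu0.le hu 4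
  have e5 : u ^ 5 ≤ (1 / 4) ^ 5 := pow_le_pow_left₀ hu0.le hu 5
  norm_num at e2 e4 e5
  have e6 : u ^ 5 ≤ u ^ 4 / 2 := by
    have : u ^ 4 * u ≤ u ^ 4 * (1 / 4) := mul_le_mul_of_nonneg_left hu u4.le
    calc u ^ 5 = u ^ 4 * u := by ring
      _ ≤ _ := by linarith
  have q1 : 0 ≤ qq t u τ := by
    unfold qq
    exact div_nonneg (by linarith) u2.le
  have q2 : qq t u τ ≤ 2 * u ^ 2 := by
    unfold qq
    rw [div_le_iff₀ u2]
    calc Zp t τ - u ^ 5 ≤ 2 * u ^ 4 := by linarith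
      _ = 2 * u ^ 2 * u ^ 2 := by ring
  refine ⟨q1, q2, ?_, ?_, ?_⟩ <;> linarith

theorem lw_nonneg {t u : ℝ} (ht0 : 0 ≤ t) (ht1 : t ≤ 1) (hu0 : 0 < u) (hu : u ≤ 1 / 4)
    (τ : W → St) (r : Loc W) : 0 ≤ lw t u τ r := by
  obtain ⟨m, z⟩ := r
  have hb := bz_nonneg ht0 ht1 z
  by_cases h : typ t u τ
  · obtain ⟨q1, -, q3, q4, -⟩ := typ_num hu0 hu h
    have hi : 0 ≤ bz t z * ind (hr τ z) / (1 - Zp t τ) :=
      div_nonneg (mul_nonneg hb (ind_nonneg _)) (by linarith)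
    unfold lw
    rw [if_pos h]
    cases m
    · exact mul_nonneg (by positivity) hb
    · exact mul_nonneg q1 hi
    · exact mul_nonneg (by linarith) hi
  · unfold lw
    rw [if_neg h]
    cases m
    · exact le_rfl
    · exact le_rfl
    · exact hb

theorem lw_sum {t u : ℝ} (hu0 : 0 < u) (hu : u ≤ 1 / 4) (τ : W → St) :
    ∑ r, lw t u τ r = 1 := by
  rw [sum_loc]
  by_cases h : typ t u τ
  · obtain ⟨-, -, -, q4, -⟩ := typ_num hu0 hu h
    have hk := not_killed_of_typ hu0 h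
    have hZ : (1 - Zp t τ) ≠ 0 := by linarith
    have e0 : ∑ z : W → Bool, bz t z * ind (hr τ z) / (1 - Zp t τ) = 1 := by
      rw [← Finset.sum_div, hr_sum t hk, div_self hZ]
    have e1 : ∑ z : W → Bool, lw t u τ (Md.ac, z) = u ^ 5 := by
      have : ∀ z : W → Bool, lw t u τ (Md.ac, z) = u ^ 5 * bz t z := by
        intro z
        unfold lw
        rw [if_pos h]
      rw [Finset.sum_congr rfl fun z _ => this z, ← Finset.mul_sum, bz_sum, mul_one]
    have e2 : ∑ z : W → Bool, lw t u τ (Md.st, z) = qq t u τ := by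
      have : ∀ z : W → Bool, lw t u τ (Md.st, z) =
          qq t u τ * (bz t z * ind (hr τ z) / (1 - Zp t τ)) := by
        intro z
        unfold lw
        rw [if_pos h]
      rw [Finset.sum_congr rfl fun z _ => this z, ← Finset.mul_sum, e0, mul_one]
    have e3 : ∑ z : W → Bool, lw t u τ (Md.fo, z) = 1 - u ^ 5 - qq t u τ := by
      have : ∀ z : W → Bool, lw t u τ (Md.fo, z) =
          (1 - u ^ 5 - qq t u τ) * (bz t z * ind (hr τ z) / (1 - Zp t τ)) := by
        intro z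
        unfold lw
        rw [if_pos h]
      rw [Finset.sum_congr rfl fun z _ => this z, ← Finset.mul_sum, e0, mul_one]
    rw [e1, e2, e3]
    ring
  · have e1 : ∀ z : W → Bool, lw t u τ (Md.ac, z) = 0 := by
      intro z
      unfold lw
      rw [if_neg h]
    have e2 : ∀ z : W → Bool, lw t u τ (Md.st, z) = 0 := by
      intro z
      unfold lw
      rw [if_neg h]
    have e3 : ∀ z : W → Bool, lw t u τ (Md.fo, z) = bz t z := by
      intro z
      unfold lw
      rw [if_neg h]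
    rw [Finset.sum_congr rfl fun z _ => e1 z, Finset.sum_congr rfl fun z _ => e2 z,
      Finset.sum_congr rfl fun z _ => e3 z, bz_sum]
    simp

theorem lw_isPr {U : Type} [Fintype U] {t u : ℝ} (ht0 : 0 ≤ t) (ht1 : t ≤ 1) (hu0 : 0 < u)
    (hu : u ≤ 1 / 4) (σ : U × W → St) : IsPr (fun (a : U) r => lw t u (fun w => σ (a, w)) r) :=
  ⟨fun _ r => lw_nonneg ht0 ht1 hu0 hu _ r, fun _ => lw_sum hu0 hu _⟩

end Pool.Agent.H71.RO
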