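import Pool.Agent.H71.RO.Lb

/-!
# Exactness: the restriction and a random bit of the gate give independent bits of the children

PROOF. `Fintype.sum_prod_type`, `sum_loc`, `Fintype.sum_bool`. Not typical: only the mode `fo`
contributes, `∑ z, bz t z * (u ^ 2 + (1 - u ^ 2)) * ind (z = v) = bz t v`.
Typical (so not killed, `Z := Zp t τ`, `0 < Z`, `0 < 1 - Z`, `qq * u ^ 2 = Z - u ^ 5`): put
`n := card {w | τ w = S}`, `Z = (1 - t) ^ n` (`zp_open`), `K := {w | τ w = S}`.
Auxiliary: if `hr τ v` is false (that is `clr τ v = v`), then `∑ z, bz t z * ind (clr τ z = v) * Z = bz t v`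
by `bz_fiber` with `z0 = v` (`clr τ z = v` iff `z w = v w` for all `w ∉ K`); if `hr τ v`, then
`clr τ z = v` never holds.
Case `¬ hr τ v`: mode `ac` gives `u ^ 5 * (bz t v / Z)`; mode `st` with bit true gives
`qq * u ^ 2 / (1 - Z) * ∑ z, bz t z * ind (hr τ z) * ind (clr τ z = v) = qq * u ^ 2 / (1 - Z) *
(bz t v / Z - bz t v)` (the only `z` with `clr τ z = v` and `¬ hr τ z` is `v`) `= qq * u ^ 2 * bz t v / Z`;
mode `st` with bit false and mode `fo` give `0` (`z = v` and `hr τ z` is impossible). Sum:
`(u ^ 5 + qq * u ^ 2) / Z * bz t v = bz t v`.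
Case `hr τ v`: mode `ac`, and mode `st` with bit true give `0`; mode `st` with bit false gives
`qq * (1 - u ^ 2) * bz t v / (1 - Z)`, mode `fo` gives `(1 - u ^ 5 - qq) * bz t v / (1 - Z)`; the sum is
`(1 - u ^ 5 - qq * u ^ 2) / (1 - Z) * bz t v = bz t v`.
-/

set_option autoImplicit false
set_option linter.unusedSectionVars false
set_option linter.unusedVariables false

namespace Pool.Agent.H71.RO

open Finset Classical
open Pool.Agent.H59.Er

variable {W : Type} [Fintype W]

private theorem Lc_single (f : (W → Bool) → ℝ) (v : W → Bool) :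
    ∑ z, f z * ind (z = v) = f v := by
  rw [Finset.sum_eq_single v]
  · rw [ind_true rfl, mul_one]
  · intro z _ hz
    rw [ind_false hz, mul_zero]
  · intro h
    exact absurd (Finset.mem_univ v) h

private theorem Lc_A {t u : ℝ} (hu0 : 0 < u) {τ : W → St} (h : typ t u τ) (v : W → Bool) :
    (∑ z, bz t z * ind (clr τ z = v)) * Zp t τ = bz t v * ind (¬ hr τ v) := by
  rw [zp_open t (not_killed_of_typ hu0 h)]
  by_cases hv : hr τ v
  · have h0 : ∑ z, bz t z * ind (clr τ z = v) = 0 := by
      refine Finset.sum_eq_zero fun z _ => ?_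
      rw [ind_false, mul_zero]
      rintro rfl
      obtain ⟨w, h1, h2⟩ := hv
      rw [clr, if_pos h1] at h2
      exact Bool.noConfusion h2
    rw [h0, zero_mul, ind_false (not_not.2 hv), mul_zero]
  · rw [ind_true hv, mul_one]
    have hK : ∀ w ∈ Finset.univ.filter (fun w => τ w = St.S), v w = false := by
      intro w hw
      rw [Finset.mem_filter] at hw
      by_contra hne
      exact hv ⟨w, hw.2, by simpa using hne⟩
    rw [← bz_fiber t (Finset.univ.filter (fun w => τ w = St.S)) v hK]
    congr 1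
    refine Finset.sum_congr rfl fun z _ => ?_
    congr 1
    apply ind_congr
    constructor
    · intro hz w hw
      have hw' : τ w ≠ St.S := by simpa using hw
      rw [← hz, clr, if_neg hw']
    · intro hz
      funext w
      by_cases hw : τ w = St.S
      · rw [clr, if_pos hw, hK w (by simpa using hw)]
      · rw [clr, if_neg hw]
        exact hz w (by simpa using hw)

private theorem Lc_B (t : ℝ) (τ : W → St) (v : W → Bool) :
    ∑ z, bz t z * ind (hr τ z) * ind (clr τ z = v) =
      (∑ z, bz t z * ind (clr τ z = v)) - bz t v * ind (¬ hr τ v) := by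
  have h1 : ∀ z, bz t z * ind (hr τ z) * ind (clr τ z = v) =
      bz t z * ind (clr τ z = v) - (bz t z * ind (¬ hr τ z)) * ind (z = v) := by
    intro z
    have hclr : ¬ hr τ z → clr τ z = z := by
      intro h
      funext w
      by_cases hw : τ w = St.S
      · rw [clr, if_pos hw]
        cases hzw : z w
        · rfl
        · exact absurd ⟨w, hw, hzw⟩ h
      · rw [clr, if_neg hw]
    by_cases h : hr τ z
    · rw [ind_true h, ind_false (not_not.2 h)]
      ring
    · rw [hclr h, ind_false h, ind_true h]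
      ring
  rw [Finset.sum_congr rfl fun z _ => h1 z, Finset.sum_sub_distrib,
    Lc_single (fun z => bz t z * ind (¬ hr τ z)) v]

theorem lw_exact {t u : ℝ} (ht0 : 0 < t) (ht1 : t < 1) (hu0 : 0 < u) (hu : u ≤ 1 / 4)
    (τ : W → St) (v : W → Bool) :
    ∑ p : Loc W × Bool, lw t u τ p.1 * bern (u ^ 2) p.2 * ind (ph τ p.1 p.2 = v) = bz t v := by
  rw [Fintype.sum_prod_type]
  have hb : ∀ r : Loc W, ∑ b : Bool, lw t u τ r * bern (u ^ 2) b * ind (ph τ r b = v) =
      lw t u τ r * (u ^ 2) * ind (ph τ r true = v) +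
        lw t u τ r * (1 - u ^ 2) * ind (ph τ r false = v) := by
    intro r
    rw [Fintype.sum_bool]
    rfl
  rw [Finset.sum_congr rfl fun r _ => hb r, sum_loc]
  by_cases h : typ t u τ
  · obtain ⟨h1, h2, h3, h4, h5⟩ := typ_num hu0 hu h
    have hZ1 : 1 - Zp t τ ≠ 0 := by
      intro h0
      rw [h0] at h4
      norm_num at h4
    have hq : qq t u τ * u ^ 2 = Zp t τ - u ^ 5 := by
      unfold qq
      field_simp
    have hac : ∀ z : W → Bool, lw t u τ (Md.ac, z) = u ^ 5 * bz t z := by
      intro z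
      unfold lw
      rw [if_pos h]
    have hst : ∀ z : W → Bool, lw t u τ (Md.st, z) =
        qq t u τ * (bz t z * ind (hr τ z) / (1 - Zp t τ)) := by
      intro z
      unfold lw
      rw [if_pos h]
    have hfo : ∀ z : W → Bool, lw t u τ (Md.fo, z) =
        (1 - u ^ 5 - qq t u τ) * (bz t z * ind (hr τ z) / (1 - Zp t τ)) := by
      intro z
      unfold lw
      rw [if_pos h]
    have pac : ∀ (z : W → Bool) (b : Bool), ph τ (Md.ac, z) b = clr τ z := fun z b => rfl
    have pst1 : ∀ z : W → Bool, ph τ (Md.st, z) true = clr τ z := fun z => rfl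
    have pst2 : ∀ z : W → Bool, ph τ (Md.st, z) false = z := fun z => rfl
    have pfo : ∀ (z : W → Bool) (b : Bool), ph τ (Md.fo, z) b = z := fun z b => rfl
    simp only [hac, hst, hfo, pac, pst1, pst2, pfo]
    obtain ⟨A, hA⟩ : ∃ A, A = ∑ z, bz t z * ind (clr τ z = v) := ⟨_, rfl⟩
    have hAZ := Lc_A hu0 h v
    have hB := Lc_B t τ v
    have hC := Lc_single (fun z => bz t z * ind (hr τ z)) v
    rw [← hA] at hAZ hB
    have e1 : ∑ z, (u ^ 5 * bz t z * u ^ 2 * ind (clr τ z = v) +
        u ^ 5 * bz t z * (1 - u ^ 2) * ind (clr τ z = v)) = u ^ 5 * A := by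
      rw [hA, Finset.mul_sum]
      refine Finset.sum_congr rfl fun z _ => ?_
      ring
    have e2 : ∑ z, (qq t u τ * (bz t z * ind (hr τ z) / (1 - Zp t τ)) * u ^ 2 *
        ind (clr τ z = v) + qq t u τ * (bz t z * ind (hr τ z) / (1 - Zp t τ)) * (1 - u ^ 2) *
        ind (z = v)) = qq t u τ * u ^ 2 / (1 - Zp t τ) * (A - bz t v * ind (¬ hr τ v)) +
        qq t u τ * (1 - u ^ 2) / (1 - Zp t τ) * (bz t v * ind (hr τ v)) := by
      rw [← hB, ← hC, Finset.mul_sum, Finset.mul_sum, ← Finset.sum_add_distrib]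
      refine Finset.sum_congr rfl fun z _ => ?_
      ring
    have e3 : ∑ z, ((1 - u ^ 5 - qq t u τ) * (bz t z * ind (hr τ z) / (1 - Zp t τ)) * u ^ 2 *
        ind (z = v) + (1 - u ^ 5 - qq t u τ) * (bz t z * ind (hr τ z) / (1 - Zp t τ)) *
        (1 - u ^ 2) * ind (z = v)) = (1 - u ^ 5 - qq t u τ) / (1 - Zp t τ) *
        (bz t v * ind (hr τ v)) := by
      rw [← hC, Finset.mul_sum]
      refine Finset.sum_congr rfl fun z _ => ?_
      ring
    rw [e1, e2, e3]
    by_cases hv : hr τ v
    · rw [ind_false (not_not.2 hv), mul_zero] at hAZ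
      have hA0 : A = 0 := by
        rcases mul_eq_zero.1 hAZ with h | h
        · exact h
        · exact absurd h h5.ne'
      rw [hA0, ind_false (not_not.2 hv), ind_true hv]
      have e4 : qq t u τ * (1 - u ^ 2) + (1 - u ^ 5 - qq t u τ) = 1 - Zp t τ := by
        linarith [hq]
      calc _ = (qq t u τ * (1 - u ^ 2) + (1 - u ^ 5 - qq t u τ)) / (1 - Zp t τ) * bz t v := by
            ring
        _ = bz t v := by
            rw [e4, div_self hZ1, one_mul]
    · rw [ind_true hv, mul_one] at hAZ
      rw [ind_true hv, ind_false hv]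
      have hA' : bz t v = A * Zp t τ := hAZ.symm
      rw [hA']
      field_simp
      linear_combination A * (1 - Zp t τ) * hq
  · have hac : ∀ z : W → Bool, lw t u τ (Md.ac, z) = 0 := by
      intro z
      unfold lw
      rw [if_neg h]
    have hst : ∀ z : W → Bool, lw t u τ (Md.st, z) = 0 := by
      intro z
      unfold lw
      rw [if_neg h]
    have hfo : ∀ z : W → Bool, lw t u τ (Md.fo, z) = bz t z := by
      intro z
      unfold lw
      rw [if_neg h]
    have pfo : ∀ (z : W → Bool) (b : Bool), ph τ (Md.fo, z) b = z := fun z b => rfl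
    simp only [hac, hst, hfo, pfo, zero_mul, add_zero, Finset.sum_const_zero, zero_add]
    rw [← Lc_single (fun z => bz t z) v]
    refine Finset.sum_congr rfl fun z _ => ?_
    ring

end Pool.Agent.H71.RO
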