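import Pool.Agent.H71.RO.Defs

/-!
# The status of the gate gives the right value

PROOF. If `killed τ`: `gt τ _` is false because of the child `w` with `τ w = R` (its value is `true`),
and `vl C b = false`. If not killed: `gt τ x ↔ ¬ ∃ w, τ w = S ∧ x w = true` (cases on `τ w`), in
particular `gt τ (clr τ z)` holds and `gt τ z ↔ ¬ hr τ z`. Then go through the modes:
`ac`: `ph = clr`, gate true, status `R`. `st`, `hr τ z`: status `S`; bit true: `ph = clr`, gate true; bit
false: `ph = z`, gate false. `st`, `¬ hr τ z`: status `R`, gate true for both bits. `fo`: `ph = z`, gate true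
iff `¬ hr τ z`.
-/

set_option autoImplicit false
set_option linter.unusedSectionVars false

namespace Pool.Agent.H71.RO

open Finset Classical
open Pool.Agent.H59.Er

variable {W : Type} [Fintype W]

theorem gt_iff {τ : W → St} (h : ¬ killed τ) (x : W → Bool) : gt τ x ↔ ¬ hr τ x := by
  constructor
  · rintro hg ⟨w, h1, h2⟩
    have h3 := hg w
    rw [h1, h2] at h3
    exact Bool.noConfusion h3
  · intro hh w
    cases hw : τ w with
    | S =>
      show x w = false
      cases hx : x w
      · rfl
      · exact absurd ⟨w, hw, hx⟩ hh
    | R => exact absurd ⟨w, hw⟩ h
    | C => rfl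

theorem ns_value (τ : W → St) (r : Loc W) (b : Bool) :
    vl (ns τ r) b = decide (gt τ (ph τ r b)) := by
  by_cases hk : killed τ
  · have h1 : ns τ r = St.C := by
      unfold ns
      rw [if_pos hk]
    have h2 : ¬ gt τ (ph τ r b) := by
      intro hg
      obtain ⟨w, hw⟩ := hk
      have h3 := hg w
      rw [hw] at h3
      exact Bool.noConfusion h3
    rw [h1, decide_eq_false h2]
    rfl
  · have hclr : ∀ z : W → Bool, gt τ (clr τ z) := by
      intro z
      rw [gt_iff hk]
      rintro ⟨w, h1, h2⟩
      rw [clr, if_pos h1] at h2
      exact Bool.noConfusion h2
    obtain ⟨m, z⟩ := r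
    cases m with
    | ac =>
      have h1 : ns τ (Md.ac, z) = St.R := by
        unfold ns
        rw [if_neg hk]
      rw [h1]
      show true = decide (gt τ (clr τ z))
      rw [decide_eq_true (hclr z)]
    | st =>
      by_cases hz : hr τ z
      · have h1 : ns τ (Md.st, z) = St.S := by
          unfold ns
          rw [if_neg hk]
          exact if_pos hz
        rw [h1]
        cases b with
        | true =>
          show true = decide (gt τ (clr τ z))
          rw [decide_eq_true (hclr z)]
        | false =>
          show false = decide (gt τ z)
          rw [decide_eq_false (by rw [gt_iff hk]; exact not_not.2 hz)]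
      · have h1 : ns τ (Md.st, z) = St.R := by
          unfold ns
          rw [if_neg hk]
          exact if_neg hz
        rw [h1]
        cases b with
        | true =>
          show true = decide (gt τ (clr τ z))
          rw [decide_eq_true (hclr z)]
        | false =>
          show true = decide (gt τ z)
          rw [decide_eq_true (by rw [gt_iff hk]; exact hz)]
    | fo =>
      show vl (ns τ (Md.fo, z)) b = decide (gt τ z)
      by_cases hz : hr τ z
      · have h1 : ns τ (Md.fo, z) = St.C := by
          unfold ns
          rw [if_neg hk]
          exact if_pos hz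
        rw [h1, decide_eq_false (by rw [gt_iff hk]; exact not_not.2 hz)]
        rfl
      · have h1 : ns τ (Md.fo, z) = St.R := by
          unfold ns
          rw [if_neg hk]
          exact if_neg hz
        rw [h1, decide_eq_true (by rw [gt_iff hk]; exact hz)]
        rfl

end Pool.Agent.H71.RO
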