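import Pool.Agent.H71.RO.Ea
import Pool.Agent.H71.RO.Eb
import Pool.Agent.H71.RO.Ec
import Pool.Agent.H71.RO.Lc
import Pool.Agent.H71.RO.Ld

/-!
# Global exactness of the restriction

PROOF of `ex_phi`. Right side: by `ex_split` (with `A = Loc W`, `B = Bool`,
`m a r = lw t u (fun w => σ (a, w)) r`, `n a r b = bern (u ^ 2) b`, read from right to left, with
`F' P = F (Phi σ (fun a => (P a).1) (fun a => (P a).2))`) it is
`Ex (fun a p => lw .. p.1 * bern (u ^ 2) p.2) F'`, and `F' P = G (fun a => ph (fun w => σ (a, w)) (P a).1 (P a).2)`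
with `G H = F (fun v => H v.1 v.2)`. By `ex_map` (with `g a p = ph (fun w => σ (a, w)) p.1 p.2`) it is
`Ex (fun a z => ∑ p, lw .. p.1 * bern (u ^ 2) p.2 * ind (ph .. p.1 p.2 = z)) G`, which by `lw_exact` is
`Ex (fun a z => bz t z) G`. Left side: `ex_curry` with `μ = fun _ => bern t` (`bz` is the product).

PROOF of `up_phi`. `up f x v = f x (fun a => decide (∀ w, v (a, w) = false))` with
`v i = vl (σ i) (Phi σ r y i)`; for every `a` the proposition is `gt (fun w => σ (a, w)) (ph .. (r a) (y a))`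
and its `decide` is `vl (ns (fun w => σ (a, w)) (r a)) (y a)` by `ns_value`.
-/

set_option autoImplicit false
set_option linter.unusedSectionVars false

namespace Pool.Agent.H71.RO

open Finset Classical
open Pool.Agent.H59.Er

variable {U W : Type} [Fintype U] [Fintype W]

theorem ex_phi {t u : ℝ} (ht0 : 0 < t) (ht1 : t < 1) (hu0 : 0 < u) (hu : u ≤ 1 / 4)
    (σ : U × W → St) (F : (U × W → Bool) → ℝ) :
    Ex (fun _ : U × W => bern t) F =
      Ex (fun (a : U) r => lw t u (fun w => σ (a, w)) r)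
        (fun r => Ex (fun _ : U => bern (u ^ 2)) (fun y => F (Phi σ r y))) := by
  have e1 := ex_curry (fun _ : U × W => bern t) F
  have e2 := ex_split (fun (a : U) (r : Loc W) => lw t u (fun w => σ (a, w)) r)
    (fun (_ : U) (_ : Loc W) (b : Bool) => bern (u ^ 2) b)
    (fun P : U → Loc W × Bool => F (Phi σ (fun a => (P a).1) (fun a => (P a).2)))
  have e3 := ex_map (fun (a : U) (p : Loc W × Bool) =>
      lw t u (fun w => σ (a, w)) p.1 * bern (u ^ 2) p.2)
    (fun (a : U) (p : Loc W × Bool) => ph (fun w => σ (a, w)) p.1 p.2)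
    (fun G : U → W → Bool => F (fun v => G v.1 v.2))
  have e4 : (fun (i : U) (y : W → Bool) => ∑ r : Loc W × Bool,
      (lw t u (fun w => σ (i, w)) r.1 * bern (u ^ 2) r.2) *
        ind (ph (fun w => σ (i, w)) r.1 r.2 = y)) = fun (_ : U) (y : W → Bool) => bz t y := by
    funext i y
    exact lw_exact ht0 ht1 hu0 hu (fun w => σ (i, w)) y
  rw [e4] at e3
  rw [e1]
  refine Eq.trans ?_ e2
  refine Eq.trans ?_ e3.symm
  rfl

theorem up_phi {X : Type} (f : X → (U → Bool) → Prop) (x : X) (σ : U × W → St) (r : U → Loc W)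
    (y : U → Bool) :
    up f x (fun i => vl (σ i) (Phi σ r y i)) ↔
      f x (fun a => vl (ns (fun w => σ (a, w)) (r a)) (y a)) := by
  have h : (fun a => @decide (∀ w, vl (σ (a, w)) (Phi σ r y (a, w)) = false) (propDecidable _))
      = fun a => vl (ns (fun w => σ (a, w)) (r a)) (y a) := by
    funext a
    rw [ns_value]
    rfl
  unfold up
  rw [← h]

end Pool.Agent.H71.RO
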