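import Pool.Agent.H71.RO.Lc
import Pool.Agent.H71.RO.Ld

/-!
# The law of the status of a gate

PROOFS. Write `wt τ := ∏ w, law (τ w)`; `∑ τ : W → St, ∏ w, h w (τ w) = ∏ w, ∑ c, h w c`
(`Finset.prod_univ_sum`, `Fintype.piFinset_univ`); so `∑ τ, wt τ = 1` and
`∑ τ, wt τ * Zp t τ = (∑ c, law c * zt t c) ^ card W = (1 - (law S * t + law R)) ^ card W`
(`sum_st`: the sum over `St` has three terms; `law C = 1 - law S - law R`).

`nlaw_isLaw`: nonnegativity from `lw_nonneg`, `ind_nonneg`; sum: exchange the sums, for every `τ`, `r` the sum over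
`c` of `ind (ns τ r = c)` is `1`, then `lw_sum`.

`ns_pr`: for every `τ`: `∑ r, lw t u τ r * (ind (ns τ r = S) * u ^ 2 + ind (ns τ r = R)) = Zp t τ`: the factor is
`∑ b, bern (u ^ 2) b * ind (vl (ns τ r) b = true)` (cases on `ns τ r`), by `ns_value` it is
`∑ b, bern (u ^ 2) b * ind (gt τ (ph τ r b))`, and `ind (gt τ (ph τ r b)) = ∑ v, ind (ph τ r b = v) * ind (gt τ v)`;
exchange the sums and use `lw_exact`: the result is `∑ v, bz t v * ind (gt τ v) = Zp t τ` (`zp_eq`).

`nlaw_pr`: `nlaw S * u ^ 2 + nlaw R = ∑ τ, wt τ * ∑ r, lw .. * (ind (S) * u ^ 2 + ind (R)) = ∑ τ, wt τ * Zp t τ`.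

`nlaw_rr`: for every `τ`: `∑ r, lw t u τ r * ind (ns τ r = R) ≤ u ^ 5 + Zp t τ * ind (¬ typ t u τ)`. If `typ`: not
killed; `ac` contributes `u ^ 5 * ∑ bz = u ^ 5`; in the modes `st`, `fo` the status is `R` only if `¬ hr τ z`, and
then the weight has the factor `ind (hr τ z) = 0`. If not typical: the modes `ac`, `st` have weight `0`; if killed
the status is `C`, so the sum is `0`; otherwise it is `∑ z, bz t z * ind (¬ hr τ z) = Zp t τ` (`gt_iff`, `zp_eq`).
-/

set_option autoImplicit false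
set_option linter.unusedSectionVars false

namespace Pool.Agent.H71.RO

open Finset Classical
open Pool.Agent.H59.Er

variable {W : Type} [Fintype W]

theorem sum_st (f : St → ℝ) : ∑ c, f c = f St.S + f St.R + f St.C := by
  have h : (Finset.univ : Finset St) = {St.S, St.R, St.C} := by
    ext c
    cases c <;> simp
  rw [h, Finset.sum_insert (by simp), Finset.sum_insert (by simp), Finset.sum_singleton]
  ring

theorem sum_prod_st (h : St → ℝ) : ∑ τ : W → St, ∏ w, h (τ w) = (∑ c, h c) ^ Fintype.card W := by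
  have h1 := Finset.prod_univ_sum (fun _ : W => (Finset.univ : Finset St)) (fun _ c => h c)
  rw [Fintype.piFinset_univ] at h1
  rw [← h1, Finset.prod_const, Finset.card_univ]

theorem Lg_ind_sum {α : Type} [Fintype α] (x : α) : ∑ c, ind (x = c) = 1 := by
  unfold ind
  rw [Finset.sum_ite_eq]
  simp

theorem Lg_wt {law : St → ℝ} (h : IsLaw law) : ∑ τ : W → St, ∏ w, law (τ w) = 1 := by
  rw [sum_prod_st, h.sum, one_pow]

theorem Lg_wt_nonneg {law : St → ℝ} (h : IsLaw law) (τ : W → St) : 0 ≤ ∏ w, law (τ w) :=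
  Finset.prod_nonneg fun w _ => h.nonneg _

theorem nlaw_isLaw {t u : ℝ} (ht0 : 0 ≤ t) (ht1 : t ≤ 1) (hu0 : 0 < u) (hu : u ≤ 1 / 4)
    {law : St → ℝ} (h : IsLaw law) : IsLaw (nlaw W t u law) := by
  refine ⟨fun c => ?_, ?_⟩
  · exact Finset.sum_nonneg fun τ _ => mul_nonneg (Lg_wt_nonneg h τ)
      (Finset.sum_nonneg fun r _ => mul_nonneg (lw_nonneg ht0 ht1 hu0 hu τ r) (ind_nonneg _))
  · unfold nlaw
    rw [Finset.sum_comm, ← Lg_wt (W := W) h]
    refine Finset.sum_congr rfl fun τ _ => ?_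
    rw [← Finset.mul_sum, Finset.sum_comm]
    have h1 : ∀ r : Loc W, ∑ c, lw t u τ r * ind (ns τ r = c) = lw t u τ r := by
      intro r
      rw [← Finset.mul_sum, Lg_ind_sum, mul_one]
    rw [Finset.sum_congr rfl fun r _ => h1 r, lw_sum hu0 hu τ, mul_one]

theorem Lg_fac (u : ℝ) (τ : W → St) (r : Loc W) :
    ind (ns τ r = St.S) * u ^ 2 + ind (ns τ r = St.R) =
      ∑ b, bern (u ^ 2) b * ind (gt τ (ph τ r b)) := by
  have h1 : ∀ b, ind (gt τ (ph τ r b)) = ind (vl (ns τ r) b = true) := by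
    intro b
    rw [ns_value]
    exact ind_congr (by simp)
  simp only [h1, Fintype.sum_bool]
  cases ns τ r <;> simp [ind, vl, bern]

theorem ns_pr {t u : ℝ} (ht0 : 0 < t) (ht1 : t < 1) (hu0 : 0 < u) (hu : u ≤ 1 / 4) (τ : W → St) :
    ∑ r, lw t u τ r * (ind (ns τ r = St.S) * u ^ 2 + ind (ns τ r = St.R)) = Zp t τ := by
  rw [← zp_eq]
  have h1 : ∀ v : W → Bool, bz t v * ind (gt τ v) =
      ∑ r : Loc W, ∑ b : Bool, lw t u τ r * bern (u ^ 2) b * ind (ph τ r b = v) * ind (gt τ v) := by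
    intro v
    rw [← lw_exact ht0 ht1 hu0 hu τ v, Finset.sum_mul, Fintype.sum_prod_type]
  rw [Finset.sum_congr rfl fun v _ => h1 v, Finset.sum_comm]
  refine Finset.sum_congr rfl fun r _ => ?_
  rw [Finset.sum_comm, Lg_fac, Finset.mul_sum]
  refine Finset.sum_congr rfl fun b _ => ?_
  rw [Finset.sum_eq_single (ph τ r b)]
  · rw [ind_true rfl]
    ring
  · intro v _ hv
    rw [ind_false (Ne.symm hv)]
    ring
  · intro h
    exact absurd (Finset.mem_univ _) h

theorem nlaw_pr {t u : ℝ} (ht0 : 0 < t) (ht1 : t < 1) (hu0 : 0 < u) (hu : u ≤ 1 / 4)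
    {law : St → ℝ} (h : IsLaw law) :
    nlaw W t u law St.S * u ^ 2 + nlaw W t u law St.R =
      (1 - (law St.S * t + law St.R)) ^ Fintype.card W := by
  have h1 : nlaw W t u law St.S * u ^ 2 + nlaw W t u law St.R =
      ∑ τ : W → St, ∏ w, (law (τ w) * zt t (τ w)) := by
    unfold nlaw
    rw [Finset.sum_mul, ← Finset.sum_add_distrib]
    refine Finset.sum_congr rfl fun τ _ => ?_
    rw [Finset.prod_mul_distrib, show ∏ w, zt t (τ w) = Zp t τ from rfl,
      ← ns_pr ht0 ht1 hu0 hu τ, mul_assoc, ← mul_add, Finset.sum_mul, ← Finset.sum_add_distrib]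
    congr 1
    refine Finset.sum_congr rfl fun r _ => ?_
    ring
  rw [h1, sum_prod_st (fun c => law c * zt t c), sum_st]
  have h2 := h.sum
  rw [sum_st] at h2
  congr 1
  simp only [zt]
  linear_combination h2

theorem Lg_rr {t u : ℝ} (ht0 : 0 ≤ t) (ht1 : t ≤ 1) (hu0 : 0 < u) (hu : u ≤ 1 / 4)
    (τ : W → St) :
    ∑ r, lw t u τ r * ind (ns τ r = St.R) ≤ u ^ 5 + Zp t τ * ind (¬ typ t u τ) := by
  rw [sum_loc]
  by_cases hty : typ t u τ
  · have hk := not_killed_of_typ hu0 hty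
    rw [ind_false (not_not.2 hty), mul_zero, add_zero]
    have h1 : ∑ z, lw t u τ (Md.ac, z) * ind (ns τ (Md.ac, z) = St.R) = u ^ 5 := by
      rw [← mul_one (u ^ 5), ← bz_sum (W := W) t, Finset.mul_sum]
      refine Finset.sum_congr rfl fun z _ => ?_
      rw [ind_true (by simp [ns, hk])]
      simp [lw, hty]
    have h2 : ∑ z, lw t u τ (Md.st, z) * ind (ns τ (Md.st, z) = St.R) = 0 := by
      refine Finset.sum_eq_zero fun z _ => ?_
      by_cases hh : hr τ z
      · rw [ind_false (by simp [ns, hk, hh]), mul_zero]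
      · simp [lw, hty, ind_false hh]
    have h3 : ∑ z, lw t u τ (Md.fo, z) * ind (ns τ (Md.fo, z) = St.R) = 0 := by
      refine Finset.sum_eq_zero fun z _ => ?_
      by_cases hh : hr τ z
      · rw [ind_false (by simp [ns, hk, hh]), mul_zero]
      · simp [lw, hty, ind_false hh]
    rw [h1, h2, h3]
    simp
  · rw [ind_true hty, mul_one]
    have h1 : ∑ z, lw t u τ (Md.ac, z) * ind (ns τ (Md.ac, z) = St.R) = 0 := by
      refine Finset.sum_eq_zero fun z _ => ?_
      simp [lw, hty]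
    have h2 : ∑ z, lw t u τ (Md.st, z) * ind (ns τ (Md.st, z) = St.R) = 0 := by
      refine Finset.sum_eq_zero fun z _ => ?_
      simp [lw, hty]
    rw [h1, h2, zero_add, zero_add]
    have hu5 : 0 ≤ u ^ 5 := by positivity
    by_cases hk : killed τ
    · have h3 : ∑ z, lw t u τ (Md.fo, z) * ind (ns τ (Md.fo, z) = St.R) = 0 := by
        refine Finset.sum_eq_zero fun z _ => ?_
        rw [ind_false (by simp [ns, hk]), mul_zero]
      rw [h3, zp_killed t hk]
      linarith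
    · have h3 : ∑ z, lw t u τ (Md.fo, z) * ind (ns τ (Md.fo, z) = St.R) = Zp t τ := by
        rw [← zp_eq]
        refine Finset.sum_congr rfl fun z _ => ?_
        rw [ind_congr (gt_iff hk z)]
        by_cases hh : hr τ z
        · rw [ind_false (by simp [ns, hk, hh]), ind_false (not_not.2 hh), mul_zero, mul_zero]
        · rw [ind_true (by simp [ns, hk, hh]), ind_true hh]
          simp [lw, hty]
      rw [h3]
      linarith

theorem nlaw_rr {t u : ℝ} (ht0 : 0 ≤ t) (ht1 : t ≤ 1) (hu0 : 0 < u) (hu : u ≤ 1 / 4)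
    {law : St → ℝ} (h : IsLaw law) :
    nlaw W t u law St.R ≤ u ^ 5 +
      ∑ τ : W → St, (∏ w, law (τ w)) * (Zp t τ * ind (¬ typ t u τ)) := by
  have h1 : u ^ 5 + ∑ τ : W → St, (∏ w, law (τ w)) * (Zp t τ * ind (¬ typ t u τ)) =
      ∑ τ : W → St, (∏ w, law (τ w)) * (u ^ 5 + Zp t τ * ind (¬ typ t u τ)) := by
    simp only [mul_add, Finset.sum_add_distrib]
    rw [← Finset.sum_mul, Lg_wt h, one_mul]
  rw [h1]
  unfold nlaw
  exact Finset.sum_le_sum fun τ _ =>
    mul_le_mul_of_nonneg_left (Lg_rr ht0 ht1 hu0 hu τ) (Lg_wt_nonneg h τ)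

end Pool.Agent.H71.RO
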