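import Pool.Agent.H71.RO.Lg

/-!
# The second moment method for `Zp`, and the invariant

PROOF of `atyp_le`. Put `P := u ^ 4 > 0`, `Z := Zp t τ`, `wt τ := ∏ w, law (τ w) ≥ 0`. Pointwise (for `Z ≥ 0`):
`Z * ind (¬ typ) ≤ (2 / P) * (Z - P) ^ 2`. Indeed if `typ` the left side is `0`. Otherwise `Z < P / 2`: then
`(Z - P) ^ 2 > P ^ 2 / 4`, so the right side is `> P / 2 > Z`; or `Z > 2 * P`: then `(Z - P) ^ 2 - (P / 2) * Z`
`= Z ^ 2 - (5 / 2) * P * Z + P ^ 2 = (Z - 2 * P) * (Z - P / 2) ≥ 0`. Sum over `τ`: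
`∑ wt * (Z - P) ^ 2 = ∑ wt * Z ^ 2 - 2 * P * ∑ wt * Z + P ^ 2` with `∑ wt = 1`, `∑ wt * Z = P` (by `hP`, since
`wt τ * Zp t τ = ∏ w, law (τ w) * zt t (τ w)` and `sum_prod_st`) and
`∑ wt * Z ^ 2 = (∑ c, law c * zt t c ^ 2) ^ card W = (law S * (1 - t) ^ 2 + law C) ^ card W`.

PROOF of `nlaw_inv`. `nlaw_isLaw`, `nlaw_pr` with `hP`, `nlaw_rr` with `atyp_le` and `hvar`.

PROOF of `var_le`. `α := law S`, `ρ := law R`, `t := u ^ 2`, `a := α * (1 - t) ^ 2 + law C`, `b := (1 - u ^ 4) ^ 2`,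
`law C = 1 - α - ρ`, `α * t + ρ = u ^ 4`. Then `a - b = ρ + α * t ^ 2 - u ^ 8 ≤ ρ + α * t * t ≤ 2 * u ^ 5 + u ^ 4 * u ^ 2
≤ 3 * u ^ 5` (as `u ≤ 1`), `0 ≤ b`, `0 ≤ a ≤ 1` (`a` is a subconvex combination) and `b ≤ 1`.
If `a ≤ b` then `a ^ N - b ^ N ≤ 0`. Otherwise `a ^ N - b ^ N ≤ N * (a - b)` for `0 ≤ b ≤ a ≤ 1` (induction on `N`:
`a ^ (N+1) - b ^ (N+1) = a * (a ^ N - b ^ N) + (a - b) * b ^ N`). Finally `N * 3 * u ^ 5 = 3 * u * (N * u ^ 4)`.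
-/

set_option autoImplicit false
set_option linter.unusedSectionVars false

namespace Pool.Agent.H71.RO

open Finset Classical
open Pool.Agent.H59.Er

variable {W : Type} [Fintype W]

theorem Lh_point {Z P : ℝ} (hP : 0 < P) (h : ¬ (P / 2 ≤ Z ∧ Z ≤ 2 * P)) :
    Z ≤ 2 / P * (Z - P) ^ 2 := by
  rw [div_mul_eq_mul_div, le_div_iff₀ hP]
  rcases lt_or_ge Z (P / 2) with h1 | h1
  · nlinarith [mul_pos (by linarith : (0 : ℝ) < P - 2 * Z) (by linarith : (0 : ℝ) < 2 * P - Z)]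
  · have h2 : 2 * P < Z := by
      by_contra h3
      exact h ⟨h1, not_lt.1 h3⟩
    nlinarith [mul_pos (by linarith : (0 : ℝ) < 2 * Z - P) (by linarith : (0 : ℝ) < Z - 2 * P)]

theorem Lh_C {law : St → ℝ} (h : IsLaw law) : law St.C = 1 - law St.S - law St.R := by
  have h1 := h.sum
  rw [sum_st] at h1
  linarith

theorem atyp_le {t u : ℝ} (ht0 : 0 ≤ t) (ht1 : t ≤ 1) (hu0 : 0 < u) {law : St → ℝ} (h : IsLaw law)
    (hP : u ^ 4 = (1 - (law St.S * t + law St.R)) ^ Fintype.card W) :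
    ∑ τ : W → St, (∏ w, law (τ w)) * (Zp t τ * ind (¬ typ t u τ)) ≤
      (2 / u ^ 4) * ((law St.S * (1 - t) ^ 2 + law St.C) ^ Fintype.card W - u ^ 8) := by
  have hP0 : 0 < u ^ 4 := by positivity
  have hC := Lh_C h
  have hpt : ∀ τ : W → St, Zp t τ * ind (¬ typ t u τ) ≤ 2 / u ^ 4 * (Zp t τ - u ^ 4) ^ 2 := by
    intro τ
    by_cases hty : typ t u τ
    · have h1 : ind (¬ typ t u τ) = 0 := by
        rw [ind, if_neg (not_not.2 hty)]
      rw [h1, mul_zero]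
      positivity
    · have h1 : ind (¬ typ t u τ) = 1 := by
        rw [ind, if_pos hty]
      rw [h1, mul_one]
      exact Lh_point hP0 hty
  have e1 : ∑ τ : W → St, ∏ w, law (τ w) = 1 := by
    rw [sum_prod_st law, h.sum, one_pow]
  have e2 : ∑ τ : W → St, (∏ w, law (τ w)) * Zp t τ = u ^ 4 := by
    have h1 : ∀ τ : W → St, (∏ w, law (τ w)) * Zp t τ = ∏ w, (law (τ w) * zt t (τ w)) := by
      intro τ
      rw [Zp, Finset.prod_mul_distrib]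
    rw [Finset.sum_congr rfl fun τ _ => h1 τ, sum_prod_st (fun c => law c * zt t c), sum_st, hP]
    congr 1
    simp only [zt]
    rw [hC]
    ring
  have e3 : ∑ τ : W → St, (∏ w, law (τ w)) * Zp t τ ^ 2 =
      (law St.S * (1 - t) ^ 2 + law St.C) ^ Fintype.card W := by
    have h1 : ∀ τ : W → St, (∏ w, law (τ w)) * Zp t τ ^ 2 = ∏ w, (law (τ w) * zt t (τ w) ^ 2) := by
      intro τ
      rw [Zp, Finset.prod_mul_distrib, Finset.prod_pow]
    rw [Finset.sum_congr rfl fun τ _ => h1 τ, sum_prod_st (fun c => law c * zt t c ^ 2), sum_st]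
    congr 1
    simp only [zt]
    ring
  calc ∑ τ : W → St, (∏ w, law (τ w)) * (Zp t τ * ind (¬ typ t u τ))
      ≤ ∑ τ : W → St, (∏ w, law (τ w)) * (2 / u ^ 4 * (Zp t τ - u ^ 4) ^ 2) :=
        Finset.sum_le_sum fun τ _ => mul_le_mul_of_nonneg_left (hpt τ)
          (Finset.prod_nonneg fun w _ => h.nonneg _)
    _ = 2 / u ^ 4 * (∑ τ : W → St, (∏ w, law (τ w)) * Zp t τ ^ 2 -
          2 * u ^ 4 * ∑ τ : W → St, (∏ w, law (τ w)) * Zp t τ +
          u ^ 8 * ∑ τ : W → St, ∏ w, law (τ w)) := by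
        rw [Finset.mul_sum (a := 2 * u ^ 4), Finset.mul_sum (a := u ^ 8),
          ← Finset.sum_sub_distrib, ← Finset.sum_add_distrib, Finset.mul_sum]
        refine Finset.sum_congr rfl fun τ _ => ?_
        ring
    _ = (2 / u ^ 4) * ((law St.S * (1 - t) ^ 2 + law St.C) ^ Fintype.card W - u ^ 8) := by
        rw [e1, e2, e3]
        ring

theorem nlaw_inv {t u : ℝ} (ht0 : 0 < t) (ht1 : t < 1) (hu0 : 0 < u) (hu : u ≤ 1 / 4)
    {law : St → ℝ} (h : IsLaw law)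
    (hP : u ^ 4 = (1 - (law St.S * t + law St.R)) ^ Fintype.card W)
    (hvar : (2 / u ^ 4) * ((law St.S * (1 - t) ^ 2 + law St.C) ^ Fintype.card W - u ^ 8) ≤ u ^ 5) :
    Inv (nlaw W t u law) u := by
  have h1 := nlaw_isLaw (W := W) ht0.le ht1.le hu0 hu h
  refine ⟨h1, ?_, ?_⟩
  · rw [nlaw_pr ht0 ht1 hu0 hu h, ← hP]
  · have h2 := nlaw_rr (W := W) ht0.le ht1.le hu0 hu h
    have h3 := atyp_le (W := W) ht0.le ht1.le hu0 h hP
    linarith

theorem Lh_pow {a b : ℝ} (hb0 : 0 ≤ b) (hab : b ≤ a) (ha1 : a ≤ 1) (N : ℕ) :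
    a ^ N - b ^ N ≤ N * (a - b) := by
  induction N with
  | zero => simp
  | succ N ih =>
    have h1 : a ^ (N + 1) - b ^ (N + 1) = a * (a ^ N - b ^ N) + (a - b) * b ^ N := by ring
    have h2 : 0 ≤ a ^ N - b ^ N := sub_nonneg.2 (pow_le_pow_left₀ hb0 hab N)
    have h3 : b ^ N ≤ 1 := pow_le_one₀ hb0 (hab.trans ha1)
    rw [h1]
    push_cast
    nlinarith [mul_le_mul_of_nonneg_right ha1 h2, mul_le_mul_of_nonneg_left h3 (sub_nonneg.2 hab)]

theorem var_le {law : St → ℝ} {u : ℝ} (h : Inv law u) (hu0 : 0 < u) (hu1 : u ≤ 1) (N : ℕ) :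
    (law St.S * (1 - u ^ 2) ^ 2 + law St.C) ^ N - ((1 - u ^ 4) ^ N) ^ 2 ≤
      3 * u * (N * u ^ 4) := by
  have hC := Lh_C h.toIsLaw
  have hS0 := h.nonneg St.S
  have hR0 := h.nonneg St.R
  have hC0 := h.nonneg St.C
  have hpr := h.pr
  have hrr := h.rr
  obtain ⟨a, ha⟩ : ∃ a, a = law St.S * (1 - u ^ 2) ^ 2 + law St.C := ⟨_, rfl⟩
  obtain ⟨b, hb⟩ : ∃ b, b = (1 - u ^ 4) ^ 2 := ⟨_, rfl⟩
  have hu2 : u ^ 2 ≤ 1 := pow_le_one₀ hu0.le hu1
  have hu4 : u ^ 4 ≤ 1 := pow_le_one₀ hu0.le hu1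
  have hu20 : 0 ≤ u ^ 2 := by positivity
  have hb0 : 0 ≤ b := by
    rw [hb]
    positivity
  have ha1 : a ≤ 1 := by
    have h1 : (1 - u ^ 2) ^ 2 ≤ 1 := pow_le_one₀ (by linarith) (by linarith)
    have h2 := mul_le_mul_of_nonneg_left h1 hS0
    rw [ha]
    linarith
  have hd : a - b ≤ 3 * u ^ 5 := by
    have h1 : a - b = law St.R + law St.S * u ^ 2 * u ^ 2 - u ^ 8 := by
      rw [ha, hb, hC]
      have h2 : law St.S * u ^ 2 = u ^ 4 - law St.R := by linarith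
      have h3 : law St.S * (1 - u ^ 2) ^ 2 =
        law St.S - 2 * (law St.S * u ^ 2) + (law St.S * u ^ 2) * u ^ 2 := by ring
      rw [h3]
      have h4 : law St.S * u ^ 2 * u ^ 2 = (law St.S * u ^ 2) * u ^ 2 := rfl
      nlinarith [h2]
    have h2 : law St.S * u ^ 2 ≤ u ^ 4 := by linarith
    have h3 : law St.S * u ^ 2 * u ^ 2 ≤ u ^ 4 * u ^ 2 := mul_le_mul_of_nonneg_right h2 hu20
    have h4 : u ^ 4 * u ^ 2 ≤ u ^ 5 := by
      have h5 : u ^ 4 * u ^ 2 = u ^ 5 * u := by ring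
      rw [h5]
      have h6 : 0 ≤ u ^ 5 := by positivity
      nlinarith
    have h5 : 0 ≤ u ^ 8 := by positivity
    rw [h1]
    linarith
  have hR : 0 ≤ 3 * u * (N * u ^ 4) := by positivity
  rw [← ha, ← pow_mul, mul_comm N 2, pow_mul, ← hb]
  rcases le_total a b with hab | hab
  · have ha0 : 0 ≤ a := by
      rw [ha]
      positivity
    have := pow_le_pow_left₀ ha0 hab N
    linarith
  · have h1 := Lh_pow hb0 hab ha1 N
    have h2 : (N : ℝ) * (a - b) ≤ N * (3 * u ^ 5) :=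
      mul_le_mul_of_nonneg_left hd (Nat.cast_nonneg N)
    calc a ^ N - b ^ N ≤ N * (3 * u ^ 5) := h1.trans h2
      _ = 3 * u * (N * u ^ 4) := by ring

end Pool.Agent.H71.RO
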