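import Pool.Agent.H71.RO.Lang

/-!
# The loop that reads the input

PROOFS.
`exec_mv`: as in `exec_moveAll` (H9/Progs.lean): `exec_cond_nil`, `exec_cond_cons`, `exec_pop`, `exec_push`, `Exec.seq`
(if the stack `i` is empty nothing happens).
`exec_chain`: induction on `i`, unfolding `chain` and `stp`: `exec_cond_nil` / `exec_cond_cons` for the flag `k + 5 + i` and then
for the stack `0`; the bit `b` on top of stack 0 gives `false`: pop 0, push the flag; `true`: pop 0, `exec_mv` (note `i + 1 ≠ k + 2` as
`i + 1 ≤ k + 1`), resp. push on `k + 3`. Costs: at most `i + 10`.
`stp_zero`: case analysis; `mvE` from `i + 1 ≠ 0` to `k + 2 ≠ 0` does not change stack 0, `mvE 0 (k + 2)` pops one bit.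
`stp_count`: only one branch pushes on `k + 3`; `mvE (i + 1) (k + 2)` with `i + 1 ≤ k + 1` does not touch it.
`exec_read`: `exec_loop` (H9/Run.lean) with `F l s := (stp k (k + 1))^[l.length] s`, `N := k + 11`; `F l (stp s) = F (b :: l) s` is
`Function.iterate_succ_apply`.
-/

set_option autoImplicit false
set_option linter.unusedSectionVars false

namespace Pool.Agent.H71.RO

open Classical
open Pool.Agent.H9

theorem exec_mv (A : Oracle) {i j : ℕ} (hij : i ≠ j) (s : ℕ → List Bool) :
    Exec A (mv i j) s (mvE i j s) 4 := by
  unfold mv mvE
  cases hs : s i with
  | nil =>
    exact (exec_cond_nil hs (exec_skip A s)).mono (by norm_num)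
  | cons b l =>
    apply exec_cond_cons hs
    have h1 : Exec A (Prog.seq (Prog.pop i) (Prog.push j b)) s
        (Function.update (Function.update s i l) j (b :: Function.update s i l j)) 3 := by
      have h2 := exec_pop A s i
      rw [hs, List.tail_cons] at h2
      exact h2.seq (exec_push A (Function.update s i l) j b)
    cases b
    · simpa using h1
    · simpa using h1

private theorem Ma_mvE_ne {i j m : ℕ} (h1 : m ≠ i) (h2 : m ≠ j) (s : ℕ → List Bool) :
    mvE i j s m = s m := by
  unfold mvE
  cases hs : s i with
  | nil => rfl
  | cons b l =>
    show Function.update (Function.update s i l) j (b :: Function.update s i l j) m = s m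
    rw [Function.update_of_ne h2, Function.update_of_ne h1]

theorem exec_chain (A : Oracle) (k : ℕ) : ∀ (i : ℕ), i ≤ k + 1 → ∀ s : ℕ → List Bool,
    Exec A (chain k i) s (stp k i s) (i + 10) := by
  intro i
  induction i with
  | zero =>
    intro _ s
    unfold chain stp
    cases h1 : s (k + 5) with
    | nil =>
      apply exec_cond_nil h1
      cases h2 : s 0 with
      | nil => exact (exec_cond_nil h2 (exec_skip A s)).mono (by norm_num)
      | cons b l =>
        have h3 := exec_pop A s 0
        rw [h2, List.tail_cons] at h3
        cases b with
        | false =>
          refine (exec_cond_cons (N := 3) h2 ?_).mono (by norm_num)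
          exact h3.seq (exec_push A (Function.update s 0 l) (k + 5) true)
        | true =>
          refine (exec_cond_cons (N := 3) h2 ?_).mono (by norm_num)
          exact h3.seq (exec_push A (Function.update s 0 l) (k + 3) true)
    | cons b l =>
      refine (exec_cond_cons (N := 4) h1 ?_).mono (by norm_num)
      have h3 := exec_mv A (i := 0) (j := k + 2) (by omega) s
      cases b
      · simpa using h3
      · simpa using h3
  | succ i ih =>
    intro hi s
    unfold chain stp
    cases h1 : s (k + 5 + (i + 1)) with
    | nil =>
      apply exec_cond_nil h1
      cases h2 : s 0 with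
      | nil => exact (exec_cond_nil h2 (exec_skip A s)).mono (by omega)
      | cons b l =>
        have h3 := exec_pop A s 0
        rw [h2, List.tail_cons] at h3
        cases b with
        | false =>
          refine (exec_cond_cons (N := 3) h2 ?_).mono (by omega)
          exact h3.seq (exec_push A (Function.update s 0 l) (k + 5 + (i + 1)) true)
        | true =>
          refine (exec_cond_cons (N := 6) h2 ?_).mono (by omega)
          exact h3.seq (exec_mv A (i := i + 1) (j := k + 2) (by omega) (Function.update s 0 l))
    | cons b l =>
      refine (exec_cond_cons (N := i + 10) h1 ?_).mono (by omega)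
      have h3 := ih (by omega) s
      cases b
      · simpa using h3
      · simpa using h3

theorem stp_zero (k : ℕ) : ∀ (i : ℕ), i ≤ k + 1 → ∀ (s : ℕ → List Bool) (b : Bool)
    (l : List Bool), s 0 = b :: l → stp k i s 0 = l := by
  intro i
  induction i with
  | zero =>
    intro _ s b l hs
    unfold stp
    cases h1 : s (k + 5) with
    | nil =>
      simp only [hs]
      cases b with
      | false =>
        show Function.update (Function.update s 0 l) (k + 5) _ 0 = l
        rw [Function.update_of_ne (by omega), Function.update_self]
      | true =>
        show Function.update (Function.update s 0 l) (k + 3) _ 0 = l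
        rw [Function.update_of_ne (by omega), Function.update_self]
    | cons b' l' =>
      show mvE 0 (k + 2) s 0 = l
      unfold mvE
      rw [hs]
      show Function.update (Function.update s 0 l) (k + 2) _ 0 = l
      rw [Function.update_of_ne (by omega), Function.update_self]
  | succ i ih =>
    intro hi s b l hs
    unfold stp
    cases h1 : s (k + 5 + (i + 1)) with
    | nil =>
      simp only [hs]
      cases b with
      | false =>
        show Function.update (Function.update s 0 l) (k + 5 + (i + 1)) _ 0 = l
        rw [Function.update_of_ne (by omega), Function.update_self]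
      | true =>
        show mvE (i + 1) (k + 2) (Function.update s 0 l) 0 = l
        rw [Ma_mvE_ne (by omega) (by omega), Function.update_self]
    | cons b' l' =>
      show stp k i s 0 = l
      exact ih (by omega) s b l hs

theorem stp_count (k : ℕ) : ∀ (i : ℕ), i ≤ k + 1 → ∀ s : ℕ → List Bool,
    (stp k i s (k + 3)).length ≤ (s (k + 3)).length + 1 := by
  intro i
  induction i with
  | zero =>
    intro _ s
    unfold stp
    cases h1 : s (k + 5) with
    | nil =>
      cases h2 : s 0 with
      | nil => exact Nat.le_succ _
      | cons b l =>
        cases b with
        | false =>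
          show (Function.update (Function.update s 0 l) (k + 5) _ (k + 3)).length ≤ _
          rw [Function.update_of_ne (by omega), Function.update_of_ne (by omega)]
          exact Nat.le_succ _
        | true =>
          show (Function.update (Function.update s 0 l) (k + 3)
            (true :: Function.update s 0 l (k + 3)) (k + 3)).length ≤ _
          rw [Function.update_self, Function.update_of_ne (by omega), List.length_cons]
    | cons b' l' =>
      show (mvE 0 (k + 2) s (k + 3)).length ≤ _
      rw [Ma_mvE_ne (by omega) (by omega)]
      exact Nat.le_succ _
  | succ i ih =>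
    intro hi s
    unfold stp
    cases h1 : s (k + 5 + (i + 1)) with
    | nil =>
      cases h2 : s 0 with
      | nil => exact Nat.le_succ _
      | cons b l =>
        cases b with
        | false =>
          show (Function.update (Function.update s 0 l) (k + 5 + (i + 1)) _ (k + 3)).length ≤ _
          rw [Function.update_of_ne (by omega), Function.update_of_ne (by omega)]
          exact Nat.le_succ _
        | true =>
          show (mvE (i + 1) (k + 2) (Function.update s 0 l) (k + 3)).length ≤ _
          rw [Ma_mvE_ne (by omega) (by omega), Function.update_of_ne (by omega)]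
          exact Nat.le_succ _
    | cons b' l' =>
      exact ih (by omega) s

theorem exec_read (A : Oracle) (k : ℕ) (s : ℕ → List Bool) :
    Exec A (Prog.loop 0 (chain k (k + 1))) s ((stp k (k + 1))^[(s 0).length] s)
      ((s 0).length * (k + 12) + 1) := by
  refine exec_loop (A := A) (p := chain k (k + 1)) (i := 0) (N := k + 11)
    (fun l s => (stp k (k + 1))^[l.length] s) (fun s _ => rfl) ?_ (s 0) s rfl
  intro b l s hs
  refine ⟨stp k (k + 1) s, (exec_chain A k (k + 1) le_rfl s).mono (by omega),
    stp_zero k (k + 1) le_rfl s b l hs, ?_⟩
  show (stp k (k + 1))^[l.length] (stp k (k + 1) s) = (stp k (k + 1))^[(b :: l).length] s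
  rw [List.length_cons, Function.iterate_succ_apply]

end Pool.Agent.H71.RO
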