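import Pool.Agent.H71.RO.Lang

/-!
# Reading a well-formed input

Notation: `Fl k i s`: the flags `k + 5 + j` are set for `i < j ≤ k + 1` and empty for `j ≤ i`.

PROOFS.
`stp_skip`: induction (from `k + 1` down to `i`): if the flag of `i' + 1` is nonempty, `stp k (i' + 1) s = stp k i' s`. State it as: for all
`d`, `i + d = k + 1 → stp k (i + d) s = stp k i s`.
`sim_phase`: induction on `a`. `a = 0`: one step; `stp k (k + 1) s = stp k (i + 1) s` (`stp_skip`), the flag `k + 5 + (i + 1)` is empty, the top of
stack 0 is `false`: pop it and set the flag. `a + 1`: the first step moves the top bit of stack `i + 1` (nonempty) to stack `k + 2`; the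
new state satisfies the hypotheses with `a`; `(u :: us).take (a + 1) = u :: us.take a`. All the indices
`0, i + 1, j, k + 2, k + 3, k + 4, k + 5 + j` are different (`omega`).
`sim_last`: phase 0: after `b` steps with bit `true` (push on `k + 3`) and one step with `false` (set the flag `k + 5`) the stack 0 is `x` and all
flags are set; then every step moves one bit from stack 0 to stack `k + 2`, so `x.reverse` is put on top of it. Number of steps:
`b + 1 + x.length`, the length of stack 0.
`wdm_congr`: induction.
`sim`: induction on `as`. `[]`: `sim_last`. `a :: as`, `i = as.length + 1`: stack 0 is `replicate a true ++ false :: (hdr as ++ ...)`;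
`sim_phase` (with `i := as.length`), then the induction hypothesis for the new state; `Function.iterate_add_apply`, `wdm_congr`,
`List.append_assoc`.
-/

set_option autoImplicit false
set_option linter.unusedSectionVars false

namespace Pool.Agent.H71.RO

open Classical
open Pool.Agent.H9

/-- the flags of the phases -/
def Fl (k i : ℕ) (s : ℕ → List Bool) : Prop :=
  (∀ j, i < j → j ≤ k + 1 → s (k + 5 + j) ≠ []) ∧ ∀ j, j ≤ i → s (k + 5 + j) = []

theorem Mb_flag {k i : ℕ} {s : ℕ → List Bool} (h : s (k + 5 + (i + 1)) ≠ []) :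
    stp k (i + 1) s = stp k i s := by
  obtain ⟨b, l, hb⟩ := List.exists_cons_of_ne_nil h
  rw [stp, hb]

theorem Mb_false1 {k i : ℕ} {s : ℕ → List Bool} {l : List Bool} (h : s (k + 5 + (i + 1)) = [])
    (h0 : s 0 = false :: l) : stp k (i + 1) s =
      Function.update (Function.update s 0 l) (k + 5 + (i + 1))
          (true :: Function.update s 0 l (k + 5 + (i + 1))) := by
  rw [stp, h, h0]

theorem Mb_true1 {k i : ℕ} {s : ℕ → List Bool} {l : List Bool} (h : s (k + 5 + (i + 1)) = [])
    (h0 : s 0 = true :: l) : stp k (i + 1) s = mvE (i + 1) (k + 2) (Function.update s 0 l) := by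
  rw [stp, h, h0]

theorem Mb_false0 {k : ℕ} {s : ℕ → List Bool} {l : List Bool} (h : s (k + 5) = [])
    (h0 : s 0 = false :: l) : stp k 0 s =
      Function.update (Function.update s 0 l) (k + 5)
          (true :: Function.update s 0 l (k + 5)) := by
  rw [stp, h, h0]

theorem Mb_true0 {k : ℕ} {s : ℕ → List Bool} {l : List Bool} (h : s (k + 5) = [])
    (h0 : s 0 = true :: l) : stp k 0 s =
      Function.update (Function.update s 0 l) (k + 3)
          (true :: Function.update s 0 l (k + 3)) := by
  rw [stp, h, h0]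

theorem Mb_flag0 {k : ℕ} {s : ℕ → List Bool} (h : s (k + 5) ≠ []) :
    stp k 0 s = mvE 0 (k + 2) s := by
  obtain ⟨b, l, hb⟩ := List.exists_cons_of_ne_nil h
  rw [stp, hb]

theorem stp_skip {k i : ℕ} (s : ℕ → List Bool)
    (h : ∀ j, i < j → j ≤ k + 1 → s (k + 5 + j) ≠ []) (hi : i ≤ k + 1) :
    stp k (k + 1) s = stp k i s := by
  have key : ∀ d, i + d ≤ k + 1 → stp k (i + d) s = stp k i s := by
    intro d
    induction d with
    | zero => intro _; rfl
    | succ d ih =>
      intro hd
      rw [← ih (by omega)]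
      exact Mb_flag (h (i + d + 1) (by omega) (by omega))
  have h1 := key (k + 1 - i) (by omega)
  rwa [show i + (k + 1 - i) = k + 1 by omega] at h1

theorem Mb_mv {i j : ℕ} {s : ℕ → List Bool} {u : Bool} {us : List Bool} (hij : j ≠ i)
    (h : s i = u :: us) : mvE i j s i = us ∧ mvE i j s j = u :: s j ∧
      ∀ m, m ≠ i → m ≠ j → mvE i j s m = s m := by
  unfold mvE
  rw [h]
  refine ⟨?_, ?_, ?_⟩
  · show Function.update (Function.update s i us) j (u :: Function.update s i us j) i = us
    rw [Function.update_of_ne (Ne.symm hij), Function.update_self]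
  · show Function.update (Function.update s i us) j (u :: Function.update s i us j) j = u :: s j
    rw [Function.update_self, Function.update_of_ne hij]
  · intro m h1 h2
    show Function.update (Function.update s i us) j (u :: Function.update s i us j) m = s m
    rw [Function.update_of_ne h2, Function.update_of_ne h1]

theorem Mb_upd {i : ℕ} {s : ℕ → List Bool} {l : List Bool} (hi : i ≠ 0) :
    Function.update (Function.update s 0 l) i (true :: Function.update s 0 l i) 0 = l ∧
    Function.update (Function.update s 0 l) i (true :: Function.update s 0 l i) i = true :: s i ∧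
      ∀ m, m ≠ 0 → m ≠ i →
        Function.update (Function.update s 0 l) i (true :: Function.update s 0 l i) m = s m := by
  refine ⟨?_, ?_, ?_⟩
  · rw [Function.update_of_ne (Ne.symm hi), Function.update_self]
  · rw [Function.update_self, Function.update_of_ne hi]
  · intro m h1 h2
    rw [Function.update_of_ne h2, Function.update_of_ne h1]

theorem sim_phase {k i : ℕ} (hi : i + 1 ≤ k + 1) (rest : List Bool) : ∀ (a : ℕ)
    (s : ℕ → List Bool), s 0 = List.replicate a true ++ false :: rest → Fl k (i + 1) s →
    a ≤ (s (i + 1)).length →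
    ∃ s', (stp k (k + 1))^[a + 1] s = s' ∧ s' 0 = rest ∧ Fl k i s' ∧
      s' (k + 2) = ((s (i + 1)).take a).reverse ++ s (k + 2) ∧
      (∀ j, 1 ≤ j → j ≤ i → s' j = s j) ∧ s' (k + 3) = s (k + 3) ∧ s' (k + 4) = s (k + 4) := by
  intro a
  induction a with
  | zero =>
    intro s h0 hF _
    have h0' : s 0 = false :: rest := h0
    refine ⟨_, rfl, ?_⟩
    rw [zero_add, Function.iterate_one, stp_skip s hF.1 hi,
      Mb_false1 (hF.2 (i + 1) le_rfl) h0']
    obtain ⟨a1, a2, a3⟩ := Mb_upd (s := s) (l := rest) (show k + 5 + (i + 1) ≠ 0 by omega)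
    refine ⟨a1, ⟨?_, ?_⟩, ?_, ?_, ?_, ?_⟩
    · intro j h1 h2
      rcases eq_or_ne j (i + 1) with rfl | h3
      · rw [a2]
        exact List.cons_ne_nil _ _
      · rw [a3 _ (by omega) (by omega)]
        exact hF.1 j (by omega) h2
    · intro j h1
      rw [a3 _ (by omega) (by omega)]
      exact hF.2 j (by omega)
    · rw [a3 _ (by omega) (by omega)]
      rfl
    · intro j h1 h2
      exact a3 _ (by omega) (by omega)
    · exact a3 _ (by omega) (by omega)
    · exact a3 _ (by omega) (by omega)
  | succ a ih =>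
    intro s h0 hF hlen
    obtain ⟨u, us, hu⟩ : ∃ u us, s (i + 1) = u :: us := by
      refine List.exists_cons_of_ne_nil fun h => ?_
      rw [h, List.length_nil] at hlen
      omega
    have h0' : s 0 = true :: (List.replicate a true ++ false :: rest) := by
      rw [h0, List.replicate_succ]
      rfl
    obtain ⟨s1, hs1⟩ : ∃ s1, s1 = stp k (k + 1) s := ⟨_, rfl⟩
    have e1 : s1 = mvE (i + 1) (k + 2)
        (Function.update s 0 (List.replicate a true ++ false :: rest)) := by
      rw [hs1, stp_skip s hF.1 hi, Mb_true1 (hF.2 (i + 1) le_rfl) h0']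
    have hu' : Function.update s 0 (List.replicate a true ++ false :: rest) (i + 1) = u :: us := by
      rw [Function.update_of_ne (by omega), hu]
    obtain ⟨b1, b2, b3⟩ := Mb_mv (show k + 2 ≠ i + 1 by omega) hu'
    rw [← e1] at b1 b2 b3
    rw [Function.update_of_ne (by omega)] at b2
    have b4 : ∀ m, m ≠ 0 → m ≠ i + 1 → m ≠ k + 2 → s1 m = s m := by
      intro m h1 h2 h3
      rw [b3 m h2 h3, Function.update_of_ne h1]
    have b5 : s1 0 = List.replicate a true ++ false :: rest := by
      rw [b3 0 (by omega) (by omega), Function.update_self]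
    obtain ⟨s', c1, c2, c3, c4, c5, c6, c7⟩ := ih s1 b5
      ⟨fun j h1 h2 => by rw [b4 _ (by omega) (by omega) (by omega)]; exact hF.1 j h1 h2,
        fun j h1 => by rw [b4 _ (by omega) (by omega) (by omega)]; exact hF.2 j h1⟩
      (by
        rw [b1]
        rw [hu, List.length_cons] at hlen
        omega)
    refine ⟨s', ?_, c2, c3, ?_, ?_, ?_, ?_⟩
    · rw [Function.iterate_succ_apply, ← hs1]
      exact c1
    · rw [c4, b1, b2, hu, List.take_succ_cons, List.reverse_cons, List.append_assoc]
      rfl
    · intro j h1 h2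
      rw [c5 j h1 h2]
      exact b4 _ (by omega) (by omega) (by omega)
    · rw [c6]
      exact b4 _ (by omega) (by omega) (by omega)
    · rw [c7]
      exact b4 _ (by omega) (by omega) (by omega)

theorem Mb_copy {k : ℕ} : ∀ (x : List Bool) (s : ℕ → List Bool), s 0 = x →
    (∀ j, j ≤ k + 1 → s (k + 5 + j) ≠ []) →
    ∃ s', (stp k (k + 1))^[x.length] s = s' ∧ s' 0 = [] ∧ s' (k + 2) = x.reverse ++ s (k + 2) ∧
      s' (k + 3) = s (k + 3) ∧ s' (k + 4) = s (k + 4) := by
  intro x
  induction x with
  | nil =>
    intro s h0 _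
    exact ⟨s, rfl, h0, rfl, rfl, rfl⟩
  | cons c x ih =>
    intro s h0 hF
    obtain ⟨s1, hs1⟩ : ∃ s1, s1 = stp k (k + 1) s := ⟨_, rfl⟩
    have e1 : s1 = mvE 0 (k + 2) s := by
      rw [hs1, stp_skip s (fun j _ h => hF j h) (Nat.zero_le _), Mb_flag0 (hF 0 (by omega))]
    obtain ⟨b1, b2, b3⟩ := Mb_mv (show k + 2 ≠ 0 by omega) h0
    rw [← e1] at b1 b2 b3
    obtain ⟨s', c1, c2, c3, c4, c5⟩ := ih s1 b1 (fun j hj => by
      rw [b3 _ (by omega) (by omega)]
      exact hF j hj)
    refine ⟨s', ?_, c2, ?_, ?_, ?_⟩
    · rw [List.length_cons, Function.iterate_succ_apply, ← hs1]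
      exact c1
    · rw [c3, b2, List.reverse_cons, List.append_assoc]
      rfl
    · rw [c4]
      exact b3 _ (by omega) (by omega)
    · rw [c5]
      exact b3 _ (by omega) (by omega)

theorem sim_last {k b : ℕ} (x : List Bool) (s : ℕ → List Bool)
    (h0 : s 0 = List.replicate b true ++ false :: x) (hF : Fl k 0 s) :
    ∃ s', (stp k (k + 1))^[(s 0).length] s = s' ∧ s' 0 = [] ∧
      s' (k + 2) = x.reverse ++ s (k + 2) ∧ s' (k + 3) = List.replicate b true ++ s (k + 3) ∧
      s' (k + 4) = s (k + 4) := by
  induction b generalizing s with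
  | zero =>
    have h0' : s 0 = false :: x := h0
    obtain ⟨s1, hs1⟩ : ∃ s1, s1 = stp k (k + 1) s := ⟨_, rfl⟩
    have e1 : s1 = Function.update (Function.update s 0 x) (k + 5)
          (true :: Function.update s 0 x (k + 5)) := by
      rw [hs1, stp_skip s hF.1 (Nat.zero_le _), Mb_false0 (hF.2 0 le_rfl) h0']
    obtain ⟨a1, a2, a3⟩ := Mb_upd (s := s) (l := x) (show k + 5 ≠ 0 by omega)
    rw [← e1] at a1 a2 a3
    obtain ⟨s', c1, c2, c3, c4, c5⟩ := Mb_copy x s1 a1 (k := k) (fun j hj => by
      rcases Nat.eq_zero_or_pos j with rfl | h1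
      · rw [add_zero, a2]
        exact List.cons_ne_nil _ _
      · rw [a3 _ (by omega) (by omega)]
        exact hF.1 j h1 hj)
    refine ⟨s', ?_, c2, ?_, ?_, ?_⟩
    · rw [h0', List.length_cons, Function.iterate_succ_apply, ← hs1]
      exact c1
    · rw [c3, a3 _ (by omega) (by omega)]
    · rw [c4, a3 _ (by omega) (by omega)]
      rfl
    · rw [c5, a3 _ (by omega) (by omega)]
  | succ b ih =>
    have h0' : s 0 = true :: (List.replicate b true ++ false :: x) := by
      rw [h0, List.replicate_succ]
      rfl
    obtain ⟨s1, hs1⟩ : ∃ s1, s1 = stp k (k + 1) s := ⟨_, rfl⟩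
    have e1 : s1 = Function.update (Function.update s 0 (List.replicate b true ++ false :: x))
        (k + 3) (true :: Function.update s 0 (List.replicate b true ++ false :: x) (k + 3)) := by
      rw [hs1, stp_skip s hF.1 (Nat.zero_le _), Mb_true0 (hF.2 0 le_rfl) h0']
    obtain ⟨a1, a2, a3⟩ := Mb_upd (s := s) (l := List.replicate b true ++ false :: x)
      (show k + 3 ≠ 0 by omega)
    rw [← e1] at a1 a2 a3
    obtain ⟨s', c1, c2, c3, c4, c5⟩ := ih s1 a1
      ⟨fun j h1 h2 => by rw [a3 _ (by omega) (by omega)]; exact hF.1 j h1 h2,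
        fun j h1 => by rw [a3 _ (by omega) (by omega)]; exact hF.2 j h1⟩
    refine ⟨s', ?_, c2, ?_, ?_, ?_⟩
    · rw [h0', List.length_cons, Function.iterate_succ_apply, ← hs1, ← a1]
      exact c1
    · rw [c3, a3 _ (by omega) (by omega)]
    · rw [c4, a2, List.replicate_succ', List.append_assoc]
      rfl
    · rw [c5, a3 _ (by omega) (by omega)]

theorem wdm_congr (x : List Bool) : ∀ (as : List ℕ) (us vs : ℕ → List Bool),
    (∀ j, 1 ≤ j → j ≤ as.length → us j = vs j) → wdm as us x = wdm as vs x := by
  intro as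
  induction as with
  | nil =>
    intro us vs _
    rfl
  | cons a as ih =>
    intro us vs h
    rw [wdm, wdm, ih us vs (fun j h1 h2 => h j h1 (by rw [List.length_cons]; omega)),
      h (as.length + 1) (by omega) (by rw [List.length_cons])]

theorem sim {k b : ℕ} (x : List Bool) : ∀ (as : List ℕ), as.length ≤ k + 1 →
    ∀ s : ℕ → List Bool, s 0 = inp as b x → Fl k as.length s →
    (∀ a ∈ as, ∀ j, 1 ≤ j → j ≤ as.length → a ≤ (s j).length) →
    ∃ s', (stp k (k + 1))^[(s 0).length] s = s' ∧ s' 0 = [] ∧
      s' (k + 2) = wdm as s x ++ s (k + 2) ∧ s' (k + 3) = List.replicate b true ++ s (k + 3) ∧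
      s' (k + 4) = s (k + 4) := by
  intro as
  induction as with
  | nil =>
    intro _ s h0 hF _
    exact sim_last x s h0 hF
  | cons a as ih =>
    intro hk s h0 hF hlen
    rw [List.length_cons] at hk
    have h0' : s 0 = List.replicate a true ++ false :: inp as b x := by
      rw [h0]
      unfold inp
      rw [hdr, List.append_assoc]
      rfl
    obtain ⟨s1, c1, c2, c3, c4, c5, c6, c7⟩ := sim_phase hk (inp as b x) a s h0' hF
      (hlen a List.mem_cons_self (as.length + 1) (by omega) (by rw [List.length_cons]))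
    obtain ⟨s', d1, d2, d3, d4, d5⟩ := ih (by omega) s1 c2 c3 (fun a' ha j h1 h2 => by
      rw [c5 j h1 h2]
      exact hlen a' (List.mem_cons_of_mem _ ha) j h1 (by rw [List.length_cons]; omega))
    refine ⟨s', ?_, d2, ?_, ?_, ?_⟩
    · have e1 : (s 0).length = (s1 0).length + (a + 1) := by
        rw [h0', c2, List.length_append, List.length_replicate, List.length_cons]
        omega
      rw [e1, Function.iterate_add_apply, c1]
      exact d1
    · rw [d3, c4, wdm, wdm_congr x as s1 s c5, List.append_assoc]
    · rw [d4, c6]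
    · rw [d5, c7]

end Pool.Agent.H71.RO
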