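import Pool.Agent.H71.RO.Ma
import Pool.Agent.H71.RO.Mb

/-!
# The program

PROOFS.
`exec_check`: `exec_loop_inv` (H9/Run.lean) with control stack `k + 3`, `N := 9` and the invariant `Inv l t`: with `d := (s (k + 3)).length - l.length`:
`t 0 = s 0`, `t (k + 2) = List.replicate d true ++ s (k + 2)`, `l.length ≤ (s (k+3)).length` and
`t (k + 4) = [] ↔ ∀ j < d, A (List.replicate j true ++ s (k + 2)) = false`. Body: `exec_seqs_cons`, `exec_pop`, `exec_ask`, `exec_push`.
`exec_fin`: cases on `(k + 1).bodd` and on the stack `k + 4`.
`run_prog`: for the start memory `s0 = fun i => xs.getD i []` with `xs.length = k + 2`: `s0 (k + 3) = []`, `s0 (k + 4) = []`. `exec_read`, `exec_check`,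
`exec_fin`, `exec_seqs_cons`, `run_of_exec`; the length of stack `k + 3` after reading is at most `(s0 0).length` (`stp_count` iterated).
`(s0 0).length ≤ totalLength xs` (`length_start_le`). Stack 0 is empty after reading (iterate `stp_zero`).
`prog_poly`: polynomial `C (k + 40) * X + C (k + 40)` or similar, from `run_prog`.
`prog_accepts`: `accepts_iff_of_halted`, `run_prog`, `sim` for `s0` (`Fl k (k + 1) s0`: all flags are empty; `s0 (k + 2) = []`;
`(s0 j) = us[j-1]` for `1 ≤ j ≤ k + 1`).
`Lk_mem`: `q := X`, `prog_poly`; membership is by definition (`Polynomial.eval_X`).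
-/

set_option autoImplicit false
set_option linter.unusedSectionVars false

namespace Pool.Agent.H71.RO

open Classical
open Pool.Agent.H9

theorem Mc_body (A : Oracle) (k : ℕ) (t : ℕ → List Bool) (b : Bool) (l : List Bool)
    (ht : t (k + 3) = b :: l) :
    ∃ t', Exec A (seqs [Prog.pop (k + 3),
      Prog.ask (k + 2) (Prog.push (k + 4) true) Prog.skip, Prog.push (k + 2) true]) t t' 9 ∧
      t' (k + 3) = l ∧ t' 0 = t 0 ∧ t' (k + 2) = true :: t (k + 2) ∧
      t' (k + 4) = if A (t (k + 2)) = true then true :: t (k + 4) else t (k + 4) := by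
  have g1 := exec_pop A t (k + 3)
  rw [ht, List.tail_cons] at g1
  obtain ⟨t1, ht1⟩ : ∃ t1, t1 = Function.update t (k + 3) l := ⟨_, rfl⟩
  rw [← ht1] at g1
  have a2 : t1 (k + 2) = t (k + 2) := by
    rw [ht1, Function.update_of_ne (by omega)]
  have a4 : t1 (k + 4) = t (k + 4) := by
    rw [ht1, Function.update_of_ne (by omega)]
  have a0 : t1 0 = t 0 := by
    rw [ht1, Function.update_of_ne (by omega)]
  have a3 : t1 (k + 3) = l := by
    rw [ht1, Function.update_self]
  by_cases hA : A (t (k + 2)) = true
  · have g2 : Exec A (Prog.ask (k + 2) (Prog.push (k + 4) true) Prog.skip) t1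
        (Function.update t1 (k + 4) (true :: t1 (k + 4))) (1 + 1) := by
      apply exec_ask
      rw [a2, if_pos hA]
      exact exec_push A t1 (k + 4) true
    have g3 := exec_push A (Function.update t1 (k + 4) (true :: t1 (k + 4))) (k + 2) true
    refine ⟨_, (exec_seqs_cons g1 (exec_seqs_cons g2 (exec_seqs_cons g3
      (exec_seqs_nil _ _)))).mono (by omega), ?_, ?_, ?_, ?_⟩
    · rw [Function.update_of_ne (by omega), Function.update_of_ne (by omega), a3]
    · rw [Function.update_of_ne (by omega), Function.update_of_ne (by omega), a0]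
    · rw [Function.update_self, Function.update_of_ne (by omega), a2]
    · rw [Function.update_of_ne (by omega), Function.update_self, a4, if_pos hA]
  · have g2 : Exec A (Prog.ask (k + 2) (Prog.push (k + 4) true) Prog.skip) t1 t1 (1 + 1) := by
      apply exec_ask
      rw [a2, if_neg hA]
      exact exec_skip A t1
    have g3 := exec_push A t1 (k + 2) true
    refine ⟨_, (exec_seqs_cons g1 (exec_seqs_cons g2 (exec_seqs_cons g3
      (exec_seqs_nil _ _)))).mono (by omega), ?_, ?_, ?_, ?_⟩
    · rw [Function.update_of_ne (by omega), a3]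
    · rw [Function.update_of_ne (by omega), a0]
    · rw [Function.update_self, a2]
    · rw [Function.update_of_ne (by omega), a4, if_neg hA]

theorem exec_check (A : Oracle) (k : ℕ) (s : ℕ → List Bool) :
    ∃ s', Exec A (check k) s s' ((s (k + 3)).length * 10 + 1) ∧ s' 0 = s 0 ∧
      (s (k + 4) = [] → (s' (k + 4) = [] ↔
        ∀ j < (s (k + 3)).length, A (List.replicate j true ++ s (k + 2)) = false)) := by
  obtain ⟨L, hL⟩ : ∃ L, L = (s (k + 3)).length := ⟨_, rfl⟩
  obtain ⟨s', h1, -, h3⟩ := exec_loop_inv (A := A) (i := k + 3) (N := 9)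
    (p := seqs [Prog.pop (k + 3),
      Prog.ask (k + 2) (Prog.push (k + 4) true) Prog.skip, Prog.push (k + 2) true])
    (Inv := fun l t => l.length ≤ L ∧ t 0 = s 0 ∧
      t (k + 2) = List.replicate (L - l.length) true ++ s (k + 2) ∧
      (s (k + 4) = [] → (t (k + 4) = [] ↔
        ∀ j < L - l.length, A (List.replicate j true ++ s (k + 2)) = false)))
    (by
      intro b l t ht hI
      obtain ⟨i1, i2, i3, i4⟩ := hI
      obtain ⟨t', e1, e2, e3, e4, e5⟩ := Mc_body A k t b l ht
      simp only [List.length_cons] at i1 i3 i4
      have hd : L - l.length = (L - (l.length + 1)) + 1 := by omega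
      refine ⟨t', e1, e2, by omega, by rw [e3, i2], ?_, ?_⟩
      · rw [e4, i3, hd, List.replicate_succ, List.cons_append]
      · intro h4
        rw [e5, i3, hd]
        have i5 := i4 h4
        by_cases hA : A (List.replicate (L - (l.length + 1)) true ++ s (k + 2)) = true
        · rw [if_pos hA]
          constructor
          · intro h
            exact absurd h (List.cons_ne_nil _ _)
          · intro h
            have := h (L - (l.length + 1)) (by omega)
            rw [this] at hA
            exact absurd hA (by decide)
        · rw [if_neg hA, i5]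
          constructor
          · intro h j hj
            rcases Nat.lt_succ_iff_lt_or_eq.1 hj with h5 | h5
            · exact h j h5
            · rw [h5]
              exact Bool.eq_false_iff.2 hA
          · intro h j hj
            exact h j (by omega)) (s (k + 3)) s rfl
    (by
      refine ⟨hL.ge, rfl, ?_, ?_⟩
      · rw [hL, Nat.sub_self]
        rfl
      · intro h4
        rw [hL, Nat.sub_self]
        constructor
        · intro _ j hj
          exact absurd hj (Nat.not_lt_zero j)
        · intro _
          exact h4)
  refine ⟨s', h1, h3.2.1, ?_⟩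
  have h4 := h3.2.2.2
  rw [List.length_nil, Nat.sub_zero, hL] at h4
  exact h4

theorem exec_fin (A : Oracle) (k : ℕ) (s : ℕ → List Bool) (h0 : s 0 = []) :
    ∃ s', Exec A (fin k) s s' 2 ∧
      ((s' 0).head? = some true ↔ (s (k + 4) = [] ↔ (k + 1).bodd = true)) := by
  unfold fin
  generalize (k + 1).bodd = bb
  have hp := exec_push A s 0 true
  have hs := exec_skip A s
  have hp0 : (Function.update s 0 (true :: s 0) 0).head? = some true := by
    rw [Function.update_self]
    rfl
  have hs0 : (s 0).head? ≠ some true := by
    rw [h0]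
    simp
  cases bb
  · cases hk : s (k + 4) with
    | nil =>
      refine ⟨s, exec_cond_nil hk hs, ?_⟩
      constructor
      · intro h
        exact absurd h hs0
      · intro h
        exact absurd (h.1 rfl) (by decide)
    | cons b l =>
      refine ⟨_, exec_cond_cons hk (s' := Function.update s 0 (true :: s 0)) (N := 1) ?_, ?_⟩
      · cases b
        · exact hp
        · exact hp
      · constructor
        · intro _
          exact ⟨fun h => absurd h (List.cons_ne_nil _ _), fun h => absurd h (by decide)⟩
        · intro _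
          exact hp0
  · cases hk : s (k + 4) with
    | nil =>
      refine ⟨_, exec_cond_nil hk hp, ?_⟩
      constructor
      · intro _
        exact ⟨fun _ => rfl, fun _ => rfl⟩
      · intro _
        exact hp0
    | cons b l =>
      refine ⟨_, exec_cond_cons hk (s' := s) (N := 1) ?_, ?_⟩
      · cases b
        · exact hs
        · exact hs
      · constructor
        · intro h
          exact absurd h hs0
        · intro h
          exact absurd (h.2 rfl) (List.cons_ne_nil _ _)

theorem Mc_mvE {i j m : ℕ} (s : ℕ → List Bool) (hi : m ≠ i) (hj : m ≠ j) : mvE i j s m = s m := by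
  cases h : s i with
  | nil => simp only [mvE, h]
  | cons b l =>
    simp only [mvE, h]
    rw [Function.update_of_ne hj, Function.update_of_ne hi]

theorem Mc_stp (k : ℕ) : ∀ (i : ℕ), i ≤ k + 1 → ∀ s : ℕ → List Bool,
    stp k i s (k + 4) = s (k + 4) := by
  intro i
  induction i with
  | zero =>
    intro _ s
    cases h5 : s (k + 5) with
    | nil =>
      cases h0 : s 0 with
      | nil => simp only [stp, h5, h0]
      | cons b l =>
        cases b
        · simp only [stp, h5, h0]
          rw [Function.update_of_ne (by omega), Function.update_of_ne (by omega)]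
        · simp only [stp, h5, h0]
          rw [Function.update_of_ne (by omega), Function.update_of_ne (by omega)]
    | cons b l =>
      simp only [stp, h5]
      exact Mc_mvE s (by omega) (by omega)
  | succ i ih =>
    intro hi s
    cases h5 : s (k + 5 + (i + 1)) with
    | nil =>
      cases h0 : s 0 with
      | nil => simp only [stp, h5, h0]
      | cons b l =>
        cases b
        · simp only [stp, h5, h0]
          rw [Function.update_of_ne (by omega), Function.update_of_ne (by omega)]
        · simp only [stp, h5, h0]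
          rw [Mc_mvE _ (by omega) (by omega), Function.update_of_ne (by omega)]
    | cons b l =>
      simp only [stp, h5]
      exact ih (by omega) s

theorem Mc_iter (k : ℕ) : ∀ (n : ℕ) (s : ℕ → List Bool), (s 0).length = n →
    ((stp k (k + 1))^[n] s) 0 = [] ∧ ((stp k (k + 1))^[n] s) (k + 4) = s (k + 4) ∧
      (((stp k (k + 1))^[n] s) (k + 3)).length ≤ (s (k + 3)).length + n := by
  intro n
  induction n with
  | zero =>
    intro s hs
    exact ⟨List.length_eq_zero_iff.1 hs, rfl, le_rfl⟩
  | succ n ih =>
    intro s hs
    cases h0 : s 0 with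
    | nil => rw [h0] at hs; simp at hs
    | cons b l =>
      rw [h0, List.length_cons] at hs
      have h1 := stp_zero k (k + 1) le_rfl s b l h0
      obtain ⟨h2, h3, h4⟩ := ih (stp k (k + 1) s) (by rw [h1]; omega)
      rw [Function.iterate_succ_apply]
      refine ⟨h2, ?_, ?_⟩
      · rw [h3, Mc_stp k (k + 1) le_rfl s]
      · have := stp_count k (k + 1) le_rfl s
        omega

/-- the run of the program on `k + 2` strings -/
theorem run_prog (A : Oracle) (k : ℕ) (xs : List (List Bool)) (hxs : xs.length = k + 2) :
    ∃ s', run A (prog k) xs ((k + 40) * totalLength xs + (k + 40)) = ([], s') ∧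
      ((s' 0).head? = some true ↔
        (let s1 := (stp k (k + 1))^[(xs.getD 0 []).length] (fun i => xs.getD i [])
         (∀ j < (s1 (k + 3)).length, A (List.replicate j true ++ s1 (k + 2)) = false) ↔
          (k + 1).bodd = true)) := by
  obtain ⟨s0, hs0⟩ : ∃ s0 : ℕ → List Bool, s0 = fun i => xs.getD i [] := ⟨_, rfl⟩
  have e3 : s0 (k + 3) = [] := by
    rw [hs0]
    exact List.getD_eq_default _ _ (by omega)
  have e4 : s0 (k + 4) = [] := by
    rw [hs0]
    exact List.getD_eq_default _ _ (by omega)
  have e0 : s0 0 = xs.getD 0 [] := by rw [hs0]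
  have hlen : (s0 0).length ≤ totalLength xs := by
    rw [hs0]
    exact length_start_le (prog k) xs 0
  obtain ⟨i0, i4, i3⟩ := Mc_iter k (s0 0).length s0 rfl
  have r1 := exec_read A k s0
  obtain ⟨s1, hs1⟩ : ∃ s1, s1 = (stp k (k + 1))^[(s0 0).length] s0 := ⟨_, rfl⟩
  rw [← hs1] at r1 i0 i4 i3
  rw [e4] at i4
  rw [e3, List.length_nil, zero_add] at i3
  obtain ⟨s2, r2, f0, f4⟩ := exec_check A k s1
  obtain ⟨s3, r3, f3⟩ := exec_fin A k s2 (by rw [f0, i0])
  have r := exec_seqs_cons r1 (exec_seqs_cons r2 (exec_seqs_cons r3 (exec_seqs_nil _ _)))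
  have r' : Exec A (prog k) (fun i => xs.getD i []) s3
      ((k + 40) * totalLength xs + (k + 40)) := by
    rw [← hs0]
    refine Exec.mono (p := prog k) r ?_
    have g1 : (s0 0).length * (k + 12) ≤ totalLength xs * (k + 12) :=
      Nat.mul_le_mul_right _ hlen
    have g2 : (k + 40) * totalLength xs = totalLength xs * (k + 12) + totalLength xs * 28 := by
      ring
    rw [g2]
    omega
  refine ⟨s3, run_of_exec r', ?_⟩
  rw [f3, f4 i4]
  have g3 : (stp k (k + 1))^[(xs.getD 0 []).length] (fun i => xs.getD i []) = s1 := by
    rw [hs1, ← hs0, e0]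
  show _ ↔ ((∀ j < (((stp k (k + 1))^[(xs.getD 0 []).length]
    (fun i => xs.getD i [])) (k + 3)).length, A (List.replicate j true ++
      ((stp k (k + 1))^[(xs.getD 0 []).length] (fun i => xs.getD i [])) (k + 2)) = false) ↔
      (k + 1).bodd = true)
  rw [g3]

theorem prog_poly (A : Oracle) (k : ℕ) : PolyTime A (k + 2) (prog k) := by
  refine ⟨Polynomial.C (k + 40) * Polynomial.X + Polynomial.C (k + 40), fun xs hxs => ?_⟩
  obtain ⟨s', h, -⟩ := run_prog A k xs hxs
  rw [Polynomial.eval_add, Polynomial.eval_mul, Polynomial.eval_C, Polynomial.eval_X, h]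

theorem prog_accepts (A : Oracle) {k b : ℕ} {as : List ℕ} (has : as.length = k + 1)
    (x : List Bool) {us : List (List Bool)} (hus : us.length = k + 1)
    (hlen : ∀ a ∈ as, ∀ u ∈ us, a ≤ u.length) :
    Accepts A (prog k) (inp as b x :: us) ↔
      ((∀ j < b, A (List.replicate j true ++
        wdm as (fun i => (inp as b x :: us).getD i []) x) = false) ↔ (k + 1).bodd = true) := by
  obtain ⟨s', h1, h2⟩ := run_prog A k (inp as b x :: us) (by rw [List.length_cons, hus])
  have h3 : (run A (prog k) (inp as b x :: us)
      ((k + 40) * totalLength (inp as b x :: us) + (k + 40))).1 = [] := by rw [h1]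
  rw [accepts_iff_of_halted h3]
  unfold AcceptsIn
  rw [h1]
  have h4 : (([] : List Prog), s').1 = [] := rfl
  have h5 : (([] : List Prog), s').2 = s' := rfl
  rw [h5, h2]
  obtain ⟨s1, g1, g2, g3, g4, g5⟩ := sim (k := k) (b := b) x as has.le
    (fun i => (inp as b x :: us).getD i []) rfl
    (by
      rw [has]
      refine ⟨fun j hj1 hj2 => absurd hj2 (by omega), fun j _ => ?_⟩
      exact List.getD_eq_default _ _ (by rw [List.length_cons, hus]; omega))
    (by
      intro a ha j hj1 hj2
      rw [has] at hj2
      obtain ⟨j', rfl⟩ : ∃ j', j = j' + 1 := ⟨j - 1, by omega⟩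
      show a ≤ ((inp as b x :: us).getD (j' + 1) []).length
      rw [List.getD_cons_succ, List.getD_eq_getElem _ _ (show j' < us.length by omega)]
      exact hlen a ha _ (List.getElem_mem _))
  have e2 : (inp as b x :: us).getD (k + 2) [] = [] :=
    List.getD_eq_default _ _ (by rw [List.length_cons, hus])
  have e3 : (inp as b x :: us).getD (k + 3) [] = [] :=
    List.getD_eq_default _ _ (by rw [List.length_cons, hus]; omega)
  rw [e2, List.append_nil] at g3
  rw [e3, List.append_nil] at g4
  have g6 : (stp k (k + 1))^[((inp as b x :: us).getD 0 []).length]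
      (fun i => (inp as b x :: us).getD i []) = s1 := g1
  simp only [true_and]
  rw [g6, g3, g4, List.length_replicate]

theorem Lk_mem (A : Oracle) (k : ℕ) : Lk A k ∈ SigmaP A (k + 1) := by
  refine ⟨Polynomial.X, prog k, prog_poly A k, fun z => ?_⟩
  rw [Polynomial.eval_X]
  exact Iff.rfl

end Pool.Agent.H71.RO
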