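import Pool.Agent.H71.RO.Lang

/-!
# Machines are circuits over the leaf bits

PROOFS.
`patch_ad`: for `w = ad v` the chosen `v'` has `ad v' = ad v`, so `v' = v`.
`dt_of_dtp`: induction on `DTP` (H9/DT.lean) with `β = Prop`: `const`: `DT.const`; `node n q f g`: `DT.node n q (fun b y => if b = true then
f y else g y)` and `DT.congr` (the function is `(y q = true ∧ f y) ∨ (y q = false ∧ g y)`, cases on `y q`; use `propext`).
`dt_patch`: `DTP.comp` (H9/DT.lean) applied to `dtp_acceptsIn p xs t Λ` (`Λ := totalLength xs + t`) with the substitution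
`σ y w := patch ad A y w`, `m := 1`, `R := Set.univ`: every `patch ad A y w` is either `y v` for a fixed `v` (`DTP.var`) or constant
(`DTP.const`). Then `dt_of_dtp` (`t * 1 = t`).
`rn_ck`: the trees are `D us y := AcceptsIn (patch ad A y) p (z :: (us ++ [h])) t` (all `us`); `Alt_eq`.
`Ck_mono`: `DT.mono`.
-/

set_option autoImplicit false
set_option linter.unusedSectionVars false

namespace Pool.Agent.H71.RO

open Classical
open Pool.Agent.H9

theorem patch_ad {V : Type} {ad : V → List Bool} (h : Function.Injective ad) (A : Oracle)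
    (y : V → Bool) (v : V) : patch ad A y (ad v) = y v := by
  unfold patch
  have hex : ∃ v', ad v' = ad v := ⟨v, rfl⟩
  rw [dif_pos hex]
  exact congrArg y (h hex.choose_spec)

theorem dt_of_dtp {V : Type} {Q : Set V} {n : ℕ} {f : (V → Bool) → Prop} (h : DTP Q n f) :
    Pool.Agent.H59.Er.DT n f := by
  induction h with
  | const n P => exact Pool.Agent.H59.Er.DT.const n P
  | node n q hq f g _ _ ihf ihg =>
    refine (Pool.Agent.H59.Er.DT.node n q
      (fun (b : Bool) (y : V → Bool) => if b = true then f y else g y) ?_).congr ?_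
    · intro b
      cases b
      · simpa using ihg
      · simpa using ihf
    · intro y
      show (if y q = true then f y else g y) = ((y q = true ∧ f y) ∨ (y q = false ∧ g y))
      cases hq' : y q <;> simp

theorem dt_patch {V : Type} (ad : V → List Bool) (A : Oracle) (p : Prog) (xs : List (List Bool))
    (t : ℕ) : Pool.Agent.H59.Er.DT t (fun y => AcceptsIn (patch ad A y) p xs t) := by
  have h1 := dtp_acceptsIn p xs t (totalLength xs + t) le_rfl
  have h2 := h1.comp (R := (Set.univ : Set V)) (m := 1) (fun y => patch ad A y) (by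
    intro w _
    by_cases hw : ∃ v, ad v = w
    · refine (DTP.var hw.choose (Set.mem_univ _)).congr ?_
      intro y
      unfold patch
      rw [dif_pos hw]
    · refine (DTP.const 1 (A w = true)).congr ?_
      intro y
      unfold patch
      rw [dif_neg hw])
  have h3 := dt_of_dtp h2
  rwa [Nat.mul_one] at h3

theorem rn_ck {V : Type} (ad : V → List Bool) (A : Oracle) (k q t : ℕ) (p : Prog)
    (h z : List Bool) :
    Ck true (List.replicate k q) t (fun y : V → Bool => Rn (patch ad A y) k q t p h z) := by
  refine ⟨fun us y => AcceptsIn (patch ad A y) p (z :: (us ++ [h])) t, ?_, ?_⟩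
  · intro us _
    exact dt_patch ad A p (z :: (us ++ [h])) t
  · intro y
    exact Alt_eq true k q _

theorem Ck_mono {V : Type} {e : Bool} {ms : List ℕ} {s t : ℕ} {C : (V → Bool) → Prop}
    (h : Ck e ms t C) (hts : t ≤ s) : Ck e ms s C := by
  obtain ⟨D, hD, hC⟩ := h
  exact ⟨D, fun us hus => (hD us hus).mono hts, hC⟩

end Pool.Agent.H71.RO
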