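import Pool.Agent.H71.RO.Na
import Pool.Agent.H71.RO.Lh
import Pool.Agent.H71.RO.Va
import Pool.Agent.H71.RO.Fe

/-!
# The schedule of the rounds

PROOF of `sched` by induction on `j`.
`j = 0`: `exists_fan` with `x = u ^ 4`, `b = 1 / 2` gives `a` with `1 / 2 ≤ 2 ^ a * u ^ 4 ≤ 1`, `a ≤ 5 * n` by `fan_le`
(`B = 64 ^ 0 * n`; as `48 ≤ n` is not `64 ≤ n` we assume `64 ≤ n`), `as := [a]`, `fN X [a] = up (fN X [])`, `q_final` with
`W := List.Vector Bool a` (`card_vector`: cardinality `2 ^ a`), `small_num`, `depth_num`; the error term is `0 * _`.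
`j + 1`: `b := 64 ^ j * n`, `x := u ^ 4 ≤ (1 / 2) ^ (64 ^ (j+1) * n) = (1 / 2) ^ (64 * b)`, `a` from `exists_fan` (`x ≤ 1 ≤ 2 * b`),
`a ≤ 5 * (64 ^ (j+1) * n)` by `fan_le` (`64 * b ≤ B`). `N := 2 ^ a`, `u'` with `u' ^ 4 = (1 - u ^ 4) ^ N` (`exists_root`, `0 < 1 - u ^ 4`);
`one_sub_pow` and `exp_le_half` give `exp (-(3 * b)) ≤ u' ^ 4 ≤ (1 / 2) ^ b`. `law' := nlaw (List.Vector Bool a) (u ^ 2) u' law`.
`Inv law' u'` by `nlaw_inv` (`t = u ^ 2 ∈ (0, 1)`, `u' ≤ 1 / 4` by `small_num`): `hP`: `law S * u ^ 2 + law R = u ^ 4` (`Inv.pr`);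
`hvar`: by `var_le` and `N * u ^ 4 ≤ 2 * b` the left side is at most `(2 / u' ^ 4) * (3 * u * (2 * b)) = 12 * b * u / u' ^ 4 ≤ u' ^ 5`
by `var_num` (`u' ^ 8 = ((1 - u ^ 4) ^ N) ^ 2`). The induction hypothesis for `law'`, `u'` gives `as'`; `as := a :: as'`. For `X`, `q`, `e`:
`q_step` (with `W := List.Vector Bool a`, `t := u ^ 2`, `u := u'`, `m := q`, `ms := List.replicate j q`; `List.replicate_succ'`;
`u ^ 2 * s ≤ 1 / 4` from `12 * u * s ≤ 1`, `u ≤ 1`). The new error `card X * 2 ^ (j * q) * (1 / 2) ^ s` and the old one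
`j * (card X * 2 ^ (j * q) * (1 / 2) ^ s)` are together at most `(j + 1) * (card X * 2 ^ ((j + 1) * q) * (1 / 2) ^ s)`
(`Q` is monotone in `B`).

PROOF of `core`. `b := 64 ^ k * n`, `law0 c := if c = S then 1 else 0`, `u` with `u ^ 4 = (1 / 2) ^ b`, `W := Fin b`, `t := 1 / 2`.
`nlaw_inv`: `hP`: `(1 - (1 * (1 / 2) + 0)) ^ b`; `hvar`: `(1 * (1 / 2) ^ 2 + 0) ^ b - u ^ 8 = 0`. `exp (-(3 * b)) ≤ (1 / 2) ^ b`
(`log 2 ≤ 3`; e.g. `exp (-(3 * b)) ≤ exp (-b) ≤ (1 / 2) ^ b`). `sched` (with `j = k`), then `q_comp` gives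
`Q (up (fN X as)) (1 / 2) e (replicate k q) s law0 B`. Unfold: a function `v` with `Bd` and `Ex (fun _ => law0) v ≤ B`; the only
status function with nonzero weight is `fun _ => S` (weight 1), so `v (fun _ => S) ≤ B`; apply `Bd` to `σ = fun _ => S`
(`vl S b = b`).
-/

set_option autoImplicit false
set_option linter.unusedSectionVars false

namespace Pool.Agent.H71.RO

open Finset Classical
open Pool.Agent.H59.Er

theorem Q.mono {X V : Type} [Fintype V] {f : X → (V → Bool) → Prop} {t : ℝ} {e : Bool}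
    {ms : List ℕ} {s : ℕ} {law : St → ℝ} {B B' : ℝ} (h : Q f t e ms s law B) (hB : B ≤ B') :
    Q f t e ms s law B' := by
  obtain ⟨v, h1, h2⟩ := h
  exact ⟨v, h1, h2.trans hB⟩

private theorem Nb_u_lt {u : ℝ} {b : ℕ} (hb : 64 ≤ b) (hu0 : 0 < u) (hu : u ^ 4 ≤ (1 / 2) ^ b) :
    u ≤ 1 / 4 ∧ u ^ 4 ≤ 1 / 3 := by
  have h1 := small_num (b := b) (by omega) hu0.le hu
  have h2 : u ≤ 1 / 4 := by linarith
  refine ⟨h2, ?_⟩
  have h3 : u ^ 4 ≤ (1 / 4) ^ 4 := pow_le_pow_left₀ hu0.le h2 4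
  norm_num at h3
  linarith

private theorem Nb_inv {u u' : ℝ} {b a : ℕ} (hb : 64 ≤ b) (hu0 : 0 < u) (hu0' : 0 < u')
    {law : St → ℝ} (h : Inv law u) (hu : u ^ 4 ≤ (1 / 2) ^ (64 * b))
    (h2 : 2 ^ a * u ^ 4 ≤ 2 * (b : ℝ))
    (hu' : u' ^ 4 = (1 - u ^ 4) ^ (2 ^ a)) (hlo : Real.exp (-(3 * b)) ≤ u' ^ 4)
    (hup : u' ^ 4 ≤ (1 / 2) ^ b) :
    Inv (nlaw (List.Vector Bool a) (u ^ 2) u' law) u' := by
  obtain ⟨hu1, -⟩ := Nb_u_lt (b := 64 * b) (by omega) hu0 hu
  obtain ⟨hu2, -⟩ := Nb_u_lt hb hu0' hup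
  have hcard : Fintype.card (List.Vector Bool a) = 2 ^ a := by
    rw [card_vector, Fintype.card_bool]
  refine nlaw_inv (by positivity) (by nlinarith) hu0' hu2 h.toIsLaw ?_ ?_
  · rw [hcard, hu', h.pr]
  · rw [hcard]
    have h3 := var_le h hu0 (by linarith) (2 ^ a)
    have h4 : u' ^ 8 = ((1 - u ^ 4) ^ (2 ^ a)) ^ 2 := by
      rw [← hu']; ring
    rw [h4]
    push_cast at h3
    have h5 : 3 * u * (2 ^ a * u ^ 4) ≤ 3 * u * (2 * b) :=
      mul_le_mul_of_nonneg_left h2 (by positivity)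
    have h6 := var_num (b := b) (by omega) hu0.le hu0'.le hu hlo
    have h7 : 0 < u' ^ 4 := by positivity
    rw [div_mul_eq_mul_div, div_le_iff₀ h7]
    nlinarith

theorem sched {n s : ℕ} (hn : 64 ≤ n) (hs : 1 ≤ s) (hsn : (12 * s) ^ 4 ≤ 2 ^ n) :
    ∀ (j : ℕ) (law : St → ℝ) (u : ℝ), 0 < u → Inv law u →
      Real.exp (-(3 * ((64 ^ j * n : ℕ) : ℝ))) ≤ u ^ 4 → u ^ 4 ≤ (1 / 2) ^ (64 ^ j * n) →
      ∃ as : List ℕ, as.length = j + 1 ∧ (∀ a ∈ as, a ≤ 5 * (64 ^ j * n)) ∧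
        ∀ (X : Type) [Fintype X] (q : ℕ) (e : Bool),
          Q (fN X as) (u ^ 2) e (List.replicate j q) s law
            (j * (Fintype.card X * 2 ^ (j * q) * (1 / 2) ^ s) +
              Real.exp (-(Fintype.card X / (8 * (s + 1))))) := by
  intro j
  induction j with
  | zero =>
    intro law u hu0 hinv hlo hup
    have hB : 64 ≤ 64 ^ 0 * n := by omega
    obtain ⟨hu1, hu2⟩ := Nb_u_lt hB hu0 hup
    obtain ⟨a, ha1, ha2⟩ := exists_fan (x := u ^ 4) (b := 1 / 2) (by positivity) (by linarith)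
    have ha3 : a ≤ 5 * (64 ^ 0 * n) :=
      fan_le hB hlo (by norm_num) (Or.inl (by norm_num)) ha2
    have hcard : (Fintype.card (List.Vector Bool a) : ℝ) = 2 ^ a := by
      rw [card_vector, Fintype.card_bool]
      push_cast
      rfl
    refine ⟨[a], rfl, ?_, ?_⟩
    · intro a' ha'
      rw [List.mem_singleton] at ha'
      rw [ha']
      exact ha3
    · intro X _ q e
      have h1 := q_final (X := X) (W := List.Vector Bool a) (s := s) hu0
        (small_num (b := 64 ^ 0 * n) (by omega) hu0.le hup)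
        (depth_num (b := 64 ^ 0 * n) hu0.le hsn (by omega) hup) hinv
        (by rw [hcard]; exact ha1) (by rw [hcard]; linarith) e
      have h2 : Q (fN X [a]) (u ^ 2) e (List.replicate 0 q) s law
          (Real.exp (-(Fintype.card X / (8 * (s + 1))))) := h1
      refine Q.mono h2 ?_
      simp
  | succ j ih =>
    intro law u hu0 hinv hlo hup
    obtain ⟨b, hb⟩ : ∃ b, b = 64 ^ j * n := ⟨_, rfl⟩
    have hb64 : 64 ≤ b := by
      rw [hb]
      calc 64 ≤ n := hn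
        _ = 1 * n := (one_mul n).symm
        _ ≤ 64 ^ j * n := Nat.mul_le_mul_right n (Nat.one_le_pow _ _ (by norm_num))
    have hB : 64 ^ (j + 1) * n = 64 * b := by
      rw [hb, pow_succ]; ring
    rw [hB] at hlo hup
    rw [← hb] at ih
    have hnb : n ≤ b := by
      rw [hb]
      exact Nat.le_mul_of_pos_left n (by positivity)
    obtain ⟨hu1, hu2⟩ := Nb_u_lt (b := 64 * b) (by omega) hu0 hup
    have hbR : (64 : ℝ) ≤ b := by exact_mod_cast hb64
    obtain ⟨a, ha1, ha2⟩ := exists_fan (x := u ^ 4) (b := (b : ℝ)) (by positivity) (by linarith)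
    have ha3 : a ≤ 5 * (64 * b) :=
      fan_le (B := 64 * b) (by omega) hlo (by linarith) (Or.inr (by push_cast; linarith)) ha2
    have hx1 : 0 < 1 - u ^ 4 := by linarith
    obtain ⟨u', hu0', hu'⟩ := exists_root (P := (1 - u ^ 4) ^ (2 ^ a)) (by positivity)
    obtain ⟨h1, h2⟩ := one_sub_pow (x := u ^ 4) (N := 2 ^ a) (b := b) (by positivity) hu2
      (by push_cast; exact ha1) (by push_cast; exact ha2)
    rw [← hu'] at h1 h2
    have h3 : u' ^ 4 ≤ (1 / 2) ^ b := h2.trans (exp_le_half b)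
    have hinv' := Nb_inv hb64 hu0 hu0' hinv hup ha2 hu' h1 h3
    obtain ⟨as, has1, has2, has3⟩ := ih (nlaw (List.Vector Bool a) (u ^ 2) u' law) u' hu0' hinv'
      h1 h3
    have hd := depth_num (b := 64 * b) hu0.le hsn (by omega) hup
    have hd' := depth_num (b := b) hu0'.le hsn hnb h3
    refine ⟨a :: as, by rw [List.length_cons, has1], ?_, ?_⟩
    · intro a' ha'
      rw [hB]
      rcases List.mem_cons.1 ha' with h | h
      · rw [h]; exact ha3
      · have := has2 a' h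
        omega
    · intro X _ q e
      have hsR : (1 : ℝ) ≤ s := by exact_mod_cast hs
      have h4 := q_step (W := List.Vector Bool a) (t := u ^ 2) (u := u') (s := s) (by positivity)
        (by nlinarith) (by nlinarith) hu0' hd' hs q hinv.toIsLaw (has3 X q e)
      have h5 : List.replicate (j + 1) q = List.replicate j q ++ [q] := List.replicate_succ'
      rw [h5]
      have h6 : Q (fN X (a :: as)) (u ^ 2) e (List.replicate j q ++ [q]) s law
        (Fintype.card X * 2 ^ (List.replicate j q).sum * (1 / 2) ^ s +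
          (j * (Fintype.card X * 2 ^ (j * q) * (1 / 2) ^ s) +
              Real.exp (-(Fintype.card X / (8 * (s + 1)))))) := h4
      refine Q.mono h6 ?_
      rw [List.sum_replicate, smul_eq_mul]
      have h7 : (2 : ℝ) ^ (j * q) ≤ 2 ^ ((j + 1) * q) :=
        pow_le_pow_right₀ (by norm_num) (Nat.mul_le_mul_right q (Nat.le_succ j))
      have h8 : (Fintype.card X : ℝ) * 2 ^ (j * q) * (1 / 2) ^ s ≤
          Fintype.card X * 2 ^ ((j + 1) * q) * (1 / 2) ^ s := by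
        have h9 : (0 : ℝ) ≤ Fintype.card X := Nat.cast_nonneg _
        have h10 : (0 : ℝ) ≤ (1 / 2) ^ s := by positivity
        exact mul_le_mul_of_nonneg_right (mul_le_mul_of_nonneg_left h7 h9) h10
      have h11 : (0 : ℝ) ≤ j := Nat.cast_nonneg _
      have h12 := mul_le_mul_of_nonneg_left h8 h11
      push_cast
      linarith

theorem core {k n s : ℕ} (hn : 64 ≤ n) (hs : 1 ≤ s) (hsn : (12 * s) ^ 4 ≤ 2 ^ n) :
    ∃ as : List ℕ, as.length = k + 1 ∧ (∀ a ∈ as, a ≤ 5 * (64 ^ k * n)) ∧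
      ∀ (X : Type) [Fintype X] (q : ℕ) (e : Bool)
        (C : X → (Nd X as × Fin (64 ^ k * n) → Bool) → Prop),
        (∀ x, Ck e (List.replicate k q) s (C x)) →
        Pr (fun _ => bern (1 / 2)) (fun y => ∀ x, C x y ↔ up (fN X as) x y) ≤
          k * (Fintype.card X * 2 ^ (k * q) * (1 / 2) ^ s) +
            Real.exp (-(Fintype.card X / (8 * (s + 1)))) := by
  obtain ⟨b, hb⟩ : ∃ b, b = 64 ^ k * n := ⟨_, rfl⟩
  have hb64 : 64 ≤ b := by
    rw [hb]
    calc 64 ≤ n := hn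
      _ = 1 * n := (one_mul n).symm
      _ ≤ 64 ^ k * n := Nat.mul_le_mul_right n (Nat.one_le_pow _ _ (by norm_num))
  obtain ⟨u, hu0, hu⟩ := exists_root (P := (1 / 2) ^ b) (by positivity)
  obtain ⟨hu1, hu2⟩ := Nb_u_lt hb64 hu0 hu.le
  obtain ⟨law0, hlaw0⟩ : ∃ law0 : St → ℝ, law0 = fun c => if c = St.S then 1 else 0 := ⟨_, rfl⟩
  have hS : law0 St.S = 1 := by rw [hlaw0]; rfl
  have hR : law0 St.R = 0 := by rw [hlaw0]; rfl
  have hC : law0 St.C = 0 := by rw [hlaw0]; rfl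
  have hlaw : IsLaw law0 := by
    refine ⟨fun c => ?_, ?_⟩
    · cases c
      · rw [hS]; norm_num
      · rw [hR]
      · rw [hC]
    · rw [sum_st, hS, hR, hC]; norm_num
  have hinv : Inv (nlaw (Fin b) (1 / 2) u law0) u := by
    refine nlaw_inv (by norm_num) (by norm_num) hu0 hu1 hlaw ?_ ?_
    · rw [hS, hR, Fintype.card_fin, hu]; norm_num
    · rw [hS, hC, Fintype.card_fin]
      have h1 : u ^ 8 = (1 * (1 - 1 / 2) ^ 2 + 0 : ℝ) ^ b := by
        have : u ^ 8 = (u ^ 4) ^ 2 := by ring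
        rw [this, hu, ← pow_mul, mul_comm b 2, pow_mul]
        norm_num
      rw [h1, sub_self, mul_zero]
      positivity
  have hlo : Real.exp (-(3 * (b : ℝ))) ≤ u ^ 4 := by
    rw [hu]
    refine le_trans ?_ (exp_le_half b)
    rw [Real.exp_le_exp]
    have : (0 : ℝ) ≤ b := Nat.cast_nonneg _
    linarith
  rw [← hb]
  have hsch := sched hn hs hsn k (nlaw (Fin b) (1 / 2) u law0) u hu0 hinv
  rw [← hb] at hsch
  obtain ⟨as, has1, has2, has3⟩ := hsch hlo hu.le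
  refine ⟨as, has1, has2, ?_⟩
  intro X _ q e C hCk
  obtain ⟨v, hv1, hv2⟩ := q_comp (W := Fin b) (t := 1 / 2) (u := u) (by norm_num) (by norm_num) hu0
    hu1 hlaw (has3 X q e)
  have h1 := hv1 (fun _ => St.S) C hCk
  have h2 : Ex (fun _ => law0) v = v (fun _ => St.S) := by
    unfold Ex
    rw [Finset.sum_eq_single (fun _ => St.S)]
    · show (∏ _i, law0 St.S) * v (fun _ => St.S) = v (fun _ => St.S)
      rw [hS, Finset.prod_const_one, one_mul]
    · intro ρ _ hρ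
      obtain ⟨i, hi⟩ : ∃ i, ρ i ≠ St.S := by
        by_contra hcon
        push Not at hcon
        exact hρ (funext hcon)
      rw [Finset.prod_eq_zero (Finset.mem_univ i), zero_mul]
      rw [hlaw0]
      simp [hi]
    · intro h
      refine (h ?_).elim
      convert Finset.mem_univ _
  rw [h2] at hv2
  exact (show Pr (fun _ => bern (1 / 2)) (fun y => ∀ x, C x y ↔ up (fN X as) x y) ≤
    v (fun _ => St.S) from h1).trans hv2

end Pool.Agent.H71.RO
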