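import Pool.Agent.H71.RO.Me
import Pool.Agent.H71.RO.Mf
import Pool.Agent.H71.RO.Nb

/-!
# A machine is rarely correct on all inputs with a given header; locality

PROOF of `ev1_core`. `as` from `core` (`k`, `n`, `s`). Take `X := List.Vector Bool n` (`card_vector`: `2 ^ n` elements), `e := true`,
`C x y := Rn (patch (addr as) A y) k q t p h (inp as (64 ^ k * n) x.toList)` (`rn_ck`, `Ck_mono`). For every `y`:
`inp as b x.toList ∈ Lk (patch (addr as) A y) k ↔ up (fN _ as) x (fun p => patch (addr as) A y (addr as p)) ↔ up (fN _ as) x y`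
(`mem_Lk`, `patch_ad`, `addr_inj`). So `Ev1 .. (patch (addr as) A y)` is the event of `core`.

PROOF of `ev1_congr`. `mem_Lk` depends only on the values at the addresses, of length at most `ilen as b n` (`addr_length`).
`Rn`: `Alt_eq`, `AltL_congr`: for `us` with `us.map length = replicate k q` the total length of the inputs is at most
`ilen as b n + k * q + h.length` (`inp_length`), and `dtp_acceptsIn` with `DTP.depends` gives
`AcceptsIn A p xs t ↔ AcceptsIn A' p xs t` if `A`, `A'` agree on the strings of length at most `totalLength xs + t`.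
-/

set_option autoImplicit false
set_option linter.unusedSectionVars false

namespace Pool.Agent.H71.RO

open Classical
open Pool.Agent.H9
open Pool.Agent.H59.Er (Pr)

theorem ev1_core {k n s : ℕ} (hn : 64 ≤ n) (hs : 1 ≤ s) (hsn : (12 * s) ^ 4 ≤ 2 ^ n) :
    ∃ as : List ℕ, as.length = k + 1 ∧ (∀ a ∈ as, a ≤ 5 * (64 ^ k * n)) ∧
      ∀ (A : Oracle) (q t : ℕ) (p : Prog) (h : List Bool), t ≤ s →
        Pr (fun _ : Nd (List.Vector Bool n) as × Fin (64 ^ k * n) => bern (1 / 2))
          (fun y => Ev1 k q t p h as (64 ^ k * n) n (patch (addr as) A y)) ≤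
          k * (2 ^ n * 2 ^ (k * q) * (1 / 2) ^ s) + Real.exp (-(2 ^ n / (8 * (s + 1)))) := by
  obtain ⟨as, h1, h2, h3⟩ := core (k := k) hn hs hsn
  refine ⟨as, h1, h2, ?_⟩
  intro A q t p h hts
  have hcard : (Fintype.card (List.Vector Bool n) : ℝ) = 2 ^ n := by
    rw [card_vector, Fintype.card_bool]
    push_cast
    rfl
  have h4 := h3 (List.Vector Bool n) q true
    (fun x y => Rn (patch (addr as) A y) k q t p h (inp as (64 ^ k * n) x.toList))
    (fun x => Ck_mono (rn_ck (addr as) A k q t p h (inp as (64 ^ k * n) x.toList)) hts)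
  rw [hcard] at h4
  have h5 : (fun y : Nd (List.Vector Bool n) as × Fin (64 ^ k * n) → Bool =>
      Ev1 k q t p h as (64 ^ k * n) n (patch (addr as) A y)) =
      (fun y => ∀ x : List.Vector Bool n,
        Rn (patch (addr as) A y) k q t p h (inp as (64 ^ k * n) x.toList) ↔
          up (fN (List.Vector Bool n) as) x y) := by
    funext y
    apply propext
    unfold Ev1
    refine forall_congr' fun x => ?_
    have h6 := mem_Lk (patch (addr as) A y) (b := 64 ^ k * n) h1 x
    have h7 : (fun p : Nd (List.Vector Bool n) as × Fin (64 ^ k * n) =>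
        patch (addr as) A y (addr as p)) = y := by
      funext p
      exact patch_ad (addr_inj as) A y p
    rw [h7] at h6
    exact iff_congr Iff.rfl h6
  rw [h5]
  exact h4

theorem Mg_total {k q : ℕ} {z h : List Bool} {us : List (List Bool)}
    (hus : us.map List.length = List.replicate k q) :
    totalLength (z :: (us ++ [h])) = z.length + k * q + h.length := by
  unfold totalLength
  rw [List.map_cons, List.map_append, List.sum_cons, List.sum_append, hus, List.sum_replicate,
    smul_eq_mul, List.map_cons, List.map_nil, List.sum_cons, List.sum_nil]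
  ring

theorem ev1_congr {k q t : ℕ} {p : Prog} {h : List Bool} {as : List ℕ} {b n : ℕ}
    (has : as.length = k + 1) {A A' : Oracle}
    (hA : ∀ w : List Bool, w.length ≤ ilen as b n + k * q + h.length + t → A w = A' w) :
    Ev1 k q t p h as b n A ↔ Ev1 k q t p h as b n A' := by
  unfold Ev1
  refine forall_congr' fun x => ?_
  have h1 : Rn A k q t p h (inp as b x.toList) ↔ Rn A' k q t p h (inp as b x.toList) := by
    unfold Rn
    rw [Alt_eq, Alt_eq]
    refine AltL_congr fun us hus => ?_
    have h2 := dtp_acceptsIn p (inp as b x.toList :: (us ++ [h])) t _ le_rfl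
    refine h2.depends ?_
    intro w hw
    have hw' : w.length ≤ totalLength (inp as b x.toList :: (us ++ [h])) + t := hw
    rw [Mg_total hus, inp_length, List.Vector.toList_length] at hw'
    exact hA w hw'
  have h3 : inp as b x.toList ∈ Lk A k ↔ inp as b x.toList ∈ Lk A' k := by
    rw [mem_Lk A has x, mem_Lk A' has x]
    have h4 : (fun p : Nd (List.Vector Bool n) as × Fin b => A (addr as p)) =
        fun p => A' (addr as p) := by
      funext p
      apply hA
      have := addr_length as p
      omega
    rw [h4]
  exact iff_congr h1 h3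

end Pool.Agent.H71.RO
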