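import Mathlib

/-!
# Numerical facts for the choice of the fan-ins

PROOFS.
`exists_fan`: let `a` be the least natural number with `b ≤ 2 ^ a * x` (it exists: `2 ^ a ≥ a`, Archimedean; `Nat.find`). If
`a = 0` use `x ≤ 2 * b`. If `a = a' + 1`, minimality gives `2 ^ a' * x < b`, so `2 ^ a * x < 2 * b`.

`fan_le`: `2 ^ a ≤ 2 * b / x ≤ 2 * b * exp (3 * B)`, so `a * log 2 ≤ log (2 * b) + 3 * B`. `log (2 * b) ≤ log B ≤ ...`: use
`2 * b ≤ B / 32` and `log y ≤ y - 1` in the form `log (2 * b) ≤ log (B / 32) ≤ B / 32`, or `2 * b ≤ 1` and `log (2 * b) ≤ 0`.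
With `log 2 ≥ 0.6931` (`Real.log_two_gt_d9`): `5 * 0.6931 = 3.4655 ≥ 3 + 1 / 32`.

`one_sub_pow`: `1 - x ≤ exp (-x)` gives the upper bound `(1 - x) ^ N ≤ exp (-(N * x)) ≤ exp (-b)`. Lower bound: for
`0 ≤ x ≤ 1 / 3`: `exp (-(3 / 2) * x) ≤ 1 - x` (because `exp ((3 / 2) * x) * (1 - x) ≥ (1 + (3 / 2) * x) * (1 - x) =
1 + x / 2 - (3 / 2) * x ^ 2 ≥ 1`), so `(1 - x) ^ N ≥ exp (-(3 / 2) * (N * x)) ≥ exp (-3 * b)`.

`exp_le_half`: `exp (-b) ≤ (1 / 2) ^ b` as `log 2 ≤ 1` (`(1 / 2) ^ b = exp (-(b * log 2))`).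

`var_num`: from `u ^ 4 ≤ (1 / 2) ^ (64 * b)`: `u ≤ (1 / 2) ^ (16 * b) ≤ exp (-11 * b)` (`16 * log 2 ≥ 11`); from
`exp (-(3 * b)) ≤ v ^ 4`: `exp (-(3 / 4) * b) ≤ v` (else fourth powers), so `v ^ 9 ≥ exp (-(27 / 4) * b)`;
`12 * b ≤ 16 * b ≤ (1 + b) ^ 4 ≤ exp (4 * b)` for `b ≥ 1` (`(1 + b) ^ 2 ≥ 4 * b` and `≥ 4`), so
`12 * b * u ≤ exp (4 * b - 11 * b) ≤ exp (-(27 / 4) * b) ≤ v ^ 9`.
-/

set_option autoImplicit false

namespace Pool.Agent.H71.RO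

theorem exists_fan {x b : ℝ} (hx : 0 < x) (hxb : x ≤ 2 * b) :
    ∃ a : ℕ, b ≤ 2 ^ a * x ∧ 2 ^ a * x ≤ 2 * b := by
  have hex : ∃ a : ℕ, b ≤ 2 ^ a * x := by
    obtain ⟨k, hk⟩ := exists_nat_gt (b / x)
    refine ⟨k, ?_⟩
    rw [div_lt_iff₀ hx] at hk
    have h2 : (k : ℝ) ≤ 2 ^ k := by exact_mod_cast (Nat.lt_two_pow_self (n := k)).le
    nlinarith
  classical
  refine ⟨Nat.find hex, Nat.find_spec hex, ?_⟩
  rcases h : Nat.find hex with _ | a'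
  · simpa using hxb
  · have hlt : ¬ b ≤ 2 ^ a' * x := Nat.find_min hex (by omega)
    rw [pow_succ]
    linarith [not_le.mp hlt]

theorem fan_le {x b : ℝ} {B a : ℕ} (hB : 64 ≤ B) (hx : Real.exp (-(3 * B)) ≤ x) (hb0 : 0 < b)
    (hb : 2 * b ≤ 1 ∨ 64 * b ≤ B) (ha : 2 ^ a * x ≤ 2 * b) : a ≤ 5 * B := by
  have hx0 : 0 < x := lt_of_lt_of_le (Real.exp_pos _) hx
  have h1 : (2 : ℝ) ^ a * Real.exp (-(3 * B)) ≤ 2 * b :=
    le_trans (mul_le_mul_of_nonneg_left hx (by positivity)) ha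
  have h2 : Real.log ((2 : ℝ) ^ a * Real.exp (-(3 * B))) ≤ Real.log (2 * b) :=
    Real.log_le_log (by positivity) h1
  rw [Real.log_mul (by positivity) (Real.exp_pos _).ne', Real.log_pow, Real.log_exp] at h2
  have h3 : Real.log (2 * b) ≤ 2 * b - 1 := Real.log_le_sub_one_of_pos (by linarith)
  have h4 := Real.log_two_gt_d9
  have hBr : (64 : ℝ) ≤ B := by exact_mod_cast hB
  have h5 : Real.log (2 * b) ≤ B / 32 := by
    rcases hb with hb | hb <;> linarith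
  by_contra hcon
  have h6 : (5 : ℝ) * B ≤ a := by
    have : 5 * B ≤ a := (not_le.mp hcon).le
    exact_mod_cast this
  nlinarith

theorem one_sub_pow {x : ℝ} {N b : ℕ} (hx0 : 0 ≤ x) (hx : x ≤ 1 / 3) (h1 : (b : ℝ) ≤ N * x)
    (h2 : (N : ℝ) * x ≤ 2 * b) :
    Real.exp (-(3 * b)) ≤ (1 - x) ^ N ∧ (1 - x) ^ N ≤ Real.exp (-b) := by
  have hlo : Real.exp (-(3 / 2 * x)) ≤ 1 - x := by
    have ha : 1 + 3 / 2 * x ≤ Real.exp (3 / 2 * x) := by
      linarith [Real.add_one_le_exp (3 / 2 * x)]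
    rw [Real.exp_neg, inv_le_comm₀ (Real.exp_pos _) (by linarith)]
    refine le_trans ?_ ha
    rw [inv_le_comm₀ (by linarith) (by linarith), inv_le_iff_one_le_mul₀ (by linarith)]
    nlinarith
  have hhi : 1 - x ≤ Real.exp (-x) := by
    linarith [Real.add_one_le_exp (-x)]
  constructor
  · calc Real.exp (-(3 * b)) ≤ Real.exp (N * (-(3 / 2 * x))) := by
          apply Real.exp_le_exp.mpr
          nlinarith
      _ = Real.exp (-(3 / 2 * x)) ^ N := by rw [Real.exp_nat_mul]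
      _ ≤ (1 - x) ^ N := pow_le_pow_left₀ (Real.exp_pos _).le hlo N
  · calc (1 - x) ^ N ≤ Real.exp (-x) ^ N := pow_le_pow_left₀ (by linarith) hhi N
      _ = Real.exp (N * (-x)) := by rw [Real.exp_nat_mul]
      _ ≤ Real.exp (-b) := by
          apply Real.exp_le_exp.mpr
          nlinarith

theorem exp_le_half (b : ℕ) : Real.exp (-b) ≤ (1 / 2) ^ b := by
  have h1 : Real.exp (-(b : ℝ)) = Real.exp (-1) ^ b := by
    rw [← Real.exp_nat_mul]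
    congr 1; ring
  rw [h1]
  refine pow_le_pow_left₀ (Real.exp_pos _).le ?_ b
  rw [Real.exp_neg, one_div]
  exact inv_anti₀ (by norm_num) (by linarith [Real.add_one_le_exp (1 : ℝ)])

theorem var_num {u v : ℝ} {b : ℕ} (hb : 1 ≤ b) (hu0 : 0 ≤ u) (hv0 : 0 ≤ v)
    (hu : u ^ 4 ≤ (1 / 2) ^ (64 * b)) (hv : Real.exp (-(3 * b)) ≤ v ^ 4) :
    12 * b * u ≤ v ^ 9 := by
  have hbr : (1 : ℝ) ≤ b := by exact_mod_cast hb
  have hu1 : u ≤ (1 / 2) ^ (16 * b) := by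
    refine le_of_pow_le_pow_left₀ (n := 4) (by norm_num) (by positivity) ?_
    rw [← pow_mul]
    refine le_trans hu (le_of_eq ?_)
    congr 1; ring
  have hu2 : ((1 : ℝ) / 2) ^ (16 * b) ≤ Real.exp (-(11 * b)) := by
    rw [pow_mul]
    have h1 : Real.exp (-(11 * (b : ℝ))) = Real.exp (-11) ^ b := by
      rw [← Real.exp_nat_mul]
      congr 1; ring
    rw [h1]
    refine pow_le_pow_left₀ (by positivity) ?_ b
    have h2 : ((1 : ℝ) / 2) ^ 16 = Real.exp (-(16 * Real.log 2)) := by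
      rw [Real.exp_neg, show (16 : ℝ) * Real.log 2 = ((16 : ℕ) : ℝ) * Real.log 2 by norm_num,
        Real.exp_nat_mul, Real.exp_log (by norm_num)]
      norm_num
    rw [h2]
    apply Real.exp_le_exp.mpr
    linarith [Real.log_two_gt_d9]
  have hv1 : Real.exp (-(3 / 4 * b)) ≤ v := by
    refine le_of_pow_le_pow_left₀ (n := 4) (by norm_num) hv0 ?_
    refine le_trans (le_of_eq ?_) hv
    rw [← Real.exp_nat_mul]
    congr 1; push_cast; ring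
  have hv2 : Real.exp (-(27 / 4 * b)) ≤ v ^ 9 := by
    refine le_trans (le_of_eq ?_) (pow_le_pow_left₀ (Real.exp_pos _).le hv1 9)
    rw [← Real.exp_nat_mul]
    congr 1; push_cast; ring
  have h12 : 12 * (b : ℝ) ≤ Real.exp (4 * b) := by
    have h1 : (b : ℝ) + 1 ≤ Real.exp b := Real.add_one_le_exp _
    have h2 : Real.exp (4 * (b : ℝ)) = Real.exp b ^ 4 := by
      rw [← Real.exp_nat_mul]; congr 1
    rw [h2]
    refine le_trans ?_ (pow_le_pow_left₀ (by linarith) h1 4)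
    nlinarith [sq_nonneg ((b : ℝ) - 1), sq_nonneg ((b : ℝ) ^ 2 - 1), sq_nonneg ((b : ℝ) ^ 2 - b),
      mul_nonneg (sub_nonneg.mpr hbr) (sub_nonneg.mpr hbr)]
  calc 12 * (b : ℝ) * u ≤ Real.exp (4 * b) * Real.exp (-(11 * b)) :=
        mul_le_mul h12 (hu1.trans hu2) hu0 (Real.exp_pos _).le
    _ = Real.exp (-(7 * b)) := by rw [← Real.exp_add]; congr 1; ring
    _ ≤ Real.exp (-(27 / 4 * b)) := by
        apply Real.exp_le_exp.mpr; nlinarith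
    _ ≤ v ^ 9 := hv2

/-- fourth roots -/
theorem exists_root {P : ℝ} (h : 0 < P) : ∃ u : ℝ, 0 < u ∧ u ^ 4 = P := by
  refine ⟨Real.sqrt (Real.sqrt P), Real.sqrt_pos.mpr (Real.sqrt_pos.mpr h), ?_⟩
  rw [show (4 : ℕ) = 2 * 2 from rfl, pow_mul, Real.sq_sqrt (Real.sqrt_nonneg _),
    Real.sq_sqrt h.le]

/-- the condition on the depth of the trees -/
theorem depth_num {u : ℝ} {n s b : ℕ} (hu0 : 0 ≤ u) (hsn : (12 * s) ^ 4 ≤ 2 ^ n) (hnb : n ≤ b)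
    (hu : u ^ 4 ≤ (1 / 2) ^ b) : 12 * u * s ≤ 1 := by
  refine le_of_pow_le_pow_left₀ (n := 4) (by norm_num) (by norm_num) ?_
  have h1 : ((12 * s : ℕ) : ℝ) ^ 4 ≤ 2 ^ n := by exact_mod_cast hsn
  have h2 : (2 : ℝ) ^ n ≤ 2 ^ b := pow_le_pow_right₀ (by norm_num) hnb
  push_cast at h1
  calc (12 * u * s) ^ 4 = u ^ 4 * (12 * (s : ℝ)) ^ 4 := by ring
    _ ≤ (1 / 2) ^ b * 2 ^ b := mul_le_mul hu (h1.trans h2) (by positivity) (by positivity)
    _ = 1 ^ 4 := by rw [← mul_pow]; norm_num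

/-- for large `n` the parameter `u` is small -/
theorem small_num {u : ℝ} {b : ℕ} (hb : 48 ≤ b) (hu0 : 0 ≤ u) (hu : u ^ 4 ≤ (1 / 2) ^ b) :
    2400 * u ≤ 1 := by
  have h1 : u ≤ (1 / 2) ^ 12 := by
    refine le_of_pow_le_pow_left₀ (n := 4) (by norm_num) (by positivity) ?_
    rw [← pow_mul]
    exact hu.trans (pow_le_pow_of_le_one (by norm_num) (by norm_num) (by omega))
  norm_num at h1
  linarith

end Pool.Agent.H71.RO
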