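import Pool.Agent.H71.RO.Ed
import Pool.Agent.H71.RO.Ee
import Pool.Agent.H71.RO.Lang

/-!
# From the leaf bits to all strings of length at most `m`

PROOF. `bern (1 / 2)` is a probability distribution. Let `I := {w // w ∈ words m}`, `ι v := ⟨ad v, _⟩ : I` (`mem_words`), injective,
`S : Set I := {w | ¬ ∃ v, ad v = w.1}`. By `ex_mix`: `Pr (fun a => E (ext m a)) = Ex_a Ex_a' ind (E (ext m (mix S a a')))`.
For all `a`, `a'`: `ext m (mix S a a') = patch ad (ext m a) (fun v => a' (ι v))`: at `w ∈ words m` with `w = ad v` both sides are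
`a' ⟨w, _⟩` (`h.choose` is a `v'` with `ad v' = w`), at `w ∈ words m` without such `v` both are `a ⟨w, _⟩`; at `w ∉ words m` both are
`false` (`ad v ∈ words m`). By `ex_comp_inj` the inner expectation is `Pr (fun y => E (patch ad (ext m a) y)) ≤ B`; conclude with
`ex_mono` and `ex_const`.
-/

set_option autoImplicit false
set_option linter.unusedSectionVars false

namespace Pool.Agent.H71.RO

open Classical
open Pool.Agent.H9 (Oracle words mem_words)
open Pool.Agent.H59.Er

theorem Pa_sum : ∑ r : Bool, bern (1 / 2) r = 1 := by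
  rw [Fintype.sum_bool]
  show (1 / 2 : ℝ) + (1 - 1 / 2) = 1
  ring

theorem pr_words {m : ℕ} {V : Type} [Fintype V] {ad : V → List Bool}
    (hinj : Function.Injective ad) (hlen : ∀ v, (ad v).length ≤ m) (E : Oracle → Prop) (B : ℝ)
    (hB : ∀ A : Oracle, Pr (fun _ : V => bern (1 / 2)) (fun y => E (patch ad A y)) ≤ B) :
    Pr (fun _ : {w // w ∈ words m} => bern (1 / 2)) (fun a => E (ext m a)) ≤ B := by
  have hIs : IsPr (fun _ : {w // w ∈ words m} => bern (1 / 2)) := by
    refine ⟨fun _ r => ?_, fun _ => Pa_sum⟩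
    cases r
    · show (0 : ℝ) ≤ 1 - 1 / 2
      norm_num
    · show (0 : ℝ) ≤ 1 / 2
      norm_num
  let ι : V → {w // w ∈ words m} := fun v => ⟨ad v, mem_words.2 (hlen v)⟩
  have hι : Function.Injective ι := fun v v' h => hinj (congrArg Subtype.val h)
  let S : Set {w // w ∈ words m} := {w | ¬ ∃ v, ad v = w.1}
  have key : ∀ a a' : {w // w ∈ words m} → Bool,
      ext m (mix S a a') = patch ad (ext m a) (fun v => a' (ι v)) := by
    intro a a'
    funext w
    by_cases hv : ∃ v, ad v = w
    · have hw : w ∈ words m := by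
        obtain ⟨v, hv'⟩ := hv
        rw [← hv']
        exact mem_words.2 (hlen v)
      have h1 : ext m (mix S a a') w = mix S a a' ⟨w, hw⟩ := dif_pos hw
      have h2 : patch ad (ext m a) (fun v => a' (ι v)) w = a' (ι hv.choose) := dif_pos hv
      have h3 : (⟨w, hw⟩ : {w // w ∈ words m}) ∉ S := fun h => h hv
      have h4 : ι hv.choose = ⟨w, hw⟩ := Subtype.ext hv.choose_spec
      rw [h1, h2, Ed_mix_out _ _ h3, h4]
    · have h2 : patch ad (ext m a) (fun v => a' (ι v)) w = ext m a w := dif_neg hv
      rw [h2]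
      by_cases hw : w ∈ words m
      · have h1 : ext m (mix S a a') w = mix S a a' ⟨w, hw⟩ := dif_pos hw
        have h3 : (⟨w, hw⟩ : {w // w ∈ words m}) ∈ S := hv
        have h5 : ext m a w = a ⟨w, hw⟩ := dif_pos hw
        rw [h1, h5, Ed_mix_in _ _ h3]
      · have h1 : ext m (mix S a a') w = false := dif_neg hw
        have h5 : ext m a w = false := dif_neg hw
        rw [h1, h5]
  have h1 : Pr (fun _ : {w // w ∈ words m} => bern (1 / 2)) (fun a => E (ext m a)) =
      Ex (fun _ : {w // w ∈ words m} => bern (1 / 2)) (fun a =>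
        Pr (fun _ : V => bern (1 / 2)) (fun y => E (patch ad (ext m a) y))) := by
    unfold Pr
    rw [ex_mix hIs S]
    congr 1
    funext a
    have h := ex_comp_inj (I := {w // w ∈ words m}) (J := V) (bern (1 / 2)) Pa_sum ι hι
      (fun y => ind (E (patch ad (ext m a) y)))
    rw [← h]
    congr 1
    funext a'
    show ind (E (ext m (mix S a a'))) = _
    rw [key a a']
  rw [h1]
  refine (ex_mono hIs (fun a => hB (ext m a))).trans ?_
  rw [ex_const hIs]

end Pool.Agent.H71.RO
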