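import Pool.Agent.H71.RO.Lang
import Pool.Agent.H71.RO.Stmt

/-!
# From the uniform probability to a measure of small deficiency

PROOFS.
`card_words_eq`: `words m` is the disjoint union of the `strings i`, `i ≤ m` (`Finset.card_biUnion`, `card_strings`),
`∑ i ∈ range (m + 1), 2 ^ i = 2 ^ (m + 1) - 1` (`Nat.geomSum_eq` or induction).
`meas_le`: let `G := Finset.univ.filter (fun a : {w // w ∈ words m} → Bool => E (ext m a))`. Then
`{A | E A} ⊆ ⋃ a ∈ G, {A | ∀ w, w.length ≤ m → A w = ext m a w}` (for `A` take `a w := A w.1`; `ext m a` agrees with `A` on `words m`, so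
`E (ext m a)` by `hE`). So `μ {A | E A} ≤ G.card * c` (`measure_biUnion_finset_le`, no measurability needed). And
`G.card = 2 ^ (2 ^ (m + 1) - 1) * Pr (..)`: in `Pr` every `a` has the weight `∏ bern (1 / 2) (a w) = (1 / 2) ^ (words m).card`
(`bern (1 / 2) b = 1 / 2`), so `Pr = G.card * (1 / 2) ^ (words m).card`. Hence `(G.card : ℝ) ≤ 2 ^ (..) * B`, and
`(G.card : ℝ≥0∞) = ENNReal.ofReal G.card` (`ENNReal.ofReal_natCast`).
`meas_def`: `meas_le` with `c := ENNReal.ofReal (2 ^ (D - (2 ^ (m + 1) - 1)))`; `ENNReal.ofReal_mul`, and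
`2 ^ (2 ^ (m + 1) - 1) * B * 2 ^ (D - (2 ^ (m + 1) - 1)) = 2 ^ D * B` (real powers: `Real.rpow_sub`, `Real.rpow_natCast`; the natural
number `2 ^ (m + 1) - 1` casts to the real number `2 ^ (m + 1) - 1`).
-/

set_option autoImplicit false
set_option linter.unusedSectionVars false

namespace Pool.Agent.H71.RO

open Classical MeasureTheory
open Pool.Agent.H9 (Oracle words mem_words)
open Pool.Agent.H59.Er (Pr)
open scoped ENNReal

theorem card_words_eq (m : ℕ) : (words m).card = 2 ^ (m + 1) - 1 := by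
  unfold words
  rw [Finset.card_biUnion]
  · simp only [Pool.Agent.H9.card_strings]
    have h := Nat.geomSum_eq (m := 2) le_rfl (m + 1)
    rw [h]
    simp
  · intro i _ j _ hij
    rw [Function.onFun, Finset.disjoint_left]
    intro w h1 h2
    exact hij ((Pool.Agent.H9.mem_strings.1 h1).symm.trans (Pool.Agent.H9.mem_strings.1 h2))

theorem Pb_ext {m : ℕ} (a : {w // w ∈ words m} → Bool) {w : List Bool} (h : w ∈ words m) :
    ext m a w = a ⟨w, h⟩ := by
  unfold ext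
  rw [dif_pos h]

theorem Pb_card {m : ℕ} (P : ({w // w ∈ words m} → Bool) → Prop) :
    ((Finset.univ.filter P).card : ℝ) =
      2 ^ (2 ^ (m + 1) - 1) * Pr (fun _ : {w // w ∈ words m} => bern (1 / 2)) P := by
  have hb : ∀ b : Bool, bern (1 / 2) b = 1 / 2 := by
    intro b
    cases b <;> norm_num [bern]
  unfold Pool.Agent.H59.Er.Pr Pool.Agent.H59.Er.Ex
  simp only [hb, Finset.prod_const]
  have hc : (Finset.univ : Finset {w // w ∈ words m}).card = 2 ^ (m + 1) - 1 := by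
    rw [← card_words_eq m]
    simp
  rw [hc, ← Finset.mul_sum, ← mul_assoc, ← mul_pow]
  have h1 : ∑ i : ({w // w ∈ words m} → Bool), Pool.Agent.H59.Er.ind (P i) = ((Finset.univ.filter P).card : ℝ) := by
    unfold Pool.Agent.H59.Er.ind
    rw [Finset.sum_boole]
  have h2 : ((2 : ℝ) * (1 / 2)) ^ (2 ^ (m + 1) - 1) = 1 := by norm_num
  rw [h2, one_mul]
  rw [← h1]
  exact Finset.sum_congr (by ext; simp) fun _ _ => rfl

theorem meas_le (μ : Measure Oracle) {m : ℕ} {c : ℝ≥0∞}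
    (hc : ∀ a : Oracle, μ {A | ∀ w : List Bool, w.length ≤ m → A w = a w} ≤ c)
    {E : Oracle → Prop}
    (hE : ∀ A A' : Oracle, (∀ w : List Bool, w.length ≤ m → A w = A' w) → (E A ↔ E A')) {B : ℝ}
    (hB : Pr (fun _ : {w // w ∈ words m} => bern (1 / 2)) (fun a => E (ext m a)) ≤ B) :
    μ {A | E A} ≤ ENNReal.ofReal (2 ^ (2 ^ (m + 1) - 1) * B) * c := by
  set G : Finset ({w // w ∈ words m} → Bool) := Finset.univ.filter (fun a => E (ext m a)) with hG
  have hsub : {A | E A} ⊆ ⋃ a ∈ G, {A : Oracle | ∀ w : List Bool, w.length ≤ m → A w = ext m a w} := by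
    intro A hA
    have hag : ∀ w : List Bool, w.length ≤ m → A w = ext m (fun w => A w.1) w := by
      intro w hw
      rw [Pb_ext _ (mem_words.2 hw)]
    rw [Set.mem_iUnion₂]
    refine ⟨fun w => A w.1, ?_, hag⟩
    rw [hG, Finset.mem_filter]
    exact ⟨Finset.mem_univ _, (hE A _ hag).1 hA⟩
  have h1 : μ {A | E A} ≤ ∑ a ∈ G, μ {A : Oracle | ∀ w : List Bool, w.length ≤ m → A w = ext m a w} :=
    (measure_mono hsub).trans (measure_biUnion_finset_le _ _)
  have h2 : ∑ a ∈ G, μ {A : Oracle | ∀ w : List Bool, w.length ≤ m → A w = ext m a w} ≤ ∑ _a ∈ G, c :=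
    Finset.sum_le_sum fun a _ => hc (ext m a)
  refine (h1.trans h2).trans ?_
  rw [Finset.sum_const, nsmul_eq_mul]
  refine mul_le_mul_left ?_ c
  rw [← ENNReal.ofReal_natCast]
  apply ENNReal.ofReal_le_ofReal
  rw [hG, Pb_card]
  exact mul_le_mul_of_nonneg_left hB (by positivity)

theorem meas_def {μ : Measure Oracle} {m : ℕ} {D : ℝ} (hμ : DefLe μ m D) {E : Oracle → Prop}
    (hE : ∀ A A' : Oracle, (∀ w : List Bool, w.length ≤ m → A w = A' w) → (E A ↔ E A')) {B : ℝ}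
    (hB0 : 0 ≤ B)
    (hB : Pr (fun _ : {w // w ∈ words m} => bern (1 / 2)) (fun a => E (ext m a)) ≤ B) :
    μ {A | E A} ≤ ENNReal.ofReal ((2 : ℝ) ^ D * B) := by
  have h := meas_le μ hμ hE hB
  rw [← ENNReal.ofReal_mul (by positivity)] at h
  refine h.trans_eq ?_
  congr 1
  have h1 : ((2 ^ (m + 1) - 1 : ℕ) : ℝ) = 2 ^ (m + 1) - 1 := by
    rw [Nat.cast_sub Nat.one_le_two_pow]
    push_cast
    ring
  have h2 : (2 : ℝ) ^ (2 ^ (m + 1) - 1 : ℕ) = (2 : ℝ) ^ ((2 : ℝ) ^ (m + 1) - 1) := by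
    rw [← Real.rpow_natCast, h1]
  rw [h2, Real.rpow_sub (by norm_num : (0 : ℝ) < 2) D]
  have h3 : (0 : ℝ) < (2 : ℝ) ^ ((2 : ℝ) ^ (m + 1) - 1) := by positivity
  field_simp

end Pool.Agent.H71.RO
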