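import Pool.Agent.H71.RO.Mg
import Pool.Agent.H71.RO.Pa
import Pool.Agent.H71.RO.Ev

/-!
# The probability that a machine with advice is correct

PROOFS.
`poly_small`: `poly_le_pow` (H9/Classes.lean): `R.eval n ≤ (n + 2) ^ 2 ^ c`; a power of `n + 2` is eventually at most `2 ^ (n / 5 - 1)`
(e.g. put `n = 5 * j + i`, `i < 5`: `(5 * j + 6) ^ C ≤ 2 ^ (j - 1)` eventually; `tendsto_pow_const_div_const_pow_of_one_lt` or
`isLittleO_pow_const_const_pow_of_one_lt`).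

`event_bound`. Let `c := (k + 1) * (5 * 64 ^ k + 1) + 64 ^ k + 2`, `P0 := C c * X`, `P1 := P0 + C k * q.comp P0 + r.comp P0`,
`R := P1 + T.comp P1`. For `n ≥ 80` put `s := 2 ^ (n / 5)`; `(12 * s) ^ 4 = 20736 * 2 ^ (4 * (n / 5)) ≤ 2 ^ 15 * 2 ^ (4 * (n / 5)) ≤ 2 ^ n`
(`15 + 4 * (n / 5) ≤ n` for `n ≥ 75`). `as` from `ev1_core`, `b := 64 ^ k * n`, `N := ilen as b n ≤ c * n` (`(hdr as).length =
(as.map (· + 1)).sum ≤ (k + 1) * (5 * (64 ^ k * n) + 1)`; prove it by induction), so by `poly_mono` all the numbers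
`N + k * q.eval N + r.eval N + t` (`t` the number of steps) are at most `R.eval n =: ρ`. By `poly_small` for a suitable polynomial,
eventually `k + n + 2 * ρ + 2 ≤ 2 ^ (n / 5 - 1)`; in particular `t ≤ s`.
Locality at `m ≥ ρ`: `ev1_congr` for every advice `h` of length at most `r.eval N`.
Probability: `Ev` is the union over `h ∈ words (r.eval N)` of `Ev1`; `pr_exists_le` (H59/Er/Prob.lean), `card_words`
(`≤ 2 ^ (r.eval N + 1) ≤ 2 ^ (ρ + 1)`), and for every `h`: `pr_words` (`addr_inj`, `addr_length`, `N ≤ ρ ≤ m`) with `ev1_core`: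
`≤ k * (2 ^ n * 2 ^ (k * q) * (1 / 2) ^ s) + exp (-(2 ^ n / (8 * (s + 1))))`. First term: `k ≤ 2 ^ k`, so it is at most
`2 ^ (k + n + ρ) * (1 / 2) ^ s`. Second: `8 * s * (s + 1) ≤ 16 * s ^ 2 ≤ 2 ^ n`, so it is at most `exp (-s) ≤ (1 / 2) ^ s` (`exp_le_half`).
Together at most `2 ^ (k + n + ρ + 1) * (1 / 2) ^ s`, times `2 ^ (ρ + 1)`: `2 ^ (k + n + 2 * ρ + 2) * (1 / 2) ^ s ≤ (1 / 2) ^ (2 ^ (n / 5 - 2))`,
because `k + n + 2 * ρ + 2 + 2 ^ (n / 5 - 2) ≤ 2 ^ (n / 5 - 1) + 2 ^ (n / 5 - 2) ≤ 2 ^ (n / 5) = s`.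
-/

set_option autoImplicit false
set_option linter.unusedSectionVars false

namespace Pool.Agent.H71.RO

open Classical
open Pool.Agent.H9
open Pool.Agent.H59.Er (Pr)

theorem poly_small (R : Polynomial ℕ) :
    ∀ᶠ n : ℕ in Filter.atTop, R.eval n ≤ 2 ^ (n / 5 - 1) := by
  obtain ⟨c, hc⟩ := poly_le_pow R
  obtain ⟨D, hD⟩ : ∃ D, D = 2 ^ c := ⟨_, rfl⟩
  rw [← hD] at hc
  have h1 := tendsto_pow_const_div_const_pow_of_one_lt D (show (1 : ℝ) < 2 by norm_num)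
  have h2 : ∀ᶠ j : ℕ in Filter.atTop, (j : ℝ) ^ D / 2 ^ j < 1 / (2 * 11 ^ D) :=
    h1.eventually (gt_mem_nhds (by positivity))
  obtain ⟨J, hJ⟩ := Filter.eventually_atTop.1 h2
  rw [Filter.eventually_atTop]
  refine ⟨5 * (J + 1), fun n hn => ?_⟩
  obtain ⟨j, hj⟩ : ∃ j, j = n / 5 := ⟨_, rfl⟩
  have hj1 : J + 1 ≤ j := by omega
  rw [← hj]
  have h3 := hJ j (by omega)
  rw [div_lt_div_iff₀ (by positivity) (by positivity), one_mul] at h3
  have h4 : j ^ D * (2 * 11 ^ D) < 2 ^ j := by exact_mod_cast h3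
  have h5 : (n + 2) ^ D ≤ (11 * j) ^ D := Nat.pow_le_pow_left (by omega) D
  rw [mul_pow] at h5
  have h6 : 2 ^ j = 2 * 2 ^ (j - 1) := by
    rw [← pow_succ']
    congr 1
    omega
  rw [h6] at h4
  have h7 := hc n
  nlinarith

private theorem Pc_hdr (B : ℕ) (as : List ℕ) (h : ∀ a ∈ as, a ≤ B) :
    (hdr as).length ≤ as.length * (B + 1) := by
  induction as with
  | nil => simp [hdr]
  | cons a as ih =>
    have h1 := h a (by simp)
    have h2 := ih (fun x hx => h x (by simp [hx]))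
    simp only [hdr, List.length_append, List.length_replicate, List.length_cons]
    nlinarith

private theorem Pc_isPr (I : Type) [Fintype I] :
    Pool.Agent.H59.Er.IsPr (fun _ : I => bern (1 / 2)) := by
  constructor
  · intro _ b
    cases b
    · show (0 : ℝ) ≤ 1 - 1 / 2
      norm_num
    · show (0 : ℝ) ≤ 1 / 2
      norm_num
  · intro _
    rw [Fintype.sum_bool]
    show (1 / 2 : ℝ) + (1 - 1 / 2) = 1
    norm_num

private theorem Pc_num {k n ρ rN kq j : ℕ} {s : ℕ} (hs : s = 2 ^ j) (hj : 2 ≤ j)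
    (hkq : kq ≤ ρ) (hr : rN ≤ ρ) (hsn : (12 * s) ^ 4 ≤ 2 ^ n)
    (hρ : 2 * ρ + n + (k + 2) ≤ 2 ^ (j - 1)) :
    (2 : ℝ) ^ (rN + 1) * (k * (2 ^ n * 2 ^ kq * (1 / 2) ^ s) +
      Real.exp (-(2 ^ n / (8 * (s + 1))))) ≤ (1 / 2) ^ (2 ^ (j - 2)) := by
  have hs1 : 1 ≤ s := by rw [hs]; exact Nat.one_le_two_pow
  have hs1' : (1 : ℝ) ≤ s := by exact_mod_cast hs1
  -- first term
  have h1 : (k : ℝ) * (2 ^ n * 2 ^ kq * (1 / 2) ^ s) ≤ 2 ^ (k + n + ρ) * (1 / 2) ^ s := by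
    have hk : (k : ℝ) ≤ 2 ^ k := by exact_mod_cast (Nat.lt_two_pow_self).le
    have e1 : (2 : ℝ) ^ (k + n + ρ) = 2 ^ k * (2 ^ n * 2 ^ ρ) := by rw [pow_add, pow_add]; ring
    have e2 : (2 : ℝ) ^ kq ≤ 2 ^ ρ := pow_le_pow_right₀ (by norm_num) hkq
    rw [e1]
    calc (k : ℝ) * (2 ^ n * 2 ^ kq * (1 / 2) ^ s) ≤ 2 ^ k * (2 ^ n * 2 ^ ρ * (1 / 2) ^ s) := by
          gcongr
      _ = _ := by ring
  -- second term
  have h2 : Real.exp (-(2 ^ n / (8 * ((s : ℝ) + 1)))) ≤ 2 ^ (k + n + ρ) * (1 / 2) ^ s := by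
    have e0 : (12 * (s : ℝ)) ^ 4 ≤ 2 ^ n := by exact_mod_cast hsn
    have e1 : (s : ℝ) * (8 * ((s : ℝ) + 1)) ≤ 2 ^ n := by
      refine le_trans ?_ e0
      have e2 : (s : ℝ) ^ 2 ≤ (s : ℝ) ^ 4 := pow_le_pow_right₀ hs1' (by norm_num)
      nlinarith
    have e2 : (s : ℝ) ≤ 2 ^ n / (8 * ((s : ℝ) + 1)) := by
      rw [le_div_iff₀ (by positivity)]
      exact e1
    have e3 : Real.exp (-(2 ^ n / (8 * ((s : ℝ) + 1)))) ≤ (1 / 2) ^ s :=
      (Real.exp_le_exp.2 (neg_le_neg e2)).trans (exp_le_half s)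
    have e4 : (1 : ℝ) ≤ 2 ^ (k + n + ρ) := one_le_pow₀ (by norm_num)
    calc Real.exp (-(2 ^ n / (8 * ((s : ℝ) + 1)))) ≤ 1 * (1 / 2) ^ s := by rw [one_mul]; exact e3
      _ ≤ _ := mul_le_mul_of_nonneg_right e4 (by positivity)
  have h3 : (2 : ℝ) ^ (rN + 1) ≤ 2 ^ (ρ + 1) := pow_le_pow_right₀ (by norm_num) (by omega)
  obtain ⟨E, hE⟩ : ∃ E, E = 2 * ρ + n + (k + 2) := ⟨_, rfl⟩
  have h4 : (2 : ℝ) ^ (rN + 1) * (k * (2 ^ n * 2 ^ kq * (1 / 2) ^ s) +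
      Real.exp (-(2 ^ n / (8 * (s + 1))))) ≤ 2 ^ E * (1 / 2) ^ s := by
    have e1 : (2 : ℝ) ^ E = 2 ^ (ρ + 1) * (2 ^ (k + n + ρ) + 2 ^ (k + n + ρ)) := by
      rw [← two_mul, ← pow_succ', ← pow_add, hE]
      congr 1
      ring
    rw [e1]
    calc _ ≤ (2 : ℝ) ^ (ρ + 1) * (2 ^ (k + n + ρ) * (1 / 2) ^ s + 2 ^ (k + n + ρ) * (1 / 2) ^ s) :=
          mul_le_mul h3 (add_le_add h1 h2) (by positivity) (by positivity)
      _ = _ := by ring
  refine h4.trans ?_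
  have h5 : E + 2 ^ (j - 2) ≤ s := by
    have e1 : 2 ^ (j - 1) = 2 * 2 ^ (j - 2) := by
      rw [← pow_succ']
      congr 1
      omega
    have e2 : 2 ^ j = 4 * 2 ^ (j - 2) := by
      rw [show (4 : ℕ) = 2 ^ 2 by norm_num, ← pow_add]
      congr 1
      omega
    rw [hs, e2]
    rw [e1] at hρ
    omega
  obtain ⟨d, hd⟩ := Nat.exists_eq_add_of_le h5
  have h6 : (2 : ℝ) ^ E * (1 / 2) ^ s = (1 / 2) ^ (2 ^ (j - 2)) * (1 / 2) ^ d := by
    rw [hd, pow_add, pow_add]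
    have : (2 : ℝ) ^ E * (1 / 2) ^ E = 1 := by
      rw [← mul_pow]
      norm_num
    calc (2 : ℝ) ^ E * ((1 / 2) ^ E * (1 / 2) ^ (2 ^ (j - 2)) * (1 / 2) ^ d)
        = ((2 : ℝ) ^ E * (1 / 2) ^ E) * ((1 / 2) ^ (2 ^ (j - 2)) * (1 / 2) ^ d) := by ring
      _ = _ := by rw [this, one_mul]
  rw [h6]
  have h7 : ((1 : ℝ) / 2) ^ d ≤ 1 := pow_le_one₀ (by norm_num) (by norm_num)
  exact mul_le_of_le_one_right (by positivity) h7

theorem event_bound (k : ℕ) (q r T : Polynomial ℕ) (p : Prog) : ∃ R : Polynomial ℕ,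
    ∀ᶠ n : ℕ in Filter.atTop, ∃ (as : List ℕ) (b : ℕ), as.length = k + 1 ∧
      ∀ m : ℕ, R.eval n ≤ m →
        (∀ A A' : Oracle, (∀ w : List Bool, w.length ≤ m → A w = A' w) →
          (Ev k q r T p as b n A ↔ Ev k q r T p as b n A')) ∧
        Pr (fun _ : {w // w ∈ words m} => bern (1 / 2))
          (fun a => Ev k q r T p as b n (ext m a)) ≤ (1 / 2) ^ (2 ^ (n / 5 - 2)) := by
  obtain ⟨c, hc⟩ : ∃ c, c = (k + 1) * (5 * 64 ^ k + 1) + 64 ^ k + 2 := ⟨_, rfl⟩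
  obtain ⟨P0, hP0⟩ : ∃ P0 : Polynomial ℕ, P0 = Polynomial.C c * Polynomial.X := ⟨_, rfl⟩
  obtain ⟨P1, hP1⟩ : ∃ P1 : Polynomial ℕ, P1 = P0 + Polynomial.C k * q.comp P0 + r.comp P0 :=
    ⟨_, rfl⟩
  obtain ⟨R, hR⟩ : ∃ R : Polynomial ℕ, R = P1 + T.comp P1 := ⟨_, rfl⟩
  refine ⟨R, ?_⟩
  have hsmall := poly_small (Polynomial.C 2 * R + Polynomial.X + Polynomial.C (k + 2))
  filter_upwards [hsmall, Filter.eventually_ge_atTop 80] with n hn1 hn
  have e0 : P0.eval n = c * n := by rw [hP0]; simp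
  have e1 : P1.eval n = c * n + k * q.eval (c * n) + r.eval (c * n) := by
    rw [hP1, Polynomial.eval_add, Polynomial.eval_add, Polynomial.eval_mul, Polynomial.eval_C,
      Polynomial.eval_comp, Polynomial.eval_comp, e0]
  have eR : R.eval n = P1.eval n + T.eval (P1.eval n) := by
    rw [hR, Polynomial.eval_add, Polynomial.eval_comp]
  obtain ⟨ρ, hρ⟩ : ∃ ρ, ρ = R.eval n := ⟨_, rfl⟩
  rw [← hρ]
  have hn2 : 2 * ρ + n + (k + 2) ≤ 2 ^ (n / 5 - 1) := by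
    have : (Polynomial.C 2 * R + Polynomial.X + Polynomial.C (k + 2)).eval n =
        2 * ρ + n + (k + 2) := by
      rw [Polynomial.eval_add, Polynomial.eval_add, Polynomial.eval_mul, Polynomial.eval_C,
        Polynomial.eval_C, Polynomial.eval_X, hρ]
    rw [this] at hn1
    exact hn1
  obtain ⟨j, hj⟩ : ∃ j, j = n / 5 := ⟨_, rfl⟩
  rw [← hj] at hn2 ⊢
  obtain ⟨s, hs⟩ : ∃ s, s = 2 ^ j := ⟨_, rfl⟩
  have hs1 : 1 ≤ s := by rw [hs]; exact Nat.one_le_two_pow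
  have hsn : (12 * s) ^ 4 ≤ 2 ^ n := by
    calc (12 * s) ^ 4 = 20736 * 2 ^ (4 * j) := by rw [hs, mul_pow, ← pow_mul, mul_comm j 4]; norm_num
      _ ≤ 2 ^ 15 * 2 ^ (4 * j) := Nat.mul_le_mul_right _ (by norm_num)
      _ = 2 ^ (15 + 4 * j) := by rw [pow_add]
      _ ≤ 2 ^ n := Nat.pow_le_pow_right (by norm_num) (by omega)
  obtain ⟨as, has, hab, hcore⟩ := ev1_core (k := k) (n := n) (s := s) (by omega) hs1 hsn
  refine ⟨as, 64 ^ k * n, has, fun m hm => ?_⟩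
  obtain ⟨N, hN⟩ : ∃ N, N = ilen as (64 ^ k * n) n := ⟨_, rfl⟩
  have hNc : N ≤ c * n := by
    have h1 := Pc_hdr (5 * (64 ^ k * n)) as hab
    rw [has] at h1
    have h2 : (k + 1) * (5 * (64 ^ k * n) + 1) ≤ (k + 1) * (5 * 64 ^ k + 1) * n := by
      rw [mul_assoc]
      refine Nat.mul_le_mul_left _ ?_
      nlinarith
    rw [hN, ilen, hc]
    nlinarith
  have hq := poly_mono q hNc
  have hr := poly_mono r hNc
  have hM1 : N + k * q.eval N + r.eval N ≤ P1.eval n := by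
    rw [e1]
    have := Nat.mul_le_mul_left k hq
    omega
  obtain ⟨t, ht⟩ : ∃ t, t = T.eval (N + k * q.eval N + r.eval N) := ⟨_, rfl⟩
  have htT : t ≤ T.eval (P1.eval n) := by rw [ht]; exact poly_mono T hM1
  have htot : N + k * q.eval N + r.eval N + t ≤ ρ := by
    rw [hρ, eR]
    omega
  have hEv : ∀ A : Oracle, Ev k q r T p as (64 ^ k * n) n A ↔
      ∃ h ∈ words (r.eval N), Ev1 k (q.eval N) t p h as (64 ^ k * n) n A := by
    intro A
    rw [Ev, ← hN, ← ht]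
    constructor
    · rintro ⟨h, h1, h2⟩
      exact ⟨h, mem_words.2 h1, h2⟩
    · rintro ⟨h, h1, h2⟩
      exact ⟨h, mem_words.1 h1, h2⟩
  constructor
  · intro A A' hA
    rw [hEv, hEv]
    have key : ∀ h ∈ words (r.eval N), (Ev1 k (q.eval N) t p h as (64 ^ k * n) n A ↔
        Ev1 k (q.eval N) t p h as (64 ^ k * n) n A') := by
      intro h hh
      rw [mem_words] at hh
      refine ev1_congr has fun w hw => hA w ?_
      rw [← hN] at hw
      omega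
    constructor
    · rintro ⟨h, h1, h2⟩
      exact ⟨h, h1, (key h h1).1 h2⟩
    · rintro ⟨h, h1, h2⟩
      exact ⟨h, h1, (key h h1).2 h2⟩
  · have hts : t ≤ s := by
      have : 2 ^ (j - 1) ≤ 2 ^ j := Nat.pow_le_pow_right (by norm_num) (by omega)
      rw [hs]
      omega
    obtain ⟨B, hB⟩ : ∃ B : ℝ, B = k * (2 ^ n * 2 ^ (k * q.eval N) * (1 / 2) ^ s) +
      Real.exp (-(2 ^ n / (8 * (s + 1)))) := ⟨_, rfl⟩
    have h1 : ∀ h ∈ words (r.eval N), Pr (fun _ : {w // w ∈ words m} => bern (1 / 2))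
        (fun a => Ev1 k (q.eval N) t p h as (64 ^ k * n) n (ext m a)) ≤ B := by
      intro h _
      refine pr_words (ad := addr (n := n) (b := 64 ^ k * n) as) (addr_inj as)
        (fun v => (addr_length as v).trans ?_)
        (fun A => Ev1 k (q.eval N) t p h as (64 ^ k * n) n A) B (fun A => ?_)
      · rw [← hN]
        omega
      · rw [hB]
        exact hcore A (q.eval N) t p h hts
    have h2 := Pool.Agent.H59.Er.pr_exists_le (Pc_isPr {w // w ∈ words m}) (words (r.eval N))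
      (fun h a => Ev1 k (q.eval N) t p h as (64 ^ k * n) n (ext m a)) B h1
    have h3 : Pr (fun _ : {w // w ∈ words m} => bern (1 / 2))
        (fun a => Ev k q r T p as (64 ^ k * n) n (ext m a)) =
        Pr (fun _ : {w // w ∈ words m} => bern (1 / 2)) (fun a => ∃ h ∈ words (r.eval N),
          Ev1 k (q.eval N) t p h as (64 ^ k * n) n (ext m a)) := by
      congr 1
      funext a
      exact propext (hEv (ext m a))
    rw [h3]
    refine h2.trans ?_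
    have hB0 : 0 ≤ B := by rw [hB]; positivity
    have h4 : ((words (r.eval N)).card : ℝ) ≤ 2 ^ (r.eval N + 1) := by
      exact_mod_cast card_words (r.eval N)
    refine (mul_le_mul_of_nonneg_right h4 hB0).trans ?_
    rw [hB]
    exact Pc_num hs (by omega) (by omega) (by omega) hsn hn2

end Pool.Agent.H71.RO
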