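import Pool.Agent.H71.RO.Pb
import Pool.Agent.H71.RO.Pc

/-!
# Null sets for a measure of small deficiency

PROOF. `R`, `n0` from `event_bound`; `R.eval n ≤ (n + 2) ^ c` with `c := 2 ^ c'` (`poly_le_pow`), `1 ≤ c`. `ε := 1 / (2 * c)`. It is enough to
show `μ (set) ≤ ENNReal.ofReal ((1 / 2) ^ n1)` for all large `n1` (then the measure is zero:
`ENNReal.ofReal ((1/2)^n) → 0`). Given `n1 ≥ n0`: by `hD ε` there is `m ≥ (n1 + 2) ^ c` with `D m ≤ 2 ^ (m ^ ε)`. Let `n` be the largest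
number with `(n + 2) ^ c ≤ m` (`Nat.findGreatest (fun n => (n + 2) ^ c ≤ m) m`, note `(n + 2) ^ c ≥ n + 2`); `n ≥ n1` and
`m < (n + 3) ^ c`, so `m ^ ε ≤ (n + 3) ^ (c * ε) = sqrt (n + 3)` (real powers). With `as`, `b` from `event_bound` for `n`, the set is
contained in `{A | Ev k q r T p as b n A}`, and `R.eval n ≤ m`, so by `meas_def`:
`μ (set) ≤ ofReal (2 ^ D m * (1 / 2) ^ (2 ^ (n / 5 - 2)))`. For large `n` (choose the bound for `n1` accordingly)
`sqrt (n + 3) ≤ n / 5 - 4` (natural division; e.g. `(n / 5 - 4) ^ 2 ≥ n + 3` for `n ≥ 100`), so `2 ^ (m ^ ε) ≤ 2 ^ (n / 5 - 4)`, and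
`2 ^ (n / 5 - 4) + n ≤ 2 ^ (n / 5 - 2)` (`n ≤ 2 ^ (n / 5 - 3)` for `n ≥ 200`). Hence
`2 ^ D m * (1 / 2) ^ (2 ^ (n / 5 - 2)) ≤ (1 / 2) ^ n ≤ (1 / 2) ^ n1`.
-/

set_option autoImplicit false
set_option linter.unusedSectionVars false

namespace Pool.Agent.H71.RO

open Classical MeasureTheory
open Pool.Agent.H9

theorem null_set {μ : Measure Oracle} {D : ℕ → ℝ} (hμ : ∀ m, DefLe μ m (D m))
    (hD : ∀ ε : ℝ, 0 < ε → ∃ᶠ m : ℕ in Filter.atTop, D m ≤ (2 : ℝ) ^ ((m : ℝ) ^ ε))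
    (k : ℕ) (q r T : Polynomial ℕ) (p : Prog) :
    μ {A | ∀ (n : ℕ) (as : List ℕ) (b : ℕ), as.length = k + 1 → Ev k q r T p as b n A} = 0 := by
  set S : Set Oracle :=
    {A | ∀ (n : ℕ) (as : List ℕ) (b : ℕ), as.length = k + 1 → Ev k q r T p as b n A} with hS
  obtain ⟨R, hR⟩ := event_bound k q r T p
  obtain ⟨n0, hn0⟩ := Filter.eventually_atTop.1 hR
  obtain ⟨c', hc'⟩ := poly_le_pow R
  set c : ℕ := 2 ^ c' with hc
  have hc1 : 1 ≤ c := Nat.one_le_two_pow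
  have hcR : (0 : ℝ) < c := by exact_mod_cast hc1
  have key : ∀ n1 : ℕ, max n0 200 ≤ n1 → μ S ≤ ENNReal.ofReal ((1 / 2) ^ n1) := by
    intro n1 hn1
    obtain ⟨m, hm1, hm2⟩ := Filter.frequently_atTop.1 (hD (1 / (2 * c)) (by positivity))
      ((n1 + 2) ^ c)
    have hself : ∀ j : ℕ, j + 2 ≤ (j + 2) ^ c := fun j => Nat.le_self_pow (by omega) _
    have hn1m : n1 ≤ m := by
      have := hself n1
      omega
    set n : ℕ := Nat.findGreatest (fun n => (n + 2) ^ c ≤ m) m with hn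
    have hspec : (n + 2) ^ c ≤ m :=
      Nat.findGreatest_spec (P := fun n => (n + 2) ^ c ≤ m) hn1m hm1
    have hn1n : n1 ≤ n := Nat.le_findGreatest hn1m hm1
    have hnm : n + 1 ≤ m := by
      have := hself n
      omega
    have hgr : ¬ (n + 1 + 2) ^ c ≤ m :=
      Nat.findGreatest_is_greatest (P := fun n => (n + 2) ^ c ≤ m) (Nat.lt_succ_self n) hnm
    have hn200 : 200 ≤ n := (le_max_right _ _).trans (hn1.trans hn1n)
    have hnn0 : n0 ≤ n := (le_max_left _ _).trans (hn1.trans hn1n)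
    obtain ⟨j, hj⟩ : ∃ j, n / 5 = j + 4 := ⟨n / 5 - 4, by omega⟩
    have hj36 : 36 ≤ j := by omega
    have hnj : n ≤ 5 * j + 24 := by omega
    have hpj : ∀ i : ℕ, 36 ≤ i → 5 * i + 24 ≤ 2 ^ i := by
      intro i hi
      induction i, hi using Nat.le_induction with
      | base => norm_num
      | succ i hi ih => rw [pow_succ]; omega
    -- the deficiency
    have h1 : (m : ℝ) ^ (1 / (2 * (c : ℝ))) ≤ (j : ℝ) := by
      have e1 : (m : ℝ) ≤ ((n : ℝ) + 3) ^ (c : ℝ) := by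
        rw [Real.rpow_natCast]
        have : m ≤ (n + 3) ^ c := by
          have := not_le.1 hgr
          exact this.le
        exact_mod_cast this
      have e2 : (m : ℝ) ^ (1 / (2 * (c : ℝ))) ≤
          (((n : ℝ) + 3) ^ (c : ℝ)) ^ (1 / (2 * (c : ℝ))) :=
        Real.rpow_le_rpow (by positivity) e1 (by positivity)
      have e3 : (((n : ℝ) + 3) ^ (c : ℝ)) ^ (1 / (2 * (c : ℝ))) = ((n : ℝ) + 3) ^ (1 / 2 : ℝ) := by
        rw [← Real.rpow_mul (by positivity)]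
        congr 1
        field_simp
      have e4 : ((n : ℝ) + 3) ^ (1 / 2 : ℝ) ≤ ((j : ℝ) ^ 2) ^ (1 / 2 : ℝ) := by
        refine Real.rpow_le_rpow (by positivity) ?_ (by norm_num)
        have : n + 3 ≤ j ^ 2 := by nlinarith
        exact_mod_cast this
      have e5 : ((j : ℝ) ^ 2) ^ (1 / 2 : ℝ) = j := by
        rw [← Real.sqrt_eq_rpow, Real.sqrt_sq (by positivity)]
      rw [e3] at e2
      rw [e5] at e4
      exact e2.trans e4
    have h2 : D m ≤ ((2 ^ j : ℕ) : ℝ) := by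
      refine hm2.trans ?_
      refine (Real.rpow_le_rpow_of_exponent_le (by norm_num) h1).trans ?_
      rw [Real.rpow_natCast]
      push_cast
      exact le_rfl
    have h3 : (2 : ℝ) ^ D m * (1 / 2) ^ (2 ^ (n / 5 - 2)) ≤ (1 / 2) ^ n1 := by
      have e1 : (2 : ℝ) ^ D m ≤ 2 ^ (2 ^ j : ℕ) := by
        rw [← Real.rpow_natCast]
        exact Real.rpow_le_rpow_of_exponent_le (by norm_num) h2
      have e2 : n / 5 - 2 = j + 2 := by omega
      have e3 : 2 ^ (j + 2) = 2 ^ j + 3 * 2 ^ j := by rw [pow_add]; ring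
      have e4 : (1 / 2 : ℝ) ^ (2 ^ (n / 5 - 2)) = (1 / 2) ^ (2 ^ j) * (1 / 2) ^ (3 * 2 ^ j) := by
        rw [e2, e3, pow_add]
      have e5 : (2 : ℝ) ^ (2 ^ j : ℕ) * (1 / 2) ^ (2 ^ j : ℕ) = 1 := by
        rw [← mul_pow]; norm_num
      have e6 : n1 ≤ 3 * 2 ^ j := by
        have := hpj j hj36
        omega
      calc (2 : ℝ) ^ D m * (1 / 2) ^ (2 ^ (n / 5 - 2))
          ≤ 2 ^ (2 ^ j : ℕ) * (1 / 2) ^ (2 ^ (n / 5 - 2)) :=
            mul_le_mul_of_nonneg_right e1 (by positivity)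
        _ = (2 ^ (2 ^ j : ℕ) * (1 / 2) ^ (2 ^ j : ℕ)) * (1 / 2) ^ (3 * 2 ^ j) := by
            rw [e4]; ring
        _ = (1 / 2) ^ (3 * 2 ^ j) := by rw [e5, one_mul]
        _ ≤ (1 / 2) ^ n1 := pow_le_pow_of_le_one (by norm_num) (by norm_num) e6
    -- the event
    obtain ⟨as, b, has, hev⟩ := hn0 n hnn0
    obtain ⟨hloc, hpr⟩ := hev m ((hc' n).trans hspec)
    have h4 := meas_def (hμ m) hloc (by positivity) hpr
    have h5 : μ S ≤ μ {A | Ev k q r T p as b n A} :=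
      measure_mono fun A hA => hA n as b has
    exact h5.trans (h4.trans (ENNReal.ofReal_le_ofReal h3))
  have hlim : Filter.Tendsto (fun n : ℕ => ENNReal.ofReal ((1 / 2 : ℝ) ^ n)) Filter.atTop
      (nhds 0) := by
    have := ENNReal.tendsto_ofReal
      (tendsto_pow_atTop_nhds_zero_of_lt_one (r := (1 / 2 : ℝ)) (by norm_num) (by norm_num))
    simpa using this
  refine le_antisymm (ge_of_tendsto hlim ?_) zero_le
  filter_upwards [Filter.eventually_ge_atTop (max n0 200)] with n hn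
  exact key n hn

end Pool.Agent.H71.RO
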