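import Pool.Agent.H71.RO.Lb

/-!
# Two inequalities for the switching condition

Notation: `K := Kz τ Rs c` is the set of the `w ∈ Rs` with `c w = false` and `τ w = S`; `zc` makes the bits in `K` false.
`(1 - t) ^ K.card ≥ 1 - t * K.card ≥ 1 - t * s ≥ 3 / 4` (Bernoulli, `one_add_mul_le_pow`; `K.card ≤ Rs.card ≤ s`).

PROOF of `sum_zc`. Split the sum over `z` by the value `z0 = zc z` (which is false on `K`):
`∑ z, bz t z * ind (P (zc z)) = ∑ z0, ind (P z0) * ∑ z, bz t z * ind (zc z = z0)`, the inner sum is `0` unless `z0` is false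
on `K`, and then `zc z = z0 ↔ ∀ w ∉ K, z w = z0 w`, so by `bz_fiber` it is `bz t z0 / (1 - t) ^ K.card ≤ (4 / 3) * bz t z0`.

PROOF of `sum_clr`. Let `n := card {w | τ w = S}`, `Zp t τ = (1 - t) ^ n` (`zp_open`). Split both sums by `y0 = clr τ z`
(which is false on all `w` with `τ w = S`). Fix `y0` false on these `w`, with `P y0`.
Right side: `∑ z, bz t z * ind (clr τ z = y0) = bz t y0 / (1 - t) ^ n` (`bz_fiber` with `K = {w | τ w = S}`), so times
`Zp t τ` it is `bz t y0`.
Left side: if `hr τ z`, `¬ hr τ (zc z)`, `clr τ z = y0`, then `z w = y0 w` for all `w ∉ K` (for `τ w ≠ S` by `clr`; for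
`τ w = S`, `w ∉ K`: `zc z w = z w` must be `false = y0 w`), and `z ≠ y0` (`hr τ z`). So the left sum is at most
`∑ z, bz t z * ind (∀ w ∉ K, z w = y0 w) - bz t y0 = bz t y0 * (1 / (1 - t) ^ K.card - 1) ≤ (1 / 3) * bz t y0`.
-/

set_option autoImplicit false
set_option linter.unusedSectionVars false

namespace Pool.Agent.H71.RO

open Finset Classical
open Pool.Agent.H59.Er

variable {W : Type} [Fintype W]

/-- the open children whose literal in the term is negative -/
noncomputable def Kz (τ : W → St) (Rs : Finset W) (c : W → Bool) : Finset W :=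
  Rs.filter (fun w => c w = false ∧ τ w = St.S)

/-- make the bits in `Kz` false -/
noncomputable def zc (τ : W → St) (Rs : Finset W) (c : W → Bool) (z : W → Bool) : W → Bool :=
  fun w => if w ∈ Kz τ Rs c then false else z w

theorem Sa_split (a : (W → Bool) → ℝ) (g : (W → Bool) → (W → Bool)) (P : (W → Bool) → Prop) :
    ∑ z, a z * ind (P (g z)) = ∑ z0, ind (P z0) * ∑ z, a z * ind (g z = z0) := by
  have h : ∀ z, ind (P (g z)) = ∑ z0, ind (P z0) * ind (g z = z0) := by
    intro z
    rw [Finset.sum_eq_single (g z)]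
    · rw [ind_true (rfl : g z = g z), mul_one]
    · intro b _ hb
      have : ind (g z = b) = 0 := by
        unfold ind
        rw [if_neg (fun h => hb h.symm)]
      rw [this, mul_zero]
    · intro h
      exact absurd (Finset.mem_univ _) h
  calc ∑ z, a z * ind (P (g z)) = ∑ z, ∑ z0, ind (P z0) * (a z * ind (g z = z0)) := by
        refine Finset.sum_congr rfl fun z _ => ?_
        rw [h z, Finset.mul_sum]
        refine Finset.sum_congr rfl fun z0 _ => ?_
        ring
    _ = ∑ z0, ∑ z, ind (P z0) * (a z * ind (g z = z0)) := Finset.sum_comm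
    _ = _ := by
        refine Finset.sum_congr rfl fun z0 _ => ?_
        rw [Finset.mul_sum]

theorem Sa_false {P : Prop} (h : ¬ P) : ind P = 0 := by
  unfold ind
  rw [if_neg h]

theorem Sa_pow {t : ℝ} {s k : ℕ} (ht0 : 0 ≤ t) (ht1 : t < 1) (hts : t * s ≤ 1 / 4) (hk : k ≤ s) :
    3 / 4 ≤ (1 - t) ^ k := by
  have h1 : 1 + (k : ℝ) * (-t) ≤ (1 + -t) ^ k := one_add_mul_le_pow (by linarith) k
  have h2 : (k : ℝ) * t ≤ s * t := mul_le_mul_of_nonneg_right (Nat.cast_le.2 hk) ht0
  rw [← sub_eq_add_neg] at h1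
  linarith

theorem Sa_fib {t : ℝ} {s : ℕ} (ht0 : 0 ≤ t) (ht1 : t < 1) (hts : t * s ≤ 1 / 4) (τ : W → St)
    (Rs : Finset W) (hRs : Rs.card ≤ s) (c : W → Bool) (z0 : W → Bool)
    (hz : ∀ w ∈ Kz τ Rs c, z0 w = false) :
    ∑ z, bz t z * ind (∀ w, w ∉ Kz τ Rs c → z w = z0 w) ≤ (4 / 3) * bz t z0 := by
  have h1 := bz_fiber t (Kz τ Rs c) z0 hz
  have hk : (Kz τ Rs c).card ≤ s := (Finset.card_filter_le _ _).trans hRs
  have h2 := Sa_pow ht0 ht1 hts hk
  have h3 : 0 ≤ ∑ z, bz t z * ind (∀ w, w ∉ Kz τ Rs c → z w = z0 w) :=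
    Finset.sum_nonneg fun z _ => mul_nonneg (bz_nonneg ht0 ht1.le z) (ind_nonneg _)
  have h4 := mul_le_mul_of_nonneg_left h2 h3
  linarith

theorem sum_zc {t : ℝ} {s : ℕ} (ht0 : 0 ≤ t) (ht1 : t < 1) (hts : t * s ≤ 1 / 4) (τ : W → St)
    (Rs : Finset W) (hRs : Rs.card ≤ s) (c : W → Bool) (P : (W → Bool) → Prop) :
    ∑ z, bz t z * ind (P (zc τ Rs c z)) ≤ (4 / 3) * ∑ z, bz t z * ind (P z) := by
  rw [Sa_split, Finset.mul_sum]
  apply Finset.sum_le_sum
  intro z0 _
  have key : ∑ z, bz t z * ind (zc τ Rs c z = z0) ≤ (4 / 3) * bz t z0 := by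
    by_cases hz : ∀ w ∈ Kz τ Rs c, z0 w = false
    · refine le_trans (Finset.sum_le_sum fun z _ => ?_) (Sa_fib ht0 ht1 hts τ Rs hRs c z0 hz)
      apply mul_le_mul_of_nonneg_left _ (bz_nonneg ht0 ht1.le z)
      by_cases h : zc τ Rs c z = z0
      · rw [ind_true h, ind_true]
        intro w hw
        rw [← h]
        unfold zc
        rw [if_neg hw]
      · rw [Sa_false h]
        exact ind_nonneg _
    · have h0 : ∑ z, bz t z * ind (zc τ Rs c z = z0) = 0 := by
        apply Finset.sum_eq_zero
        intro z _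
        rw [Sa_false, mul_zero]
        intro h
        apply hz
        intro w hw
        rw [← h]
        unfold zc
        rw [if_pos hw]
      rw [h0]
      have := bz_nonneg ht0 ht1.le z0
      linarith
  calc ind (P z0) * ∑ z, bz t z * ind (zc τ Rs c z = z0) ≤ ind (P z0) * ((4 / 3) * bz t z0) :=
        mul_le_mul_of_nonneg_left key (ind_nonneg _)
    _ = 4 / 3 * (bz t z0 * ind (P z0)) := by ring

theorem sum_clr {t : ℝ} {s : ℕ} (ht0 : 0 ≤ t) (ht1 : t < 1) (hts : t * s ≤ 1 / 4) (τ : W → St)
    (hτ : ¬ killed τ) (Rs : Finset W) (hRs : Rs.card ≤ s) (c : W → Bool)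
    (P : (W → Bool) → Prop) :
    ∑ z, bz t z * ind (hr τ z ∧ ¬ hr τ (zc τ Rs c z) ∧ P (clr τ z)) ≤
      (1 / 3) * Zp t τ * ∑ z, bz t z * ind (P (clr τ z)) := by
  have e1 : ∑ z, bz t z * ind (hr τ z ∧ ¬ hr τ (zc τ Rs c z) ∧ P (clr τ z)) =
      ∑ z, (bz t z * ind (hr τ z ∧ ¬ hr τ (zc τ Rs c z))) * ind (P (clr τ z)) := by
    refine Finset.sum_congr rfl fun z _ => ?_
    rw [mul_assoc]
    congr 1
    by_cases h1 : hr τ z ∧ ¬ hr τ (zc τ Rs c z)
    · by_cases h2 : P (clr τ z)
      · rw [ind_true h1, ind_true h2, ind_true ⟨h1.1, h1.2, h2⟩, one_mul]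
      · rw [Sa_false h2, mul_zero, Sa_false]
        exact fun h => h2 h.2.2
    · rw [Sa_false h1, zero_mul, Sa_false]
      exact fun h => h1 ⟨h.1, h.2.1⟩
  rw [e1, Sa_split, Sa_split, Finset.mul_sum]
  apply Finset.sum_le_sum
  intro y0 _
  have key : ∑ z, bz t z * ind (hr τ z ∧ ¬ hr τ (zc τ Rs c z)) * ind (clr τ z = y0) ≤
      (1 / 3) * Zp t τ * ∑ z, bz t z * ind (clr τ z = y0) := by
    by_cases hy : ∀ w, τ w = St.S → y0 w = false
    · have hN : ∀ w ∈ Finset.univ.filter (fun w => τ w = St.S), y0 w = false := by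
        intro w hw
        rw [Finset.mem_filter] at hw
        exact hy w hw.2
      have hK : ∀ w ∈ Kz τ Rs c, y0 w = false := by
        intro w hw
        unfold Kz at hw
        rw [Finset.mem_filter] at hw
        exact hy w hw.2.2
      have hB := bz_fiber t (Finset.univ.filter (fun w => τ w = St.S)) y0 hN
      rw [← zp_open t hτ] at hB
      have hBe : ∑ z, bz t z * ind (clr τ z = y0) =
          ∑ z, bz t z * ind (∀ w, w ∉ Finset.univ.filter (fun w => τ w = St.S) → z w = y0 w) := by
        refine Finset.sum_congr rfl fun z _ => ?_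
        congr 1
        have : clr τ z = y0 ↔
            ∀ w, w ∉ Finset.univ.filter (fun w => τ w = St.S) → z w = y0 w := by
          constructor
          · intro h w hw
            rw [Finset.mem_filter, not_and] at hw
            have hw' := hw (Finset.mem_univ _)
            rw [← h]
            unfold clr
            rw [if_neg hw']
          · intro h
            funext w
            unfold clr
            split_ifs with hw
            · exact (hy w hw).symm
            · apply h w
              rw [Finset.mem_filter]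
              exact fun h' => hw h'.2
        exact congrArg ind (propext this)
      have hA := Sa_fib ht0 ht1 hts τ Rs hRs c y0 hK
      have hy1 : ∑ z, bz t z * ind (z = y0) = bz t y0 := by
        rw [Finset.sum_eq_single y0]
        · rw [ind_true rfl, mul_one]
        · intro b _ hb
          rw [Sa_false hb, mul_zero]
        · intro h
          exact absurd (Finset.mem_univ _) h
      have hle : ∑ z, bz t z * ind (hr τ z ∧ ¬ hr τ (zc τ Rs c z)) * ind (clr τ z = y0) ≤
          ∑ z, (bz t z * ind (∀ w, w ∉ Kz τ Rs c → z w = y0 w) - bz t z * ind (z = y0)) := by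
        apply Finset.sum_le_sum
        intro z _
        rw [mul_assoc, ← mul_sub]
        apply mul_le_mul_of_nonneg_left _ (bz_nonneg ht0 ht1.le z)
        by_cases hz : z = y0
        · have h1 : ¬ (hr τ z ∧ ¬ hr τ (zc τ Rs c z)) := by
            rintro ⟨⟨w, hw1, hw2⟩, _⟩
            rw [hz, hy w hw1] at hw2
            exact Bool.false_ne_true hw2
          rw [Sa_false h1, zero_mul, ind_true hz, ind_true]
          · norm_num
          · intro w _
            rw [hz]
        · rw [Sa_false hz, sub_zero]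
          by_cases h1 : (hr τ z ∧ ¬ hr τ (zc τ Rs c z)) ∧ clr τ z = y0
          · rw [ind_true h1.1, ind_true h1.2, one_mul, ind_true]
            intro w hw
            by_cases hS : τ w = St.S
            · rw [hy w hS]
              by_contra hne
              apply h1.1.2
              refine ⟨w, hS, ?_⟩
              unfold zc
              rw [if_neg hw]
              simpa using hne
            · rw [← h1.2]
              unfold clr
              rw [if_neg hS]
          · have : ind (hr τ z ∧ ¬ hr τ (zc τ Rs c z)) * ind (clr τ z = y0) = 0 := by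
              by_cases h2 : hr τ z ∧ ¬ hr τ (zc τ Rs c z)
              · rw [Sa_false (P := clr τ z = y0) (fun h => h1 ⟨h2, h⟩), mul_zero]
              · rw [Sa_false h2, zero_mul]
            rw [this]
            exact ind_nonneg _
      rw [Finset.sum_sub_distrib, hy1] at hle
      rw [hBe]
      have e3 : 1 / 3 * Zp t τ *
          ∑ z, bz t z * ind (∀ w, w ∉ Finset.univ.filter (fun w => τ w = St.S) → z w = y0 w) =
          1 / 3 * bz t y0 := by
        rw [← hB]
        ring
      rw [e3]
      linarith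
    · have h0 : ∀ z, clr τ z ≠ y0 := by
        intro z h
        apply hy
        intro w hw
        rw [← h]
        unfold clr
        rw [if_pos hw]
      have h1 : ∀ z, ind (clr τ z = y0) = 0 := fun z => Sa_false (h0 z)
      simp [h1]
  calc ind (P y0) * ∑ z, bz t z * ind (hr τ z ∧ ¬ hr τ (zc τ Rs c z)) * ind (clr τ z = y0)
      ≤ ind (P y0) * ((1 / 3) * Zp t τ * ∑ z, bz t z * ind (clr τ z = y0)) :=
        mul_le_mul_of_nonneg_left key (ind_nonneg _)
    _ = _ := by ring

end Pool.Agent.H71.RO
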