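import Pool.Agent.H71.RO.Sa

/-!
# The local condition of the switching lemma

Notation: `cyl Rs c` is the set of the `x` with `x w = c w` for `w ∈ Rs`.

PROOF. Split the sums by the modes (`sum_loc`). If `¬ typ`: the modes `ac`, `st` have weight zero, and in the mode `fo`
the set `Al τ r = {z}` is a singleton, so `¬ Al ⊆ cyl` and `(Al ∩ cyl).Nonempty` cannot both hold: the left side is `0`
and the right side is nonnegative (`lw_nonneg`, `ind_nonneg`).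
If `typ` (so not killed; numerical facts in `typ_num`; `Z := Zp t τ ≤ 2 * u ^ 4`): the modes `ac` and `fo` do not
contribute on the left (singletons). In the mode `st` the weight is `qq / (1 - Z) * (bz t z * ind (hr τ z))`.
CLAIM: if `(st, z) ∈ Γ`, `hr τ z` and `(Al τ (st, z) ∩ cyl).Nonempty`, then with `z' := zc τ Rs c z`:
`z' ∈ cyl`: let `x ∈ Al ∩ cyl`, `w ∈ Rs`. If `c w = true`: `x w = true`, so `z w = true` (either `x w = z w`, or `z w = true`),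
and `w ∉ Kz`, so `z' w = true`. If `c w = false` and `τ w = S`: `w ∈ Kz`, `z' w = false`. If `c w = false`, `τ w ≠ S`:
`x w = z w`, so `z' w = z w = false`.
(a) if `hr τ z'`: `Al τ (fo, z') = {z'} ⊆ Al τ (st, z)` (where `z' w ≠ z w` we have `τ w = S`, `z w = true`), so `(fo, z') ∈ Γ`.
(b) if `¬ hr τ z'`: `clr τ z = z'` (if `τ w = S` then `z' w = false` by `¬ hr`; if `τ w ≠ S` then `w ∉ Kz`), and
`Al τ (ac, z) = {clr τ z} ⊆ Al τ (st, z)`, so `(ac, z) ∈ Γ`, hence `(ac, clr τ z) ∈ Γ` (the same `Al`, as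
`clr τ (clr τ z) = clr τ z`), and `clr τ z ∈ cyl`.
With `Pf y := hr τ y ∧ (fo, y) ∈ Γ ∧ y ∈ cyl` and `Pa y := (ac, y) ∈ Γ ∧ y ∈ cyl`:
left side `≤ 2 * qq / (1 - Z) * (∑ z, bz t z * ind (Pf (zc z)) + ∑ z, bz t z * ind (hr τ z ∧ ¬ hr τ (zc z) ∧ Pa (clr τ z)))`
`≤ 2 * qq / (1 - Z) * ((4 / 3) * ∑ z, bz t z * ind (Pf z) + (1 / 3) * Z * ∑ z, bz t z * ind (Pa (clr τ z)))`.
The right side is at least the contributions of the modes `fo` and `ac` (drop `st`):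
`4 * u * ((1 - u ^ 5 - qq) / (1 - Z) * ∑ z, bz t z * ind (Pf z) + u ^ 5 * ∑ z, bz t z * ind (Pa (clr τ z)))`
(`(ac, z) ∈ Γ ∧ {clr τ z} ⊆ cyl` is equivalent to `Pa (clr τ z)`).
Compare the coefficients: `2 * (4 / 3) * qq ≤ (16 / 3) * u ^ 2 ≤ 4 * u * (3 / 4)` (`u ≤ 1 / 4`), and
`2 * qq * Z / (3 * (1 - Z)) ≤ 2 * (2 * u ^ 2) * (2 * u ^ 4) / (3 * (127 / 128)) ≤ 4 * u ^ 6`.
-/

set_option autoImplicit false
set_option linter.unusedSectionVars false

namespace Pool.Agent.H71.RO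

open Finset Classical
open Pool.Agent.H59.Er

variable {W : Type} [Fintype W]

/-- the assignments with prescribed values on `Rs` -/
def cyl (Rs : Finset W) (c : W → Bool) : Set (W → Bool) := {x | ∀ w ∈ Rs, x w = c w}

theorem Sb_mem_cyl {τ : W → St} {Rs : Finset W} {c z : W → Bool}
    (h : (Al τ (Md.st, z) ∩ cyl Rs c).Nonempty) : zc τ Rs c z ∈ cyl Rs c := by
  obtain ⟨x, hx, hxc⟩ := h
  intro w hw
  have hx' : x w = z w ∨ (τ w = St.S ∧ z w = true) := hx w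
  have hc : x w = c w := hxc w hw
  unfold zc
  split_ifs with hK
  · exact ((Finset.mem_filter.1 hK).2.1).symm
  · rcases hx' with h1 | ⟨h1, h2⟩
    · rw [← h1, hc]
    · rw [h2]
      cases hcw : c w
      · exact absurd (Finset.mem_filter.2 ⟨hw, hcw, h1⟩) hK
      · rfl

theorem Sb_mem_al (τ : W → St) (Rs : Finset W) (c z : W → Bool) :
    zc τ Rs c z ∈ Al τ (Md.st, z) := by
  intro w
  show zc τ Rs c z w = z w ∨ (τ w = St.S ∧ z w = true)
  unfold zc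
  split_ifs with hK
  · cases hz : z w
    · exact Or.inl rfl
    · exact Or.inr ⟨(Finset.mem_filter.1 hK).2.2, rfl⟩
  · exact Or.inl rfl

theorem Sb_clr_eq {τ : W → St} {Rs : Finset W} {c z : W → Bool} (h : ¬ hr τ (zc τ Rs c z)) :
    clr τ z = zc τ Rs c z := by
  funext w
  by_cases hS : τ w = St.S
  · have h1 : clr τ z w = false := by
      unfold clr
      rw [if_pos hS]
    rw [h1]
    cases hz : zc τ Rs c z w
    · rfl
    · exact absurd ⟨w, hS, hz⟩ h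
  · have h1 : clr τ z w = z w := by
      unfold clr
      rw [if_neg hS]
    have h2 : zc τ Rs c z w = z w := by
      unfold zc
      rw [if_neg]
      intro hK
      exact hS (Finset.mem_filter.1 hK).2.2
    rw [h1, h2]

theorem Sb_clr_clr (τ : W → St) (z : W → Bool) : clr τ (clr τ z) = clr τ z := by
  funext w
  unfold clr
  split_ifs <;> rfl

theorem Sb_claim {τ : W → St} {Rs : Finset W} {c : W → Bool} {Γ : Set (Loc W)}
    (hΓ : ∀ r ∈ Γ, ∀ r', Al τ r' ⊆ Al τ r → r' ∈ Γ) {z : W → Bool} (hz : hr τ z)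
    (h1 : (Md.st, z) ∈ Γ) (h2 : (Al τ (Md.st, z) ∩ cyl Rs c).Nonempty) :
    (hr τ (zc τ Rs c z) ∧ (Md.fo, zc τ Rs c z) ∈ Γ ∧ zc τ Rs c z ∈ cyl Rs c) ∨
    (hr τ z ∧ ¬ hr τ (zc τ Rs c z) ∧ ((Md.ac, clr τ z) ∈ Γ ∧ clr τ z ∈ cyl Rs c)) := by
  have h3 := Sb_mem_cyl h2
  have h4 := Sb_mem_al τ Rs c z
  by_cases h5 : hr τ (zc τ Rs c z)
  · refine Or.inl ⟨h5, hΓ _ h1 _ ?_, h3⟩
    exact Set.singleton_subset_iff.2 h4
  · have h6 := Sb_clr_eq h5
    refine Or.inr ⟨hz, h5, hΓ _ h1 _ ?_, ?_⟩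
    · show ({clr τ (clr τ z)} : Set (W → Bool)) ⊆ _
      rw [Sb_clr_clr, h6]
      exact Set.singleton_subset_iff.2 h4
    · rw [h6]
      exact h3

theorem Sb_single {Rs : Finset W} {c y : W → Bool}
    (h : ¬ ({y} : Set (W → Bool)) ⊆ cyl Rs c) (h2 : (({y} : Set (W → Bool)) ∩ cyl Rs c).Nonempty) :
    False := by
  obtain ⟨x, hx, hxc⟩ := h2
  rw [Set.mem_singleton_iff] at hx
  rw [hx] at hxc
  exact h (Set.singleton_subset_iff.2 hxc)

theorem Sb_num {u q Z F G : ℝ} (hu0 : 0 < u) (hu : u ≤ 1 / 4) (hq0 : 0 ≤ q) (hq : q ≤ 2 * u ^ 2)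
    (hq1 : 3 / 4 ≤ 1 - u ^ 5 - q) (hZ1 : 127 / 128 ≤ 1 - Z) (hZ0 : 0 < Z) (hZ : Z ≤ 2 * u ^ 4)
    (hF : 0 ≤ F) (hG : 0 ≤ G) :
    2 * (q / (1 - Z) * ((4 / 3) * F + (1 / 3) * Z * G)) ≤
      4 * u * (u ^ 5 * G + (1 - u ^ 5 - q) / (1 - Z) * F) := by
  have hZp : 0 < 1 - Z := by linarith
  have e1 : 2 * (q / (1 - Z) * ((4 / 3) * F + (1 / 3) * Z * G)) =
      ((8 / 3) * q * F + (2 / 3) * (q * Z) * G) / (1 - Z) := by
    field_simp
    ring
  have e2 : 4 * u * (u ^ 5 * G + (1 - u ^ 5 - q) / (1 - Z) * F) =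
      (4 * u ^ 6 * (1 - Z) * G + 4 * u * (1 - u ^ 5 - q) * F) / (1 - Z) := by
    field_simp
  rw [e1, e2]
  apply div_le_div_of_nonneg_right _ hZp.le
  have h1 : (8 / 3) * q ≤ 4 * u * (1 - u ^ 5 - q) := by
    have h2 : 4 * u * (3 / 4) ≤ 4 * u * (1 - u ^ 5 - q) :=
      mul_le_mul_of_nonneg_left hq1 (by positivity)
    nlinarith
  have h3 : (2 / 3) * (q * Z) ≤ 4 * u ^ 6 * (1 - Z) := by
    have h4 : q * Z ≤ (2 * u ^ 2) * (2 * u ^ 4) := mul_le_mul hq hZ hZ0.le (by positivity)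
    have h5 : 4 * u ^ 6 * (127 / 128) ≤ 4 * u ^ 6 * (1 - Z) :=
      mul_le_mul_of_nonneg_left hZ1 (by positivity)
    have h6 : (2 * u ^ 2) * (2 * u ^ 4) = 4 * u ^ 6 := by ring
    rw [h6] at h4
    have h7 : 0 ≤ u ^ 6 := by positivity
    linarith
  have h8 := mul_le_mul_of_nonneg_right h1 hF
  have h9 := mul_le_mul_of_nonneg_right h3 hG
  linarith

theorem local_cond {t u : ℝ} {s : ℕ} (ht0 : 0 < t) (ht1 : t < 1) (hts : t * s ≤ 1 / 4)
    (hu0 : 0 < u) (hu : u ≤ 1 / 4) (τ : W → St) (Rs : Finset W) (hRs : Rs.card ≤ s)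
    (c : W → Bool) (Γ : Set (Loc W)) (hΓ : ∀ r ∈ Γ, ∀ r', Al τ r' ⊆ Al τ r → r' ∈ Γ) :
    2 * ∑ r, lw t u τ r * ind (r ∈ Γ ∧ ¬ Al τ r ⊆ cyl Rs c ∧ (Al τ r ∩ cyl Rs c).Nonempty) ≤
      (4 * u) * ∑ r, lw t u τ r * ind (r ∈ Γ ∧ Al τ r ⊆ cyl Rs c) := by
  have htl := ht1.le
  have hnn : ∀ z : W → Bool, 0 ≤ bz t z := fun z => bz_nonneg ht0.le htl z
  by_cases htyp : typ t u τ
  · have hk := not_killed_of_typ hu0 htyp
    obtain ⟨q0, q1, q2, q3, q4⟩ := typ_num hu0 hu htyp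
    have hZ2 : Zp t τ ≤ 2 * u ^ 4 := htyp.2
    have hZp : 0 < 1 - Zp t τ := by linarith
    have lac : ∀ z : W → Bool, lw t u τ (Md.ac, z) = u ^ 5 * bz t z := by
      intro z
      unfold lw
      rw [if_pos htyp]
    have lst : ∀ z : W → Bool, lw t u τ (Md.st, z) =
        qq t u τ * (bz t z * ind (hr τ z) / (1 - Zp t τ)) := by
      intro z
      unfold lw
      rw [if_pos htyp]
    have lfo : ∀ z : W → Bool, lw t u τ (Md.fo, z) =
        (1 - u ^ 5 - qq t u τ) * (bz t z * ind (hr τ z) / (1 - Zp t τ)) := by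
      intro z
      unfold lw
      rw [if_pos htyp]
    obtain ⟨F, hF⟩ : ∃ F, F = ∑ z, bz t z *
      ind (hr τ z ∧ (Md.fo, z) ∈ Γ ∧ z ∈ cyl Rs c) := ⟨_, rfl⟩
    obtain ⟨G, hG⟩ : ∃ G, G = ∑ z, bz t z *
      ind ((Md.ac, clr τ z) ∈ Γ ∧ clr τ z ∈ cyl Rs c) := ⟨_, rfl⟩
    have hF0 : 0 ≤ F := by
      rw [hF]
      exact Finset.sum_nonneg fun z _ => mul_nonneg (hnn z) (ind_nonneg _)
    have hG0 : 0 ≤ G := by
      rw [hG]
      exact Finset.sum_nonneg fun z _ => mul_nonneg (hnn z) (ind_nonneg _)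
    -- left side
    have hL : ∑ r, lw t u τ r *
        ind (r ∈ Γ ∧ ¬ Al τ r ⊆ cyl Rs c ∧ (Al τ r ∩ cyl Rs c).Nonempty) ≤
        qq t u τ / (1 - Zp t τ) * ((4 / 3) * F + (1 / 3) * Zp t τ * G) := by
      rw [sum_loc]
      have z1 : ∑ z : W → Bool, lw t u τ (Md.ac, z) * ind ((Md.ac, z) ∈ Γ ∧
          ¬ Al τ (Md.ac, z) ⊆ cyl Rs c ∧ (Al τ (Md.ac, z) ∩ cyl Rs c).Nonempty) = 0 := by
        refine Finset.sum_eq_zero fun z _ => ?_
        rw [ind_false, mul_zero]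
        rintro ⟨-, h1, h2⟩
        exact Sb_single (y := clr τ z) h1 h2
      have z3 : ∑ z : W → Bool, lw t u τ (Md.fo, z) * ind ((Md.fo, z) ∈ Γ ∧
          ¬ Al τ (Md.fo, z) ⊆ cyl Rs c ∧ (Al τ (Md.fo, z) ∩ cyl Rs c).Nonempty) = 0 := by
        refine Finset.sum_eq_zero fun z _ => ?_
        rw [ind_false, mul_zero]
        rintro ⟨-, h1, h2⟩
        exact Sb_single (y := z) h1 h2
      rw [z1, z3, zero_add, add_zero]
      have a1 := sum_zc (t := t) ht0.le ht1 hts τ Rs hRs c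
        (fun y => hr τ y ∧ (Md.fo, y) ∈ Γ ∧ y ∈ cyl Rs c)
      have a2 := sum_clr (t := t) ht0.le ht1 hts τ hk Rs hRs c
        (fun y => (Md.ac, y) ∈ Γ ∧ y ∈ cyl Rs c)
      beta_reduce at a1 a2
      rw [← hF] at a1
      rw [← hG] at a2
      have a3 : ∀ z : W → Bool, lw t u τ (Md.st, z) * ind ((Md.st, z) ∈ Γ ∧
          ¬ Al τ (Md.st, z) ⊆ cyl Rs c ∧ (Al τ (Md.st, z) ∩ cyl Rs c).Nonempty) ≤
          qq t u τ / (1 - Zp t τ) * (bz t z * ind (hr τ (zc τ Rs c z) ∧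
            (Md.fo, zc τ Rs c z) ∈ Γ ∧ zc τ Rs c z ∈ cyl Rs c) +
            bz t z * ind (hr τ z ∧ ¬ hr τ (zc τ Rs c z) ∧
              ((Md.ac, clr τ z) ∈ Γ ∧ clr τ z ∈ cyl Rs c))) := by
        intro z
        rw [lst]
        have b1 : ind (hr τ z) * ind ((Md.st, z) ∈ Γ ∧
            ¬ Al τ (Md.st, z) ⊆ cyl Rs c ∧ (Al τ (Md.st, z) ∩ cyl Rs c).Nonempty) ≤
            ind (hr τ (zc τ Rs c z) ∧ (Md.fo, zc τ Rs c z) ∈ Γ ∧ zc τ Rs c z ∈ cyl Rs c) +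
            ind (hr τ z ∧ ¬ hr τ (zc τ Rs c z) ∧
              ((Md.ac, clr τ z) ∈ Γ ∧ clr τ z ∈ cyl Rs c)) := by
          rw [← ind_and]
          by_cases hh : hr τ z ∧ (Md.st, z) ∈ Γ ∧
            ¬ Al τ (Md.st, z) ⊆ cyl Rs c ∧ (Al τ (Md.st, z) ∩ cyl Rs c).Nonempty
          · rw [ind_true hh]
            rcases Sb_claim hΓ hh.1 hh.2.1 hh.2.2.2 with h5 | h5
            · rw [ind_true h5]
              linarith [ind_nonneg (hr τ z ∧ ¬ hr τ (zc τ Rs c z) ∧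
                ((Md.ac, clr τ z) ∈ Γ ∧ clr τ z ∈ cyl Rs c))]
            · rw [ind_true h5]
              linarith [ind_nonneg (hr τ (zc τ Rs c z) ∧ (Md.fo, zc τ Rs c z) ∈ Γ ∧
                zc τ Rs c z ∈ cyl Rs c)]
          · rw [ind_false hh]
            exact add_nonneg (ind_nonneg _) (ind_nonneg _)
        have b2 : 0 ≤ qq t u τ / (1 - Zp t τ) * bz t z :=
          mul_nonneg (div_nonneg q0 hZp.le) (hnn z)
        have b3 := mul_le_mul_of_nonneg_left b1 b2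
        calc _ = qq t u τ / (1 - Zp t τ) * bz t z * (ind (hr τ z) * ind ((Md.st, z) ∈ Γ ∧
            ¬ Al τ (Md.st, z) ⊆ cyl Rs c ∧ (Al τ (Md.st, z) ∩ cyl Rs c).Nonempty)) := by ring
          _ ≤ _ := b3
          _ = _ := by ring
      refine (Finset.sum_le_sum fun z _ => a3 z).trans ?_
      rw [← Finset.mul_sum, Finset.sum_add_distrib]
      exact mul_le_mul_of_nonneg_left (add_le_add a1 a2) (div_nonneg q0 hZp.le)
    -- right side
    have hR : u ^ 5 * G + (1 - u ^ 5 - qq t u τ) / (1 - Zp t τ) * F ≤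
        ∑ r, lw t u τ r * ind (r ∈ Γ ∧ Al τ r ⊆ cyl Rs c) := by
      rw [sum_loc]
      have c1 : u ^ 5 * G = ∑ z : W → Bool, lw t u τ (Md.ac, z) *
          ind ((Md.ac, z) ∈ Γ ∧ Al τ (Md.ac, z) ⊆ cyl Rs c) := by
        rw [hG, Finset.mul_sum]
        refine Finset.sum_congr rfl fun z _ => ?_
        rw [lac, mul_assoc]
        congr 2
        apply ind_congr
        have e1 : Al τ (Md.ac, clr τ z) = Al τ (Md.ac, z) := by
          show ({clr τ (clr τ z)} : Set (W → Bool)) = {clr τ z}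
          rw [Sb_clr_clr]
        constructor
        · rintro ⟨h1, h2⟩
          exact ⟨hΓ _ h1 _ e1.symm.subset, Set.singleton_subset_iff.2 h2⟩
        · rintro ⟨h1, h2⟩
          exact ⟨hΓ _ h1 _ e1.subset, Set.singleton_subset_iff.1 h2⟩
      have c2 : 0 ≤ ∑ z : W → Bool, lw t u τ (Md.st, z) *
          ind ((Md.st, z) ∈ Γ ∧ Al τ (Md.st, z) ⊆ cyl Rs c) :=
        Finset.sum_nonneg fun z _ => mul_nonneg (lw_nonneg ht0.le htl hu0 hu τ _) (ind_nonneg _)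
      have c3 : (1 - u ^ 5 - qq t u τ) / (1 - Zp t τ) * F =
          ∑ z : W → Bool, lw t u τ (Md.fo, z) *
          ind ((Md.fo, z) ∈ Γ ∧ Al τ (Md.fo, z) ⊆ cyl Rs c) := by
        rw [hF, Finset.mul_sum]
        refine Finset.sum_congr rfl fun z _ => ?_
        rw [lfo]
        have e1 : ind ((Md.fo, z) ∈ Γ ∧ Al τ (Md.fo, z) ⊆ cyl Rs c) =
            ind ((Md.fo, z) ∈ Γ ∧ z ∈ cyl Rs c) := by
          apply ind_congr
          exact and_congr_right fun _ => Set.singleton_subset_iff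
        rw [e1, ind_and (hr τ z)]
        ring
      rw [c1, c3]
      linarith
    have hN := Sb_num (F := F) (G := G) hu0 hu q0 q1 q2 q3 q4 hZ2 hF0 hG0
    calc _ ≤ 2 * (qq t u τ / (1 - Zp t τ) * ((4 / 3) * F + (1 / 3) * Zp t τ * G)) :=
          mul_le_mul_of_nonneg_left hL (by norm_num)
      _ ≤ _ := hN
      _ ≤ _ := mul_le_mul_of_nonneg_left hR (by positivity)
  · have hL : ∑ r, lw t u τ r *
        ind (r ∈ Γ ∧ ¬ Al τ r ⊆ cyl Rs c ∧ (Al τ r ∩ cyl Rs c).Nonempty) = 0 := by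
      rw [sum_loc]
      have z1 : ∑ z : W → Bool, lw t u τ (Md.ac, z) * ind ((Md.ac, z) ∈ Γ ∧
          ¬ Al τ (Md.ac, z) ⊆ cyl Rs c ∧ (Al τ (Md.ac, z) ∩ cyl Rs c).Nonempty) = 0 := by
        refine Finset.sum_eq_zero fun z _ => ?_
        rw [ind_false, mul_zero]
        rintro ⟨-, h1, h2⟩
        exact Sb_single (y := clr τ z) h1 h2
      have z2 : ∑ z : W → Bool, lw t u τ (Md.st, z) * ind ((Md.st, z) ∈ Γ ∧
          ¬ Al τ (Md.st, z) ⊆ cyl Rs c ∧ (Al τ (Md.st, z) ∩ cyl Rs c).Nonempty) = 0 := by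
        refine Finset.sum_eq_zero fun z _ => ?_
        have : lw t u τ (Md.st, z) = 0 := by
          unfold lw
          rw [if_neg htyp]
        rw [this, zero_mul]
      have z3 : ∑ z : W → Bool, lw t u τ (Md.fo, z) * ind ((Md.fo, z) ∈ Γ ∧
          ¬ Al τ (Md.fo, z) ⊆ cyl Rs c ∧ (Al τ (Md.fo, z) ∩ cyl Rs c).Nonempty) = 0 := by
        refine Finset.sum_eq_zero fun z _ => ?_
        rw [ind_false, mul_zero]
        rintro ⟨-, h1, h2⟩
        exact Sb_single (y := z) h1 h2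
      rw [z1, z2, z3]
      norm_num
    rw [hL, mul_zero]
    refine mul_nonneg (by positivity) (Finset.sum_nonneg fun r _ => ?_)
    exact mul_nonneg (lw_nonneg ht0.le htl hu0 hu τ _) (ind_nonneg _)

end Pool.Agent.H71.RO
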